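import Pool.Agent.Helper656.BesLP

open MeasureTheory SchwartzMap
open scoped ENNReal NNReal FourierTransform SchwartzMap RealInnerProductSpace ContDiff

namespace Pool.Agent.Helper656.Cap

variable {n : ℕ}

theorem besovPair_integrable (u ψ : 𝓢(E n, ℂ)) : Integrable (fun y => u y * ψ y) := by
  obtain ⟨C, hC⟩ := (u.decay 0 0)
  refine ψ.integrable.bdd_mul (c := C) u.continuous.aestronglyMeasurable ?_
  refine Filter.Eventually.of_forall fun y => ?_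
  have := hC.2 y
  simpa using this

theorem besovPair_add (u v ψ : 𝓢(E n, ℂ)) :
    ∫ y, (u + v) y * ψ y = (∫ y, u y * ψ y) + ∫ y, v y * ψ y := by
  rw [← integral_add (besovPair_integrable u ψ) (besovPair_integrable v ψ)]
  refine integral_congr_ae (Filter.Eventually.of_forall fun y => ?_)
  simp only [add_apply]
  ring

theorem besovPair_smul (c : ℂ) (u ψ : 𝓢(E n, ℂ)) :
    ∫ y, (c • u) y * ψ y = c * (∫ y, u y * ψ y) := by
  rw [← integral_const_mul]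
  refine integral_congr_ae (Filter.Eventually.of_forall fun y => ?_)
  simp only [smul_apply, smul_eq_mul]
  ring

theorem lpPiece_add (j : ℕ) (u v : 𝓢(E n, ℂ)) (x : E n) :
    lpPiece j (u + v : 𝓢(E n, ℂ)) x = lpPiece j u x + lpPiece j v x := by
  cases j with
  | zero => rw [lpPiece_zero, lpPiece_zero, lpPiece_zero, besovPair_add]
  | succ j =>
    rw [lpPiece_succ, lpPiece_succ, lpPiece_succ, besovPair_add, besovPair_add]; ring

theorem lpPiece_smul (j : ℕ) (c : ℂ) (u : 𝓢(E n, ℂ)) (x : E n) :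
    lpPiece j (c • u : 𝓢(E n, ℂ)) x = c * lpPiece j u x := by
  cases j with
  | zero => rw [lpPiece_zero, lpPiece_zero, besovPair_smul]
  | succ j => rw [lpPiece_succ, lpPiece_succ, besovPair_smul, besovPair_smul]; ring

theorem lpPiece_sum (j : ℕ) {ι : Type} (s : Finset ι) (a : ι → ℝ) (f : ι → 𝓢(E n, ℂ)) (x : E n) :
    lpPiece j (∑ i ∈ s, ((a i : ℝ) : ℂ) • f i : 𝓢(E n, ℂ)) x =
      ∑ i ∈ s, ((a i : ℝ) : ℂ) * lpPiece j (f i) x := by
  classical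
  induction s using Finset.induction_on with
  | empty =>
    have := lpPiece_smul j 0 (0 : 𝓢(E n, ℂ)) x
    simp only [zero_smul, zero_mul] at this
    simpa using this
  | insert i s hi ih =>
    rw [Finset.sum_insert hi, Finset.sum_insert hi, lpPiece_add, lpPiece_smul, ih]

theorem enn_rpow_sum_le {ι : Type} (s : Finset ι) (f : ι → ℝ≥0∞) {p : ℝ} (hp : 0 < p)
    (hp1 : p ≤ 1) : (∑ i ∈ s, f i) ^ p ≤ ∑ i ∈ s, f i ^ p := by
  classical
  induction s using Finset.induction_on with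
  | empty => simp [ENNReal.zero_rpow_of_pos hp]
  | insert i s hi ih =>
    rw [Finset.sum_insert hi, Finset.sum_insert hi]
    exact (ENNReal.rpow_add_le_add_rpow _ _ hp.le hp1).trans (by gcongr)

/-- TARGET: subadditivity -/
theorem besovPow_sum_le (α p : ℝ) (hp : 0 < p) (hp1 : p ≤ 1) {ι : Type} (s : Finset ι)
    (a : ι → ℝ) (f : ι → 𝓢(E n, ℂ)) :
    besovPow α p (∑ i ∈ s, ((a i : ℝ) : ℂ) • f i : 𝓢(E n, ℂ)) ≤
      ∑ i ∈ s, ENNReal.ofReal (|a i| ^ p) * besovPow α p (f i) := by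
  have key : ∀ j : ℕ, ∫⁻ x, ‖lpPiece j (∑ i ∈ s, ((a i : ℝ) : ℂ) • f i : 𝓢(E n, ℂ)) x‖ₑ ^ p ≤
      ∑ i ∈ s, ENNReal.ofReal (|a i| ^ p) * ∫⁻ x, ‖lpPiece j (f i) x‖ₑ ^ p := by
    intro j
    have hmeas : ∀ i ∈ s, Measurable
        (fun x : E n => ENNReal.ofReal (|a i| ^ p) * ‖lpPiece j (f i) x‖ₑ ^ p) := by
      intro i _
      have := (continuous_lpPiece j (f i)).measurable
      exact (this.enorm.pow_const p).const_mul _
    calc ∫⁻ x, ‖lpPiece j (∑ i ∈ s, ((a i : ℝ) : ℂ) • f i : 𝓢(E n, ℂ)) x‖ₑ ^ p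
        ≤ ∫⁻ x, ∑ i ∈ s, ENNReal.ofReal (|a i| ^ p) * ‖lpPiece j (f i) x‖ₑ ^ p := by
          apply lintegral_mono
          intro x
          simp only
          rw [lpPiece_sum]
          calc ‖∑ i ∈ s, ((a i : ℝ) : ℂ) * lpPiece j (f i) x‖ₑ ^ p
              ≤ (∑ i ∈ s, ‖((a i : ℝ) : ℂ) * lpPiece j (f i) x‖ₑ) ^ p := by
                gcongr
                exact enorm_sum_le _ _
            _ ≤ ∑ i ∈ s, ‖((a i : ℝ) : ℂ) * lpPiece j (f i) x‖ₑ ^ p := enn_rpow_sum_le s _ hp hp1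
            _ = _ := by
                refine Finset.sum_congr rfl fun i _ => ?_
                rw [enorm_mul, ENNReal.mul_rpow_of_nonneg _ _ hp.le]
                congr 1
                rw [← ofReal_norm, Complex.norm_real, Real.norm_eq_abs,
                  ENNReal.ofReal_rpow_of_nonneg (abs_nonneg _) hp.le]
      _ = ∑ i ∈ s, ∫⁻ x, ENNReal.ofReal (|a i| ^ p) * ‖lpPiece j (f i) x‖ₑ ^ p :=
          lintegral_finsetSum s hmeas
      _ = _ := by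
          refine Finset.sum_congr rfl fun i _ => ?_
          rw [lintegral_const_mul']
          exact ENNReal.ofReal_ne_top
  unfold besovPow
  calc ∑' j : ℕ, ENNReal.ofReal ((2 : ℝ) ^ (j * α * p)) *
        ∫⁻ x, ‖lpPiece j (∑ i ∈ s, ((a i : ℝ) : ℂ) • f i : 𝓢(E n, ℂ)) x‖ₑ ^ p
      ≤ ∑' j : ℕ, ∑ i ∈ s, ENNReal.ofReal (|a i| ^ p) * (ENNReal.ofReal ((2 : ℝ) ^ (j * α * p)) *
        ∫⁻ x, ‖lpPiece j (f i) x‖ₑ ^ p) := by
        apply ENNReal.tsum_le_tsum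
        intro j
        calc _ ≤ ENNReal.ofReal ((2 : ℝ) ^ (j * α * p)) *
            ∑ i ∈ s, ENNReal.ofReal (|a i| ^ p) * ∫⁻ x, ‖lpPiece j (f i) x‖ₑ ^ p := by
              gcongr
              exact key j
          _ = _ := by
              rw [Finset.mul_sum]
              refine Finset.sum_congr rfl fun i _ => ?_
              ring
    _ = ∑ i ∈ s, ∑' j : ℕ, ENNReal.ofReal (|a i| ^ p) *
          (ENNReal.ofReal ((2 : ℝ) ^ (j * α * p)) * ∫⁻ x, ‖lpPiece j (f i) x‖ₑ ^ p) :=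
        Summable.tsum_finsetSum fun i _ => ENNReal.summable
    _ = _ := by
        refine Finset.sum_congr rfl fun i _ => ?_
        rw [ENNReal.tsum_mul_left]


theorem besov_block_pair (c : E n) {ℓ : ℝ} (hℓ : 0 < ℓ) (w ψ : 𝓢(E n, ℂ)) :
    ∫ y, (((ℓ ^ n : ℝ) : ℂ) • dil c ℓ hℓ w) y * ψ y = ∫ y, w y * pull c ℓ hℓ ψ y := by
  rw [integral_mul_pull c hℓ ψ w]
  refine integral_congr_ae (Filter.Eventually.of_forall fun y => ?_)
  simp only [smul_apply, smul_eq_mul, dil_apply]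
  rw [← mul_assoc, ← Complex.ofReal_mul, inv_pow, mul_inv_cancel₀ (by positivity),
    Complex.ofReal_one, one_mul]

theorem besov_block_pair_le (w : 𝓢(E n, ℂ)) (L N : ℕ) (C : ℝ)
    (hw : ∀ (x : E n) (t : ℝ), 0 < t → ∀ ψ : 𝓢(E n, ℂ), Adapted N x t ψ →
      ‖∫ y, w y * ψ y‖ ≤ C / (1 + ‖x‖) ^ L) {D : ℝ} (hD : 0 < D)
    (c : E n) {ℓ : ℝ} (hℓ : 0 < ℓ) (x : E n) {t : ℝ} (ht : 0 < t) (ψ : 𝓢(E n, ℂ))
    (hψ : AdaptedC N x t D ψ) :
    ‖∫ y, (((ℓ ^ n : ℝ) : ℂ) • dil c ℓ hℓ w) y * ψ y‖ ≤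
      D * C / (1 + ‖ℓ⁻¹ • (x - c)‖) ^ L := by
  rw [besov_block_pair]
  have h1 : AdaptedC N (ℓ⁻¹ • (x - c)) (t / ℓ) D (pull c ℓ hℓ ψ) := hψ.pull c hℓ
  have h2 := h1.smul ((D⁻¹ : ℝ) : ℂ)
  rw [Complex.norm_real, Real.norm_of_nonneg (inv_nonneg.2 hD.le), inv_mul_cancel₀ hD.ne'] at h2
  have h3 := hw _ _ (by positivity) _ h2
  have h4 : ∫ y, w y * (((D⁻¹ : ℝ) : ℂ) • pull c ℓ hℓ ψ) y =
      ((D⁻¹ : ℝ) : ℂ) * ∫ y, w y * pull c ℓ hℓ ψ y := by
    rw [← integral_const_mul]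
    refine integral_congr_ae (Filter.Eventually.of_forall fun y => ?_)
    simp only [smul_apply, smul_eq_mul]
    ring
  rw [h4, norm_mul, Complex.norm_real, Real.norm_of_nonneg (inv_nonneg.2 hD.le)] at h3
  rw [inv_mul_le_iff₀ hD] at h3
  rw [mul_div_assoc]
  exact h3

theorem besov_block_piece_le (w : 𝓢(E n, ℂ)) (L N : ℕ) (C : ℝ) (hC : 0 < C)
    (hw : ∀ (x : E n) (t : ℝ), 0 < t → ∀ ψ : 𝓢(E n, ℂ), Adapted N x t ψ →
      ‖∫ y, w y * ψ y‖ ≤ C / (1 + ‖x‖) ^ L) :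
    ∃ D : ℝ, 0 < D ∧ ∀ (c : E n) (ℓ : ℝ) (hℓ : 0 < ℓ) (j : ℕ) (x : E n),
      ‖lpPiece j (((ℓ ^ n : ℝ) : ℂ) • dil c ℓ hℓ w : 𝓢(E n, ℂ)) x‖ ≤
        D / (1 + ‖ℓ⁻¹ • (x - c)‖) ^ L := by
  obtain ⟨D, hD, hγ⟩ := exists_adaptedC N (𝓕 (bmp : 𝓢(E n, ℂ)))
  refine ⟨2 * (D * C), by positivity, ?_⟩
  intro c ℓ hℓ j x
  have hle : 0 ≤ D * C / (1 + ‖ℓ⁻¹ • (x - c)‖) ^ L := by positivity
  have h2 : 2 * (D * C) / (1 + ‖ℓ⁻¹ • (x - c)‖) ^ L =
      D * C / (1 + ‖ℓ⁻¹ • (x - c)‖) ^ L + D * C / (1 + ‖ℓ⁻¹ • (x - c)‖) ^ L := by ring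
  rw [h2]
  cases j with
  | zero =>
    rw [lpPiece_zero]
    have := besov_block_pair_le w L N C hw hD c hℓ x one_pos _ (hγ.dil x one_pos)
    linarith
  | succ j =>
    rw [lpPiece_succ]
    refine (norm_sub_le _ _).trans ?_
    exact add_le_add (besov_block_pair_le w L N C hw hD c hℓ x (by positivity) _ (hγ.dil x _))
      (besov_block_pair_le w L N C hw hD c hℓ x (by positivity) _ (hγ.dil x _))

theorem besov_block_piece_eq_zero (w : 𝓢(E n, ℂ)) (R : ℝ)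
    (hR : ∀ ξ, R ≤ ‖ξ‖ → 𝓕 w ξ = 0) (c : E n) {ℓ : ℝ} (hℓ : 0 < ℓ) (j : ℕ)
    (hj : R ≤ 2 ^ j * ℓ) (x : E n) :
    lpPiece (j + 1) (((ℓ ^ n : ℝ) : ℂ) • dil c ℓ hℓ w : 𝓢(E n, ℂ)) x = 0 := by
  rw [lpPiece_smul]
  have h0 : (fun ξ : E n => ((lpSymbol (j + 1) ξ : ℝ) : ℂ) *
      𝓕 (dil c ℓ hℓ w : E n → ℂ) ξ) = fun _ => 0 := by
    funext ξ
    rcases le_or_gt ‖ξ‖ (2 ^ j) with h | h
    · have h1 : lpSymbol (j + 1) ξ = 0 := by
        change beta (‖ξ‖ / 2 ^ (j + 1)) - beta (‖ξ‖ / 2 ^ j) = 0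
        rw [beta_eq_one, beta_eq_one, sub_self]
        · rw [abs_of_nonneg (by positivity), div_le_one (by positivity)]; exact h
        · rw [abs_of_nonneg (by positivity), div_le_one (by positivity)]
          refine h.trans ?_
          gcongr
          · norm_num
          · omega
      rw [h1]; simp
    · have h1 : 𝓕 (dil c ℓ hℓ w : E n → ℂ) ξ = 0 := by
        have := fourier_dil c hℓ w ξ
        rw [fourier_coe] at this
        rw [this]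
        rw [hR, mul_zero]
        rw [norm_smul, Real.norm_of_nonneg hℓ.le]
        refine hj.trans ?_
        rw [mul_comm]
        gcongr
      rw [h1, mul_zero]
  have : lpPiece (j + 1) (dil c ℓ hℓ w : E n → ℂ) x = 0 := by
    unfold lpPiece
    rw [h0]
    rw [Real.fourierInv_eq']
    simp
  rw [this, mul_zero]

theorem lintegral_affine (f : E n → ℝ≥0∞) (hf : Measurable f) (c : E n) {ℓ : ℝ} (hℓ : 0 < ℓ) :
    ∫⁻ x, f (ℓ⁻¹ • (x - c)) = ENNReal.ofReal (ℓ ^ n) * ∫⁻ x, f x := by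
  have h1 : ∫⁻ x, f (ℓ⁻¹ • (x - c)) = ∫⁻ x, f (ℓ⁻¹ • x) :=
    lintegral_sub_right_eq_self (fun x => f (ℓ⁻¹ • x)) c
  rw [h1]
  have h2 : ∫⁻ x, f (ℓ⁻¹ • x) = ∫⁻ y, f y ∂(Measure.map (ℓ⁻¹ • · : E n → E n) volume) := by
    rw [lintegral_map hf (by fun_prop)]
  rw [h2, Measure.map_addHaar_smul _ (by positivity), lintegral_smul_measure,
    finrank_euclideanSpace_fin]
  congr 1
  rw [abs_of_nonneg (by positivity), inv_pow, inv_inv]

/-- TARGET: the Besov quasi-norm of the block `w((y - c)/ℓ) = ℓ^n dil c ℓ w` -/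
theorem besov_block (α p : ℝ) (hα : 0 < α) (hp : 0 < p) (hp1 : p ≤ 1) (w : 𝓢(E n, ℂ)) (R : ℝ)
    (hR : ∀ ξ, R ≤ ‖ξ‖ → 𝓕 w ξ = 0) (L N : ℕ) (hL : (n : ℝ) < L * p) (C : ℝ) (hC : 0 < C)
    (hw : ∀ (x : E n) (t : ℝ), 0 < t → ∀ ψ : 𝓢(E n, ℂ), Adapted N x t ψ →
      ‖∫ y, w y * ψ y‖ ≤ C / (1 + ‖x‖) ^ L) :
    ∃ C' : ℝ≥0, ∀ (c : E n) (ℓ : ℝ) (hℓ : 0 < ℓ), ℓ ≤ 1 →
      besovPow α p (((ℓ ^ n : ℝ) : ℂ) • dil c ℓ hℓ w : 𝓢(E n, ℂ)) ≤
        C' * ENNReal.ofReal (ℓ ^ ((n : ℝ) - α * p)) := by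
  obtain ⟨D, hD, hpiece⟩ := besov_block_piece_le w L N C hC hw
  set I : ℝ≥0∞ := ∫⁻ x : E n, ENNReal.ofReal ((1 + ‖x‖) ^ (-(L * p))) with hI
  have hIfin : I < ⊤ := finite_integral_one_add_norm (by rwa [finrank_euclideanSpace_fin])
  have hmeasI : Measurable fun x : E n => ENNReal.ofReal ((1 + ‖x‖) ^ (-(L * p))) := by fun_prop
  -- the bound for one piece
  have hone : ∀ (c : E n) (ℓ : ℝ) (hℓ : 0 < ℓ) (j : ℕ),
      ∫⁻ x, ‖lpPiece j (((ℓ ^ n : ℝ) : ℂ) • dil c ℓ hℓ w : 𝓢(E n, ℂ)) x‖ₑ ^ p ≤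
        ENNReal.ofReal (D ^ p) * (ENNReal.ofReal (ℓ ^ n) * I) := by
    intro c ℓ hℓ j
    rw [hI, ← lintegral_affine _ hmeasI c hℓ, ← lintegral_const_mul' _ _ ENNReal.ofReal_ne_top]
    apply lintegral_mono
    intro x
    simp only
    rw [← ENNReal.ofReal_mul (by positivity), ← ofReal_norm,
      ENNReal.ofReal_rpow_of_nonneg (norm_nonneg _) hp.le]
    apply ENNReal.ofReal_le_ofReal
    calc ‖lpPiece j (((ℓ ^ n : ℝ) : ℂ) • dil c ℓ hℓ w : 𝓢(E n, ℂ)) x‖ ^ p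
        ≤ (D / (1 + ‖ℓ⁻¹ • (x - c)‖) ^ L) ^ p := by
          gcongr
          exact hpiece c ℓ hℓ j x
      _ = _ := by
          rw [Real.div_rpow hD.le (by positivity), ← Real.rpow_natCast, ← Real.rpow_mul
            (by positivity), Real.rpow_neg (by positivity), div_eq_mul_inv]
  set R' : ℝ := max R 1 with hR'
  have hR'1 : 1 ≤ R' := le_max_right _ _
  have hR'R : R ≤ R' := le_max_left _ _
  set q : ℝ := (2 : ℝ) ^ (α * p) with hq
  have hαp : 0 < α * p := by positivity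
  have hq1 : 1 < q := Real.one_lt_rpow (by norm_num) hαp
  set K : ℝ := q * (2 * R') ^ (α * p) / (q - 1) * D ^ p with hK
  have hq0 : 0 < q - 1 := by linarith
  have hK0 : 0 ≤ K := by positivity
  refine ⟨(ENNReal.ofReal K * I).toNNReal, ?_⟩
  intro c ℓ hℓ hℓ1
  rw [ENNReal.coe_toNNReal (ENNReal.mul_ne_top ENNReal.ofReal_ne_top hIfin.ne)]
  set S : ℝ := R' / ℓ with hS
  have hS1 : 1 ≤ S := by
    rw [hS, le_div_iff₀ hℓ]; linarith
  obtain ⟨J, hJ1, hJ2⟩ : ∃ J : ℕ, S ≤ 2 ^ J ∧ (2 : ℝ) ^ J ≤ 2 * S := by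
    have hex : ∃ J : ℕ, S ≤ 2 ^ J := by
      obtain ⟨J, hJ⟩ := pow_unbounded_of_one_lt S (by norm_num : (1 : ℝ) < 2)
      exact ⟨J, hJ.le⟩
    classical
    refine ⟨Nat.find hex, Nat.find_spec hex, ?_⟩
    rcases Nat.eq_zero_or_pos (Nat.find hex) with h | h
    · rw [h]; simp only [pow_zero]; linarith
    · have h1 := Nat.find_min hex (m := Nat.find hex - 1) (by omega)
      rw [not_le] at h1
      have h2 : (2 : ℝ) ^ (Nat.find hex) = 2 * 2 ^ (Nat.find hex - 1) := by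
        rw [← pow_succ']; congr 1; omega
      rw [h2]
      linarith
  have hzero : ∀ j ∉ Finset.range (J + 1), ENNReal.ofReal ((2 : ℝ) ^ (j * α * p)) *
      ∫⁻ x, ‖lpPiece j (((ℓ ^ n : ℝ) : ℂ) • dil c ℓ hℓ w : 𝓢(E n, ℂ)) x‖ₑ ^ p = 0 := by
    intro j hj
    rw [Finset.mem_range, not_lt] at hj
    obtain ⟨k, rfl⟩ : ∃ k, j = k + 1 := ⟨j - 1, by omega⟩
    have hk : R ≤ 2 ^ k * ℓ := by
      have h1 : S ≤ 2 ^ k :=
        hJ1.trans (pow_le_pow_right₀ (by norm_num) (by omega))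
      rw [hS, div_le_iff₀ hℓ] at h1
      exact hR'R.trans h1
    have h2 : ∀ x, ‖lpPiece (k + 1) (((ℓ ^ n : ℝ) : ℂ) • dil c ℓ hℓ w : 𝓢(E n, ℂ)) x‖ₑ ^ p = 0 := by
      intro x
      rw [besov_block_piece_eq_zero w R hR c hℓ k hk x, enorm_zero, ENNReal.zero_rpow_of_pos hp]
    simp only [h2, lintegral_zero, mul_zero]
  unfold besovPow
  rw [tsum_eq_sum hzero]
  have hqj : ∀ j : ℕ, (2 : ℝ) ^ ((j : ℝ) * α * p) = q ^ j := by
    intro j
    rw [hq, ← Real.rpow_natCast, ← Real.rpow_mul (by norm_num)]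
    congr 1; ring
  have hgeom : ∑ j ∈ Finset.range (J + 1), q ^ j ≤ q * (2 * S) ^ (α * p) / (q - 1) := by
    rw [geom_sum_eq hq1.ne']
    gcongr
    calc q ^ (J + 1) - 1 ≤ q ^ (J + 1) := by linarith
      _ = q * q ^ J := by rw [pow_succ']
      _ ≤ q * (2 * S) ^ (α * p) := by
          gcongr
          have : q ^ J = ((2 : ℝ) ^ J) ^ (α * p) := by
            rw [hq, ← Real.rpow_natCast, ← Real.rpow_mul (by norm_num), ← Real.rpow_natCast 2 J,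
              ← Real.rpow_mul (by norm_num)]
            congr 1; ring
          rw [this]
          gcongr
  calc ∑ j ∈ Finset.range (J + 1), ENNReal.ofReal ((2 : ℝ) ^ (j * α * p)) *
        ∫⁻ x, ‖lpPiece j (((ℓ ^ n : ℝ) : ℂ) • dil c ℓ hℓ w : 𝓢(E n, ℂ)) x‖ₑ ^ p
      ≤ ∑ j ∈ Finset.range (J + 1), ENNReal.ofReal (q ^ j) *
        (ENNReal.ofReal (D ^ p) * (ENNReal.ofReal (ℓ ^ n) * I)) := by
        apply Finset.sum_le_sum
        intro j _
        rw [hqj]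
        gcongr
        exact hone c ℓ hℓ j
    _ = ENNReal.ofReal (∑ j ∈ Finset.range (J + 1), q ^ j) *
        (ENNReal.ofReal (D ^ p) * (ENNReal.ofReal (ℓ ^ n) * I)) := by
        rw [← Finset.sum_mul, ENNReal.ofReal_sum_of_nonneg (fun j _ => by positivity)]
    _ ≤ ENNReal.ofReal (q * (2 * S) ^ (α * p) / (q - 1)) *
        (ENNReal.ofReal (D ^ p) * (ENNReal.ofReal (ℓ ^ n) * I)) := by
        gcongr
    _ = ENNReal.ofReal K * I * ENNReal.ofReal (ℓ ^ ((n : ℝ) - α * p)) := by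
        rw [← mul_assoc, ← mul_assoc, ← ENNReal.ofReal_mul (by positivity),
          ← ENNReal.ofReal_mul (by positivity), mul_right_comm (ENNReal.ofReal K) I,
          ← ENNReal.ofReal_mul hK0]
        congr 2
        rw [hK, hS, Real.rpow_sub hℓ, Real.rpow_natCast, Real.mul_rpow (by norm_num) (by positivity),
          Real.mul_rpow (by norm_num) (by positivity), Real.div_rpow (by positivity) hℓ.le]
        field_simp

end Pool.Agent.Helper656.Cap
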