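import Pool.Agent.Helper656.BesLP

open MeasureTheory SchwartzMap
open scoped ENNReal NNReal FourierTransform SchwartzMap RealInnerProductSpace ContDiff

namespace Pool.Agent.Helper656.Cap.Trunc

variable {n : ℕ}

/-- the sum of the Schwartz seminorms up to order `N` -/
noncomputable def Q (N : ℕ) (f : 𝓢(E n, ℂ)) : ℝ :=
  ∑ k ∈ Finset.range (N + 1), ∑ l ∈ Finset.range (N + 1), SchwartzMap.seminorm ℝ k l f

theorem seminorm_le_Q {N k l : ℕ} (hk : k ≤ N) (hl : l ≤ N) (f : 𝓢(E n, ℂ)) :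
    SchwartzMap.seminorm ℝ k l f ≤ Q N f := by
  unfold Q
  calc SchwartzMap.seminorm ℝ k l f
      ≤ ∑ l ∈ Finset.range (N + 1), SchwartzMap.seminorm ℝ k l f :=
      Finset.single_le_sum (f := fun l => SchwartzMap.seminorm ℝ k l f)
        (fun _ _ => by positivity) (Finset.mem_range.2 (by omega))
    _ ≤ _ := Finset.single_le_sum
        (f := fun k => ∑ l ∈ Finset.range (N + 1), SchwartzMap.seminorm ℝ k l f)
        (fun _ _ => by positivity) (Finset.mem_range.2 (by omega))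

theorem Q_nonneg (N : ℕ) (f : 𝓢(E n, ℂ)) : 0 ≤ Q N f := by
  unfold Q; positivity

theorem Q_mono {N N' : ℕ} (h : N ≤ N') (f : 𝓢(E n, ℂ)) : Q N f ≤ Q N' f := by
  unfold Q
  calc _ ≤ ∑ k ∈ Finset.range (N + 1), ∑ l ∈ Finset.range (N' + 1), SchwartzMap.seminorm ℝ k l f := by
        refine Finset.sum_le_sum fun k _ => ?_
        exact Finset.sum_le_sum_of_subset_of_nonneg (Finset.range_mono (by omega))
          (fun _ _ _ => by positivity)
    _ ≤ _ := Finset.sum_le_sum_of_subset_of_nonneg (Finset.range_mono (by omega))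
          (fun _ _ _ => by positivity)

theorem Q_le_of_le {N : ℕ} {f : 𝓢(E n, ℂ)} {B : ℝ}
    (h : ∀ k ≤ N, ∀ l ≤ N, SchwartzMap.seminorm ℝ k l f ≤ B) : Q N f ≤ (N + 1) ^ 2 * B := by
  unfold Q
  calc _ ≤ ∑ k ∈ Finset.range (N + 1), ∑ l ∈ Finset.range (N + 1), B := by
        refine Finset.sum_le_sum fun k hk => Finset.sum_le_sum fun l hl => ?_
        rw [Finset.mem_range] at hk hl
        exact h k (by omega) l (by omega)
    _ = _ := by simp; ring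

/-- continuous operators on the Schwartz space are bounded -/
theorem exists_bound (A : 𝓢(E n, ℂ) →L[ℝ] 𝓢(E n, ℂ)) (N : ℕ) :
    ∃ (N' : ℕ) (C : ℝ), 0 ≤ C ∧ ∀ f, Q N (A f) ≤ C * Q N' f := by
  have h1 : ∀ k l : ℕ, ∃ (N' : ℕ) (C : ℝ), 0 ≤ C ∧
      ∀ f, SchwartzMap.seminorm ℝ k l (A f) ≤ C * Q N' f := by
    intro k l
    let q : Seminorm ℝ 𝓢(E n, ℂ) := (SchwartzMap.seminorm ℝ k l).comp A.toLinearMap
    have hq : Continuous q :=
      ((schwartz_withSeminorms ℝ (E n) ℂ).continuous_seminorm (k, l)).comp A.continuous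
    obtain ⟨s, C, hC, hle⟩ :=
      Seminorm.bound_of_continuous (schwartz_withSeminorms ℝ (E n) ℂ) q hq
    refine ⟨s.sup (fun i => max i.1 i.2), C, C.2, fun f => ?_⟩
    have h2 : SchwartzMap.seminorm ℝ k l (A f) ≤
        C * (s.sup (schwartzSeminormFamily ℝ (E n) ℂ)) f := hle f
    refine h2.trans (mul_le_mul_of_nonneg_left ?_ C.2)
    refine Seminorm.finset_sup_apply_le (Q_nonneg _ _) fun i hi => ?_
    have h3 : max i.1 i.2 ≤ s.sup (fun i => max i.1 i.2) :=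
      Finset.le_sup (f := fun i : ℕ × ℕ => max i.1 i.2) hi
    exact seminorm_le_Q ((le_max_left _ _).trans h3) ((le_max_right _ _).trans h3) f
  choose N' C hC hb using h1
  refine ⟨(Finset.range (N + 1) ×ˢ Finset.range (N + 1)).sup (fun i => N' i.1 i.2),
    (N + 1) ^ 2 * ∑ i ∈ Finset.range (N + 1) ×ˢ Finset.range (N + 1), C i.1 i.2,
    mul_nonneg (by positivity) (Finset.sum_nonneg fun i _ => hC _ _), fun f => ?_⟩
  rw [mul_assoc]
  refine Q_le_of_le fun k hk l hl => (hb k l f).trans ?_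
  have hmem : (k, l) ∈ Finset.range (N + 1) ×ˢ Finset.range (N + 1) := by
    simp only [Finset.mem_product, Finset.mem_range]; omega
  have h3 : N' k l ≤ (Finset.range (N + 1) ×ˢ Finset.range (N + 1)).sup (fun i => N' i.1 i.2) :=
    Finset.le_sup (f := fun i : ℕ × ℕ => N' i.1 i.2) hmem
  exact mul_le_mul (Finset.single_le_sum (f := fun i : ℕ × ℕ => C i.1 i.2) (fun i _ => hC _ _) hmem)
    (Q_mono h3 f) (Q_nonneg _ _) (Finset.sum_nonneg fun i _ => hC _ _)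

/-- multiplication by a smooth function -/
theorem Q_mul_le {g : E n → ℂ} {f h : 𝓢(E n, ℂ)} (hg : ContDiff ℝ ∞ g)
    (hh : ∀ x, h x = g x * f x) (N M : ℕ) {B ρ : ℝ} (hρ : 0 < ρ)
    (hB : ∀ i ≤ N, ∀ x, ‖iteratedFDeriv ℝ i g x‖ ≤ B)
    (hz : M = 0 ∨ ∀ x, ‖x‖ < ρ → g x = 0) :
    Q N h ≤ (N + 1) ^ 2 * ((ρ ^ M)⁻¹ * (B * 2 ^ N * Q (N + M) f)) := by
  have hB0 : 0 ≤ B := (norm_nonneg _).trans (hB 0 (Nat.zero_le _) 0)
  refine Q_le_of_le fun k hk l hl => ?_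
  refine SchwartzMap.seminorm_le_bound ℝ k l h (by have := Q_nonneg (N + M) f; positivity) fun x => ?_
  have hfun : (h : E n → ℂ) = fun x => g x * f x := funext hh
  by_cases hx : M ≠ 0 ∧ ‖x‖ < ρ
  · have hz' : ∀ x, ‖x‖ < ρ → g x = 0 := by
      rcases hz with hz | hz
      · exact absurd hz hx.1
      · exact hz
    have h1 : (h : E n → ℂ) =ᶠ[nhds x] fun _ => 0 := by
      have : ∀ᶠ y in nhds x, ‖y‖ < ρ := continuous_norm.continuousAt.eventually_lt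
        continuousAt_const hx.2
      filter_upwards [this] with y hy
      rw [hh, hz' y hy, zero_mul]
    have h2 := h1.iteratedFDeriv ℝ l
    rw [h2.eq_of_nhds]
    have h3 : iteratedFDeriv ℝ l (fun _ : E n => (0 : ℂ)) x = 0 := by
      have := iteratedFDeriv_fun_zero (𝕜 := ℝ) (E := E n) (F := ℂ) (n := l)
      exact congrFun this x
    rw [h3, norm_zero, mul_zero]
    have := Q_nonneg (N + M) f
    positivity
  · have hpow : ‖x‖ ^ k ≤ (ρ ^ M)⁻¹ * ‖x‖ ^ (k + M) := by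
      by_cases hM : M = 0
      · subst hM; simp
      · have hx' : ρ ≤ ‖x‖ := by
          by_contra hc
          exact hx ⟨hM, not_le.mp hc⟩
        have h4 : 1 ≤ (ρ ^ M)⁻¹ * ‖x‖ ^ M := by
          rw [← inv_pow, ← mul_pow]
          apply one_le_pow₀
          rw [inv_mul_eq_div, one_le_div hρ]
          exact hx'
        calc ‖x‖ ^ k = 1 * ‖x‖ ^ k := (one_mul _).symm
          _ ≤ ((ρ ^ M)⁻¹ * ‖x‖ ^ M) * ‖x‖ ^ k := by gcongr
          _ = _ := by rw [pow_add]; ring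
    have hle : ‖iteratedFDeriv ℝ l h x‖ ≤ ∑ i ∈ Finset.range (l + 1),
        (l.choose i : ℝ) * ‖iteratedFDeriv ℝ i g x‖ * ‖iteratedFDeriv ℝ (l - i) f x‖ := by
      rw [hfun]
      exact norm_iteratedFDeriv_mul_le (N := (l : ℕ∞)) (hg.of_le (by exact_mod_cast le_top)) (f.smooth l) x
        (by exact_mod_cast le_rfl)
    calc ‖x‖ ^ k * ‖iteratedFDeriv ℝ l h x‖
        ≤ ((ρ ^ M)⁻¹ * ‖x‖ ^ (k + M)) * ∑ i ∈ Finset.range (l + 1),
          (l.choose i : ℝ) * ‖iteratedFDeriv ℝ i g x‖ * ‖iteratedFDeriv ℝ (l - i) f x‖ := by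
          gcongr
      _ = (ρ ^ M)⁻¹ * ∑ i ∈ Finset.range (l + 1), (l.choose i : ℝ) *
          (‖iteratedFDeriv ℝ i g x‖ * (‖x‖ ^ (k + M) * ‖iteratedFDeriv ℝ (l - i) f x‖)) := by
          rw [mul_assoc, Finset.mul_sum]
          congr 1
          exact Finset.sum_congr rfl fun i _ => by ring
      _ ≤ (ρ ^ M)⁻¹ * ∑ i ∈ Finset.range (l + 1), (l.choose i : ℝ) * (B * Q (N + M) f) := by
          gcongr with i hi
          · exact hB i (by rw [Finset.mem_range] at hi; omega) x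
          · exact (SchwartzMap.le_seminorm ℝ (k + M) (l - i) f x).trans
              (seminorm_le_Q (by omega) (by omega) f)
      _ = (ρ ^ M)⁻¹ * (2 ^ l * (B * Q (N + M) f)) := by
          rw [← Finset.sum_mul]
          congr 2
          have := Nat.sum_range_choose l
          exact_mod_cast this
      _ ≤ (ρ ^ M)⁻¹ * (2 ^ N * (B * Q (N + M) f)) := by
          have := Q_nonneg (N + M) f
          gcongr
          exact one_le_two
      _ = _ := by ring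

/-- the decay coming from the seminorms -/
theorem weight_le (f : 𝓢(E n, ℂ)) (L : ℕ) (x : E n) :
    (1 + ‖x‖) ^ L * ‖f x‖ ≤ 2 ^ (L + 1) * Q L f := by
  have h1 : (1 + ‖x‖) ^ L ≤ 2 ^ L * (1 + ‖x‖ ^ L) := by
    rcases le_total ‖x‖ 1 with h | h
    · calc (1 + ‖x‖) ^ L ≤ 2 ^ L := by gcongr; linarith
        _ ≤ 2 ^ L * (1 + ‖x‖ ^ L) := by
          have : (0:ℝ) ≤ ‖x‖ ^ L := by positivity
          have h2 : (0:ℝ) < 2 ^ L := by positivity
          nlinarith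
    · calc (1 + ‖x‖) ^ L ≤ (2 * ‖x‖) ^ L := by gcongr; linarith
        _ = 2 ^ L * ‖x‖ ^ L := mul_pow _ _ _
        _ ≤ 2 ^ L * (1 + ‖x‖ ^ L) := by gcongr; linarith
  have h2 : ‖f x‖ ≤ Q L f := (SchwartzMap.norm_le_seminorm ℝ f x).trans
    (seminorm_le_Q (Nat.zero_le _) (Nat.zero_le _) f)
  have h3 : ‖x‖ ^ L * ‖f x‖ ≤ Q L f := (SchwartzMap.norm_pow_mul_le_seminorm ℝ f L x).trans
    (seminorm_le_Q le_rfl (Nat.zero_le _) f)
  calc (1 + ‖x‖) ^ L * ‖f x‖ ≤ (2 ^ L * (1 + ‖x‖ ^ L)) * ‖f x‖ := by gcongr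
    _ = 2 ^ L * (‖f x‖ + ‖x‖ ^ L * ‖f x‖) := by ring
    _ ≤ 2 ^ L * (Q L f + Q L f) := by gcongr
    _ = _ := by ring

/-- derivatives of dilates of a Schwartz function -/
theorem norm_iteratedFDeriv_comp_smul_le (φ : 𝓢(E n, ℂ)) {c : ℝ} (hc : 0 ≤ c) (hc1 : c ≤ 1)
    {N i : ℕ} (hi : i ≤ N) (x : E n) :
    ‖iteratedFDeriv ℝ i (fun y => φ (c • y)) x‖ ≤ Q N φ := by
  have h2 : iteratedFDeriv ℝ i (fun y => φ (c • y)) x = c ^ i • iteratedFDeriv ℝ i φ (c • x) := by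
    rw [iteratedFDeriv_comp_const_smul c (φ.smooth i)]
  rw [h2, norm_smul, norm_pow, Real.norm_of_nonneg hc]
  calc c ^ i * ‖iteratedFDeriv ℝ i φ (c • x)‖ ≤ 1 * ‖iteratedFDeriv ℝ i φ (c • x)‖ := by
        gcongr
        exact pow_le_one₀ hc hc1
    _ ≤ Q N φ := by
        rw [one_mul]
        exact (SchwartzMap.norm_iteratedFDeriv_le_seminorm ℝ φ i _).trans
          (seminorm_le_Q (Nat.zero_le _) hi φ)

theorem smul_bmp (c : ℝ) (hc : 0 ≤ c) (ξ : E n) :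
    (bmp : 𝓢(E n, ℂ)) (c • ξ) = ((beta (c * ‖ξ‖) : ℝ) : ℂ) := by
  rw [bmp_apply, norm_smul, Real.norm_of_nonneg hc]

/-- the Littlewood-Paley symbol with complex values -/
noncomputable def sy (j : ℕ) (ξ : E n) : ℂ := ((lpSymbol j ξ : ℝ) : ℂ)

theorem sy_zero : (sy 0 : E n → ℂ) = bmp := by
  ext ξ; simp [sy, lpSymbol, bmp_apply]

theorem sy_succ (j : ℕ) : (sy (j + 1) : E n → ℂ) =
    fun ξ => bmp (((2 : ℝ) ^ (j + 1))⁻¹ • ξ) - bmp (((2 : ℝ) ^ j)⁻¹ • ξ) := by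
  ext ξ
  rw [smul_bmp _ (by positivity), smul_bmp _ (by positivity)]
  simp only [sy, lpSymbol]
  push_cast
  rw [div_eq_inv_mul, div_eq_inv_mul]

theorem contDiff_comp_smul (φ : 𝓢(E n, ℂ)) (c : ℝ) : ContDiff ℝ ∞ (fun y => φ (c • y)) :=
  (φ.smooth ⊤).comp (contDiff_const_smul c)

theorem contDiff_sy (j : ℕ) : ContDiff ℝ ∞ (sy j : E n → ℂ) := by
  cases j with
  | zero => rw [sy_zero]; exact (bmp : 𝓢(E n, ℂ)).smooth ⊤
  | succ j =>
    rw [sy_succ]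
    exact (contDiff_comp_smul _ _).sub (contDiff_comp_smul _ _)

theorem norm_iteratedFDeriv_sy_le (j : ℕ) {N i : ℕ} (hi : i ≤ N) (x : E n) :
    ‖iteratedFDeriv ℝ i (sy j : E n → ℂ) x‖ ≤ 2 * Q N (bmp : 𝓢(E n, ℂ)) := by
  have h0 := Q_nonneg N (bmp : 𝓢(E n, ℂ))
  cases j with
  | zero =>
    rw [sy_zero]
    have := (SchwartzMap.norm_iteratedFDeriv_le_seminorm ℝ (bmp : 𝓢(E n, ℂ)) i x).trans
          (seminorm_le_Q (Nat.zero_le _) hi bmp)
    linarith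
  | succ j =>
    rw [sy_succ]
    have h1 : iteratedFDeriv ℝ i (fun ξ : E n => bmp (((2 : ℝ) ^ (j + 1))⁻¹ • ξ) -
        bmp (((2 : ℝ) ^ j)⁻¹ • ξ)) x =
        iteratedFDeriv ℝ i (fun ξ : E n => bmp (((2 : ℝ) ^ (j + 1))⁻¹ • ξ)) x -
        iteratedFDeriv ℝ i (fun ξ : E n => bmp (((2 : ℝ) ^ j)⁻¹ • ξ)) x := by
      have e1 : ContDiffAt ℝ i (fun ξ : E n => bmp (((2 : ℝ) ^ (j + 1))⁻¹ • ξ)) x :=
        ((contDiff_comp_smul _ _).of_le (by exact_mod_cast le_top)).contDiffAt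
      have e2 : ContDiffAt ℝ i (fun ξ : E n => bmp (((2 : ℝ) ^ j)⁻¹ • ξ)) x :=
        ((contDiff_comp_smul _ _).of_le (by exact_mod_cast le_top)).contDiffAt
      exact iteratedFDeriv_sub_apply e1 e2
    rw [h1]
    have h2 := norm_iteratedFDeriv_comp_smul_le (bmp : 𝓢(E n, ℂ)) (c := ((2 : ℝ) ^ (j + 1))⁻¹)
      (by positivity) (inv_le_one_of_one_le₀ (one_le_pow₀ one_le_two)) hi x
    have h3 := norm_iteratedFDeriv_comp_smul_le (bmp : 𝓢(E n, ℂ)) (c := ((2 : ℝ) ^ j)⁻¹)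
      (by positivity) (inv_le_one_of_one_le₀ (one_le_pow₀ one_le_two)) hi x
    exact (norm_sub_le _ _).trans (by linarith)

theorem sy_eq_zero (j : ℕ) (x : E n) (hx : ‖x‖ < 2 ^ j) : sy (j + 1) x = 0 := by
  simp only [sy, lpSymbol]
  have h2 : (0 : ℝ) < 2 ^ j := by positivity
  have h1 : |‖x‖ / 2 ^ j| ≤ 1 := by
    rw [abs_of_nonneg (by positivity), div_le_one h2]; exact hx.le
  have h3 : |‖x‖ / 2 ^ (j + 1)| ≤ 1 := by
    rw [abs_of_nonneg (by positivity), div_le_one (by positivity), pow_succ]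
    linarith
  rw [beta_eq_one h1, beta_eq_one h3]
  simp

theorem sy_temperate (j : ℕ) : (sy j : E n → ℂ).HasTemperateGrowth := by
  cases j with
  | zero => rw [sy_zero]; exact (bmp : 𝓢(E n, ℂ)).hasTemperateGrowth
  | succ j =>
    refine ⟨contDiff_sy (j + 1), fun N => ⟨0, 2 * Q N (bmp : 𝓢(E n, ℂ)), fun x => ?_⟩⟩
    rw [pow_zero, mul_one]
    exact norm_iteratedFDeriv_sy_le (j + 1) le_rfl x

/-- the Littlewood-Paley piece as an operator on the Schwartz space -/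
noncomputable def lpOp (j : ℕ) (f : 𝓢(E n, ℂ)) : 𝓢(E n, ℂ) := 𝓕⁻ (smulLeftCLM ℂ (sy j) (𝓕 f))

theorem lpPiece_eq (j : ℕ) (f : 𝓢(E n, ℂ)) : lpPiece j f = lpOp j f := by
  unfold lpPiece lpOp
  rw [fourierInv_coe, smulLeftCLM_apply (sy_temperate j)]
  rfl

theorem lpOp_sub (j : ℕ) (f g : 𝓢(E n, ℂ)) : lpOp j (f - g) = lpOp j f - lpOp j g := by
  unfold lpOp
  have h1 : 𝓕 (f - g) = 𝓕 f - 𝓕 g := map_sub (FourierTransform.fourierCLM ℂ 𝓢(E n, ℂ)) f g
  rw [h1, map_sub]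
  exact map_sub (FourierTransform.fourierInvCLM ℂ 𝓢(E n, ℂ)) _ _

/-- the basic decay estimate -/
theorem lpOp_bound (n L M : ℕ) : ∃ (N : ℕ) (C : ℝ), 0 ≤ C ∧ ∀ (f : 𝓢(E n, ℂ)) (j : ℕ) (x : E n),
    ‖lpOp j f x‖ ≤ C * ((2 ^ M : ℝ)⁻¹ ^ j * (((1 + ‖x‖) ^ L)⁻¹ * Q N f)) := by
  obtain ⟨N1, C1, hC1, h1⟩ := exists_bound
    ((FourierTransform.fourierInvCLM ℂ 𝓢(E n, ℂ)).restrictScalars ℝ) L
  obtain ⟨N2, C2, hC2, h2⟩ := exists_bound
    ((FourierTransform.fourierCLM ℂ 𝓢(E n, ℂ)).restrictScalars ℝ) (N1 + M)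
  have hb := Q_nonneg N1 (bmp : 𝓢(E n, ℂ))
  refine ⟨N2, 2 ^ (L + 1) * C1 * ((N1 + 1) ^ 2 * (2 ^ M * (2 * Q N1 (bmp : 𝓢(E n, ℂ)) * 2 ^ N1)) * C2),
    by positivity, fun f j x => ?_⟩
  have h3 : Q N1 (smulLeftCLM ℂ (sy j) (𝓕 f)) ≤
      (N1 + 1) ^ 2 * (2 ^ M * (2 * Q N1 (bmp : 𝓢(E n, ℂ)) * 2 ^ N1)) * (2 ^ M : ℝ)⁻¹ ^ j *
        Q (N1 + M) (𝓕 f) := by
    have hq := Q_nonneg (N1 + M) (𝓕 f)
    cases j with
    | zero =>
      have := Q_mul_le (g := sy 0) (f := 𝓕 f) (h := smulLeftCLM ℂ (sy 0) (𝓕 f)) (contDiff_sy 0)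
        (fun x => by rw [smulLeftCLM_apply_apply (sy_temperate 0), smul_eq_mul]) N1 0 one_pos
        (fun i hi x => norm_iteratedFDeriv_sy_le 0 hi x) (Or.inl rfl)
      refine this.trans ?_
      rw [one_pow, inv_one, one_mul, add_zero, pow_zero, mul_one]
      have h5 : (1 : ℝ) ≤ 2 ^ M := one_le_pow₀ one_le_two
      calc (N1 + 1 : ℝ) ^ 2 * (2 * Q N1 (bmp : 𝓢(E n, ℂ)) * 2 ^ N1 * Q N1 (𝓕 f))
          ≤ (N1 + 1 : ℝ) ^ 2 * (2 * Q N1 (bmp : 𝓢(E n, ℂ)) * 2 ^ N1 * Q (N1 + M) (𝓕 f)) := by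
            gcongr
            exact Q_mono (by omega) _
        _ = (N1 + 1 : ℝ) ^ 2 * (1 * (2 * Q N1 (bmp : 𝓢(E n, ℂ)) * 2 ^ N1)) * Q (N1 + M) (𝓕 f) := by
            ring
        _ ≤ _ := by gcongr
    | succ j =>
      have := Q_mul_le (g := sy (j + 1)) (f := 𝓕 f) (h := smulLeftCLM ℂ (sy (j + 1)) (𝓕 f))
        (contDiff_sy (j + 1))
        (fun x => by rw [smulLeftCLM_apply_apply (sy_temperate (j + 1)), smul_eq_mul]) N1 M
        (ρ := 2 ^ j) (by positivity)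
        (fun i hi x => norm_iteratedFDeriv_sy_le (j + 1) hi x) (Or.inr (sy_eq_zero j))
      refine this.trans (le_of_eq ?_)
      have h5 : ((2 : ℝ) ^ M)⁻¹ ^ (j + 1) * 2 ^ M = ((2 ^ j) ^ M)⁻¹ := by
        rw [pow_succ, mul_assoc, inv_mul_cancel₀ (by positivity), mul_one, inv_pow, ← pow_mul,
          ← pow_mul, mul_comm M j]
      rw [← h5]
      ring
  have h4 : Q (N1 + M) (𝓕 f) ≤ C2 * Q N2 f := h2 f
  have h6 : Q L (lpOp j f) ≤ C1 * Q N1 (smulLeftCLM ℂ (sy j) (𝓕 f)) :=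
    h1 (smulLeftCLM ℂ (sy j) (𝓕 f))
  have h7 := weight_le (lpOp j f) L x
  have h8 : (0 : ℝ) < (1 + ‖x‖) ^ L := by positivity
  have h9 : ‖lpOp j f x‖ = ((1 + ‖x‖) ^ L)⁻¹ * ((1 + ‖x‖) ^ L * ‖lpOp j f x‖) := by
    rw [← mul_assoc, inv_mul_cancel₀ h8.ne', one_mul]
  rw [h9]
  calc ((1 + ‖x‖) ^ L)⁻¹ * ((1 + ‖x‖) ^ L * ‖lpOp j f x‖)
      ≤ ((1 + ‖x‖) ^ L)⁻¹ * (2 ^ (L + 1) * (C1 * ((N1 + 1) ^ 2 *
        (2 ^ M * (2 * Q N1 (bmp : 𝓢(E n, ℂ)) * 2 ^ N1)) * (2 ^ M : ℝ)⁻¹ ^ j * (C2 * Q N2 f)))) := by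
        refine mul_le_mul_of_nonneg_left (h7.trans ?_) (by positivity)
        refine mul_le_mul_of_nonneg_left (h6.trans ?_) (by positivity)
        refine mul_le_mul_of_nonneg_left (h3.trans ?_) hC1
        exact mul_le_mul_of_nonneg_left h4 (by positivity)
    _ = _ := by ring

/-- the Besov quasi-norm is controlled by Schwartz seminorms -/
theorem besovPow_bound (n : ℕ) (α p : ℝ) (hp : 0 < p) : ∃ (N : ℕ) (C : ℝ≥0∞), C ≠ (⊤ : ℝ≥0∞) ∧
    ∀ f : 𝓢(E n, ℂ), besovPow α p f ≤ ENNReal.ofReal (Q N f ^ p) * C := by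
  obtain ⟨L, hL⟩ := exists_nat_gt (((n : ℝ) + 1) / p)
  obtain ⟨M, hM⟩ := exists_nat_gt α
  obtain ⟨N, C1, hC1, hb⟩ := lpOp_bound n L M
  have hLp : (n : ℝ) < L * p := by
    rw [div_lt_iff₀ hp] at hL; linarith
  set I : ℝ≥0∞ := ∫⁻ x : E n, ENNReal.ofReal ((1 + ‖x‖) ^ (-((L : ℝ) * p))) with hI
  have hI' : I < (⊤ : ℝ≥0∞) := by
    apply finite_integral_one_add_norm
    rw [finrank_euclideanSpace_fin]; exact hLp
  set r : ℝ := 2 ^ ((α - M) * p) with hr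
  have hr0 : 0 ≤ r := by positivity
  have hr1 : r < 1 := by
    rw [hr]
    apply Real.rpow_lt_one_of_one_lt_of_neg one_lt_two
    exact mul_neg_of_neg_of_pos (by linarith) hp
  refine ⟨N, ENNReal.ofReal (C1 ^ p) * I * (∑' j : ℕ, ENNReal.ofReal r ^ j), ?_, fun f => ?_⟩
  · refine ENNReal.mul_ne_top (ENNReal.mul_ne_top ENNReal.ofReal_ne_top hI'.ne) ?_
    rw [ENNReal.tsum_geometric]
    refine ENNReal.inv_ne_top.mpr ?_
    rw [ne_eq, tsub_eq_zero_iff_le, not_le]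
    rw [← ENNReal.ofReal_one]
    exact (ENNReal.ofReal_lt_ofReal_iff one_pos).mpr hr1
  · have hQ := Q_nonneg N f
    have h1 : ∀ j : ℕ, ENNReal.ofReal ((2 : ℝ) ^ (j * α * p)) * ∫⁻ x, ‖lpPiece j f x‖ₑ ^ p ≤
        ENNReal.ofReal (Q N f ^ p) * (ENNReal.ofReal (C1 ^ p) * I) * ENNReal.ofReal r ^ j := by
      intro j
      have h2 : ∀ x : E n, ‖lpPiece j f x‖ₑ ^ p ≤
          ENNReal.ofReal (C1 ^ p * (((2 ^ M : ℝ)⁻¹ ^ j) ^ p * Q N f ^ p)) *
            ENNReal.ofReal ((1 + ‖x‖) ^ (-((L : ℝ) * p))) := by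
        intro x
        rw [lpPiece_eq, ← ofReal_norm, ENNReal.ofReal_rpow_of_nonneg (norm_nonneg _) hp.le,
          ← ENNReal.ofReal_mul (by positivity)]
        apply ENNReal.ofReal_le_ofReal
        calc ‖lpOp j f x‖ ^ p ≤
            (C1 * ((2 ^ M : ℝ)⁻¹ ^ j * (((1 + ‖x‖) ^ L)⁻¹ * Q N f))) ^ p :=
              Real.rpow_le_rpow (norm_nonneg _) (hb f j x) hp.le
          _ = _ := by
              have e1 : (((1 + ‖x‖) ^ L)⁻¹ : ℝ) ^ p = (1 + ‖x‖) ^ (-((L : ℝ) * p)) := by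
                rw [Real.rpow_neg (by positivity), Real.inv_rpow (by positivity),
                  Real.rpow_mul (by positivity), Real.rpow_natCast]
              rw [Real.mul_rpow hC1 (by positivity), Real.mul_rpow (by positivity) (by positivity),
                Real.mul_rpow (by positivity) hQ, e1]
              ring
      have h3 : ∫⁻ x, ‖lpPiece j f x‖ₑ ^ p ≤
          ENNReal.ofReal (C1 ^ p * (((2 ^ M : ℝ)⁻¹ ^ j) ^ p * Q N f ^ p)) * I := by
        refine (lintegral_mono h2).trans (le_of_eq ?_)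
        rw [lintegral_const_mul' _ _ ENNReal.ofReal_ne_top]
      have h4 : (2 : ℝ) ^ (j * α * p) * ((2 ^ M : ℝ)⁻¹ ^ j) ^ p = r ^ j := by
        have e2 : (((2 : ℝ) ^ M)⁻¹ ^ j) ^ p = 2 ^ (-((M : ℝ) * j * p)) := by
          rw [inv_pow, ← pow_mul, Real.inv_rpow (by positivity), Real.rpow_neg (by positivity),
            ← Real.rpow_natCast, ← Real.rpow_mul (by positivity)]
          push_cast
          rfl
        rw [e2, hr, ← Real.rpow_natCast, ← Real.rpow_mul (by positivity),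
          ← Real.rpow_add (by positivity)]
        congr 1
        ring
      calc ENNReal.ofReal ((2 : ℝ) ^ (j * α * p)) * ∫⁻ x, ‖lpPiece j f x‖ₑ ^ p
          ≤ ENNReal.ofReal ((2 : ℝ) ^ (j * α * p)) *
            (ENNReal.ofReal (C1 ^ p * (((2 ^ M : ℝ)⁻¹ ^ j) ^ p * Q N f ^ p)) * I) := by
            gcongr
        _ = ENNReal.ofReal (Q N f ^ p * (C1 ^ p * ((2 : ℝ) ^ (j * α * p) *
              ((2 ^ M : ℝ)⁻¹ ^ j) ^ p))) * I := by
            rw [← mul_assoc, ← ENNReal.ofReal_mul (by positivity)]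
            congr 2
            ring
        _ = _ := by
            rw [h4, ENNReal.ofReal_mul (by positivity), ENNReal.ofReal_mul (by positivity),
              ENNReal.ofReal_pow hr0]
            ring
    unfold besovPow
    calc _ ≤ ∑' j : ℕ, ENNReal.ofReal (Q N f ^ p) * (ENNReal.ofReal (C1 ^ p) * I) *
          ENNReal.ofReal r ^ j := ENNReal.tsum_le_tsum h1
      _ = _ := by
        rw [ENNReal.tsum_mul_left]
        ring

theorem besovPow_sub_le {α p : ℝ} (hp : 0 < p) (hp1 : p ≤ 1) (f g : 𝓢(E n, ℂ)) :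
    besovPow α p (f - g : 𝓢(E n, ℂ)) ≤ besovPow α p f + besovPow α p g := by
  unfold besovPow
  rw [← ENNReal.tsum_add]
  refine ENNReal.tsum_le_tsum fun j => ?_
  rw [← mul_add]
  gcongr
  rw [lpPiece_eq, lpPiece_eq, lpPiece_eq, lpOp_sub, ← lintegral_add_left]
  · refine lintegral_mono fun x => ?_
    calc ‖(lpOp j f - lpOp j g : 𝓢(E n, ℂ)) x‖ₑ ^ p = ‖lpOp j f x - lpOp j g x‖ₑ ^ p := rfl
      _ ≤ (‖lpOp j f x‖ₑ + ‖lpOp j g x‖ₑ) ^ p := by
          gcongr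
          exact enorm_sub_le
      _ ≤ _ := ENNReal.rpow_add_le_add_rpow _ _ hp.le hp1
  · exact ((lpOp j f).continuous.enorm.measurable).pow_const p

/-- TARGET -/
theorem besov_truncate (α p : ℝ) (hα : 0 < α) (hp : 0 < p) (hp1 : p ≤ 1) (u : 𝓢(E n, ℝ))
    (K : Set (E n)) (hK : IsCompact K) (ε : ℝ≥0∞) (hε : 0 < ε) :
    ∃ v : 𝓢(E n, ℝ), HasCompactSupport v ∧ (∀ x ∈ K, v x = u x) ∧
      besovPow α p (fun x => (v x : ℂ)) ≤ besovPow α p (fun x => (u x : ℂ)) + ε := by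
  obtain ⟨N, C, hC, hbd⟩ := besovPow_bound n α p hp
  obtain ⟨R0, hR0⟩ := hK.isBounded.exists_norm_le
  set uc : 𝓢(E n, ℂ) := SchwartzMap.postcompCLM (𝕜 := ℝ) Complex.ofRealCLM u with huc
  have huc' : (uc : E n → ℂ) = fun x => (u x : ℂ) := rfl
  -- the truncated functions
  have hcs : ∀ R : ℝ, 0 < R → HasCompactSupport (fun x : E n => beta (R⁻¹ * ‖x‖) * u x) := by
    intro R hR
    apply HasCompactSupport.of_support_subset_isCompact (isCompact_closedBall (0 : E n) (2 * R))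
    intro ξ hξ
    rw [Metric.mem_closedBall, dist_zero_right]
    by_contra h
    apply hξ
    have h1 : 2 < R⁻¹ * ‖ξ‖ := by
      rw [inv_mul_eq_div, lt_div_iff₀ hR]; linarith
    simp only
    rw [beta_eq_zero (by nlinarith), zero_mul]
  have hsm : ∀ R : ℝ, 0 < R → ContDiff ℝ ∞ (fun x : E n => beta (R⁻¹ * ‖x‖) * u x) := by
    intro R hR
    refine ContDiff.mul ?_ (u.smooth ⊤)
    have h1 : (fun x : E n => beta (R⁻¹ * ‖x‖)) = fun x : E n => beta ‖R⁻¹ • x‖ := by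
      ext x; rw [norm_smul, Real.norm_of_nonneg (by positivity)]
    rw [h1]
    exact (contDiff_beta_norm ⊤).comp (contDiff_const_smul R⁻¹)
  have key : ∀ R : ℝ, ∀ hR : 1 ≤ R, ∃ v : 𝓢(E n, ℝ), (∀ x, v x = beta (R⁻¹ * ‖x‖) * u x) ∧
      HasCompactSupport v ∧ besovPow α p (fun x => (v x : ℂ)) ≤ besovPow α p (fun x => (u x : ℂ)) +
        ENNReal.ofReal (((N + 1) ^ 2 * (R⁻¹ * ((1 + Q N (bmp : 𝓢(E n, ℂ))) * 2 ^ N *
          Q (N + 1) uc))) ^ p) * C := by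
    intro R hR
    have hR' : 0 < R := by linarith
    refine ⟨(hcs R hR').toSchwartzMap (hsm R hR'), fun x => rfl, hcs R hR', ?_⟩
    set v := (hcs R hR').toSchwartzMap (hsm R hR') with hv
    set vc : 𝓢(E n, ℂ) := SchwartzMap.postcompCLM (𝕜 := ℝ) Complex.ofRealCLM v with hvc
    have hvc' : (vc : E n → ℂ) = fun x => (v x : ℂ) := rfl
    rw [← hvc', ← huc']
    have h1 : vc = uc - (uc - vc) := by abel
    rw [h1]
    refine (besovPow_sub_le hp hp1 _ _).trans ?_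
    gcongr
    refine (hbd _).trans ?_
    gcongr
    · exact Q_nonneg _ _
    have h2 : ∀ x, (uc - vc) x = (1 - bmp (R⁻¹ • x)) * uc x := by
      intro x
      rw [smul_bmp _ (by positivity)]
      have e1 : (uc - vc) x = uc x - vc x := rfl
      have e2 : vc x = ((beta (R⁻¹ * ‖x‖) * u x : ℝ) : ℂ) := rfl
      have e3 : uc x = (u x : ℂ) := rfl
      rw [e1, e2, e3]
      push_cast
      ring
    have h3 := Q_mul_le (g := fun x => 1 - bmp (R⁻¹ • x)) (f := uc) (h := uc - vc)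
      (contDiff_const.sub (contDiff_comp_smul _ _)) h2 N 1 hR'
      (B := 1 + Q N (bmp : 𝓢(E n, ℂ))) (by
        intro i hi x
        have h4 : iteratedFDeriv ℝ i (fun x : E n => 1 - bmp (R⁻¹ • x)) x =
            iteratedFDeriv ℝ i (fun _ : E n => (1 : ℂ)) x -
            iteratedFDeriv ℝ i (fun x : E n => bmp (R⁻¹ • x)) x := by
          have e1 : ContDiffAt ℝ i (fun _ : E n => (1 : ℂ)) x := contDiffAt_const
          have e2 : ContDiffAt ℝ i (fun ξ : E n => bmp (R⁻¹ • ξ)) x :=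
            ((contDiff_comp_smul _ _).of_le (by exact_mod_cast le_top)).contDiffAt
          exact iteratedFDeriv_sub_apply e1 e2
        rw [h4]
        have h5 := norm_iteratedFDeriv_comp_smul_le (bmp : 𝓢(E n, ℂ)) (c := R⁻¹)
          (by positivity) (inv_le_one_of_one_le₀ hR) hi x
        have h6 : ‖iteratedFDeriv ℝ i (fun _ : E n => (1 : ℂ)) x‖ ≤ 1 := by
          rcases Nat.eq_zero_or_pos i with h | h
          · subst h; simp
          · rw [iteratedFDeriv_const_of_ne h.ne']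
            simp
        exact (norm_sub_le _ _).trans (by linarith))
      (Or.inr (by
        intro x hx
        rw [smul_bmp _ (by positivity), beta_eq_one]
        · simp
        · rw [abs_of_nonneg (by positivity), inv_mul_eq_div, div_le_one hR']
          exact hx.le))
    rw [pow_one] at h3
    exact h3
  -- choose `R`
  set D : ℝ := (N + 1) ^ 2 * ((1 + Q N (bmp : 𝓢(E n, ℂ))) * 2 ^ N * Q (N + 1) uc) with hD
  have hlim : Filter.Tendsto (fun R : ℝ => ENNReal.ofReal ((R⁻¹ * D) ^ p) * C) Filter.atTop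
      (nhds 0) := by
    have h1 : Filter.Tendsto (fun R : ℝ => (R⁻¹ * D) ^ p) Filter.atTop (nhds ((0 * D) ^ p)) :=
      (tendsto_inv_atTop_zero.mul_const D).rpow_const (Or.inr hp.le)
    rw [zero_mul, Real.zero_rpow hp.ne'] at h1
    have h2 := (ENNReal.tendsto_ofReal h1)
    have h3 := ENNReal.Tendsto.mul_const h2 (Or.inr hC)
    rwa [ENNReal.ofReal_zero, zero_mul] at h3
  have hev := (hlim.eventually_le_const hε).and
    ((Filter.eventually_ge_atTop (1 : ℝ)).and (Filter.eventually_ge_atTop R0))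
  obtain ⟨R, hR1, hR2, hR3⟩ := hev.exists
  obtain ⟨v, hv1, hv2, hv3⟩ := key R hR2
  refine ⟨v, hv2, fun x hx => ?_, hv3.trans ?_⟩
  · rw [hv1, beta_eq_one, one_mul]
    have := hR0 x hx
    rw [abs_of_nonneg (by positivity), inv_mul_eq_div, div_le_one (by linarith)]
    linarith
  · gcongr
    refine le_trans (le_of_eq ?_) hR1
    congr 3
    rw [hD]
    ring

end Pool.Agent.Helper656.Cap.Trunc
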