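import Pool.Agent.Helper656.BesSetup
import Pool.Agent.Helper656.BesBlockNorm
import Pool.Agent.Helper656.BesTruncate

open MeasureTheory SchwartzMap
open scoped ENNReal NNReal FourierTransform SchwartzMap RealInnerProductSpace

namespace Pool.Agent.Helper656.Cap

variable {n : ℕ}

theorem besovCap_eq_zero (hn : 1 ≤ n) (α p : ℝ) (hα : 0 < α) (hp : 0 < p) (hp1 : p ≤ 1)
    (hαp : α * p < n) (D : Set 𝓢(E n, ℝ)) (hD : ∀ φ : 𝓢(E n, ℝ), HasCompactSupport φ → φ ∈ D)
    (K : Set (E n)) (hK : IsCompact K) (hK0 : hausdorffContent (n - α * p) K = 0) :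
    besovCap D α p K = 0 := by
  obtain ⟨L, w, ω, δ, hLp, hwω, hδ, hw0, hwc, hW⟩ := exists_setup hn α p hα hp hp1 hαp
  have hd0 : 0 < (n : ℝ) - α * p := by linarith
  -- pairing bound for `w`
  obtain ⟨f, hf⟩ := exists_mult (𝓕 w) hwc δ hδ hw0 (-(2 * (L : ℝ)))
  obtain ⟨Cw, hCw, hpair⟩ := pairing_bound (L + n + 1 + 2 * L) L L (by omega) (by omega)
    (by omega) w f (fun ξ => by
      rw [hf]
      rcases eq_or_ne ξ 0 with rfl | hξ
      · rw [hw0 0 (by simpa using hδ.le)]
        simp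
      · rw [← mul_assoc, ← Complex.ofReal_mul]
        have h1 : ‖ξ‖ ^ (2 * L) * ‖ξ‖ ^ (-(2 * (L : ℝ))) = 1 := by
          rw [← Real.rpow_natCast, ← Real.rpow_add (norm_pos_iff.2 hξ)]
          push_cast
          rw [add_neg_cancel, Real.rpow_zero]
        rw [h1, Complex.ofReal_one, one_mul])
  obtain ⟨R, hR⟩ := hwc.isBounded.subset_closedBall (0 : E n)
  obtain ⟨C', hC'⟩ := besov_block α p hα hp hp1 w (R + 1) (by
    intro ξ hξ
    by_contra hne
    have h1 : ξ ∈ tsupport (𝓕 w : 𝓢(E n, ℂ)) := subset_tsupport _ hne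
    have h2 := hR h1
    rw [Metric.mem_closedBall, dist_zero_right] at h2
    linarith) L (L + n + 1 + 2 * L) hLp Cw hCw hpair
  have key : ∀ ε : ℝ, 0 < ε → 36 * ε ≤ 1 →
      besovCap D α p K ≤ C' * ENNReal.ofReal (36 * ε) + ENNReal.ofReal ε := by
    intro ε hε hε1
    obtain ⟨T₀, Ω, hΩ, hKΩ, hcov, hcost⟩ := exists_small_cubes hd0 K hK hK0 ε hε
    obtain ⟨T, lam, hlam, hside, hge, hsum⟩ := hW T₀ (by linarith)
    set F : ℕ × Cube n → 𝓢(E n, ℂ) := fun i => ((Cube.side i.2 ^ n : ℝ) : ℂ) •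
      dil (Cube.center i.2) (Cube.side i.2) (side_pos i.2) w with hF
    set uS : 𝓢(E n, ℂ) := ∑ i ∈ T, ((lam i : ℝ) : ℂ) • F i with huS
    set u : E n → ℝ := fun y => ∑ i ∈ T, lam i * ω ((Cube.side i.2)⁻¹ • (y - Cube.center i.2))
      with hu
    have huSu : ∀ y, uS y = ((u y : ℝ) : ℂ) := by
      intro y
      have e0 : uS y = ∑ i ∈ T, ((lam i : ℝ) : ℂ) * (((Cube.side i.2 ^ n : ℝ) : ℂ) *
          dil (Cube.center i.2) (Cube.side i.2) (side_pos i.2) w y) := by
        simp [huS, hF]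
      rw [e0, hu]
      push_cast
      refine Finset.sum_congr rfl fun i _ => ?_
      rw [dil_apply, hwω]
      have h1 : ((Cube.side i.2 : ℝ) : ℂ) ≠ 0 := by exact_mod_cast (side_pos i.2).ne'
      have h2 : ((Cube.side i.2 : ℝ) : ℂ) ^ n * (((Cube.side i.2)⁻¹ : ℝ) : ℂ) ^ n = 1 := by
        rw [← mul_pow, Complex.ofReal_inv, mul_inv_cancel₀ h1, one_pow]
      calc _ = ((lam i : ℝ) : ℂ) * (((Cube.side i.2 : ℝ) : ℂ) ^ n *
            (((Cube.side i.2)⁻¹ : ℝ) : ℂ) ^ n) *
            ((ω ((Cube.side i.2)⁻¹ • (y - Cube.center i.2)) : ℝ) : ℂ) := by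
            push_cast
            ring
        _ = _ := by rw [h2, mul_one]
    set uR : 𝓢(E n, ℝ) := SchwartzMap.postcompCLM (𝕜 := ℝ) Complex.reCLM uS with huR
    have huRu : ∀ y, uR y = u y := by
      intro y
      rw [huR, SchwartzMap.postcompCLM_apply, huSu]
      simp
    have hcast : (fun x => ((uR x : ℝ) : ℂ)) = uS := by
      ext y
      rw [huRu, huSu]
    have hpow : besovPow α p (fun x => ((uR x : ℝ) : ℂ)) ≤ C' * ENNReal.ofReal (36 * ε) := by
      rw [hcast]
      calc besovPow α p uS ≤ ∑ i ∈ T, ENNReal.ofReal (|lam i| ^ p) * besovPow α p (F i) :=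
            besovPow_sum_le α p hp hp1 T lam F
        _ ≤ ∑ i ∈ T, ENNReal.ofReal (|lam i| ^ p) *
              (C' * ENNReal.ofReal (Cube.side i.2 ^ ((n : ℝ) - α * p))) := by
            refine Finset.sum_le_sum fun i hi => ?_
            gcongr
            exact hC' (Cube.center i.2) (Cube.side i.2) (side_pos i.2) (hside i hi)
        _ = C' * ENNReal.ofReal (∑ i ∈ T, lam i ^ p * Cube.side i.2 ^ ((n : ℝ) - α * p)) := by
            rw [ENNReal.ofReal_sum_of_nonneg (fun i hi => mul_nonneg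
              (Real.rpow_nonneg (hlam i hi) _) (Real.rpow_nonneg (side_pos i.2).le _)),
              Finset.mul_sum]
            refine Finset.sum_congr rfl fun i hi => ?_
            rw [abs_of_nonneg (hlam i hi), ENNReal.ofReal_mul (Real.rpow_nonneg (hlam i hi) _)]
            ring
        _ ≤ C' * ENNReal.ofReal (36 * ε) := by
            gcongr
            linarith
    obtain ⟨v, hvc, hvK, hvp⟩ := Trunc.besov_truncate α p hα hp hp1 uR K hK (ENNReal.ofReal ε)
      (ENNReal.ofReal_pos.2 hε)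
    have hv1 : ∀ x ∈ K, 1 ≤ v x := by
      intro x hx
      rw [hvK x hx, huRu]
      obtain ⟨Q, hQ, hyQ⟩ := hcov x (hKΩ hx)
      exact hge Q hQ x hyQ
    calc besovCap D α p K ≤ besovPow α p (fun x => (v x : ℂ)) := by
          unfold besovCap
          exact iInf_le_of_le v (iInf_le_of_le (hD v hvc) (iInf_le_of_le hv1 le_rfl))
      _ ≤ besovPow α p (fun x => ((uR x : ℝ) : ℂ)) + ENNReal.ofReal ε := hvp
      _ ≤ _ := by gcongr
  have hlim : Filter.Tendsto (fun m : ℕ => (C' : ℝ≥0∞) *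
      ENNReal.ofReal (36 * (1 / ((m : ℝ) + 36))) + ENNReal.ofReal (1 / ((m : ℝ) + 36)))
      Filter.atTop (nhds (C' * ENNReal.ofReal (36 * 0) + ENNReal.ofReal 0)) := by
    have h0 : Filter.Tendsto (fun m : ℕ => 1 / ((m : ℝ) + 36)) Filter.atTop (nhds 0) := by
      apply Filter.Tendsto.div_atTop tendsto_const_nhds
      exact Filter.tendsto_atTop_add_const_right _ _ tendsto_natCast_atTop_atTop
    apply Filter.Tendsto.add
    · apply ENNReal.Tendsto.const_mul _ (Or.inr ENNReal.coe_ne_top)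
      exact ENNReal.tendsto_ofReal (h0.const_mul 36)
    · exact ENNReal.tendsto_ofReal h0
  rw [mul_zero, ENNReal.ofReal_zero, mul_zero, add_zero] at hlim
  have h1 : besovCap D α p K ≤ 0 := by
    refine ge_of_tendsto' hlim fun m => key _ (by positivity) ?_
    rw [mul_one_div, div_le_one (by positivity)]
    have : (0 : ℝ) ≤ m := Nat.cast_nonneg m
    linarith
  exact le_antisymm h1 bot_le

end Pool.Agent.Helper656.Cap
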