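import Mathlib

namespace Pool.Agent.Helper656.Cap

/-- A smooth cut-off on the line: `beta s = 1` for `|s| ≤ 1` and `beta s = 0` for `s ^ 2 ≥ 2`. -/
noncomputable def beta (s : ℝ) : ℝ := Real.smoothTransition (2 - s ^ 2)

end Pool.Agent.Helper656.Cap
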