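import Pool.Agent.Helper656.CapDefs
import Pool.Agent.Helper656.CapBeta

/-!
Definitions for MP_9b3711_an: Besov and Hardy-Bessel capacities, `0 < p < 1`.
The Hardy space quasi-norm `hardyPow` is defined in `CapDefs`.
-/

open MeasureTheory SchwartzMap
open scoped ENNReal NNReal FourierTransform SchwartzMap ContDiff

namespace Pool.Agent.Helper656.Cap

/-- The smooth dyadic resolution of unity `ψ₀ + ψ₁ + ψ₂ + ... = 1`: `ψ₀(ξ) = β(‖ξ‖)` and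
`ψ_j(ξ) = β(‖ξ‖ / 2^j) - β(‖ξ‖ / 2^(j-1))`, which lives on `2^(j-1) ≤ ‖ξ‖ ≤ √2 2^j`. -/
noncomputable def lpSymbol {n : ℕ} : ℕ → E n → ℝ
  | 0, ξ => beta ‖ξ‖
  | j + 1, ξ => beta (‖ξ‖ / 2 ^ (j + 1)) - beta (‖ξ‖ / 2 ^ j)

/-- The `j`-th Littlewood-Paley piece of `u`, the inverse Fourier transform of `ψ_j 𝓕 u`. -/
noncomputable def lpPiece {n : ℕ} (j : ℕ) (u : E n → ℂ) : E n → ℂ :=
  𝓕⁻ (fun ξ => ((lpSymbol j ξ : ℝ) : ℂ) * 𝓕 u ξ)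

/-- The `p`-th power of the Besov quasi-norm of `Λ_α^{p,p}` (that is `B^α_{p,p}`):
`∑_j 2^(j α p) ‖ψ_j(D) u‖_p^p`. -/
noncomputable def besovPow {n : ℕ} (α p : ℝ) (u : E n → ℂ) : ℝ≥0∞ :=
  ∑' j : ℕ, ENNReal.ofReal ((2 : ℝ) ^ (j * α * p)) * ∫⁻ x, ‖lpPiece j u x‖ₑ ^ p

/-- The Besov capacity `A_{α,p,p}(K)`: the infimum of `|u|^p` over the real functions `u` of the
class `D` of smooth functions with `u ≥ 1` on `K`. -/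
noncomputable def besovCap {n : ℕ} (D : Set 𝓢(E n, ℝ)) (α p : ℝ) (K : Set (E n)) : ℝ≥0∞ :=
  ⨅ (u : 𝓢(E n, ℝ)) (_ : u ∈ D) (_ : ∀ x ∈ K, 1 ≤ u x), besovPow α p (fun x => (u x : ℂ))

/-- `U = G_α * h`, the Bessel potential of `h`: the Fourier transform of `h` is a continuous
function `m` of polynomial growth (this holds for every `h` in `H^p`, `p ≤ 1`), and the Fourier
transform of `U` is `(1 + 4 π² ‖ξ‖²)^(-α/2) m(ξ)`. -/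
def IsBesselPotential {n : ℕ} (α : ℝ) (h U : 𝓢'(E n, ℂ)) : Prop :=
  ∃ m : E n → ℂ, Continuous m ∧ (∃ (k : ℕ) (C : ℝ), ∀ ξ, ‖m ξ‖ ≤ C * (1 + ‖ξ‖) ^ k) ∧
    (∀ φ : 𝓢(E n, ℂ), (𝓕 h) φ = ∫ ξ, m ξ * φ ξ) ∧
    (∀ φ : 𝓢(E n, ℂ), (𝓕 U) φ =
      ∫ ξ, (((1 + 4 * Real.pi ^ 2 * ‖ξ‖ ^ 2) ^ (-(α / 2)) : ℝ) : ℂ) * m ξ * φ ξ)

/-- The capacity `B_{α,p}(K)`: the infimum of `‖h‖_{H^p}^p` over all `h` whose Bessel potential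
`u = G_α * h` is a smooth real function with `u ≥ 1` on `K`. -/
noncomputable def besselCap {n : ℕ} (N : ℕ) (α p : ℝ) (K : Set (E n)) : ℝ≥0∞ :=
  ⨅ (h : 𝓢'(E n, ℂ)) (_ : ∃ (U : 𝓢'(E n, ℂ)) (u : E n → ℝ), IsBesselPotential α h U ∧
    ContDiff ℝ ∞ u ∧ (∀ φ : 𝓢(E n, ℂ), HasCompactSupport φ → U φ = ∫ x, (u x : ℂ) * φ x) ∧
    ∀ x ∈ K, 1 ≤ u x), hardyPow N p h

end Pool.Agent.Helper656.Cap
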