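import Pool.Agent.Helper656.CapConv
import Pool.Agent.Helper656.BesDefs

open MeasureTheory SchwartzMap
open scoped ENNReal NNReal FourierTransform SchwartzMap RealInnerProductSpace ContDiff

namespace Pool.Agent.Helper656.Cap

variable {n : ℕ}

/-- TARGET -/
theorem bessel_slice (α : ℝ) (hα : 0 < α) : ∃ c : ℝ≥0, ∀ m : E n → ℂ,
    Continuous m → (∃ (k : ℕ) (C : ℝ), ∀ ξ, ‖m ξ‖ ≤ C * (1 + ‖ξ‖) ^ k) → ∀ φ : 𝓢(E n, ℂ),
    ‖∫ ξ, (((1 + 4 * Real.pi ^ 2 * ‖ξ‖ ^ 2) ^ (-(α / 2)) : ℝ) : ℂ) * m ξ * φ ξ‖ₑ ≤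
      c * ∫⁻ r in Set.Ioi (0 : ℝ), ENNReal.ofReal (r ^ (α - 1) * Real.exp (-r ^ 2)) *
        ‖∫ ξ, m ξ * φ ξ * ((Real.exp (-(4 * Real.pi ^ 2 * ‖r • ξ‖ ^ 2)) : ℝ) : ℂ)‖ₑ := by
  have hΓ : 0 < Real.Gamma (α / 2) := Real.Gamma_pos_of_pos (by positivity)
  set c0 : ℝ := 2 / Real.Gamma (α / 2) with hc0
  have hc0p : 0 < c0 := by positivity
  refine ⟨Real.toNNReal c0, fun m hm hg φ => ?_⟩
  have hf : Integrable (fun ξ => m ξ * φ ξ) := integrable_poly_mul m hm hg φ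
  let g : ℝ → ℝ := fun r => r ^ (α - 1) * Real.exp (-r ^ 2)
  let k : E n → ℝ → ℝ := fun ξ r => Real.exp (-(4 * Real.pi ^ 2 * ‖r • ξ‖ ^ 2))
  have hgi : Integrable g (volume.restrict (Set.Ioi 0)) := by
    have := integrableOn_rpow_mul_exp_neg_mul_sq (b := 1) one_pos (s := α - 1) (by linarith)
    simpa [g, IntegrableOn] using this
  have hgC : Integrable (fun r => ((g r : ℝ) : ℂ)) (volume.restrict (Set.Ioi 0)) := hgi.ofReal
  have hprod := hf.mul_prod hgC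
  have hkc : Continuous fun z : E n × ℝ => ((k z.1 z.2 : ℝ) : ℂ) := by
    simp only [k]; fun_prop
  have hk1 : ∀ ξ r, ‖((k ξ r : ℝ) : ℂ)‖ ≤ 1 := by
    intro ξ r
    rw [Complex.norm_real, Real.norm_of_nonneg (Real.exp_pos _).le, Real.exp_le_one_iff]
    have : 0 ≤ 4 * Real.pi ^ 2 * ‖r • ξ‖ ^ 2 := by positivity
    linarith
  have hI : Integrable (fun z : E n × ℝ => ((k z.1 z.2 : ℝ) : ℂ) *
      (m z.1 * φ z.1 * ((g z.2 : ℝ) : ℂ))) (volume.prod (volume.restrict (Set.Ioi 0))) :=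
    hprod.bdd_mul (c := 1) hkc.aestronglyMeasurable (Filter.Eventually.of_forall fun z => hk1 _ _)
  -- the Gamma integral
  have hgam : ∀ ξ : E n, (1 + 4 * Real.pi ^ 2 * ‖ξ‖ ^ 2) ^ (-(α / 2)) =
      c0 * ∫ r in Set.Ioi (0 : ℝ), k ξ r * g r := by
    intro ξ
    set A : ℝ := 1 + 4 * Real.pi ^ 2 * ‖ξ‖ ^ 2 with hA
    have hA0 : 0 < A := by positivity
    have h1 := integral_rpow_mul_exp_neg_mul_rpow (p := 2) (q := α - 1) (b := A) two_pos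
      (by linarith) hA0
    have h2 : ∀ r : ℝ, k ξ r * g r = r ^ (α - 1) * Real.exp (-A * r ^ (2 : ℝ)) := by
      intro r
      simp only [k, g]
      rw [mul_left_comm, ← Real.exp_add, norm_smul, Real.rpow_two]
      congr 2
      rw [mul_pow, Real.norm_eq_abs, sq_abs, hA]
      ring
    simp only [h2]
    rw [h1, sub_add_cancel, hc0, neg_div]
    field_simp
  have hL : ∫ ξ, (((1 + 4 * Real.pi ^ 2 * ‖ξ‖ ^ 2) ^ (-(α / 2)) : ℝ) : ℂ) * m ξ * φ ξ =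
      c0 * ∫ r in Set.Ioi (0 : ℝ), ∫ ξ, ((k ξ r : ℝ) : ℂ) * (m ξ * φ ξ * ((g r : ℝ) : ℂ)) := by
    rw [← integral_integral_swap hI, ← integral_const_mul]
    refine integral_congr_ae (Filter.Eventually.of_forall fun ξ => ?_)
    simp only
    rw [hgam ξ]
    have h3 : ∀ r, ((k ξ r : ℝ) : ℂ) * (m ξ * φ ξ * ((g r : ℝ) : ℂ)) =
        (m ξ * φ ξ) * ((k ξ r * g r : ℝ) : ℂ) := by
      intro r; push_cast; ring
    simp only [h3]
    rw [integral_const_mul, integral_complex_ofReal]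
    push_cast
    ring
  rw [hL, enorm_mul]
  have h4 : ‖(c0 : ℂ)‖ₑ = (Real.toNNReal c0 : ℝ≥0∞) := by
    rw [← ofReal_norm, Complex.norm_real, Real.norm_of_nonneg hc0p.le]
    rfl
  rw [h4]
  gcongr
  refine (enorm_integral_le_lintegral_enorm _).trans ?_
  refine setLIntegral_mono' measurableSet_Ioi fun r hr => ?_
  have h5 : ∫ ξ, ((k ξ r : ℝ) : ℂ) * (m ξ * φ ξ * ((g r : ℝ) : ℂ)) =
      ((g r : ℝ) : ℂ) * ∫ ξ, m ξ * φ ξ * ((k ξ r : ℝ) : ℂ) := by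
    rw [← integral_const_mul]
    refine integral_congr_ae (Filter.Eventually.of_forall fun ξ => ?_)
    simp only
    ring
  rw [h5, enorm_mul]
  have hgr : 0 ≤ g r := by
    simp only [g]
    have : 0 ≤ r := le_of_lt hr
    positivity
  have h6 : ‖((g r : ℝ) : ℂ)‖ₑ = ENNReal.ofReal (r ^ (α - 1) * Real.exp (-r ^ 2)) := by
    rw [← ofReal_norm, Complex.norm_real, Real.norm_of_nonneg hgr]
  rw [h6]

end Pool.Agent.Helper656.Cap
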