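import Pool.Agent.Helper656.CapFourier
import Pool.Agent.Helper656.BesDefs

open MeasureTheory SchwartzMap
open scoped ENNReal NNReal FourierTransform SchwartzMap RealInnerProductSpace ContDiff

namespace Pool.Agent.Helper656.Cap

variable {n : ℕ}

theorem rpow_tsum_le' {p : ℝ} (hp : 0 < p) (hp1 : p ≤ 1) (f : ℕ → ℝ≥0∞) :
    (∑' k, f k) ^ p ≤ ∑' k, f k ^ p := by
  have hfin : ∀ N, (∑ k ∈ Finset.range N, f k) ^ p ≤ ∑ k ∈ Finset.range N, f k ^ p := by
    intro N
    induction N with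
    | zero => simp [hp]
    | succ N ih =>
      rw [Finset.sum_range_succ, Finset.sum_range_succ]
      exact (ENNReal.rpow_add_le_add_rpow _ _ hp.le hp1).trans (by gcongr)
  rw [← ENNReal.le_rpow_inv_iff hp, ENNReal.tsum_eq_iSup_nat]
  apply iSup_le
  intro N
  rw [ENNReal.le_rpow_inv_iff hp]
  exact (hfin N).trans (ENNReal.sum_le_tsum _)

/-- TARGET -/
theorem endpoint_chain (hn : 1 ≤ n) (p : ℝ) (hp : 0 < p) (hp1 : p ≤ 1) (C₁ : ℝ≥0) :
    ∃ C : ℝ≥0, ∀ F : E n → ℝ≥0∞, Measurable F → ∀ (x : E n) (t : ℝ), 0 < t →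
      1 ≤ C₁ * ∑' k : ℕ, ENNReal.ofReal ((t * 2 ^ k) ^ ((n : ℝ) / p)) *
        ⨅ y ∈ Metric.ball x (t * 2 ^ k), F y →
      1 ≤ C * ∫⁻ x, F x ^ p := by
  have : NeZero n := ⟨by omega⟩
  set vb : ℝ≥0∞ := volume (Metric.ball (0 : E n) 1) with hvb
  have hvb0 : vb ≠ 0 := (Metric.measure_ball_pos _ _ one_pos).ne'
  have hvbt : vb ≠ ⊤ := measure_ball_lt_top.ne
  have hC₁f : (C₁ : ℝ≥0∞) ^ p ≠ ⊤ := ENNReal.rpow_ne_top_of_nonneg hp.le ENNReal.coe_ne_top
  refine ⟨((C₁ : ℝ≥0∞) ^ p * (2 / vb)).toNNReal, fun F hF x t ht h => ?_⟩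
  rw [ENNReal.coe_toNNReal (ENNReal.mul_ne_top hC₁f (ENNReal.div_ne_top (by norm_num) hvb0))]
  have h2 := ENNReal.rpow_le_rpow h hp.le
  rw [ENNReal.one_rpow, ENNReal.mul_rpow_of_nonneg _ _ hp.le] at h2
  refine h2.trans ?_
  rw [mul_assoc]
  gcongr
  refine (rpow_tsum_le' hp hp1 _).trans ?_
  set A : ℕ → Set (E n) := fun k => Metric.ball x (t * 2 ^ k) \ Metric.ball x (t * 2 ^ k / 2)
    with hA
  have hterm : ∀ k : ℕ, (ENNReal.ofReal ((t * 2 ^ k) ^ ((n : ℝ) / p)) *
      ⨅ y ∈ Metric.ball x (t * 2 ^ k), F y) ^ p ≤ 2 / vb * ∫⁻ y in A k, F y ^ p := by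
    intro k
    set ρ : ℝ := t * 2 ^ k with hρ
    have hρ0 : 0 < ρ := by positivity
    set J : ℝ≥0∞ := ⨅ y ∈ Metric.ball x ρ, F y with hJ
    have e1 : (ENNReal.ofReal (ρ ^ ((n : ℝ) / p)) * J) ^ p = ENNReal.ofReal (ρ ^ n) * J ^ p := by
      rw [ENNReal.mul_rpow_of_nonneg _ _ hp.le, ENNReal.ofReal_rpow_of_nonneg (by positivity) hp.le,
        ← Real.rpow_mul hρ0.le, div_mul_cancel₀ _ hp.ne', Real.rpow_natCast]
    rw [e1]
    have hvB : volume (Metric.ball x ρ) = ENNReal.ofReal (ρ ^ n) * vb := by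
      rw [Measure.addHaar_ball _ _ hρ0.le, finrank_euclideanSpace_fin]
    have hvB2 : volume (Metric.ball x (ρ / 2)) ≤ volume (Metric.ball x ρ) / 2 := by
      rw [hvB, Measure.addHaar_ball _ _ (by positivity), finrank_euclideanSpace_fin]
      rw [ENNReal.div_eq_inv_mul, ← mul_assoc]
      gcongr
      rw [show (2 : ℝ≥0∞)⁻¹ = ENNReal.ofReal (2⁻¹) by
        rw [ENNReal.ofReal_inv_of_pos (by norm_num)]; simp,
        ← ENNReal.ofReal_mul (by norm_num)]
      apply ENNReal.ofReal_le_ofReal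
      rw [div_pow, div_eq_inv_mul]
      have h3 : (2 : ℝ) ≤ 2 ^ n := by
        calc (2 : ℝ) = 2 ^ 1 := by norm_num
          _ ≤ 2 ^ n := pow_le_pow_right₀ (by norm_num) hn
      have h4 : ((2 : ℝ) ^ n)⁻¹ ≤ 2⁻¹ := inv_anti₀ (by norm_num) h3
      exact mul_le_mul_of_nonneg_right h4 (by positivity)
    have hvA : volume (Metric.ball x ρ) / 2 ≤ volume (A k) := by
      have h5 : volume (Metric.ball x ρ) ≤ volume (Metric.ball x ρ) / 2 + volume (A k) := by
        calc volume (Metric.ball x ρ) ≤ volume (Metric.ball x (ρ / 2) ∪ A k) := by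
              apply measure_mono
              intro y hy
              by_cases hy2 : y ∈ Metric.ball x (ρ / 2)
              · exact Or.inl hy2
              · exact Or.inr ⟨hy, hy2⟩
          _ ≤ volume (Metric.ball x (ρ / 2)) + volume (A k) := measure_union_le _ _
          _ ≤ _ := by gcongr
      have h6 : volume (Metric.ball x ρ) / 2 + volume (Metric.ball x ρ) / 2 ≤
          volume (Metric.ball x ρ) / 2 + volume (A k) := by
        rw [ENNReal.add_halves]; exact h5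
      exact (ENNReal.add_le_add_iff_left
        (ENNReal.div_ne_top measure_ball_lt_top.ne (by norm_num))).1 h6
    have hAm : MeasurableSet (A k) := measurableSet_ball.diff measurableSet_ball
    have hint : J ^ p * volume (A k) ≤ ∫⁻ y in A k, F y ^ p := by
      calc J ^ p * volume (A k) = ∫⁻ y in A k, J ^ p := by rw [setLIntegral_const]
        _ ≤ ∫⁻ y in A k, F y ^ p := by
          apply setLIntegral_mono' hAm
          intro y hy
          apply ENNReal.rpow_le_rpow _ hp.le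
          exact iInf₂_le y hy.1
    calc ENNReal.ofReal (ρ ^ n) * J ^ p
        = 2 / vb * (J ^ p * (ENNReal.ofReal (ρ ^ n) * vb / 2)) := by
          rw [ENNReal.div_eq_inv_mul, ENNReal.div_eq_inv_mul]
          have h7 : (vb⁻¹ * 2 * (J ^ p * (2⁻¹ * (ENNReal.ofReal (ρ ^ n) * vb)))) =
              (vb⁻¹ * vb) * (2 * 2⁻¹) * (ENNReal.ofReal (ρ ^ n) * J ^ p) := by ring
          rw [h7, ENNReal.inv_mul_cancel hvb0 hvbt, ENNReal.mul_inv_cancel (by norm_num) (by norm_num),
            one_mul, one_mul]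
      _ ≤ 2 / vb * ∫⁻ y in A k, F y ^ p := by
          rw [← hvB]
          gcongr
          exact le_trans (by gcongr) hint
  calc ∑' k : ℕ, (ENNReal.ofReal ((t * 2 ^ k) ^ ((n : ℝ) / p)) *
      ⨅ y ∈ Metric.ball x (t * 2 ^ k), F y) ^ p
      ≤ ∑' k, 2 / vb * ∫⁻ y in A k, F y ^ p := ENNReal.tsum_le_tsum hterm
    _ = 2 / vb * ∑' k, ∫⁻ y in A k, F y ^ p := ENNReal.tsum_mul_left
    _ = 2 / vb * ∫⁻ y in ⋃ k, A k, F y ^ p := by
        rw [lintegral_iUnion]
        · intro k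
          exact measurableSet_ball.diff measurableSet_ball
        · have key : ∀ i j : ℕ, i < j → Disjoint (A i) (A j) := by
            intro i j hij
            refine Set.disjoint_left.2 fun y hy hy' => hy'.2 ?_
            refine Metric.ball_subset_ball ?_ hy.1
            have h8 : (2 : ℝ) ^ (i + 1) ≤ 2 ^ j := pow_le_pow_right₀ (by norm_num) hij
            rw [pow_succ] at h8
            nlinarith
          intro i j hij
          rcases lt_or_gt_of_ne hij with h9 | h9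
          · exact key i j h9
          · exact (key j i h9).symm
    _ ≤ 2 / vb * ∫⁻ y, F y ^ p := by
        exact mul_le_mul_right (setLIntegral_le_lintegral _ _) _

end Pool.Agent.Helper656.Cap
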