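import Pool.Agent.Helper656.CapFourier

open MeasureTheory SchwartzMap
open scoped ENNReal NNReal FourierTransform SchwartzMap RealInnerProductSpace ContDiff

namespace Pool.Agent.Helper656.Cap

variable {n : ℕ}

theorem gauss_poly_bound (K : ℕ) {a : ℝ} (ha : 0 < a) :
    ∃ C : ℝ, ∀ r : ℝ, 0 ≤ r → (1 + r) ^ K * Real.exp (-(a * r ^ 2)) ≤ C := by
  refine ⟨2 ^ K * (1 + K.factorial / a ^ K), ?_⟩
  intro r hr
  have h1 : (1 + r) ^ K ≤ 2 ^ K * (1 + (r ^ 2) ^ K) := by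
    rcases le_total r 1 with h | h
    · calc (1 + r) ^ K ≤ 2 ^ K := by
            apply pow_le_pow_left₀ (by linarith)
            linarith
        _ ≤ 2 ^ K * (1 + (r ^ 2) ^ K) := by
            have : 0 ≤ (r ^ 2) ^ K := by positivity
            nlinarith [pow_pos (by norm_num : (0 : ℝ) < 2) K]
    · calc (1 + r) ^ K ≤ (2 * r ^ 2) ^ K := by
            apply pow_le_pow_left₀ (by linarith)
            nlinarith
        _ = 2 ^ K * (r ^ 2) ^ K := mul_pow _ _ _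
        _ ≤ 2 ^ K * (1 + (r ^ 2) ^ K) := by
            have : (0 : ℝ) < 2 ^ K := by positivity
            nlinarith
  have h2 : (a * r ^ 2) ^ K / K.factorial ≤ Real.exp (a * r ^ 2) :=
    Real.pow_div_factorial_le_exp _ (by positivity) K
  have h3 : Real.exp (-(a * r ^ 2)) ≤ 1 := by
    rw [Real.exp_le_one_iff]
    have : 0 ≤ a * r ^ 2 := by positivity
    linarith
  have h4 : (r ^ 2) ^ K * Real.exp (-(a * r ^ 2)) ≤ K.factorial / a ^ K := by
    rw [Real.exp_neg, ← div_eq_mul_inv, div_le_div_iff₀ (Real.exp_pos _) (by positivity)]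
    rw [div_le_iff₀ (by positivity), mul_pow] at h2
    linarith
  calc (1 + r) ^ K * Real.exp (-(a * r ^ 2))
      ≤ 2 ^ K * (1 + (r ^ 2) ^ K) * Real.exp (-(a * r ^ 2)) := by gcongr
    _ = 2 ^ K * (Real.exp (-(a * r ^ 2)) + (r ^ 2) ^ K * Real.exp (-(a * r ^ 2))) := by ring
    _ ≤ 2 ^ K * (1 + K.factorial / a ^ K) := by gcongr

/-- TARGET -/
theorem exists_gauss : ∃ g : 𝓢(E n, ℂ), ∀ ξ,
    g ξ = ((Real.exp (-(4 * Real.pi ^ 2 * ‖ξ‖ ^ 2)) : ℝ) : ℂ) := by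
  set a : ℝ := 4 * Real.pi ^ 2 with ha
  have ha0 : 0 < a := by rw [ha]; positivity
  set q : E n → ℝ := fun ξ => -(a * ‖ξ‖ ^ 2) with hq
  have hqt : q.HasTemperateGrowth := by
    have h1 : (fun ξ : E n => ‖ξ‖ ^ 2).HasTemperateGrowth :=
      Function.hasTemperateGrowth_norm_sq (E n)
    have h2 : (fun ξ : E n => (-a) * ‖ξ‖ ^ 2).HasTemperateGrowth :=
      (Function.HasTemperateGrowth.const (-a)).mul h1
    have h3 : q = fun ξ : E n => (-a) * ‖ξ‖ ^ 2 := by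
      funext ξ; rw [hq]; ring
    rw [h3]; exact h2
  have hqs : ContDiff ℝ ∞ q := hqt.1
  have hreal : ContDiff ℝ ∞ (Real.exp ∘ q) := Real.contDiff_exp.comp hqs
  have hcomp : ContDiff ℝ ∞ (Complex.ofRealLI ∘ (Real.exp ∘ q)) :=
    Complex.ofRealLI.contDiff.comp hreal
  refine ⟨⟨Complex.ofRealLI ∘ (Real.exp ∘ q), hcomp, ?_⟩, fun ξ => rfl⟩
  intro m l
  obtain ⟨k, C, hC0, hC⟩ := hqt.norm_iteratedFDeriv_le_uniform l
  obtain ⟨C', hC'⟩ := gauss_poly_bound (m + k * l) ha0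
  refine ⟨(l.factorial : ℝ) * (1 + C) ^ l * C', ?_⟩
  intro x
  rw [LinearIsometry.norm_iteratedFDeriv_comp_left (n := ∞) _ hreal.contDiffAt
    (by exact_mod_cast le_top)]
  have hD1 : 1 ≤ (1 + C) * (1 + ‖x‖) ^ k := by
    have h1 : 1 ≤ (1 + ‖x‖) ^ k := one_le_pow₀ (by linarith [norm_nonneg x])
    nlinarith
  have hb : ‖iteratedFDeriv ℝ l (Real.exp ∘ q) x‖ ≤
      (l.factorial : ℝ) * Real.exp (q x) * ((1 + C) * (1 + ‖x‖) ^ k) ^ l := by
    apply norm_iteratedFDeriv_comp_le (N := ∞) Real.contDiff_exp hqs (by exact_mod_cast le_top)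
    · intro i _
      rw [norm_iteratedFDeriv_eq_norm_iteratedDeriv, iteratedDeriv_eq_iterate,
        Real.iter_deriv_exp, Real.norm_of_nonneg (Real.exp_pos _).le]
    · intro i hi1 hi2
      calc ‖iteratedFDeriv ℝ i q x‖ ≤ C * (1 + ‖x‖) ^ k := hC i hi2 x
        _ ≤ (1 + C) * (1 + ‖x‖) ^ k := by gcongr; linarith
        _ ≤ ((1 + C) * (1 + ‖x‖) ^ k) ^ i := le_self_pow₀ hD1 (by omega)
  have hq' : q x = -(a * ‖x‖ ^ 2) := rfl
  calc ‖x‖ ^ m * ‖iteratedFDeriv ℝ l (Real.exp ∘ q) x‖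
      ≤ (1 + ‖x‖) ^ m * ((l.factorial : ℝ) * Real.exp (q x) *
        ((1 + C) * (1 + ‖x‖) ^ k) ^ l) := by
        gcongr
        linarith [norm_nonneg x]
    _ = (l.factorial : ℝ) * (1 + C) ^ l * ((1 + ‖x‖) ^ (m + k * l) * Real.exp (q x)) := by
        rw [mul_pow, pow_add, pow_mul]; ring
    _ ≤ (l.factorial : ℝ) * (1 + C) ^ l * C' := by
        rw [hq']
        have := hC' ‖x‖ (norm_nonneg x)
        gcongr

end Pool.Agent.Helper656.Cap
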