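import Pool.Agent.Helper656.CapSlice

open MeasureTheory SchwartzMap
open scoped ENNReal NNReal FourierTransform SchwartzMap RealInnerProductSpace

namespace Pool.Agent.Helper656.Cap

variable {n : ℕ}

theorem fourierInv_gen (g : 𝓢(E n, ℂ)) {r : ℝ} (hr : 0 < r) (ξ : E n) :
    𝓕⁻ (dil 0 r hr (𝓕 g)) ξ = g (r • ξ) := by
  rw [fourierInv_dil, FourierTransform.fourierInv_fourier_eq, inner_zero_left]
  simp

theorem slice_bound_gen (N : ℕ) (g : 𝓢(E n, ℂ)) : ∃ C : ℝ≥0, ∀ (h : 𝓢'(E n, ℂ)) (m : E n → ℂ), Continuous m →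
    (∃ (k : ℕ) (C : ℝ), ∀ ξ, ‖m ξ‖ ≤ C * (1 + ‖ξ‖) ^ k) →
    (∀ φ : 𝓢(E n, ℂ), (𝓕 h) φ = ∫ ξ, m ξ * φ ξ) →
    ∀ (x : E n) (t : ℝ) (ht : 0 < t) (r : ℝ), 0 < r → ∀ x' ∈ Metric.ball x (max r t),
      ‖∫ ξ, m ξ * 𝓕⁻ (dil x (t / 2) (half_pos ht) bmp) ξ * g (r • ξ)‖ₑ ≤
        C * grandMax N h x' := by
  obtain ⟨C1, hC1, hA1⟩ := exists_adaptedC (n := n) N (𝓕 g)
  obtain ⟨C2, hC2, hA2⟩ := exists_adaptedC (n := n) N (bmp : 𝓢(E n, ℂ))
  set K1 : ℝ≥0∞ := ∫⁻ z, ‖(bmp : 𝓢(E n, ℂ)) z‖ₑ with hK1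
  set K2 : ℝ≥0∞ := ∫⁻ z, ‖(𝓕 g : 𝓢(E n, ℂ)) z‖ₑ *
    ENNReal.ofReal ((3 + 2 * ‖z‖) ^ N) with hK2
  have hK1' : K1 ≠ ∞ := by
    have := (bmp : 𝓢(E n, ℂ)).integrable (μ := volume) |>.hasFiniteIntegral
    exact this.ne
  have hK2' : K2 ≠ ∞ := (lintegral_weight_lt_top _ N).ne
  refine ⟨(K1 * ENNReal.ofReal (C1 * 3 ^ N) + K2 * ENNReal.ofReal C2).toNNReal, ?_⟩
  intro h m hm hg hh x t ht r hr x' hx'
  rw [ENNReal.coe_toNNReal (by
    exact ENNReal.add_ne_top.2 ⟨ENNReal.mul_ne_top hK1' ENNReal.ofReal_ne_top,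
      ENNReal.mul_ne_top hK2' ENNReal.ofReal_ne_top⟩)]
  set φ : 𝓢(E n, ℂ) := dil x (t / 2) (half_pos ht) bmp with hφ
  set γr : 𝓢(E n, ℂ) := dil 0 r hr (𝓕 g) with hγr
  rcases le_or_gt t r with htr | htr
  · -- case `t ≤ r`
    rw [max_eq_left htr, Metric.mem_ball, dist_eq_norm] at hx'
    have e1 : ∫ ξ, m ξ * 𝓕⁻ φ ξ * g (r • ξ) =
        ∫ y, φ y * h (γr.compSubConstCLM ℂ y) := by
      rw [← pairing_conv h m hm hg hh φ γr]
      refine integral_congr_ae (Filter.Eventually.of_forall fun ξ => ?_)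
      simp only
      rw [hγr, fourierInv_gen, mul_assoc]
    rw [e1]
    calc ‖∫ y, φ y * h (γr.compSubConstCLM ℂ y)‖ₑ ≤ ∫⁻ y, ‖φ y * h (γr.compSubConstCLM ℂ y)‖ₑ :=
          enorm_integral_le_lintegral_enorm _
      _ ≤ ∫⁻ y, ‖φ y‖ₑ * (ENNReal.ofReal (C1 * 3 ^ N) * grandMax N h x') := by
          refine lintegral_mono fun y => ?_
          rw [enorm_mul]
          by_cases hy : φ y = 0
          · rw [hy, enorm_zero, zero_mul, zero_mul]
          gcongr
          rw [hγr, dil_compSub, zero_add]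
          have h1 : ‖y - x‖ ≤ t := by
            rw [hφ, dil_apply] at hy
            have h2 : (bmp : 𝓢(E n, ℂ)) ((t / 2)⁻¹ • (y - x)) ≠ 0 := right_ne_zero_of_mul hy
            have h3 := bmp_ne_zero_norm h2
            rw [norm_smul, Real.norm_of_nonneg (by positivity), inv_mul_lt_iff₀ (by positivity)] at h3
            linarith
          have h2 : ‖y - x'‖ / r ≤ 2 := by
            rw [div_le_iff₀ hr]
            calc ‖y - x'‖ = ‖(y - x) - (x' - x)‖ := by congr 1; abel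
              _ ≤ ‖y - x‖ + ‖x' - x‖ := norm_sub_le _ _
              _ ≤ 2 * r := by linarith
          have h3 := ((hA1.dil y hr).shift hr x')
          have h4 : AdaptedC N x' r (C1 * 3 ^ N) (dil y r hr (𝓕 g)) := by
            apply h3.mono
            gcongr
            linarith
          exact h4.enorm_le hr (by positivity) h
      _ = K1 * ENNReal.ofReal (C1 * 3 ^ N) * grandMax N h x' := by
          rw [lintegral_mul_const _ (φ.continuous.enorm.measurable), hφ, lintegral_enorm_dil,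
            mul_assoc]
      _ ≤ _ := by
          gcongr
          exact le_self_add
  · rw [max_eq_right htr.le, Metric.mem_ball, dist_eq_norm] at hx'
    have e1 : ∫ ξ, m ξ * 𝓕⁻ φ ξ * g (r • ξ) =
        ∫ y, γr y * h (φ.compSubConstCLM ℂ y) := by
      rw [← pairing_conv h m hm hg hh γr φ]
      refine integral_congr_ae (Filter.Eventually.of_forall fun ξ => ?_)
      simp only
      rw [hγr, fourierInv_gen]
      ring
    rw [e1]
    calc ‖∫ y, γr y * h (φ.compSubConstCLM ℂ y)‖ₑ ≤ ∫⁻ y, ‖γr y * h (φ.compSubConstCLM ℂ y)‖ₑ :=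
          enorm_integral_le_lintegral_enorm _
      _ ≤ ∫⁻ y, ‖γr y‖ₑ * (fun z : E n => ENNReal.ofReal ((3 + 2 * ‖z‖) ^ N)) (r⁻¹ • (y - 0)) *
            (ENNReal.ofReal C2 * grandMax N h x') := by
          refine lintegral_mono fun y => ?_
          simp only
          rw [enorm_mul, mul_assoc]
          gcongr
          rw [hφ, dil_compSub, sub_zero]
          have ht2 : 0 < t / 2 := half_pos ht
          have h3 := ((hA2.dil (x + y) ht2).shift ht2 x')
          have h5 : ‖x + y - x'‖ / (t / 2) ≤ 2 + 2 * ‖r⁻¹ • y‖ := by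
            rw [norm_smul, Real.norm_of_nonneg (by positivity), div_le_iff₀ ht2]
            have h6 : ‖x + y - x'‖ ≤ ‖y‖ + t := by
              calc ‖x + y - x'‖ = ‖y - (x' - x)‖ := by congr 1; abel
                _ ≤ ‖y‖ + ‖x' - x‖ := norm_sub_le _ _
                _ ≤ ‖y‖ + t := by linarith
            have h7 : ‖y‖ ≤ r⁻¹ * ‖y‖ * t := by
              have : 1 ≤ r⁻¹ * t := by
                rw [← div_eq_inv_mul, le_div_iff₀ hr]; linarith
              nlinarith [norm_nonneg y]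
            nlinarith
          have h4 : AdaptedC N x' (t / 2) (C2 * (3 + 2 * ‖r⁻¹ • y‖) ^ N)
              (dil (x + y) (t / 2) (half_pos ht) bmp) := by
            apply h3.mono
            apply mul_le_mul_of_nonneg_left _ hC2.le
            apply pow_le_pow_left₀ (by positivity)
            linarith
          have h8 := h4.enorm_le ht2 (by positivity) h
          refine h8.trans (le_of_eq ?_)
          rw [ENNReal.ofReal_mul hC2.le]
          ring
      _ = K2 * ENNReal.ofReal C2 * grandMax N h x' := by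
          have hw : Measurable (fun z : E n => ENNReal.ofReal ((3 + 2 * ‖z‖) ^ N)) :=
            ENNReal.measurable_ofReal.comp (by fun_prop)
          have hm1 : Measurable (fun y : E n => ‖γr y‖ₑ *
              (fun z : E n => ENNReal.ofReal ((3 + 2 * ‖z‖) ^ N)) (r⁻¹ • (y - 0))) :=
            (γr.continuous.enorm.measurable).mul
              (hw.comp ((measurable_id.sub_const (0 : E n)).const_smul r⁻¹))
          rw [lintegral_mul_const _ hm1, hγr,
            lintegral_dil (0 : E n) hr (𝓕 g) _ hw, mul_assoc]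
      _ ≤ _ := by
          gcongr
          exact le_add_self

end Pool.Agent.Helper656.Cap
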