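import Pool.Agent.Helper656.CapDefs

open MeasureTheory
open scoped ENNReal NNReal

namespace Pool.Agent.Helper656.Cap

/-- index of the grid cube of side `l` containing `x` -/
noncomputable def cidx {n : ℕ} (l : ℝ) (x : E n) : Fin n → ℤ := fun i => ⌊x i / l⌋

/-- the corner of a grid cube of side `l` -/
noncomputable def corner {n : ℕ} (l : ℝ) (v : Fin n → ℤ) : E n :=
  WithLp.toLp 2 (fun i => l * (v i : ℝ))

lemma cidx_corner {n : ℕ} {l : ℝ} (hl : 0 < l) (v : Fin n → ℤ) :
    cidx l (corner l v) = v := by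
  funext i
  simp only [cidx, corner]
  rw [mul_div_cancel_left₀ _ hl.ne', Int.floor_intCast]

lemma cidx_double {n : ℕ} {l : ℝ} {x y : E n} (h : cidx l x = cidx l y) :
    cidx (2 * l) x = cidx (2 * l) y := by
  funext i
  have h1 : ∀ z : E n, cidx (2 * l) z i = cidx l z i / (2 : ℕ) := by
    intro z
    simp only [cidx]
    rw [← Int.floor_div_natCast]
    congr 1
    push_cast
    rw [div_div, mul_comm]
  rw [h1, h1, h]

lemma dist_lt_of_cidx_eq {n : ℕ} (hn : 1 ≤ n) {l : ℝ} (hl : 0 < l) {x y : E n}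
    (h : cidx l x = cidx l y) : dist x y < Real.sqrt n * l := by
  have hi : ∀ i, (x i - y i) ^ 2 < l ^ 2 := by
    intro i
    have h1 : ⌊x i / l⌋ = ⌊y i / l⌋ := congrFun h i
    have h2 := Int.abs_sub_lt_one_of_floor_eq_floor h1
    rw [← sub_div, abs_div, abs_of_pos hl, div_lt_one hl] at h2
    rw [← sq_abs (x i - y i)]
    have := abs_nonneg (x i - y i)
    nlinarith
  rw [EuclideanSpace.dist_eq]
  have h3 : Real.sqrt n * l = Real.sqrt (n * l ^ 2) := by
    rw [Real.sqrt_mul (by positivity), Real.sqrt_sq hl.le]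
  rw [h3]
  apply Real.sqrt_lt_sqrt (by positivity)
  have h4 : ∑ i : Fin n, dist (x i) (y i) ^ 2 < ∑ i : Fin n, l ^ 2 := by
    have : NeZero n := ⟨by omega⟩
    apply Finset.sum_lt_sum_of_nonempty ⟨0, Finset.mem_univ _⟩
    intro i _
    rw [Real.dist_eq, sq_abs]
    exact hi i
  simpa using h4

lemma measurable_cidx {n : ℕ} (l : ℝ) : Measurable (cidx (n := n) l) := by
  refine measurable_pi_lambda _ fun i => ?_
  simp only [cidx]
  apply Int.measurable_floor.comp
  apply Measurable.div_const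
  fun_prop

lemma volume_cell {n : ℕ} {l : ℝ} (hl : 0 < l) (v : Fin n → ℤ) :
    volume {x : E n | cidx l x = v} = ENNReal.ofReal l ^ n := by
  have h1 : {x : E n | cidx l x = v} =
      (WithLp.ofLp : E n → (Fin n → ℝ)) ⁻¹'
        (Set.pi Set.univ fun i => Set.Ico (l * (v i : ℝ)) (l * (v i : ℝ) + l)) := by
    ext x
    simp only [Set.mem_preimage, Set.mem_pi, Set.mem_univ, true_imp_iff, Set.mem_Ico]
    constructor
    · intro h i
      have h2 : ⌊x i / l⌋ = v i := congrFun h i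
      rw [Int.floor_eq_iff, le_div_iff₀ hl, div_lt_iff₀ hl] at h2
      constructor
      · nlinarith [h2.1]
      · nlinarith [h2.2]
    · intro h
      funext i
      change ⌊x i / l⌋ = v i
      rw [Int.floor_eq_iff, le_div_iff₀ hl, div_lt_iff₀ hl]
      constructor
      · nlinarith [(h i).1]
      · nlinarith [(h i).2]
  rw [h1, (PiLp.volume_preserving_ofLp (Fin n)).measure_preimage
    (MeasurableSet.univ_pi fun i => measurableSet_Ico).nullMeasurableSet, Real.volume_pi_Ico]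
  simp

lemma corner_const {n : ℕ} {l : ℝ} (hl : 0 < l) {f : E n → ℝ≥0∞}
    (hf : ∀ x y, cidx l x = cidx l y → f x = f y) (x : E n) :
    f x = f (corner l (cidx l x)) := hf _ _ (cidx_corner hl _).symm

lemma measurable_of_cell {n : ℕ} {l : ℝ} (hl : 0 < l) {f : E n → ℝ≥0∞}
    (hf : ∀ x y, cidx l x = cidx l y → f x = f y) : Measurable f := by
  have h1 : f = (fun v => f (corner l v)) ∘ cidx l := by
    funext x
    exact corner_const hl hf x
  rw [h1]
  exact (measurable_of_countable _).comp (measurable_cidx l)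

lemma lintegral_cell {n : ℕ} {l : ℝ} (hl : 0 < l) {f : E n → ℝ≥0∞}
    (hf : ∀ x y, cidx l x = cidx l y → f x = f y) :
    ∫⁻ x, f x = ∑' v : Fin n → ℤ, ENNReal.ofReal l ^ n * f (corner l v) := by
  have hU : (⋃ v : Fin n → ℤ, {x : E n | cidx l x = v}) = Set.univ := by
    ext x; simp
  rw [← setLIntegral_univ, ← hU, lintegral_iUnion]
  · refine tsum_congr fun v => ?_
    have h2 : ∀ x ∈ {x : E n | cidx l x = v}, f x = f (corner l v) := by
      intro x hx
      apply hf
      rw [cidx_corner hl]; exact hx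
    rw [setLIntegral_congr_fun ?_ h2]
    · rw [setLIntegral_const, volume_cell hl, mul_comm]
    · exact measurable_cidx l (measurableSet_singleton v)
  · intro v
    exact measurable_cidx l (measurableSet_singleton v)
  · intro v w hvw
    refine Set.disjoint_left.2 fun x hx hx' => hvw ?_
    exact hx.symm.trans hx'


/-- side length of the generation `j` cubes -/
noncomputable def sd (L : ℝ) (j : ℕ) : ℝ := L / 2 ^ j

lemma sd_pos {L : ℝ} (hL : 0 < L) (j : ℕ) : 0 < sd L j := by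
  unfold sd; positivity

lemma sd_double (L : ℝ) (j : ℕ) : sd L j = 2 * sd L (j + 1) := by
  unfold sd; rw [pow_succ]; field_simp

lemma cidx_anc {n : ℕ} {L : ℝ} {x y : E n} {i j : ℕ} (hij : j ≤ i)
    (h : cidx (sd L i) x = cidx (sd L i) y) : cidx (sd L j) x = cidx (sd L j) y := by
  induction i, hij using Nat.le_induction with
  | base => exact h
  | succ k hk ih =>
    apply ih
    rw [sd_double L k]
    exact cidx_double h

/-- volume of a level interval -/
lemma vol_level (s a : ℝ≥0∞) (ε : ℝ) :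
    (volume.restrict (Set.Ioo (0 : ℝ) ε))
      {t : ℝ | s ≤ ENNReal.ofReal t ∧ ENNReal.ofReal t < s + a} ≤ a := by
  rcases eq_or_ne a ∞ with ha | ha
  · rw [ha]; exact le_top
  rcases eq_or_ne s ∞ with hs | hs
  · have : {t : ℝ | s ≤ ENNReal.ofReal t ∧ ENNReal.ofReal t < s + a} = ∅ := by
      ext t
      simp only [Set.mem_ofPred_eq, Set.mem_empty_iff_false, iff_false, not_and]
      intro h
      rw [hs, top_le_iff] at h
      exact absurd h ENNReal.ofReal_ne_top
    rw [this]; simp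
  · have h0 : (volume.restrict (Set.Ioo (0 : ℝ) ε))
      {t : ℝ | s ≤ ENNReal.ofReal t ∧ ENNReal.ofReal t < s + a} ≤
        volume (Set.Ico s.toReal (s + a).toReal) := by
      rw [Measure.restrict_apply' measurableSet_Ioo]
      apply measure_mono
      rintro t ⟨⟨h1, h2⟩, h3, h4⟩
      constructor
      · exact (ENNReal.le_ofReal_iff_toReal_le hs h3.le).1 h1
      · exact (ENNReal.ofReal_lt_iff_lt_toReal h3.le (by simp [hs, ha])).1 h2
    refine h0.trans (le_of_eq ?_)
    rw [Real.volume_Ico, ENNReal.toReal_add hs ha, add_sub_cancel_left,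
      ENNReal.ofReal_toReal ha]

lemma content_of_levels {n : ℕ} (hn : 1 ≤ n) {a' d : ℝ} (hd : 0 < d)
    (had : a' + d = n) {L : ℝ} (hL : 0 < L) (b : ℕ → E n → ℝ≥0∞)
    (hb : ∀ j x y, cidx (sd L j) x = cidx (sd L j) y → b j x = b j y)
    (G : E n → ℝ≥0∞) (hbs : ∀ x, ∑' j, b j x ≤ G x) (K : Set (E n)) (C₄ : ℝ≥0) (hC₄ : 0 < C₄)
    (hK : ∀ x ∈ K, 1 ≤ (C₄ : ℝ≥0∞) * ∑' j, ENNReal.ofReal (sd L j ^ a') * b j x) :
    hausdorffContent d K ≤ ENNReal.ofReal (Real.sqrt n ^ d) * (C₄ * ∫⁻ x, G x) := by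
  classical
  set a : ℕ → E n → ℝ≥0∞ := fun j x => ENNReal.ofReal (sd L j ^ a') * b j x with ha
  have hac : ∀ j x y, cidx (sd L j) x = cidx (sd L j) y → a j x = a j y := by
    intro j x y h
    simp only [ha]
    rw [hb j x y h]
  set S : ℕ → E n → ℝ≥0∞ := fun i x => ∑ j ∈ Finset.range i, a j x with hS
  have hSc : ∀ i x y, cidx (sd L i) x = cidx (sd L i) y → S i x = S i y := by
    intro i x y h
    simp only [hS]
    apply Finset.sum_congr rfl
    intro j hj
    exact hac j x y (cidx_anc (Finset.mem_range.1 hj).le h)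
  have hSs : ∀ i x, S (i + 1) x = S i x + a i x := by
    intro i x
    simp only [hS]
    rw [Finset.sum_range_succ]
  set cr : ℕ × (Fin n → ℤ) → E n := fun q => corner (sd L q.1) q.2 with hcr
  set T : ℕ × (Fin n → ℤ) → Set ℝ := fun q =>
    {t : ℝ | S q.1 (cr q) ≤ ENNReal.ofReal t ∧ ENNReal.ofReal t < S q.1 (cr q) + a q.1 (cr q)}
    with hT
  have hTm : ∀ q, MeasurableSet (T q) := by
    intro q
    simp only [hT]
    apply MeasurableSet.inter
    · exact measurableSet_le measurable_const ENNReal.measurable_ofReal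
    · exact measurableSet_lt ENNReal.measurable_ofReal measurable_const
  set w : ℕ → ℝ≥0∞ := fun i => ENNReal.ofReal (sd L i ^ d) with hw
  set H : ℝ → ℝ≥0∞ := fun t => ∑' q, (T q).indicator (fun _ => w q.1) t with hH
  set ε : ℝ := ((C₄ : ℝ))⁻¹ with hε
  have hεpos : 0 < ε := by
    rw [hε]; positivity
  have hHm : Measurable H := by
    apply Measurable.tsum
    intro q
    exact measurable_const.indicator (hTm q)
  have hint : ∫⁻ t in Set.Ioo (0 : ℝ) ε, H t ≤ ∫⁻ x, G x := by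
    calc ∫⁻ t in Set.Ioo (0 : ℝ) ε, H t
        = ∑' q, ∫⁻ t in Set.Ioo (0 : ℝ) ε, (T q).indicator (fun _ => w q.1) t := by
          rw [← lintegral_tsum]
          intro q
          exact (measurable_const.indicator (hTm q)).aemeasurable
      _ ≤ ∑' q : ℕ × (Fin n → ℤ), w q.1 * a q.1 (cr q) := by
          apply ENNReal.tsum_le_tsum
          intro q
          rw [lintegral_indicator_const (hTm q)]
          gcongr
          exact vol_level _ _ _
      _ = ∑' j : ℕ, ∑' v : Fin n → ℤ, ENNReal.ofReal (sd L j) ^ n * b j (corner (sd L j) v) := by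
          rw [ENNReal.tsum_prod']
          refine tsum_congr fun j => tsum_congr fun v => ?_
          simp only [ha, hw, hcr]
          rw [← mul_assoc]
          congr 1
          have hp := sd_pos hL j
          rw [← ENNReal.ofReal_mul (by positivity), ← Real.rpow_add hp, add_comm d a', had,
            Real.rpow_natCast, ENNReal.ofReal_pow hp.le]
      _ = ∑' j : ℕ, ∫⁻ x, b j x := by
          refine tsum_congr fun j => ?_
          rw [lintegral_cell (sd_pos hL j) (hb j)]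
      _ = ∫⁻ x, ∑' j : ℕ, b j x := by
          rw [← lintegral_tsum]
          intro j
          exact (measurable_of_cell (sd_pos hL j) (hb j)).aemeasurable
      _ ≤ ∫⁻ x, G x := lintegral_mono hbs
  have hvol : (volume (Set.Ioo (0 : ℝ) ε)) = ENNReal.ofReal ε := by
    rw [Real.volume_Ioo, sub_zero]
  obtain ⟨t, ht, hHt⟩ := exists_le_setLAverage (μ := volume) (s := Set.Ioo (0 : ℝ) ε) (f := H)
    (by rw [hvol]; simpa using hεpos) (by rw [hvol]; exact ENNReal.ofReal_ne_top)
    hHm.aemeasurable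
  have hHt2 : H t ≤ C₄ * ∫⁻ x, G x := by
    refine hHt.trans ?_
    rw [setLAverage_eq, hvol, hε, ENNReal.div_eq_inv_mul, ENNReal.ofReal_inv_of_pos (by positivity),
      inv_inv, ENNReal.ofReal_coe_nnreal]
    gcongr
  -- the cover
  obtain ⟨hden⟩ := nonempty_denumerable (ℕ × (Fin n → ℤ))
  set e : (ℕ × (Fin n → ℤ)) ≃ ℕ := Denumerable.eqv _ with he
  set rr : ℕ × (Fin n → ℤ) → ℝ≥0 := fun q =>
    if t ∈ T q then Real.toNNReal (Real.sqrt n * sd L q.1) else 0 with hrr
  calc hausdorffContent d K ≤ ∑' i, (rr (e.symm i) : ℝ≥0∞) ^ d := by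
        unfold hausdorffContent
        refine iInf_le_of_le (fun i => cr (e.symm i)) (iInf_le_of_le (fun i => rr (e.symm i))
          (iInf_le_of_le ?_ le_rfl))
        intro x hx
        have h1 : ∃ i, ENNReal.ofReal t < S (i + 1) x := by
          by_contra hcon
          push Not at hcon
          have h2 : ∑' j, a j x ≤ ENNReal.ofReal t := by
            rw [ENNReal.tsum_eq_iSup_nat]
            apply iSup_le
            intro i
            refine le_trans ?_ (hcon i)
            simp only [hS]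
            apply Finset.sum_le_sum_of_subset
            intro j hj
            simp only [Finset.mem_range] at hj ⊢
            omega
          have h3 := hK x hx
          have h4 : (C₄ : ℝ≥0∞) * ∑' j, a j x ≤ C₄ * ENNReal.ofReal t := by gcongr
          have h5 : (C₄ : ℝ≥0∞) * ENNReal.ofReal t < 1 := by
            rw [← ENNReal.ofReal_coe_nnreal, ← ENNReal.ofReal_mul (by positivity),
              ENNReal.ofReal_lt_one]
            have := ht.2
            rw [hε] at this
            calc (C₄ : ℝ) * t < C₄ * (C₄ : ℝ)⁻¹ := by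
                  apply mul_lt_mul_of_pos_left this; positivity
              _ = 1 := by
                  apply mul_inv_cancel₀; positivity
          exact absurd (h3.trans h4) (not_le.2 h5)
        set i := Nat.find h1 with hi
        have hi1 : ENNReal.ofReal t < S (i + 1) x := Nat.find_spec h1
        have hi2 : S i x ≤ ENNReal.ofReal t := by
          rcases Nat.eq_zero_or_pos i with h0 | h0
          · rw [h0]; simp [hS]
          · have := Nat.find_min h1 (m := i - 1) (by omega)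
            rw [not_lt, show i - 1 + 1 = i by omega] at this
            exact this
        set q : ℕ × (Fin n → ℤ) := (i, cidx (sd L i) x) with hq
        have hcq : cidx (sd L i) (cr q) = cidx (sd L i) x := by
          simp only [hcr, hq]
          exact cidx_corner (sd_pos hL i) _
        have htq : t ∈ T q := by
          simp only [hT, Set.mem_ofPred_eq]
          rw [hSs] at hi1
          have e1 : S q.1 (cr q) = S i x := hSc i _ _ hcq
          have e2 : a q.1 (cr q) = a i x := hac i _ _ hcq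
          rw [e1, e2]
          exact ⟨hi2, hi1⟩
        refine Set.mem_iUnion.2 ⟨e q, ?_⟩
        rw [Metric.mem_ball]
        simp only [Equiv.symm_apply_apply, hrr, if_pos htq]
        rw [Real.coe_toNNReal _ (by have := sd_pos hL q.1; positivity)]
        exact dist_lt_of_cidx_eq hn (sd_pos hL i) hcq.symm
    _ = ∑' q, (rr q : ℝ≥0∞) ^ d := e.symm.tsum_eq (fun q => (rr q : ℝ≥0∞) ^ d)
    _ = ∑' q, ENNReal.ofReal (Real.sqrt n ^ d) * (T q).indicator (fun _ => w q.1) t := by
        refine tsum_congr fun q => ?_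
        by_cases htq : t ∈ T q
        · simp only [hrr, if_pos htq, Set.indicator_of_mem htq, hw]
          have hp := sd_pos hL q.1
          rw [← ENNReal.ofReal_mul (by positivity), ← Real.mul_rpow (by positivity) hp.le]
          change ENNReal.ofReal _ ^ d = _
          rw [ENNReal.ofReal_rpow_of_nonneg (by positivity) hd.le]
        · simp only [hrr, if_neg htq, Set.indicator_of_notMem htq, mul_zero]
          simp [hd]
    _ = ENNReal.ofReal (Real.sqrt n ^ d) * H t := by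
        rw [ENNReal.tsum_mul_left]
    _ ≤ _ := by gcongr


lemma rpow_tsum_le {p : ℝ} (hp : 0 < p) (hp1 : p ≤ 1) (f : ℕ → ℝ≥0∞) :
    (∑' k, f k) ^ p ≤ ∑' k, f k ^ p := by
  have hfin : ∀ N, (∑ k ∈ Finset.range N, f k) ^ p ≤ ∑ k ∈ Finset.range N, f k ^ p := by
    intro N
    induction N with
    | zero => simp [hp]
    | succ N ih =>
      rw [Finset.sum_range_succ, Finset.sum_range_succ]
      exact (ENNReal.rpow_add_le_add_rpow _ _ hp.le hp1).trans (by gcongr)
  rw [← ENNReal.le_rpow_inv_iff hp, ENNReal.tsum_eq_iSup_nat]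
  apply iSup_le
  intro N
  rw [ENNReal.le_rpow_inv_iff hp]
  exact (hfin N).trans (ENNReal.sum_le_tsum _)

lemma abel_sum (c b g : ℕ → ℝ≥0∞) (hg : ∀ j, g j = ∑ i ∈ Finset.range (j + 1), b i) :
    ∑' j, c j * g j = ∑' i, b i * ∑' m, c (i + m) := by
  calc ∑' j, c j * g j = ∑' j, ∑' i, if i ≤ j then c j * b i else 0 := by
        refine tsum_congr fun j => ?_
        rw [hg, Finset.mul_sum, tsum_eq_sum (s := Finset.range (j + 1))]
        · apply Finset.sum_congr rfl
          intro i hi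
          rw [if_pos (by simp at hi; omega)]
        · intro i hi
          rw [if_neg (by simp at hi; omega)]
    _ = ∑' i, ∑' j, if i ≤ j then c j * b i else 0 := ENNReal.tsum_comm
    _ = ∑' i, b i * ∑' m, c (i + m) := by
        refine tsum_congr fun i => ?_
        rw [← ENNReal.tsum_mul_left]
        have hinj : Function.Injective (fun m : ℕ => i + m) := add_right_injective i
        rw [← hinj.tsum_eq (f := fun j => if i ≤ j then c j * b i else 0)]
        · refine tsum_congr fun m => ?_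
          rw [if_pos (by omega), mul_comm]
        · intro j hj
          have : i ≤ j := by
            by_contra hc
            exact hj (if_neg hc)
          exact ⟨j - i, by simp; omega⟩

/-- infimum over the generation `j` cube -/
noncomputable def ginf {n : ℕ} (G : E n → ℝ≥0∞) (L : ℝ) (j : ℕ) (x : E n) : ℝ≥0∞ :=
  ⨅ (y : E n) (_ : cidx (sd L j) y = cidx (sd L j) x), G y

lemma ginf_congr {n : ℕ} (G : E n → ℝ≥0∞) (L : ℝ) (j : ℕ) {x y : E n}
    (h : cidx (sd L j) x = cidx (sd L j) y) : ginf G L j x = ginf G L j y := by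
  unfold ginf
  rw [h]

lemma ginf_mono {n : ℕ} (G : E n → ℝ≥0∞) (L : ℝ) (j : ℕ) (x : E n) :
    ginf G L j x ≤ ginf G L (j + 1) x := by
  unfold ginf
  apply le_iInf₂
  intro y hy
  exact iInf₂_le y (cidx_anc (Nat.le_succ j) hy)

lemma ginf_le {n : ℕ} (G : E n → ℝ≥0∞) (L : ℝ) (j : ℕ) (x : E n) :
    ginf G L j x ≤ G x := by
  unfold ginf
  exact iInf₂_le (f := fun (y : E n) (_ : cidx (sd L j) y = cidx (sd L j) x) => G y) x rfl

/-- increments -/
noncomputable def binc {n : ℕ} (G : E n → ℝ≥0∞) (L : ℝ) : ℕ → E n → ℝ≥0∞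
  | 0, x => ginf G L 0 x
  | j + 1, x => ginf G L (j + 1) x - ginf G L j x

lemma binc_congr {n : ℕ} (G : E n → ℝ≥0∞) (L : ℝ) (j : ℕ) {x y : E n}
    (h : cidx (sd L j) x = cidx (sd L j) y) : binc G L j x = binc G L j y := by
  cases j with
  | zero => exact ginf_congr G L 0 h
  | succ j =>
    simp only [binc]
    rw [ginf_congr G L (j + 1) h, ginf_congr G L j (cidx_anc (Nat.le_succ j) h)]

lemma ginf_eq_sum {n : ℕ} (G : E n → ℝ≥0∞) (L : ℝ) (j : ℕ) (x : E n) :
    ginf G L j x = ∑ i ∈ Finset.range (j + 1), binc G L i x := by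
  induction j with
  | zero => simp [binc]
  | succ j ih =>
    rw [Finset.sum_range_succ, ← ih]
    simp only [binc]
    rw [add_tsub_cancel_of_le (ginf_mono G L j x)]

lemma tsum_binc_le {n : ℕ} (G : E n → ℝ≥0∞) (L : ℝ) (x : E n) :
    ∑' j, binc G L j x ≤ G x := by
  rw [ENNReal.tsum_eq_iSup_nat]
  apply iSup_le
  intro N
  cases N with
  | zero => simp
  | succ N =>
    rw [← ginf_eq_sum]
    exact ginf_le G L N x

lemma tail_geom {L a' : ℝ} (hL : 0 < L) (i : ℕ) :
    ∑' m, ENNReal.ofReal (sd L (i + m) ^ a') =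
      ENNReal.ofReal (sd L i ^ a') * ∑' m : ℕ, ENNReal.ofReal ((2 : ℝ) ^ (-a')) ^ m := by
  rw [← ENNReal.tsum_mul_left]
  refine tsum_congr fun m => ?_
  rw [← ENNReal.ofReal_pow (by positivity), ← ENNReal.ofReal_mul (by have := sd_pos hL i; positivity)]
  congr 1
  rw [← Real.rpow_natCast, ← Real.rpow_mul (by norm_num)]
  have h1 : sd L (i + m) = sd L i * (2 : ℝ) ^ (-(m : ℝ)) := by
    unfold sd
    rw [Real.rpow_neg (by norm_num), Real.rpow_natCast, pow_add]
    field_simp
  rw [h1, Real.mul_rpow (sd_pos hL i).le (by positivity), ← Real.rpow_mul (by norm_num)]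
  congr 2
  ring

lemma geom_lt_top {a' : ℝ} (ha : 0 < a') :
    ∑' m : ℕ, ENNReal.ofReal ((2 : ℝ) ^ (-a')) ^ m < ∞ := by
  rw [ENNReal.tsum_geometric, ENNReal.inv_lt_top, tsub_pos_iff_lt, ENNReal.ofReal_lt_one]
  exact Real.rpow_lt_one_of_one_lt_of_neg (by norm_num) (by linarith)


lemma far_term {n : ℕ} (hn : 1 ≤ n) {a' d p : ℝ} (hp : 0 < p) (had : a' + d = n)
    (F : E n → ℝ≥0∞) (x : E n) {ρ : ℝ} (hρ : 0 < ρ) :
    ENNReal.ofReal (ρ ^ a') * (⨅ y ∈ Metric.ball x ρ, F y) ^ p ≤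
      ENNReal.ofReal (ρ ^ (-d)) * ((∫⁻ y, F y ^ p) / volume (Metric.ball (0 : E n) 1)) := by
  set J : ℝ≥0∞ := ⨅ y ∈ Metric.ball x ρ, F y with hJ
  have : NeZero n := ⟨by omega⟩
  have h1 : J ^ p * volume (Metric.ball x ρ) ≤ ∫⁻ y, F y ^ p := by
    calc J ^ p * volume (Metric.ball x ρ) = ∫⁻ y in Metric.ball x ρ, J ^ p := by
          rw [setLIntegral_const]
      _ ≤ ∫⁻ y in Metric.ball x ρ, F y ^ p := by
          apply setLIntegral_mono' measurableSet_ball
          intro y hy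
          apply ENNReal.rpow_le_rpow _ hp.le
          exact iInf₂_le y hy
      _ ≤ ∫⁻ y, F y ^ p := setLIntegral_le_lintegral _ _
  rw [Measure.addHaar_ball _ _ hρ.le, finrank_euclideanSpace_fin] at h1
  have h2 : ρ ^ a' = ρ ^ (-d) * ρ ^ n := by
    rw [← Real.rpow_natCast ρ n, ← Real.rpow_add hρ]
    congr 1
    linarith
  rw [h2, ENNReal.ofReal_mul (by positivity), mul_assoc]
  gcongr
  rw [ENNReal.le_div_iff_mul_le (Or.inl (Metric.measure_ball_pos _ _ one_pos).ne')
    (Or.inl measure_ball_lt_top.ne)]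
  calc ENNReal.ofReal (ρ ^ n) * J ^ p * volume (Metric.ball (0 : E n) 1)
      = J ^ p * (ENNReal.ofReal (ρ ^ n) * volume (Metric.ball (0 : E n) 1)) := by ring
    _ ≤ _ := h1

lemma chain_split {n : ℕ} (hn : 1 ≤ n) {α p d : ℝ} (hα : 0 < α) (hp : 0 < p) (hp1 : p ≤ 1)
    (hd : 0 < d) (had : α * p + d = n) (C₁ : ℝ≥0) (F : E n → ℝ≥0∞) (x : E n) {t₀ : ℝ}
    (ht₀ : 0 < t₀) {L : ℝ} (hL : 0 < L)
    (h : ∀ t : ℝ, 0 < t → t < t₀ →
        1 ≤ C₁ * ∑' k : ℕ, ENNReal.ofReal ((t * 2 ^ k) ^ α) *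
          ⨅ y ∈ Metric.ball x (t * 2 ^ k), F y) :
    1 ≤ (C₁ : ℝ≥0∞) ^ p * (ENNReal.ofReal (Real.sqrt n ^ (α * p)) *
        ∑' j, ENNReal.ofReal (sd L j ^ (α * p)) * ginf (fun y => F y ^ p) L j x) +
      (C₁ : ℝ≥0∞) ^ p * (ENNReal.ofReal (L ^ (-d)) * ((∫⁻ y, F y ^ p) /
        volume (Metric.ball (0 : E n) 1)) * ∑' m : ℕ, ENNReal.ofReal ((2 : ℝ) ^ (-d)) ^ m) := by
  have hsn : (1 : ℝ) ≤ Real.sqrt n := by
    rw [Real.one_le_sqrt]; exact_mod_cast hn
  obtain ⟨s, hs⟩ : ∃ s : ℕ, Real.sqrt n * L / t₀ < 2 ^ s :=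
    pow_unbounded_of_one_lt _ (by norm_num)
  set t : ℝ := Real.sqrt n * sd L s with ht
  have htpos : 0 < t := by
    have := sd_pos hL s; positivity
  have htlt : t < t₀ := by
    rw [ht]; unfold sd
    rw [div_lt_iff₀ ht₀] at hs
    rw [← mul_div_assoc, div_lt_iff₀ (by positivity), mul_comm t₀]
    exact hs
  have h1 := h t htpos htlt
  have h2 := ENNReal.rpow_le_rpow h1 hp.le
  rw [ENNReal.one_rpow, ENNReal.mul_rpow_of_nonneg _ _ hp.le] at h2
  refine h2.trans ?_
  rw [← mul_add]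
  gcongr
  refine (rpow_tsum_le hp hp1 _).trans ?_
  set f : ℕ → ℝ≥0∞ := fun k => ENNReal.ofReal ((t * 2 ^ k) ^ (α * p)) *
    (⨅ y ∈ Metric.ball x (t * 2 ^ k), F y) ^ p with hf
  have h3 : ∀ k : ℕ, (ENNReal.ofReal ((t * 2 ^ k) ^ α) *
      ⨅ y ∈ Metric.ball x (t * 2 ^ k), F y) ^ p = f k := by
    intro k
    simp only [hf]
    rw [ENNReal.mul_rpow_of_nonneg _ _ hp.le, ENNReal.ofReal_rpow_of_nonneg (by positivity) hp.le,
      ← Real.rpow_mul (by positivity)]
  rw [tsum_congr h3, ← (ENNReal.summable (f := fun i => f (i + (s + 1)))).sum_add_tsum_nat_add']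
  apply add_le_add
  · -- near part
    rw [← ENNReal.tsum_mul_left]
    have h4 : ∀ k ∈ Finset.range (s + 1), f k ≤ ENNReal.ofReal (Real.sqrt n ^ (α * p)) *
        (ENNReal.ofReal (sd L (s + 1 - 1 - k) ^ (α * p)) *
          ginf (fun y => F y ^ p) L (s + 1 - 1 - k) x) := by
      intro k hk
      rw [Finset.mem_range] at hk
      have hkt : t * 2 ^ k = Real.sqrt n * sd L (s + 1 - 1 - k) := by
        rw [ht, mul_assoc]
        congr 1
        unfold sd
        obtain ⟨m, rfl⟩ : ∃ m, s = m + k := ⟨s - k, by omega⟩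
        rw [show m + k + 1 - 1 - k = m by omega, pow_add]
        field_simp
      simp only [hf]
      rw [hkt, Real.mul_rpow (by positivity) (sd_pos hL _).le, ENNReal.ofReal_mul (by positivity),
        mul_assoc]
      gcongr
      unfold ginf
      apply le_iInf₂
      intro y hy
      apply ENNReal.rpow_le_rpow _ hp.le
      apply iInf₂_le y
      rw [Metric.mem_ball]
      exact dist_lt_of_cidx_eq hn (sd_pos hL _) hy
    refine (Finset.sum_le_sum h4).trans ?_
    rw [Finset.sum_range_reflect (fun j => ENNReal.ofReal (Real.sqrt n ^ (α * p)) *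
        (ENNReal.ofReal (sd L j ^ (α * p)) * ginf (fun y => F y ^ p) L j x)) (s + 1)]
    exact ENNReal.sum_le_tsum _
  · -- far part
    rw [← ENNReal.tsum_mul_left]
    apply ENNReal.tsum_le_tsum
    intro i
    simp only [hf]
    refine (far_term hn hp had F x (by positivity)).trans ?_
    have h7 : ∀ a b c : ℝ≥0∞, a * b * c = (a * c) * b := fun a b c => mul_right_comm a b c
    rw [h7]
    gcongr
    rw [← ENNReal.ofReal_pow (by positivity), ← ENNReal.ofReal_mul (by positivity)]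
    apply ENNReal.ofReal_le_ofReal
    have h5 : t * 2 ^ (i + (s + 1)) = Real.sqrt n * 2 * (L * 2 ^ i) := by
      rw [ht]; unfold sd
      rw [pow_add, pow_succ]
      field_simp
    rw [h5]
    have h6 : L ^ (-d) * ((2 : ℝ) ^ (-d)) ^ i = (L * 2 ^ i) ^ (-d) := by
      rw [Real.mul_rpow hL.le (by positivity), ← Real.rpow_natCast, ← Real.rpow_mul (by norm_num),
        ← Real.rpow_natCast (2 : ℝ) i, ← Real.rpow_mul (by norm_num), mul_comm (-d)]
    rw [h6]
    apply Real.rpow_le_rpow_of_nonpos (by positivity) _ (by linarith)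
    have : 0 < L * 2 ^ i := by positivity
    nlinarith

theorem content_le_of_chain (n : ℕ) (hn : 1 ≤ n) (α p : ℝ) (hα : 0 < α) (hp : 0 < p)
    (hp1 : p ≤ 1) (hαp : α * p < n) (C₁ : ℝ≥0) :
    ∃ C : ℝ≥0, ∀ F : E n → ℝ≥0∞, Measurable F → ∀ K : Set (E n),
      (∀ x ∈ K, ∃ t₀ : ℝ, 0 < t₀ ∧ ∀ t : ℝ, 0 < t → t < t₀ →
        1 ≤ C₁ * ∑' k : ℕ, ENNReal.ofReal ((t * 2 ^ k) ^ α) *
          ⨅ y ∈ Metric.ball x (t * 2 ^ k), F y) →
      hausdorffContent (n - α * p) K ≤ C * ∫⁻ x, F x ^ p := by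
  have hd : 0 < (n : ℝ) - α * p := by linarith
  have had : α * p + ((n : ℝ) - α * p) = n := by ring
  have hαp0 : 0 < α * p := by positivity
  set d : ℝ := (n : ℝ) - α * p with hdd
  set T₁ : ℝ≥0∞ := ∑' m : ℕ, ENNReal.ofReal ((2 : ℝ) ^ (-(α * p))) ^ m with hT₁
  set T₂ : ℝ≥0∞ := ∑' m : ℕ, ENNReal.ofReal ((2 : ℝ) ^ (-d)) ^ m with hT₂
  have hT₁f : T₁ < ∞ := geom_lt_top hαp0
  have hT₂f : T₂ < ∞ := geom_lt_top hd
  have hC₁f : (C₁ : ℝ≥0∞) ^ p ≠ ∞ := ENNReal.rpow_ne_top_of_nonneg hp.le ENNReal.coe_ne_top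
  set D : ℝ≥0∞ := 2 * ((C₁ : ℝ≥0∞) ^ p * (ENNReal.ofReal (Real.sqrt n ^ (α * p)) * T₁)) + 1
    with hD
  have hDf : D ≠ ∞ := by
    rw [hD]
    refine ENNReal.add_ne_top.2 ⟨?_, ENNReal.one_ne_top⟩
    refine ENNReal.mul_ne_top (by norm_num) (ENNReal.mul_ne_top hC₁f
      (ENNReal.mul_ne_top ENNReal.ofReal_ne_top hT₁f.ne))
  set C₄ : ℝ≥0 := D.toNNReal with hC₄
  have hC₄D : (C₄ : ℝ≥0∞) = D := ENNReal.coe_toNNReal hDf
  have hC₄pos : 0 < C₄ := by
    rw [← ENNReal.coe_pos, hC₄D, hD]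
    exact lt_of_lt_of_le one_pos le_add_self
  have hsn : (1 : ℝ) ≤ Real.sqrt n := by
    rw [Real.one_le_sqrt]; exact_mod_cast hn
  refine ⟨Real.toNNReal (Real.sqrt n ^ d) * C₄, fun F hF K hK => ?_⟩
  rcases eq_or_ne (∫⁻ x, F x ^ p) ∞ with hA | hA
  · rw [hA, ENNReal.mul_top]
    · exact le_top
    · have h1 : 0 < Real.toNNReal (Real.sqrt n ^ d) := by
        rw [Real.toNNReal_pos]; positivity
      exact_mod_cast (mul_pos h1 hC₄pos).ne'
  set A : ℝ≥0∞ := ∫⁻ x, F x ^ p with hAdef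
  -- choice of the top scale
  set M : ℝ≥0∞ := (C₁ : ℝ≥0∞) ^ p * (A / volume (Metric.ball (0 : E n) 1) * T₂) with hM
  have hMf : M ≠ ∞ := by
    rw [hM]
    refine ENNReal.mul_ne_top hC₁f (ENNReal.mul_ne_top ?_ hT₂f.ne)
    exact ENNReal.div_ne_top hA (Metric.measure_ball_pos _ _ one_pos).ne'
  set L : ℝ := (2 * M.toReal + 1) ^ (d⁻¹) with hLdef
  have hM0 : 0 ≤ M.toReal := ENNReal.toReal_nonneg
  have hL : 0 < L := by rw [hLdef]; positivity
  have hLd : L ^ (-d) = (2 * M.toReal + 1)⁻¹ := by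
    rw [hLdef, ← Real.rpow_mul (by positivity), mul_neg, inv_mul_cancel₀ hd.ne',
      Real.rpow_neg_one]
  have hhalf : ENNReal.ofReal (L ^ (-d)) * M ≤ 1 / 2 := by
    rw [← ENNReal.ofReal_toReal hMf, ← ENNReal.ofReal_mul (by positivity), hLd,
      show (1 / 2 : ℝ≥0∞) = ENNReal.ofReal (1 / 2) by
        rw [ENNReal.ofReal_div_of_pos (by norm_num)]; simp]
    apply ENNReal.ofReal_le_ofReal
    rw [inv_mul_le_iff₀ (by positivity)]
    linarith
  have hmain : ∀ x ∈ K, 1 ≤ (C₄ : ℝ≥0∞) *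
      ∑' j, ENNReal.ofReal (sd L j ^ (α * p)) * binc (fun y => F y ^ p) L j x := by
    intro x hx
    obtain ⟨t₀, ht₀, h⟩ := hK x hx
    have h1 := chain_split hn hα hp hp1 hd had C₁ F x ht₀ hL h
    rw [abel_sum _ (fun j => binc (fun y => F y ^ p) L j x) _
      (fun j => ginf_eq_sum (fun y => F y ^ p) L j x)] at h1
    have h2 : ∀ i, binc (fun y => F y ^ p) L i x * ∑' m, ENNReal.ofReal (sd L (i + m) ^ (α * p)) =
        T₁ * (ENNReal.ofReal (sd L i ^ (α * p)) * binc (fun y => F y ^ p) L i x) := by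
      intro i
      rw [tail_geom hL i]
      ring
    rw [tsum_congr h2, ENNReal.tsum_mul_left] at h1
    set X : ℝ≥0∞ := ∑' j, ENNReal.ofReal (sd L j ^ (α * p)) * binc (fun y => F y ^ p) L j x
      with hX
    have h3 : (C₁ : ℝ≥0∞) ^ p * (ENNReal.ofReal (L ^ (-d)) * (A /
        volume (Metric.ball (0 : E n) 1)) * T₂) ≤ 1 / 2 := by
      refine le_trans (le_of_eq ?_) hhalf
      rw [hM]; ring
    have h4 : 1 ≤ (C₁ : ℝ≥0∞) ^ p * (ENNReal.ofReal (Real.sqrt n ^ (α * p)) * (T₁ * X)) + 1 / 2 :=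
      h1.trans (by gcongr)
    have h5 : (1 / 2 : ℝ≥0∞) ≤ (C₁ : ℝ≥0∞) ^ p * (ENNReal.ofReal (Real.sqrt n ^ (α * p)) * (T₁ * X)) := by
      by_contra hcon
      rw [not_le] at hcon
      have h6 := ENNReal.add_lt_add_right (a := 1 / 2) (by norm_num) hcon
      rw [ENNReal.add_halves] at h6
      exact absurd h4 (not_le.2 h6)
    calc (1 : ℝ≥0∞) = 2 * (1 / 2) := by
          rw [ENNReal.mul_div_cancel (by norm_num) (by norm_num)]
      _ ≤ 2 * ((C₁ : ℝ≥0∞) ^ p * (ENNReal.ofReal (Real.sqrt n ^ (α * p)) * (T₁ * X))) := by gcongr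
      _ = (2 * ((C₁ : ℝ≥0∞) ^ p * (ENNReal.ofReal (Real.sqrt n ^ (α * p)) * T₁))) * X := by ring
      _ ≤ (C₄ : ℝ≥0∞) * X := by
          rw [hC₄D, hD]
          gcongr
          exact le_self_add
  have hfin := content_of_levels hn hd had hL (binc (fun y => F y ^ p) L)
    (fun j x y h => binc_congr _ L j h) (fun y => F y ^ p) (fun x => tsum_binc_le _ L x) K C₄
    hC₄pos hmain
  refine hfin.trans (le_of_eq ?_)
  push_cast
  rw [mul_assoc]
  rfl

end Pool.Agent.Helper656.Cap
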