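import Pool.Agent.Helper656.CapFourier

open MeasureTheory SchwartzMap
open scoped ENNReal NNReal FourierTransform SchwartzMap RealInnerProductSpace

namespace Pool.Agent.Helper656.Cap

variable {n : ℕ}

/-- TARGET -/
theorem integral_beta_pos (hn : 1 ≤ n) : 0 < ∫ y : E n, beta ‖y‖ := by
  have hcont : Continuous fun y : E n => beta ‖y‖ := continuous_beta.comp continuous_norm
  have hsupp : HasCompactSupport fun y : E n => beta ‖y‖ := by
    apply HasCompactSupport.of_support_subset_isCompact (isCompact_closedBall (0 : E n) 2)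
    intro ξ hξ
    rw [Metric.mem_closedBall, dist_zero_right]
    by_contra h
    apply hξ
    simp only
    rw [beta_eq_zero (by nlinarith)]
  refine hcont.integral_pos_of_hasCompactSupport_nonneg_nonzero hsupp (fun y => beta_nonneg _)
    (x := 0) ?_
  rw [norm_zero, beta_eq_one (by simp)]
  norm_num

/-- the dilated bump vanishes off a ball -/
theorem dil_bmp_eq_zero (x : E n) (t : ℝ) (ht : 0 < t) (y : E n) (hy : 2 * t ^ 2 ≤ ‖y - x‖ ^ 2) :
    dil x t ht (bmp : 𝓢(E n, ℂ)) y = 0 := by
  rw [dil_apply, bmp_apply, beta_eq_zero, Complex.ofReal_zero, mul_zero]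
  rw [norm_smul, Real.norm_of_nonneg (inv_nonneg.2 ht.le), mul_pow, inv_pow, inv_mul_eq_div,
    le_div_iff₀ (by positivity)]
  exact hy

/-- TARGET -/
theorem hasCompactSupport_dil_bmp (x : E n) (t : ℝ) (ht : 0 < t) :
    HasCompactSupport (dil x t ht (bmp : 𝓢(E n, ℂ))) := by
  apply HasCompactSupport.of_support_subset_isCompact (isCompact_closedBall x (2 * t))
  intro ξ hξ
  rw [Metric.mem_closedBall, dist_eq_norm]
  by_contra h
  apply hξ
  push Not at h
  apply dil_bmp_eq_zero
  nlinarith

/-- TARGET -/
theorem test_lower (u : E n → ℂ) (hu : LocallyIntegrable u) (Ω : Set (E n)) (hΩ : IsOpen Ω)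
    (hae : ∀ᵐ x, x ∈ Ω → ∃ r : ℝ, 1 ≤ r ∧ u x = r) (x : E n) (t : ℝ) (ht : 0 < t)
    (hb : Metric.ball x t ⊆ Ω) :
    (∫ y : E n, beta ‖y‖) ≤ ‖∫ y, u y * dil x (t / 2) (half_pos ht) bmp y‖ := by
  set φ : 𝓢(E n, ℂ) := dil x (t / 2) (half_pos ht) bmp with hφ
  have hint : Integrable (fun y => u y * φ y) := by
    have := hu.integrable_smul_right_of_hasCompactSupport φ.continuous
      (hasCompactSupport_dil_bmp x (t / 2) (half_pos ht))
    simpa [smul_eq_mul, mul_comm] using this
  have hφint : Integrable (fun y => φ y) := φ.integrable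
  have h1 : ∫ y, φ y = ((∫ y : E n, beta ‖y‖ : ℝ) : ℂ) := by
    have := integral_mul_dil x (half_pos ht) (bmp : 𝓢(E n, ℂ)) (fun _ => 1)
    simp only [one_mul] at this
    rw [hφ, this]
    simp only [bmp_apply]
    exact integral_complex_ofReal
  have h2 : (∫ y : E n, beta ‖y‖) = ∫ y, (φ y).re := by
    have h3 : ∫ y, (φ y).re = (∫ y, φ y).re := by
      have := integral_re (μ := volume) hφint
      simpa using this
    rw [h3, h1, Complex.ofReal_re]
  have h4 : ∫ y, (u y * φ y).re = (∫ y, u y * φ y).re := by
    have := integral_re (μ := volume) hint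
    simpa using this
  calc (∫ y : E n, beta ‖y‖) = ∫ y, (φ y).re := h2
    _ ≤ ∫ y, (u y * φ y).re := by
        refine integral_mono_ae hφint.re hint.re ?_
        filter_upwards [hae] with y hy
        by_cases hm : y ∈ Ω
        · obtain ⟨r, hr, hur⟩ := hy hm
          have hreal : φ y = (((((t / 2)⁻¹) ^ n * beta ‖(t / 2)⁻¹ • (y - x)‖ : ℝ)) : ℂ) := by
            rw [hφ, dil_apply, bmp_apply]
            push_cast
            ring
          have hnn : 0 ≤ ((t / 2)⁻¹) ^ n * beta ‖(t / 2)⁻¹ • (y - x)‖ :=
            mul_nonneg (by positivity) (beta_nonneg _)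
          change (φ y).re ≤ (u y * φ y).re
          rw [hur, hreal, ← Complex.ofReal_mul, Complex.ofReal_re, Complex.ofReal_re]
          nlinarith
        · have : φ y = 0 := by
            rw [hφ]
            apply dil_bmp_eq_zero
            have : t ≤ ‖y - x‖ := by
              by_contra h
              push Not at h
              apply hm
              apply hb
              rw [Metric.mem_ball, dist_eq_norm]
              exact h
            nlinarith
          change (φ y).re ≤ (u y * φ y).re
          rw [this, mul_zero]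
    _ = (∫ y, u y * φ y).re := h4
    _ ≤ _ := Complex.re_le_norm _

end Pool.Agent.Helper656.Cap
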