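import Pool.Agent.Helper656.CapShells
import Pool.Agent.Helper656.CapChain
import Pool.Agent.Helper656.CapTest
import Pool.Agent.Helper656.BesSlice
import Pool.Agent.Helper656.BesBesselSlice
import Pool.Agent.Helper656.BesGauss
import Pool.Agent.Helper656.BesEndpoint

open MeasureTheory SchwartzMap
open scoped ENNReal NNReal FourierTransform SchwartzMap RealInnerProductSpace ContDiff

namespace Pool.Agent.Helper656.Cap

variable {n : ℕ}

/-- admissible functions for `besselCap` -/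
def IsBesselCompetitor (α : ℝ) (K : Set (E n)) (h : 𝓢'(E n, ℂ)) : Prop :=
  ∃ (U : 𝓢'(E n, ℂ)) (u : E n → ℝ), IsBesselPotential α h U ∧
    ContDiff ℝ ∞ u ∧ (∀ φ : 𝓢(E n, ℂ), HasCompactSupport φ → U φ = ∫ x, (u x : ℂ) * φ x) ∧
    ∀ x ∈ K, 1 ≤ u x

theorem weight_le {α α' : ℝ} (hle : α' ≤ α) : ∃ C : ℝ, 0 < C ∧ ∀ r : ℝ, 0 < r →
    r ^ (α - 1) * Real.exp (-r ^ 2) ≤ C * r ^ (α' - 1) := by
  obtain ⟨m, hm⟩ := exists_nat_gt (α - α')
  refine ⟨1 + (m.factorial : ℝ), by positivity, fun r hr => ?_⟩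
  have h1 : r ^ (α - 1) = r ^ (α - α') * r ^ (α' - 1) := by
    rw [← Real.rpow_add hr]; congr 1; ring
  have h2 : r ^ (α - α') * Real.exp (-r ^ 2) ≤ 1 + (m.factorial : ℝ) := by
    rcases le_total r 1 with h | h
    · have e1 : r ^ (α - α') ≤ 1 := Real.rpow_le_one hr.le h (by linarith)
      have e2 : Real.exp (-r ^ 2) ≤ 1 := Real.exp_le_one_iff.2 (by nlinarith)
      have e3 : (0 : ℝ) ≤ m.factorial := by positivity
      have e4 : 0 ≤ Real.exp (-r ^ 2) := (Real.exp_pos _).le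
      have e5 : 0 ≤ r ^ (α - α') := Real.rpow_nonneg hr.le _
      nlinarith
    · have e1 : r ^ (α - α') ≤ (r ^ 2) ^ m := by
        rw [← pow_mul, ← Real.rpow_natCast]
        apply Real.rpow_le_rpow_of_exponent_le h
        push_cast
        have : (0 : ℝ) ≤ m := Nat.cast_nonneg m
        linarith
      have e2 : (r ^ 2) ^ m ≤ m.factorial * Real.exp (r ^ 2) := by
        have := Real.pow_div_factorial_le_exp (r ^ 2) (by positivity) m
        rw [div_le_iff₀ (by positivity)] at this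
        linarith
      calc r ^ (α - α') * Real.exp (-r ^ 2) ≤ (m.factorial * Real.exp (r ^ 2)) *
            Real.exp (-r ^ 2) := by
            gcongr
            exact e1.trans e2
        _ = m.factorial := by
            rw [mul_assoc, ← Real.exp_add]; simp
        _ ≤ _ := by linarith
  calc r ^ (α - 1) * Real.exp (-r ^ 2) = r ^ (α - α') * Real.exp (-r ^ 2) * r ^ (α' - 1) := by
        rw [h1]; ring
    _ ≤ _ := by gcongr

theorem bessel_chain (hn : 1 ≤ n) (α α' : ℝ) (hα : 0 < α) (hα' : 0 < α') (hle : α' ≤ α)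
    (N : ℕ) : ∃ C₁ : ℝ≥0, ∀ (K : Set (E n)) (h : 𝓢'(E n, ℂ)), IsBesselCompetitor α K h →
      ∀ x ∈ K, ∃ t₀ : ℝ, 0 < t₀ ∧ ∀ t : ℝ, 0 < t → t < t₀ →
        1 ≤ C₁ * ∑' k : ℕ, ENNReal.ofReal ((t * 2 ^ k) ^ α') *
          ⨅ y ∈ Metric.ball x (t * 2 ^ k), grandMax N h y := by
  obtain ⟨g, hg⟩ := exists_gauss (n := n)
  obtain ⟨Cs, hCs⟩ := slice_bound_gen (n := n) N g
  obtain ⟨c, hc⟩ := bessel_slice (n := n) α hα
  obtain ⟨Cw, hCw, hw⟩ := weight_le hle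
  have hI := integral_beta_pos (n := n) hn
  set I0 := ∫ y : E n, beta ‖y‖ with hI0
  refine ⟨(Real.toNNReal I0)⁻¹ * 2 * c * Real.toNNReal Cw * (Cs + 1) *
    Real.toNNReal (1 / α' + 2 ^ α'), ?_⟩
  rintro K h ⟨U, u, ⟨m, hm, hgr, hh, hU⟩, hu, hUu, hK⟩ x hx
  set Ω : Set (E n) := {y | 1 / 2 < u y} with hΩdef
  have hΩ : IsOpen Ω := isOpen_lt continuous_const hu.continuous
  have hxΩ : x ∈ Ω := by
    have := hK x hx
    simp only [hΩdef, Set.mem_ofPred_eq]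
    linarith
  obtain ⟨t₀, ht₀, hball⟩ := Metric.isOpen_iff.1 hΩ x hxΩ
  refine ⟨t₀, ht₀, fun t ht htt => ?_⟩
  set φ := dil x (t / 2) (half_pos ht) (bmp : 𝓢(E n, ℂ)) with hφ
  have h1 : I0 ≤ ‖∫ y, ((2 * u y : ℝ) : ℂ) * φ y‖ :=
    test_lower (fun y => ((2 * u y : ℝ) : ℂ))
      ((Complex.continuous_ofReal.comp (continuous_const.mul hu.continuous)).locallyIntegrable)
      Ω hΩ (Filter.Eventually.of_forall fun y hy => ⟨2 * u y, by
        simp only [hΩdef, Set.mem_ofPred_eq] at hy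
        linarith, rfl⟩) x t ht
      ((Metric.ball_subset_ball htt.le).trans hball)
  have h2 : U φ = ∫ ξ, (((1 + 4 * Real.pi ^ 2 * ‖ξ‖ ^ 2) ^ (-(α / 2)) : ℝ) : ℂ) * m ξ *
      𝓕⁻ φ ξ := by
    rw [← hU (𝓕⁻ φ), TemperedDistribution.fourier_apply, FourierTransform.fourier_fourierInv_eq]
  have h1' : I0 ≤ 2 * ‖U φ‖ := by
    rw [hUu φ (hasCompactSupport_dil_bmp _ _ _)]
    have e1 : ∫ y, ((2 * u y : ℝ) : ℂ) * φ y = 2 * ∫ y, (u y : ℂ) * φ y := by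
      rw [← integral_const_mul]
      refine integral_congr_ae (Filter.Eventually.of_forall fun y => ?_)
      simp only
      push_cast
      ring
    rw [e1, norm_mul] at h1
    simpa using h1
  have h3 : ENNReal.ofReal I0 ≤ 2 * ‖∫ ξ, (((1 + 4 * Real.pi ^ 2 * ‖ξ‖ ^ 2) ^ (-(α / 2)) : ℝ) : ℂ)
      * m ξ * 𝓕⁻ φ ξ‖ₑ := by
    rw [← h2, ← ofReal_norm]
    calc ENNReal.ofReal I0 ≤ ENNReal.ofReal (2 * ‖U φ‖) := ENNReal.ofReal_le_ofReal h1'
      _ = _ := by rw [ENNReal.ofReal_mul (by norm_num), ENNReal.ofReal_ofNat]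
  have h4 := hc m hm hgr (𝓕⁻ φ)
  have h5 := lintegral_shells hα' ht
    (fun s => ((Cs + 1 : ℝ≥0) : ℝ≥0∞) * ⨅ y ∈ Metric.ball x s, grandMax N h y)
    (by
      intro r s hrs
      exact mul_le_mul' le_rfl
        (le_iInf₂ fun y hy => iInf₂_le y (Metric.ball_subset_ball hrs hy)))
    (fun r => ‖∫ ξ, m ξ * 𝓕⁻ φ ξ *
      ((Real.exp (-(4 * Real.pi ^ 2 * ‖r • ξ‖ ^ 2)) : ℝ) : ℂ)‖ₑ)
    (by
      intro r hr
      rw [ENNReal.mul_iInf_of_ne (by simp) (by simp)]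
      refine le_iInf fun y => ?_
      rw [ENNReal.mul_iInf_of_ne (by simp) (by simp)]
      refine le_iInf fun hy => ?_
      have h6 := hCs h m hm hgr hh x t ht r hr y hy
      simp only [hg] at h6
      refine h6.trans ?_
      gcongr
      simp)
  set S := ∑' k : ℕ, ENNReal.ofReal ((t * 2 ^ k) ^ α') *
          ⨅ y ∈ Metric.ball x (t * 2 ^ k), grandMax N h y with hS
  have h7 : ∑' k : ℕ, ENNReal.ofReal ((t * 2 ^ k) ^ α') * (((Cs + 1 : ℝ≥0) : ℝ≥0∞) *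
        ⨅ y ∈ Metric.ball x (t * 2 ^ k), grandMax N h y) = ((Cs + 1 : ℝ≥0) : ℝ≥0∞) * S := by
    rw [hS, ← ENNReal.tsum_mul_left]
    refine tsum_congr fun k => ?_
    rw [mul_left_comm]
  rw [h7] at h5
  have h8 : ∫⁻ r in Set.Ioi (0 : ℝ), ENNReal.ofReal (r ^ (α - 1) * Real.exp (-r ^ 2)) *
        ‖∫ ξ, m ξ * 𝓕⁻ φ ξ * ((Real.exp (-(4 * Real.pi ^ 2 * ‖r • ξ‖ ^ 2)) : ℝ) : ℂ)‖ₑ ≤
      ENNReal.ofReal Cw * ∫⁻ r in Set.Ioi (0 : ℝ), ENNReal.ofReal (r ^ (α' - 1)) *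
        ‖∫ ξ, m ξ * 𝓕⁻ φ ξ * ((Real.exp (-(4 * Real.pi ^ 2 * ‖r • ξ‖ ^ 2)) : ℝ) : ℂ)‖ₑ := by
    rw [← lintegral_const_mul' _ _ ENNReal.ofReal_ne_top]
    refine setLIntegral_mono' measurableSet_Ioi fun r hr => ?_
    rw [← mul_assoc, ← ENNReal.ofReal_mul hCw.le]
    exact mul_le_mul' (ENNReal.ofReal_le_ofReal (hw r hr)) le_rfl
  have h9 : ENNReal.ofReal I0 ≤ 2 * (c * (ENNReal.ofReal Cw * (ENNReal.ofReal (1 / α' + 2 ^ α') *
      (((Cs + 1 : ℝ≥0) : ℝ≥0∞) * S)))) := by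
    refine h3.trans ?_
    gcongr
    refine h4.trans ?_
    gcongr
    refine h8.trans ?_
    gcongr
  have hI' : ENNReal.ofReal I0 ≠ 0 := by
    rw [Ne, ENNReal.ofReal_eq_zero, not_le]; exact hI
  calc (1 : ℝ≥0∞) = (ENNReal.ofReal I0)⁻¹ * ENNReal.ofReal I0 :=
        (ENNReal.inv_mul_cancel hI' ENNReal.ofReal_ne_top).symm
    _ ≤ (ENNReal.ofReal I0)⁻¹ * (2 * (c * (ENNReal.ofReal Cw *
          (ENNReal.ofReal (1 / α' + 2 ^ α') * (((Cs + 1 : ℝ≥0) : ℝ≥0∞) * S))))) := by gcongr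
    _ = _ := by
        simp only [ENNReal.coe_mul]
        rw [ENNReal.coe_inv (by simpa using hI)]
        simp only [ENNReal.ofReal, ENNReal.coe_ofNat]
        ring

theorem content_le_bessel (hn : 1 ≤ n) (α p : ℝ) (hα : 0 < α) (hp : 0 < p) (hp1 : p ≤ 1)
    (hαp : α * p < n) (N : ℕ) : ∃ C : ℝ≥0, ∀ K : Set (E n),
      hausdorffContent (n - α * p) K ≤ C * besselCap N α p K := by
  obtain ⟨C₁, hC₁⟩ := bessel_chain hn α α hα hα le_rfl N
  obtain ⟨C, hC⟩ := content_le_of_chain n hn α p hα hp hp1 hαp C₁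
  refine ⟨C + 1, fun K => ?_⟩
  unfold besselCap
  rw [ENNReal.mul_iInf_of_ne (by simp) (by simp)]
  refine le_iInf fun h => ?_
  rw [ENNReal.mul_iInf_of_ne (by simp) (by simp)]
  refine le_iInf fun hh => ?_
  refine (hC (grandMax N h) (measurable_grandMax N h) K (hC₁ K h hh)).trans ?_
  unfold hardyPow
  gcongr
  simp

theorem one_le_bessel (hn : 1 ≤ n) (α p : ℝ) (hα : 0 < α) (hp : 0 < p) (hp1 : p ≤ 1)
    (hαp : n ≤ α * p) (N : ℕ) : ∃ C : ℝ≥0, ∀ K : Set (E n), K.Nonempty →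
      1 ≤ C * besselCap N α p K := by
  have hn' : (0 : ℝ) < n := by exact_mod_cast hn
  obtain ⟨C₁, hC₁⟩ := bessel_chain hn α (n / p) hα (by positivity)
    (by rw [div_le_iff₀ hp]; exact hαp) N
  obtain ⟨C, hC⟩ := endpoint_chain hn p hp hp1 C₁
  refine ⟨C + 1, fun K hK => ?_⟩
  obtain ⟨x, hx⟩ := hK
  unfold besselCap
  rw [ENNReal.mul_iInf_of_ne (by simp) (by simp)]
  refine le_iInf fun h => ?_
  rw [ENNReal.mul_iInf_of_ne (by simp) (by simp)]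
  refine le_iInf fun hh => ?_
  obtain ⟨t₀, ht₀, H⟩ := hC₁ K h hh x hx
  refine (hC (grandMax N h) (measurable_grandMax N h) x (t₀ / 2) (half_pos ht₀)
    (H (t₀ / 2) (half_pos ht₀) (by linarith))).trans ?_
  unfold hardyPow
  gcongr
  simp

end Pool.Agent.Helper656.Cap
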