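import Pool.Agent.Helper656.BesDecay

open MeasureTheory SchwartzMap
open scoped ENNReal NNReal FourierTransform SchwartzMap RealInnerProductSpace ContDiff

namespace Pool.Agent.Helper656.Cap

variable {n : ℕ}

/-- a smooth family of multipliers applied to a function with Fourier support in an annulus -/
theorem exists_family (F : 𝓢(E n, ℂ)) (hF : HasCompactSupport F) (δ : ℝ) (hδ : 0 < δ)
    (h0 : ∀ ξ, ‖ξ‖ ≤ δ → F ξ = 0) (k : ℝ × E n → ℂ)
    (hk : ∀ z : ℝ × E n, z.2 ≠ 0 → ContDiffAt ℝ ∞ k z) (K : ℕ) :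
    ∃ C : ℝ, 0 < C ∧ ∀ s : ℝ, |s| ≤ 1 → ∃ f : 𝓢(E n, ℂ),
      (∀ ξ, 𝓕 f ξ = k (s, ξ) * F ξ) ∧ ∀ y, ‖f y‖ ≤ C / (1 + ‖y‖) ^ K := by
  set H : ℝ × E n → ℂ := fun z => ((beta z.1 : ℝ) : ℂ) * (k z * F z.2) with hH
  have hHc : HasCompactSupport H := by
    apply HasCompactSupport.of_support_subset_isCompact
      ((isCompact_closedBall (0 : ℝ) 2).prod hF)
    intro z hz
    rw [Function.mem_support] at hz
    have h1 : beta z.1 ≠ 0 := by
      intro h; apply hz; simp [hH, h]
    have h2 : F z.2 ≠ 0 := by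
      intro h; apply hz; simp [hH, h]
    refine ⟨?_, subset_tsupport _ h2⟩
    rw [Metric.mem_closedBall, dist_zero_right, Real.norm_eq_abs]
    by_contra hcon
    rw [not_le] at hcon
    apply h1
    apply beta_eq_zero
    rw [← sq_abs]
    nlinarith
  have hbeta : ContDiff ℝ ∞ (fun s : ℝ => ((beta s : ℝ) : ℂ)) := by
    unfold beta
    exact Complex.ofRealCLM.contDiff.comp (Real.smoothTransition.contDiff.comp (by fun_prop))
  have hHs : ContDiff ℝ ∞ H := by
    rw [contDiff_iff_contDiffAt]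
    rintro ⟨s, ξ⟩
    rcases eq_or_ne ξ 0 with rfl | hξ
    · have : H =ᶠ[nhds (s, (0 : E n))] fun _ => 0 := by
        have h3 : ∀ᶠ z : ℝ × E n in nhds (s, (0 : E n)), z.2 ∈ Metric.ball (0 : E n) δ :=
          continuous_snd.continuousAt.eventually_mem (Metric.ball_mem_nhds (0 : E n) hδ)
        filter_upwards [h3] with z hz
        rw [Metric.mem_ball, dist_zero_right] at hz
        simp only [hH]
        rw [h0 z.2 hz.le, mul_zero, mul_zero]
      exact contDiffAt_const.congr_of_eventuallyEq this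
    · apply ContDiffAt.mul
      · exact (hbeta.comp contDiff_fst).contDiffAt
      · apply ContDiffAt.mul (hk _ hξ)
        exact (F.smooth'.comp contDiff_snd).contDiffAt
  obtain ⟨C, hC, hdec⟩ := uniform_decay H hHs hHc K
  refine ⟨C, hC, fun s hs => ?_⟩
  have hgc : HasCompactSupport (fun ξ : E n => H (s, ξ)) := by
    have : (fun ξ : E n => H (s, ξ)) = fun ξ => (((beta s : ℝ) : ℂ) * k (s, ξ)) * F ξ := by
      ext ξ; simp [hH, mul_assoc]
    rw [this]
    exact hF.mul_left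
  have hgs : ContDiff ℝ ∞ (fun ξ : E n => H (s, ξ)) := hHs.comp (by fun_prop)
  refine ⟨𝓕⁻ (hgc.toSchwartzMap hgs), fun ξ => ?_, ?_⟩
  · rw [FourierTransform.fourier_fourierInv_eq]
    have : (hgc.toSchwartzMap hgs) ξ = H (s, ξ) := rfl
    rw [this]
    simp only [hH]
    rw [beta_eq_one hs]
    simp
  · exact hdec s (hgc.toSchwartzMap hgs) (fun ζ => rfl)

end Pool.Agent.Helper656.Cap
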