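import Pool.Agent.Helper656.CapHardy

open MeasureTheory SchwartzMap
open scoped ENNReal NNReal FourierTransform SchwartzMap RealInnerProductSpace

namespace Pool.Agent.Helper656.Cap

variable {n : ℕ}

/-- TARGET (adapt the proof of `hardy_block`, the block now depends on `i`) -/
theorem hardy_block_family (N L : ℕ) (α p : ℝ) (hp : 0 < p) (hp1 : p ≤ 1)
    (hL : (n : ℝ) < L * p) (C : ℝ) (hC : 0 < C) :
    ∃ C' : ℝ≥0, ∀ (ι : Type) (s : Finset ι) (c : ι → E n) (ℓ : ι → ℝ) (hℓ : ∀ i, 0 < ℓ i)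
      (lam : ι → ℝ) (η : ι → 𝓢(E n, ℂ)), (∀ i ∈ s, 0 ≤ lam i) →
      (∀ i ∈ s, ∀ (x : E n) (t : ℝ), 0 < t → ∀ ψ : 𝓢(E n, ℂ), Adapted N x t ψ →
        ‖∫ y, η i y * ψ y‖ ≤ C / (1 + ‖x‖) ^ L) → ∀ h : 𝓢'(E n, ℂ),
      (∀ ψ : 𝓢(E n, ℂ), h ψ = ∑ i ∈ s, (((lam i) * (ℓ i) ^ ((n : ℝ) - α) : ℝ) : ℂ) *
        ∫ y, ψ y * dil (c i) (ℓ i) (hℓ i) (η i) y) →
      hardyPow N p h ≤ C' * ENNReal.ofReal (∑ i ∈ s, lam i ^ p * ℓ i ^ ((n : ℝ) - α * p)) := by
  set J : ℝ≥0∞ := ∫⁻ z : E n, ENNReal.ofReal ((1 + ‖z‖) ^ (-((L : ℝ) * p))) with hJ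
  have hJfin : J < ⊤ := finite_integral_one_add_norm (by rw [finrank_euclideanSpace_fin]; exact hL)
  have hCJ : ENNReal.ofReal (C ^ p) * J ≠ ⊤ := ENNReal.mul_ne_top ENNReal.ofReal_ne_top hJfin.ne
  refine ⟨(ENNReal.ofReal (C ^ p) * J).toNNReal, ?_⟩
  intro ι s c ℓ hℓ lam η hlam hη h hh
  rw [ENNReal.coe_toNNReal hCJ]
  -- pointwise bound
  set a : ι → E n → ℝ := fun i x =>
    (lam i * ℓ i ^ ((n : ℝ) - α) * (ℓ i ^ n)⁻¹ * C) * ((1 + ‖(ℓ i)⁻¹ • (x - c i)‖) ^ L)⁻¹ with ha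
  have ha0 : ∀ i ∈ s, ∀ x, 0 ≤ a i x := by
    intro i hi x
    have h1 := hlam i hi
    have h2 := hℓ i
    simp only [ha]
    positivity
  have hpt : ∀ x, grandMax N h x ≤ ∑ i ∈ s, ENNReal.ofReal (a i x) := by
    intro x
    unfold grandMax
    refine iSup_le fun t => iSup_le fun ht => iSup_le fun ψ => iSup_le fun hψ => ?_
    rw [← ENNReal.ofReal_sum_of_nonneg (fun i hi => ha0 i hi x), ← ofReal_norm]
    apply ENNReal.ofReal_le_ofReal
    rw [hh ψ]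
    refine (norm_sum_le _ _).trans (Finset.sum_le_sum fun i hi => ?_)
    have hl := hℓ i
    have hlam' := hlam i hi
    have e1 : ∫ y, ψ y * dil (c i) (ℓ i) (hℓ i) (η i) y =
        (((ℓ i ^ n)⁻¹ : ℝ) : ℂ) * ∫ z, η i z * pull (c i) (ℓ i) (hℓ i) ψ z := by
      rw [integral_mul_dil, ← integral_const_mul]
      refine integral_congr_ae (Filter.Eventually.of_forall fun z => ?_)
      simp only [pull_apply]
      have : ((ℓ i ^ n : ℝ) : ℂ) ≠ 0 := by
        rw [Complex.ofReal_ne_zero]; positivity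
      rw [Complex.ofReal_inv]
      field_simp
    have hpull : Adapted N ((ℓ i)⁻¹ • (x - c i)) (t / ℓ i) (pull (c i) (ℓ i) (hℓ i) ψ) :=
      hψ.adaptedC.pull (c i) (hℓ i)
    have h2 := hη i hi _ _ (by positivity) _ hpull
    rw [norm_mul, e1, norm_mul, Complex.norm_real, Complex.norm_real, Real.norm_of_nonneg (by positivity),
      Real.norm_of_nonneg (by positivity)]
    simp only [ha]
    calc lam i * ℓ i ^ ((n : ℝ) - α) * ((ℓ i ^ n)⁻¹ * ‖∫ z, η i z * pull (c i) (ℓ i) (hℓ i) ψ z‖)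
        ≤ lam i * ℓ i ^ ((n : ℝ) - α) * ((ℓ i ^ n)⁻¹ * (C / (1 + ‖(ℓ i)⁻¹ • (x - c i)‖) ^ L)) := by
          gcongr
      _ = _ := by rw [div_eq_mul_inv]; ring
  have hpow : ∀ i ∈ s, ∀ x, ENNReal.ofReal (a i x) ^ p =
      ENNReal.ofReal ((lam i * ℓ i ^ ((n : ℝ) - α) * (ℓ i ^ n)⁻¹ * C) ^ p) *
        ENNReal.ofReal ((1 + ‖(ℓ i)⁻¹ • (x - c i)‖) ^ (-((L : ℝ) * p))) := by
    intro i hi x
    have hl := hℓ i
    have hlam' := hlam i hi
    rw [ENNReal.ofReal_rpow_of_nonneg (ha0 i hi x) hp.le, ← ENNReal.ofReal_mul (by positivity)]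
    congr 1
    simp only [ha]
    rw [Real.mul_rpow (by positivity) (by positivity)]
    congr 1
    rw [Real.inv_rpow (by positivity), Real.rpow_neg (by positivity), ← Real.rpow_natCast,
      ← Real.rpow_mul (by positivity)]
  unfold hardyPow
  calc ∫⁻ x, grandMax N h x ^ p ≤ ∫⁻ x, ∑ i ∈ s, ENNReal.ofReal (a i x) ^ p := by
        apply lintegral_mono
        intro x
        exact (ENNReal.rpow_le_rpow (hpt x) hp.le).trans (rpow_sum_le_sum_rpow' s _ hp hp1)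
    _ = ∫⁻ x, ∑ i ∈ s, (ENNReal.ofReal ((lam i * ℓ i ^ ((n : ℝ) - α) * (ℓ i ^ n)⁻¹ * C) ^ p) *
        ENNReal.ofReal ((1 + ‖(ℓ i)⁻¹ • (x - c i)‖) ^ (-((L : ℝ) * p)))) := by
        congr 1
        ext x
        exact Finset.sum_congr rfl fun i hi => hpow i hi x
    _ = ∑ i ∈ s, ∫⁻ x, (ENNReal.ofReal ((lam i * ℓ i ^ ((n : ℝ) - α) * (ℓ i ^ n)⁻¹ * C) ^ p) *
        ENNReal.ofReal ((1 + ‖(ℓ i)⁻¹ • (x - c i)‖) ^ (-((L : ℝ) * p)))) := by
        apply lintegral_finsetSum'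
        intro i _
        apply Measurable.aemeasurable
        fun_prop
    _ = ∑ i ∈ s, ENNReal.ofReal (C ^ p) * J *
          ENNReal.ofReal (lam i ^ p * ℓ i ^ ((n : ℝ) - α * p)) := by
        refine Finset.sum_congr rfl fun i hi => ?_
        have hl := hℓ i
        have hlam' := hlam i hi
        rw [lintegral_const_mul' _ _ ENNReal.ofReal_ne_top,
          lintegral_scale (c i) (hℓ i) (fun z => ENNReal.ofReal ((1 + ‖z‖) ^ (-((L : ℝ) * p)))), ← hJ,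
          ← mul_assoc, ← ENNReal.ofReal_mul (by positivity)]
        have e : (lam i * ℓ i ^ ((n : ℝ) - α) * (ℓ i ^ n)⁻¹ * C) ^ p * ℓ i ^ n =
            C ^ p * (lam i ^ p * ℓ i ^ ((n : ℝ) - α * p)) := by
          rw [Real.mul_rpow (by positivity) (by positivity), Real.mul_rpow (by positivity) (by positivity),
            Real.mul_rpow (by positivity) (by positivity), Real.inv_rpow (by positivity),
            ← Real.rpow_natCast, ← Real.rpow_mul hl.le, ← Real.rpow_mul hl.le, ← Real.rpow_neg hl.le]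
          have e2 : ℓ i ^ ((n : ℝ) - α * p) =
              ℓ i ^ (((n : ℝ) - α) * p) * ℓ i ^ (-((n : ℝ) * p)) * ℓ i ^ (n : ℝ) := by
            rw [← Real.rpow_add hl, ← Real.rpow_add hl]
            congr 1; ring
          rw [e2]; ring
        rw [e, ENNReal.ofReal_mul (by positivity)]
        ring
    _ = _ := by
        rw [← Finset.mul_sum, ENNReal.ofReal_sum_of_nonneg]
        intro i hi
        have hl := hℓ i
        have hlam' := hlam i hi
        positivity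


end Pool.Agent.Helper656.Cap
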