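import Pool.Agent.Helper656.CapFourier

open MeasureTheory SchwartzMap
open scoped ENNReal NNReal FourierTransform SchwartzMap RealInnerProductSpace

namespace Pool.Agent.Helper656.Cap

variable {n : ℕ}

section large

open LineDeriv Laplacian

theorem norm_iteratedFDeriv_lineDeriv_le (e : E n) (he : ‖e‖ ≤ 1) (ψ : 𝓢(E n, ℂ)) (l : ℕ)
    (y : E n) : ‖iteratedFDeriv ℝ l (∂_{e} ψ : 𝓢(E n, ℂ)) y‖ ≤ ‖iteratedFDeriv ℝ (l + 1) ψ y‖ := by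
  have h1 : ((∂_{e} ψ : 𝓢(E n, ℂ)) : E n → ℂ) = fun y => fderiv ℝ ψ y e := rfl
  rw [h1]
  have h2 : ContDiff ℝ l (fderiv ℝ (ψ : E n → ℂ)) :=
    (ψ.smooth (l + 1)).fderiv_right (by norm_cast)
  have h3 := norm_iteratedFDeriv_clm_apply_const (c := e) (x := y) (n := l) h2.contDiffAt le_rfl
  refine h3.trans ?_
  rw [norm_iteratedFDeriv_fderiv]
  calc ‖e‖ * _ ≤ 1 * ‖iteratedFDeriv ℝ (l + 1) ψ y‖ := by gcongr
    _ = _ := one_mul _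

theorem norm_iteratedFDeriv_laplacian_le (ψ : 𝓢(E n, ℂ)) (l : ℕ)
    (y : E n) : ‖iteratedFDeriv ℝ l (Δ ψ : 𝓢(E n, ℂ)) y‖ ≤ n * ‖iteratedFDeriv ℝ (l + 2) ψ y‖ := by
  let b := EuclideanSpace.basisFun (Fin n) ℝ
  have h1 : ((Δ ψ : 𝓢(E n, ℂ)) : E n → ℂ) =
      fun y => ∑ i, (∂_{b i} (∂_{b i} ψ) : 𝓢(E n, ℂ)) y := by
    rw [SchwartzMap.laplacian_eq_sum b]
    ext y
    simp
  rw [h1]
  have h2 : iteratedFDeriv ℝ l (fun y => ∑ i, (∂_{b i} (∂_{b i} ψ) : 𝓢(E n, ℂ)) y) y =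
      ∑ i, iteratedFDeriv ℝ l (∂_{b i} (∂_{b i} ψ) : 𝓢(E n, ℂ)) y := by
    rw [iteratedFDeriv_fun_sum_apply]
    intro i _
    exact (SchwartzMap.smooth _ l).contDiffAt
  rw [h2]
  refine (norm_sum_le _ _).trans ?_
  have h3 : ∀ i ∈ (Finset.univ : Finset (Fin n)),
      ‖iteratedFDeriv ℝ l (∂_{b i} (∂_{b i} ψ) : 𝓢(E n, ℂ)) y‖ ≤
        ‖iteratedFDeriv ℝ (l + 2) ψ y‖ := by
    intro i _
    have hb : ‖b i‖ ≤ 1 := (b.norm_eq_one i).le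
    exact (norm_iteratedFDeriv_lineDeriv_le (b i) hb _ l y).trans
      (norm_iteratedFDeriv_lineDeriv_le (b i) hb _ (l + 1) y)
  refine (Finset.sum_le_sum h3).trans ?_
  simp

/-- the iterated Laplacian -/
noncomputable def lapIt (J : ℕ) (ψ : 𝓢(E n, ℂ)) : 𝓢(E n, ℂ) :=
  (fun φ : 𝓢(E n, ℂ) => (Δ φ : 𝓢(E n, ℂ)))^[J] ψ

theorem lapIt_succ (J : ℕ) (ψ : 𝓢(E n, ℂ)) : lapIt (J + 1) ψ = Δ (lapIt J ψ) := by
  unfold lapIt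
  rw [Function.iterate_succ_apply']

theorem norm_iteratedFDeriv_lapIt_le (J : ℕ) (ψ : 𝓢(E n, ℂ)) (l : ℕ) (y : E n) :
    ‖iteratedFDeriv ℝ l (lapIt J ψ) y‖ ≤ n ^ J * ‖iteratedFDeriv ℝ (l + 2 * J) ψ y‖ := by
  induction J generalizing l with
  | zero => simp [lapIt]
  | succ J ih =>
    rw [lapIt_succ]
    calc _ ≤ n * ‖iteratedFDeriv ℝ (l + 2) (lapIt J ψ) y‖ :=
          norm_iteratedFDeriv_laplacian_le _ _ _
      _ ≤ n * (n ^ J * ‖iteratedFDeriv ℝ (l + 2 + 2 * J) ψ y‖) := by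
          gcongr
          exact ih (l + 2)
      _ = _ := by
          rw [show l + 2 + 2 * J = l + 2 * (J + 1) by ring, pow_succ]
          ring

theorem norm_lapIt_le (J : ℕ) (ψ : 𝓢(E n, ℂ)) (y : E n) :
    ‖lapIt J ψ y‖ ≤ n ^ J * ‖iteratedFDeriv ℝ (2 * J) ψ y‖ := by
  have := norm_iteratedFDeriv_lapIt_le J ψ 0 y
  rwa [norm_iteratedFDeriv_zero, zero_add] at this

theorem fourierInv_laplacian (ψ : 𝓢(E n, ℂ)) (ξ : E n) :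
    𝓕⁻ (Δ ψ : 𝓢(E n, ℂ)) ξ = ((-(2 * Real.pi) ^ 2 * ‖ξ‖ ^ 2 : ℝ) : ℂ) * 𝓕⁻ ψ ξ := by
  let b := EuclideanSpace.basisFun (Fin n) ℝ
  have hg : ∀ m : E n, (inner ℝ · m).HasTemperateGrowth := fun m => by fun_prop
  have h1 : ∀ m : E n, ∀ φ : 𝓢(E n, ℂ), 𝓕⁻ (∂_{m} φ : 𝓢(E n, ℂ)) ξ =
      -(2 * Real.pi * Complex.I) * (⟪ξ, m⟫ : ℂ) * 𝓕⁻ φ ξ := by
    intro m φ
    rw [SchwartzMap.fourierInv_lineDerivOp_eq, smul_apply,
      SchwartzMap.smulLeftCLM_apply_apply (hg m)]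
    simp [mul_assoc]
  rw [SchwartzMap.laplacian_eq_sum b]
  have h2 : 𝓕⁻ (∑ i, ∂_{b i} (∂_{b i} ψ) : 𝓢(E n, ℂ)) ξ =
      ∑ i, 𝓕⁻ (∂_{b i} (∂_{b i} ψ) : 𝓢(E n, ℂ)) ξ := by
    have := map_sum (FourierTransform.fourierInvCLM ℂ 𝓢(E n, ℂ))
      (fun i => (∂_{b i} (∂_{b i} ψ) : 𝓢(E n, ℂ))) Finset.univ
    simp only [FourierTransform.fourierInvCLM_apply] at this
    rw [this]
    simp
  rw [h2]
  have h3 : ∀ i, 𝓕⁻ (∂_{b i} (∂_{b i} ψ) : 𝓢(E n, ℂ)) ξ =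
      ((-(2 * Real.pi) ^ 2 * ⟪ξ, b i⟫ ^ 2 : ℝ) : ℂ) * 𝓕⁻ ψ ξ := by
    intro i
    rw [h1, h1]
    push_cast
    ring_nf
    rw [Complex.I_sq]
    ring
  simp_rw [h3]
  rw [← Finset.sum_mul, ← Complex.ofReal_sum, ← Finset.mul_sum]
  congr 4
  exact b.sum_sq_inner_left ξ

theorem fourierInv_lapIt (J : ℕ) (ψ : 𝓢(E n, ℂ)) (ξ : E n) :
    𝓕⁻ (lapIt J ψ) ξ = (((-(2 * Real.pi) ^ 2) ^ J * ‖ξ‖ ^ (2 * J) : ℝ) : ℂ) * 𝓕⁻ ψ ξ := by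
  induction J with
  | zero => simp [lapIt]
  | succ J ih =>
    rw [lapIt_succ, fourierInv_laplacian, ih]
    push_cast
    ring

theorem one_add_pow_le (a : ℝ) (ha : 0 ≤ a) (L : ℕ) : (1 + a) ^ L ≤ 2 ^ L * (1 + a ^ L) := by
  rcases le_total a 1 with h | h
  · calc (1 + a) ^ L ≤ 2 ^ L := by
          apply pow_le_pow_left₀ (by positivity)
          linarith
      _ = 2 ^ L * (1 + 0) := by ring
      _ ≤ _ := by gcongr; positivity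
  · calc (1 + a) ^ L ≤ (2 * a) ^ L := by
          apply pow_le_pow_left₀ (by positivity)
          linarith
      _ = 2 ^ L * (0 + a ^ L) := by rw [mul_pow]; ring
      _ ≤ _ := by gcongr; norm_num

theorem adapted_deriv_bound {N L J : ℕ} (hN : 2 * J ≤ N) (hLN : L ≤ N) (hL : L ≤ n + 2 * J)
    {x : E n} {t : ℝ} (ht : 1 ≤ t) {ψ : 𝓢(E n, ℂ)} (hψ : Adapted N x t ψ) (y : E n) :
    (1 + ‖x‖) ^ L * ‖iteratedFDeriv ℝ (2 * J) ψ y‖ ≤ 2 ^ L * 2 * (1 + ‖y‖) ^ L := by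
  have ht0 : 0 < t := by linarith
  set D := ‖iteratedFDeriv ℝ (2 * J) ψ y‖ with hD
  have hD0 : 0 ≤ D := norm_nonneg _
  set s := ‖y - x‖ / t with hs
  have hs0 : 0 ≤ s := by positivity
  have h0 : t ^ (n + 2 * J) * D ≤ 1 := by
    have := hψ 0 (Nat.zero_le _) (2 * J) hN y
    simpa using this
  have h1 : s ^ L * (t ^ (n + 2 * J) * D) ≤ 1 := hψ L hLN (2 * J) hN y
  have h2 : (1 + s) ^ L * (t ^ (n + 2 * J) * D) ≤ 2 ^ L * 2 := by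
    calc _ ≤ 2 ^ L * (1 + s ^ L) * (t ^ (n + 2 * J) * D) := by
          gcongr
          exact one_add_pow_le s hs0 L
      _ = 2 ^ L * (t ^ (n + 2 * J) * D + s ^ L * (t ^ (n + 2 * J) * D)) := by ring
      _ ≤ 2 ^ L * (1 + 1) := by gcongr
      _ = _ := by ring
  have h3 : 1 + ‖x‖ ≤ t * (1 + s) * (1 + ‖y‖) := by
    have h4 : ‖x‖ ≤ ‖y - x‖ + ‖y‖ := by
      calc ‖x‖ = ‖y - (y - x)‖ := by congr 1; abel
        _ ≤ ‖y‖ + ‖y - x‖ := norm_sub_le _ _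
        _ = _ := add_comm _ _
    have h5 : t * (1 + s) = t + ‖y - x‖ := by
      rw [hs]; field_simp
    rw [h5]
    nlinarith [norm_nonneg y, norm_nonneg (y - x)]
  calc (1 + ‖x‖) ^ L * D ≤ (t * (1 + s) * (1 + ‖y‖)) ^ L * D := by gcongr
    _ = t ^ L * ((1 + s) ^ L * (1 + ‖y‖) ^ L * D) := by rw [mul_pow, mul_pow]; ring
    _ ≤ t ^ (n + 2 * J) * ((1 + s) ^ L * (1 + ‖y‖) ^ L * D) := by
        gcongr
    _ = (1 + s) ^ L * (t ^ (n + 2 * J) * D) * (1 + ‖y‖) ^ L := by ring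
    _ ≤ 2 ^ L * 2 * (1 + ‖y‖) ^ L := by gcongr

end large

/-- TARGET -/
theorem pairing_large (N L J : ℕ) (hN : 2 * J ≤ N) (hLN : L ≤ N) (hL : L ≤ n + 2 * J)
    (f : 𝓢(E n, ℂ)) :
    ∃ C : ℝ, 0 < C ∧ ∀ (x : E n) (t : ℝ), 1 ≤ t → ∀ ψ : 𝓢(E n, ℂ), Adapted N x t ψ →
      ‖∫ ξ, ((‖ξ‖ ^ (2 * J) : ℝ) : ℂ) * 𝓕 f ξ * 𝓕⁻ ψ ξ‖ ≤ C / (1 + ‖x‖) ^ L := by
  set M : ℝ := ∫ y, (‖y‖ ^ 0 * ‖f y‖ + ‖y‖ ^ L * ‖f y‖) with hM
  have hint : Integrable (fun y => ‖y‖ ^ 0 * ‖f y‖ + ‖y‖ ^ L * ‖f y‖) :=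
    (f.integrable_pow_mul volume 0).add (f.integrable_pow_mul volume L)
  have hM0 : 0 ≤ M := integral_nonneg fun y => by positivity
  set c : ℝ := (-(2 * Real.pi) ^ 2) ^ J with hc
  have hc0 : c ≠ 0 := by
    rw [hc]
    apply pow_ne_zero
    have := Real.pi_pos
    rw [neg_ne_zero]
    positivity
  set B : ℝ := n ^ J * (2 ^ L * 2 * 2 ^ L) with hB
  have hB0 : 0 ≤ B := by positivity
  refine ⟨|c⁻¹| * (B * M) + 1, by positivity, ?_⟩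
  intro x t ht ψ hψ
  have hX : 0 < (1 + ‖x‖) ^ L := by positivity
  have h1 : ∫ ξ, ((‖ξ‖ ^ (2 * J) : ℝ) : ℂ) * 𝓕 f ξ * 𝓕⁻ ψ ξ =
      ((c⁻¹ : ℝ) : ℂ) * ∫ y, f y * lapIt J ψ y := by
    have h2 := SchwartzMap.integral_fourier_mul_eq f (𝓕⁻ (lapIt J ψ))
    rw [FourierTransform.fourier_fourierInv_eq] at h2
    rw [← h2, ← integral_const_mul]
    refine integral_congr_ae (Filter.Eventually.of_forall fun ξ => ?_)
    simp only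
    rw [fourierInv_lapIt, ← hc]
    push_cast
    have : (c : ℂ) ≠ 0 := by exact_mod_cast hc0
    field_simp
  rw [h1, norm_mul, Complex.norm_real, Real.norm_eq_abs]
  have h3 : ‖∫ y, f y * lapIt J ψ y‖ ≤ B * M / (1 + ‖x‖) ^ L := by
    have h4 : ∀ y, ‖f y * lapIt J ψ y‖ ≤
        B / (1 + ‖x‖) ^ L * (‖y‖ ^ 0 * ‖f y‖ + ‖y‖ ^ L * ‖f y‖) := by
      intro y
      have h5 := adapted_deriv_bound hN hLN hL ht hψ y
      have h6 := norm_lapIt_le J ψ y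
      have h7 : ‖iteratedFDeriv ℝ (2 * J) ψ y‖ ≤
          2 ^ L * 2 * (2 ^ L * (1 + ‖y‖ ^ L)) / (1 + ‖x‖) ^ L := by
        rw [le_div_iff₀ hX, mul_comm]
        refine h5.trans ?_
        gcongr
        exact one_add_pow_le _ (norm_nonneg y) L
      rw [norm_mul]
      calc ‖f y‖ * ‖lapIt J ψ y‖ ≤ ‖f y‖ * (n ^ J *
            (2 ^ L * 2 * (2 ^ L * (1 + ‖y‖ ^ L)) / (1 + ‖x‖) ^ L)) := by
            gcongr
            exact h6.trans (by gcongr)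
        _ = _ := by rw [hB]; ring
    calc ‖∫ y, f y * lapIt J ψ y‖ ≤
        ∫ y, B / (1 + ‖x‖) ^ L * (‖y‖ ^ 0 * ‖f y‖ + ‖y‖ ^ L * ‖f y‖) :=
          norm_integral_le_of_norm_le (hint.const_mul _) (Filter.Eventually.of_forall h4)
      _ = _ := by rw [integral_const_mul, ← hM]; ring
  calc |c⁻¹| * ‖∫ y, f y * lapIt J ψ y‖ ≤ |c⁻¹| * (B * M / (1 + ‖x‖) ^ L) := by gcongr
    _ = |c⁻¹| * (B * M) / (1 + ‖x‖) ^ L := by ring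
    _ ≤ (|c⁻¹| * (B * M) + 1) / (1 + ‖x‖) ^ L := by gcongr; linarith

end Pool.Agent.Helper656.Cap

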