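import Pool.Agent.Helper656.CapPairSmall
import Pool.Agent.Helper656.CapPairLarge

open MeasureTheory SchwartzMap
open scoped ENNReal NNReal FourierTransform SchwartzMap RealInnerProductSpace

namespace Pool.Agent.Helper656.Cap

variable {n : ℕ}

theorem integrable_base791 : Integrable (fun z : E n => (1 + ‖z‖) ^ (-((n : ℝ) + 1))) := by
  apply integrable_one_add_norm
  rw [finrank_euclideanSpace_fin]
  linarith

theorem rpow_base791 (y : E n) : (1 + ‖y‖) ^ (-((n : ℝ) + 1)) = ((1 + ‖y‖) ^ (n + 1))⁻¹ := by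
  rw [Real.rpow_neg (by positivity), ← Real.rpow_natCast]
  push_cast
  rfl

theorem pairing_small_q791 (N L : ℕ) (hN : L + n + 1 ≤ N) :
    ∃ C : ℝ, 0 < C ∧ ∀ (B : ℝ) (f : 𝓢(E n, ℂ)), 0 < B →
      (∀ y, ‖f y‖ ≤ B / (1 + ‖y‖) ^ (L + n + 1)) →
      ∀ (x : E n) (t : ℝ), 0 < t → t ≤ 1 → ∀ ψ : 𝓢(E n, ℂ), Adapted N x t ψ →
      ‖∫ y, f y * ψ y‖ ≤ C * B / (1 + ‖x‖) ^ L := by
  have hint := integrable_base791 (n := n)
  set I : ℝ := ∫ z : E n, (1 + ‖z‖) ^ (-((n : ℝ) + 1)) with hI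
  have hI0 : 0 ≤ I := integral_nonneg fun z => by positivity
  refine ⟨2 ^ (L + n + 2) * I + 1, by positivity, ?_⟩
  intro B f hB hfB
  have hf : ∀ y, (1 + ‖y‖) ^ L * ‖f y‖ ≤ B := by
    intro y
    have h1 := hfB y
    rw [le_div_iff₀ (by positivity)] at h1
    have h2 : (1 + ‖y‖) ^ L ≤ (1 + ‖y‖) ^ (L + n + 1) := by
      apply pow_le_pow_right₀
      · linarith [norm_nonneg y]
      · omega
    calc (1 + ‖y‖) ^ L * ‖f y‖ ≤ (1 + ‖y‖) ^ (L + n + 1) * ‖f y‖ := by gcongr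
      _ = ‖f y‖ * (1 + ‖y‖) ^ (L + n + 1) := mul_comm _ _
      _ ≤ B := h1
  intro x t ht ht1 ψ hψ
  have key : ∀ y, ‖f y * ψ y‖ ≤ (B * 2 ^ (L + n + 2) / (1 + ‖x‖) ^ L) *
      ((t ^ n)⁻¹ * (1 + ‖t⁻¹ • (y - x)‖) ^ (-((n : ℝ) + 1))) := by
    intro y
    have hs : ‖t⁻¹ • (y - x)‖ = ‖y - x‖ / t := by
      rw [norm_smul, norm_inv, Real.norm_of_nonneg ht.le, inv_mul_eq_div]
    rw [hs]
    set s := ‖y - x‖ / t with hsdef
    have hs0 : 0 ≤ s := by positivity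
    set A := t ^ n * ‖ψ y‖ with hA
    have hA0 : 0 ≤ A := by positivity
    have hk : ∀ k ≤ N, s ^ k * A ≤ 1 := by
      intro k hk
      have := hψ k hk 0 (Nat.zero_le _) y
      rwa [norm_iteratedFDeriv_zero, add_zero] at this
    have hA1 : A ≤ 1 := by simpa using hk 0 (Nat.zero_le _)
    have hAm : s ^ (L + n + 1) * A ≤ 1 := hk _ hN
    have hm : (1 + s) ^ (L + n + 1) * A ≤ 2 ^ (L + n + 2) := by
      have h1 : (1 + s) ^ (L + n + 1) ≤ 2 ^ (L + n + 1) * (1 + s ^ (L + n + 1)) := by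
        rcases le_total s 1 with h | h
        · calc (1 + s) ^ (L + n + 1) ≤ 2 ^ (L + n + 1) := by
                apply pow_le_pow_left₀ (by positivity); linarith
            _ ≤ _ := by
                have : 0 ≤ s ^ (L + n + 1) := by positivity
                have h2 : (0 : ℝ) < 2 ^ (L + n + 1) := by positivity
                nlinarith
        · calc (1 + s) ^ (L + n + 1) ≤ (2 * s) ^ (L + n + 1) := by
                apply pow_le_pow_left₀ (by positivity); linarith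
            _ = 2 ^ (L + n + 1) * s ^ (L + n + 1) := mul_pow _ _ _
            _ ≤ _ := by gcongr; linarith
      calc (1 + s) ^ (L + n + 1) * A ≤ 2 ^ (L + n + 1) * (1 + s ^ (L + n + 1)) * A := by gcongr
        _ = 2 ^ (L + n + 1) * (A + s ^ (L + n + 1) * A) := by ring
        _ ≤ 2 ^ (L + n + 1) * (1 + 1) := by gcongr
        _ = 2 ^ (L + n + 2) := by ring
    have hP : (1 + ‖x‖) ^ L ≤ (1 + ‖y‖) ^ L * (1 + s) ^ L := by
      rw [← mul_pow]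
      apply pow_le_pow_left₀ (by positivity)
      have h1 : ‖x‖ ≤ ‖y‖ + ‖y - x‖ := by
        calc ‖x‖ = ‖y - (y - x)‖ := by congr 1; abel
          _ ≤ _ := norm_sub_le _ _
      have h2 : ‖y - x‖ ≤ s := by
        rw [hsdef, le_div_iff₀ ht]
        nlinarith [norm_nonneg (y - x)]
      nlinarith [norm_nonneg y, norm_nonneg (y - x)]
    have hrp : (1 + s) ^ (-((n : ℝ) + 1)) = ((1 + s) ^ (n + 1))⁻¹ := by
      rw [Real.rpow_neg (by positivity), ← Real.rpow_natCast]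
      push_cast
      rfl
    rw [hrp, norm_mul]
    have htn : 0 < t ^ n := by positivity
    have hψA : ‖ψ y‖ = (t ^ n)⁻¹ * A := by
      rw [hA, ← mul_assoc, inv_mul_cancel₀ htn.ne', one_mul]
    have hx0 : 0 < (1 + ‖x‖) ^ L := by positivity
    have hs1 : 0 < (1 + s) ^ (n + 1) := by positivity
    rw [hψA]
    have hmain : ‖f y‖ * A * (1 + ‖x‖) ^ L * (1 + s) ^ (n + 1) ≤ B * 2 ^ (L + n + 2) := by
      calc ‖f y‖ * A * (1 + ‖x‖) ^ L * (1 + s) ^ (n + 1)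
          ≤ ‖f y‖ * A * ((1 + ‖y‖) ^ L * (1 + s) ^ L) * (1 + s) ^ (n + 1) := by gcongr
        _ = ((1 + ‖y‖) ^ L * ‖f y‖) * ((1 + s) ^ (L + n + 1) * A) := by ring
        _ ≤ B * 2 ^ (L + n + 2) := by
            apply mul_le_mul (hf y) hm (by positivity) hB.le
    calc ‖f y‖ * ((t ^ n)⁻¹ * A) = (t ^ n)⁻¹ * ((‖f y‖ * A * (1 + ‖x‖) ^ L * (1 + s) ^ (n + 1)) /
          ((1 + ‖x‖) ^ L * (1 + s) ^ (n + 1))) := by
            field_simp
      _ ≤ (t ^ n)⁻¹ * ((B * 2 ^ (L + n + 2)) / ((1 + ‖x‖) ^ L * (1 + s) ^ (n + 1))) := by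
            gcongr
      _ = _ := by field_simp
  have hint2 : Integrable (fun y : E n => (1 + ‖t⁻¹ • (y - x)‖) ^ (-((n : ℝ) + 1))) := by
    have h1 := hint.comp_smul (inv_pos.2 ht).ne'
    exact h1.comp_sub_right x
  have hval : ∫ y : E n, (1 + ‖t⁻¹ • (y - x)‖) ^ (-((n : ℝ) + 1)) = t ^ n * I := by
    rw [integral_sub_right_eq_self (fun y : E n => (1 + ‖t⁻¹ • y‖) ^ (-((n : ℝ) + 1))) x]
    rw [Measure.integral_comp_inv_smul_of_nonneg (volume : Measure (E n))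
      (fun z : E n => (1 + ‖z‖) ^ (-((n : ℝ) + 1))) ht.le]
    rw [finrank_euclideanSpace_fin, smul_eq_mul]
  calc ‖∫ y, f y * ψ y‖ ≤ ∫ y, (B * 2 ^ (L + n + 2) / (1 + ‖x‖) ^ L) *
      ((t ^ n)⁻¹ * (1 + ‖t⁻¹ • (y - x)‖) ^ (-((n : ℝ) + 1))) := by
        apply norm_integral_le_of_norm_le
        · exact (hint2.const_mul _).const_mul _
        · exact Filter.Eventually.of_forall key
    _ = (B * 2 ^ (L + n + 2) / (1 + ‖x‖) ^ L) * I := by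
        rw [integral_const_mul, integral_const_mul, hval, ← mul_assoc (t ^ n)⁻¹,
          inv_mul_cancel₀ (by positivity), one_mul]
    _ = (2 ^ (L + n + 2) * I) * B / (1 + ‖x‖) ^ L := by ring
    _ ≤ _ := by
        gcongr
        linarith

theorem pairing_large_q791 (N L J : ℕ) (hN : 2 * J ≤ N) (hLN : L ≤ N) (hL : L ≤ n + 2 * J) :
    ∃ C : ℝ, 0 < C ∧ ∀ (B : ℝ) (f : 𝓢(E n, ℂ)), 0 < B →
      (∀ y, ‖f y‖ ≤ B / (1 + ‖y‖) ^ (L + n + 1)) →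
      ∀ (x : E n) (t : ℝ), 1 ≤ t → ∀ ψ : 𝓢(E n, ℂ), Adapted N x t ψ →
      ‖∫ ξ, ((‖ξ‖ ^ (2 * J) : ℝ) : ℂ) * 𝓕 f ξ * 𝓕⁻ ψ ξ‖ ≤ C * B / (1 + ‖x‖) ^ L := by
  have hintI := integrable_base791 (n := n)
  set I : ℝ := ∫ z : E n, (1 + ‖z‖) ^ (-((n : ℝ) + 1)) with hI
  have hI0 : 0 ≤ I := integral_nonneg fun z => by positivity
  set c : ℝ := (-(2 * Real.pi) ^ 2) ^ J with hc
  have hc0 : c ≠ 0 := by
    rw [hc]
    apply pow_ne_zero
    have := Real.pi_pos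
    rw [neg_ne_zero]
    positivity
  set B₁ : ℝ := n ^ J * (2 ^ L * 2 * 2 ^ L) with hB₁
  have hB₁0 : 0 ≤ B₁ := by positivity
  refine ⟨|c⁻¹| * (B₁ * (2 * I)) + 1, by positivity, ?_⟩
  intro B f hB hfB
  set M : ℝ := ∫ y, (‖y‖ ^ 0 * ‖f y‖ + ‖y‖ ^ L * ‖f y‖) with hM
  have hint : Integrable (fun y => ‖y‖ ^ 0 * ‖f y‖ + ‖y‖ ^ L * ‖f y‖) :=
    (f.integrable_pow_mul volume 0).add (f.integrable_pow_mul volume L)
  have hM0 : 0 ≤ M := integral_nonneg fun y => by positivity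
  have hMB : M ≤ 2 * B * I := by
    rw [hM, hI, ← integral_const_mul]
    apply integral_mono hint (hintI.const_mul _)
    intro y
    simp only
    have h1 := hfB y
    have h2 : (1 : ℝ) ≤ (1 + ‖y‖) ^ L := one_le_pow₀ (by linarith [norm_nonneg y])
    have h3 : ‖y‖ ^ L ≤ (1 + ‖y‖) ^ L := by
      apply pow_le_pow_left₀ (norm_nonneg y)
      linarith
    calc ‖y‖ ^ 0 * ‖f y‖ + ‖y‖ ^ L * ‖f y‖ ≤ (1 + ‖y‖) ^ L * ‖f y‖ + (1 + ‖y‖) ^ L * ‖f y‖ := by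
          rw [pow_zero]
          gcongr
      _ = 2 * ((1 + ‖y‖) ^ L * ‖f y‖) := by ring
      _ ≤ 2 * ((1 + ‖y‖) ^ L * (B / (1 + ‖y‖) ^ (L + n + 1))) := by gcongr
      _ = 2 * B * (1 + ‖y‖) ^ (-((n : ℝ) + 1)) := by
          rw [rpow_base791]
          have : (1 + ‖y‖) ^ (L + n + 1) = (1 + ‖y‖) ^ L * (1 + ‖y‖) ^ (n + 1) := by
            rw [← pow_add]
            congr 1
          rw [this]
          have h4 : (1 + ‖y‖) ^ L ≠ 0 := by positivity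
          have h5 : (1 + ‖y‖) ^ (n + 1) ≠ 0 := by positivity
          field_simp
  intro x t ht ψ hψ
  have hX : 0 < (1 + ‖x‖) ^ L := by positivity
  have h1 : ∫ ξ, ((‖ξ‖ ^ (2 * J) : ℝ) : ℂ) * 𝓕 f ξ * 𝓕⁻ ψ ξ =
      ((c⁻¹ : ℝ) : ℂ) * ∫ y, f y * lapIt J ψ y := by
    have h2 := SchwartzMap.integral_fourier_mul_eq f (𝓕⁻ (lapIt J ψ))
    rw [FourierTransform.fourier_fourierInv_eq] at h2
    rw [← h2, ← integral_const_mul]
    refine integral_congr_ae (Filter.Eventually.of_forall fun ξ => ?_)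
    simp only
    rw [fourierInv_lapIt, ← hc]
    push_cast
    have : (c : ℂ) ≠ 0 := by exact_mod_cast hc0
    field_simp
  rw [h1, norm_mul, Complex.norm_real, Real.norm_eq_abs]
  have h3 : ‖∫ y, f y * lapIt J ψ y‖ ≤ B₁ * M / (1 + ‖x‖) ^ L := by
    have h4 : ∀ y, ‖f y * lapIt J ψ y‖ ≤
        B₁ / (1 + ‖x‖) ^ L * (‖y‖ ^ 0 * ‖f y‖ + ‖y‖ ^ L * ‖f y‖) := by
      intro y
      have h5 := adapted_deriv_bound hN hLN hL ht hψ y
      have h6 := norm_lapIt_le J ψ y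
      have h7 : ‖iteratedFDeriv ℝ (2 * J) ψ y‖ ≤
          2 ^ L * 2 * (2 ^ L * (1 + ‖y‖ ^ L)) / (1 + ‖x‖) ^ L := by
        rw [le_div_iff₀ hX, mul_comm]
        refine h5.trans ?_
        gcongr
        exact one_add_pow_le _ (norm_nonneg y) L
      rw [norm_mul]
      calc ‖f y‖ * ‖lapIt J ψ y‖ ≤ ‖f y‖ * (n ^ J *
            (2 ^ L * 2 * (2 ^ L * (1 + ‖y‖ ^ L)) / (1 + ‖x‖) ^ L)) := by
            gcongr
            exact h6.trans (by gcongr)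
        _ = _ := by rw [hB₁]; ring
    calc ‖∫ y, f y * lapIt J ψ y‖ ≤
        ∫ y, B₁ / (1 + ‖x‖) ^ L * (‖y‖ ^ 0 * ‖f y‖ + ‖y‖ ^ L * ‖f y‖) :=
          norm_integral_le_of_norm_le (hint.const_mul _) (Filter.Eventually.of_forall h4)
      _ = _ := by rw [integral_const_mul, ← hM]; ring
  calc |c⁻¹| * ‖∫ y, f y * lapIt J ψ y‖ ≤ |c⁻¹| * (B₁ * M / (1 + ‖x‖) ^ L) := by gcongr
    _ ≤ |c⁻¹| * (B₁ * (2 * B * I) / (1 + ‖x‖) ^ L) := by gcongr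
    _ = (|c⁻¹| * (B₁ * (2 * I))) * B / (1 + ‖x‖) ^ L := by ring
    _ ≤ (|c⁻¹| * (B₁ * (2 * I)) + 1) * B / (1 + ‖x‖) ^ L := by gcongr; linarith

/-- TARGET (adapt the proofs of `pairing_small`, `pairing_large` above, keeping track of the
constants) -/
theorem pairing_bound_q (N L J : ℕ) (h1 : L + n + 1 ≤ N) (h2 : 2 * J ≤ N) (h3 : L ≤ n + 2 * J) :
    ∃ C₀ : ℝ, 0 < C₀ ∧ ∀ (B : ℝ) (η f : 𝓢(E n, ℂ)), 0 < B →
      (∀ y, ‖η y‖ ≤ B / (1 + ‖y‖) ^ (L + n + 1)) → (∀ y, ‖f y‖ ≤ B / (1 + ‖y‖) ^ (L + n + 1)) →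
      (∀ ξ, 𝓕 η ξ = ((‖ξ‖ ^ (2 * J) : ℝ) : ℂ) * 𝓕 f ξ) →
      ∀ (x : E n) (t : ℝ), 0 < t → ∀ ψ : 𝓢(E n, ℂ), Adapted N x t ψ →
        ‖∫ y, η y * ψ y‖ ≤ C₀ * B / (1 + ‖x‖) ^ L := by
  obtain ⟨C₁, hC₁, hs⟩ := pairing_small_q791 (n := n) N L h1
  obtain ⟨C₂, hC₂, hl⟩ := pairing_large_q791 (n := n) N L J h2 (by omega) h3
  refine ⟨C₁ + C₂, by positivity, ?_⟩
  intro B η f hB hη hf hF x t ht ψ hψ
  have hX : 0 < (1 + ‖x‖) ^ L := by positivity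
  rcases le_total t 1 with h | h
  · refine (hs B η hB hη x t ht h ψ hψ).trans ?_
    gcongr
    linarith
  · have e : ∫ y, η y * ψ y = ∫ ξ, ((‖ξ‖ ^ (2 * J) : ℝ) : ℂ) * 𝓕 f ξ * 𝓕⁻ ψ ξ := by
      have h4 := SchwartzMap.integral_fourier_mul_eq η (𝓕⁻ ψ)
      rw [FourierTransform.fourier_fourierInv_eq] at h4
      rw [← h4]
      refine integral_congr_ae (Filter.Eventually.of_forall fun ξ => ?_)
      simp only
      rw [hF]
    rw [e]
    refine (hl B f hB hf x t h ψ hψ).trans ?_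
    gcongr
    linarith

end Pool.Agent.Helper656.Cap
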