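import Pool.Agent.Helper656.BesSetup
import Pool.Agent.Helper656.BesFamily
import Pool.Agent.Helper656.BesPairQ
import Pool.Agent.Helper656.BesHardy
import Pool.Agent.Helper656.BesDefs

open MeasureTheory SchwartzMap
open scoped ENNReal NNReal FourierTransform SchwartzMap RealInnerProductSpace

namespace Pool.Agent.Helper656.Cap

variable {n : ℕ}

/-- combinations of dilates of a family of functions -/
noncomputable def combF (T : Finset (ℕ × Cube n)) (a : ℕ × Cube n → ℝ)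
    (f : ℕ × Cube n → 𝓢(E n, ℂ)) : 𝓢(E n, ℂ) :=
  ∑ i ∈ T, ((a i : ℝ) : ℂ) • dil (Cube.center i.2) (Cube.side i.2) (side_pos i.2) (f i)

theorem combF_apply (T : Finset (ℕ × Cube n)) (a : ℕ × Cube n → ℝ)
    (f : ℕ × Cube n → 𝓢(E n, ℂ)) (y : E n) :
    combF T a f y = ∑ i ∈ T, ((a i : ℝ) : ℂ) *
      dil (Cube.center i.2) (Cube.side i.2) (side_pos i.2) (f i) y := by
  simp [combF]

theorem fourier_combF (T : Finset (ℕ × Cube n)) (a : ℕ × Cube n → ℝ)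
    (f : ℕ × Cube n → 𝓢(E n, ℂ)) (ξ : E n) :
    𝓕 (combF T a f) ξ = ∑ i ∈ T, ((a i : ℝ) : ℂ) *
      (Complex.exp (-(2 * Real.pi * ⟪Cube.center i.2, ξ⟫ * Complex.I)) *
        𝓕 (f i) (Cube.side i.2 • ξ)) := by
  have h1 : 𝓕 (combF T a f) = ∑ i ∈ T, ((a i : ℝ) : ℂ) •
      𝓕 (dil (Cube.center i.2) (Cube.side i.2) (side_pos i.2) (f i)) := by
    simp [combF]
  rw [h1, sum_apply]
  refine Finset.sum_congr rfl fun i _ => ?_
  rw [smul_apply, fourier_dil, smul_eq_mul]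

theorem toDist_combF (T : Finset (ℕ × Cube n)) (a : ℕ × Cube n → ℝ)
    (f : ℕ × Cube n → 𝓢(E n, ℂ)) (ψ : 𝓢(E n, ℂ)) :
    toDist (combF T a f) ψ = ∑ i ∈ T, ((a i : ℝ) : ℂ) *
      ∫ y, ψ y * dil (Cube.center i.2) (Cube.side i.2) (side_pos i.2) (f i) y := by
  rw [toDist_apply]
  simp only [combF_apply, Finset.mul_sum]
  rw [integral_finsetSum]
  · refine Finset.sum_congr rfl fun i _ => ?_
    rw [← integral_const_mul]
    refine integral_congr_ae (Filter.Eventually.of_forall fun y => ?_)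
    simp only
    ring
  · intro i _
    have h1 : Integrable (fun y => ((a i : ℝ) : ℂ) *
        (ψ y * dil (Cube.center i.2) (Cube.side i.2) (side_pos i.2) (f i) y)) := by
      refine Integrable.const_mul ?_ _
      exact (SchwartzMap.pairing (ContinuousLinearMap.mul ℂ ℂ) ψ
        (dil (Cube.center i.2) (Cube.side i.2) (side_pos i.2) (f i))).integrable
    refine h1.congr (Filter.Eventually.of_forall fun y => ?_)
    simp only
    ring

theorem isBesselPotential_toDist {α : ℝ} (h u : 𝓢(E n, ℂ))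
    (hu : ∀ ξ, 𝓕 h ξ = (((1 + 4 * Real.pi ^ 2 * ‖ξ‖ ^ 2) ^ (α / 2) : ℝ) : ℂ) * 𝓕 u ξ) :
    IsBesselPotential α (toDist h) (toDist u) := by
  refine ⟨fun ξ => 𝓕 h ξ, (𝓕 h).continuous, schwartz_poly _, fourier_toDist h, ?_⟩
  intro φ
  rw [fourier_toDist]
  refine integral_congr_ae (Filter.Eventually.of_forall fun ξ => ?_)
  have hpos : 0 < 1 + 4 * Real.pi ^ 2 * ‖ξ‖ ^ 2 := by positivity
  simp only
  rw [hu, ← mul_assoc, ← Complex.ofReal_mul, ← Real.rpow_add hpos, neg_add_cancel,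
    Real.rpow_zero, Complex.ofReal_one, one_mul]

/-- the family of functions `η_ℓ` with `𝓕 η_ℓ = (ℓ² + 4π²‖ξ‖²)^(α/2) 𝓕 w` -/
theorem exists_bessel_family (α : ℝ) (w : 𝓢(E n, ℂ)) (δ : ℝ) (hδ : 0 < δ)
    (hw0 : ∀ ξ, ‖ξ‖ ≤ δ → 𝓕 w ξ = 0) (hwc : HasCompactSupport (𝓕 w : 𝓢(E n, ℂ)))
    (L N : ℕ) (h1 : L + n + 1 ≤ N) (h2 : 2 * L ≤ N) :
    ∃ C : ℝ, 0 < C ∧ ∀ s : ℝ, 0 < s → s ≤ 1 → ∃ η : 𝓢(E n, ℂ),
      (∀ ξ, 𝓕 η ξ = (((s ^ 2 + 4 * Real.pi ^ 2 * ‖ξ‖ ^ 2) ^ (α / 2) : ℝ) : ℂ) * 𝓕 w ξ) ∧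
      ∀ (x : E n) (t : ℝ), 0 < t → ∀ ψ : 𝓢(E n, ℂ), Adapted N x t ψ →
        ‖∫ y, η y * ψ y‖ ≤ C / (1 + ‖x‖) ^ L := by
  have hk : ∀ z : ℝ × E n, z.2 ≠ 0 → ContDiffAt ℝ (⊤ : ℕ∞)
      (fun z : ℝ × E n => (((z.1 ^ 2 + 4 * Real.pi ^ 2 * ‖z.2‖ ^ 2) ^ (α / 2) : ℝ) : ℂ)) z := by
    intro z hz
    apply Complex.ofRealCLM.contDiff.contDiffAt.comp
    have h1 : ContDiffAt ℝ (⊤ : ℕ∞) (fun z : ℝ × E n => z.1 ^ 2 + 4 * Real.pi ^ 2 * ‖z.2‖ ^ 2) z := by
      have : ContDiff ℝ (⊤ : ℕ∞) (fun z : ℝ × E n => z.1 ^ 2 + 4 * Real.pi ^ 2 * ‖z.2‖ ^ 2) :=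
        (contDiff_fst.pow 2).add (contDiff_const.mul ((contDiff_norm_sq ℝ).comp contDiff_snd))
      exact this.contDiffAt
    apply h1.rpow_const_of_ne
    have : 0 < ‖z.2‖ := norm_pos_iff.2 hz
    positivity
  have hk2 : ∀ z : ℝ × E n, z.2 ≠ 0 → ContDiffAt ℝ (⊤ : ℕ∞)
      (fun z : ℝ × E n => (((z.1 ^ 2 + 4 * Real.pi ^ 2 * ‖z.2‖ ^ 2) ^ (α / 2) : ℝ) : ℂ) *
        (((‖z.2‖ ^ (2 * L))⁻¹ : ℝ) : ℂ)) z := by
    intro z hz
    refine (hk z hz).mul ?_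
    apply Complex.ofRealCLM.contDiff.contDiffAt.comp
    apply ContDiffAt.inv
    · exact (((contDiffAt_norm ℝ hz).comp z contDiffAt_snd)).pow _
    · have : 0 < ‖z.2‖ := norm_pos_iff.2 hz
      positivity
  obtain ⟨C1, hC1, H1⟩ := exists_family (𝓕 w) hwc δ hδ hw0 _ hk (L + n + 1)
  obtain ⟨C2, hC2, H2⟩ := exists_family (𝓕 w) hwc δ hδ hw0 _ hk2 (L + n + 1)
  obtain ⟨C₀, hC₀, H⟩ := pairing_bound_q (n := n) N L L h1 h2 (by omega)
  refine ⟨C₀ * max C1 C2, by positivity, fun s hs hs1 => ?_⟩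
  obtain ⟨η, hη, hηd⟩ := H1 s (by rw [abs_of_pos hs]; exact hs1)
  obtain ⟨f, hf, hfd⟩ := H2 s (by rw [abs_of_pos hs]; exact hs1)
  refine ⟨η, hη, fun x t ht ψ hψ => ?_⟩
  refine H (max C1 C2) η f (lt_max_of_lt_left hC1) (fun y => (hηd y).trans ?_)
    (fun y => (hfd y).trans ?_) (fun ξ => ?_) x t ht ψ hψ
  · gcongr
    exact le_max_left _ _
  · gcongr
    exact le_max_right _ _
  · rw [hη, hf]
    rcases eq_or_ne ξ 0 with rfl | hξ
    · rw [hw0 0 (by simpa using hδ.le)]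
      simp
    · have h3 : ((‖ξ‖ ^ (2 * L) : ℝ) : ℂ) ≠ 0 := by
        have : 0 < ‖ξ‖ := norm_pos_iff.2 hξ
        exact_mod_cast (by positivity : ‖ξ‖ ^ (2 * L) ≠ 0)
      simp only
      rw [Complex.ofReal_inv]
      field_simp

theorem besselCap_eq_zero (hn : 1 ≤ n) (α p : ℝ) (hα : 0 < α) (hp : 0 < p) (hp1 : p ≤ 1)
    (hαp : α * p < n) : ∃ N₀ : ℕ, ∀ N ≥ N₀, ∀ K : Set (E n), IsCompact K →
      hausdorffContent (n - α * p) K = 0 → besselCap N α p K = 0 := by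
  obtain ⟨L, w, ω, δ, hLp, hwω, hδ, hw0, hwc, hW⟩ := exists_setup hn α p hα hp hp1 hαp
  refine ⟨L + n + 1 + 2 * L, fun N hN K hK hK0 => ?_⟩
  have hd0 : 0 < (n : ℝ) - α * p := by linarith
  obtain ⟨Cη, hCη, hη⟩ := exists_bessel_family α w δ hδ hw0 hwc L N (by omega) (by omega)
  obtain ⟨C', hC'⟩ := hardy_block_family (n := n) N L α p hp hp1 hLp Cη hCη
  -- the capacity is at most `C' * 36 * ε` for all small `ε`
  have key : ∀ ε : ℝ, 0 < ε → 36 * ε ≤ 1 → besselCap N α p K ≤ C' * ENNReal.ofReal (36 * ε) := by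
    intro ε hε hε1
    obtain ⟨T₀, Ω, hΩ, hKΩ, hcov, hcost⟩ := exists_small_cubes hd0 K hK hK0 ε hε
    obtain ⟨T, lam, hlam, hside, hge, hsum⟩ := hW T₀ (by linarith)
    have hch : ∀ i : ℕ × Cube n, ∃ η : 𝓢(E n, ℂ), i ∈ T →
        (∀ ξ, 𝓕 η ξ = ((((Cube.side i.2) ^ 2 + 4 * Real.pi ^ 2 * ‖ξ‖ ^ 2) ^ (α / 2) : ℝ) : ℂ) *
          𝓕 w ξ) ∧ ∀ (x : E n) (t : ℝ), 0 < t → ∀ ψ : 𝓢(E n, ℂ), Adapted N x t ψ →
        ‖∫ y, η y * ψ y‖ ≤ Cη / (1 + ‖x‖) ^ L := by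
      intro i
      by_cases hi : i ∈ T
      · obtain ⟨η, h1, h2⟩ := hη (Cube.side i.2) (side_pos i.2) (hside i hi)
        exact ⟨η, fun _ => ⟨h1, h2⟩⟩
      · exact ⟨0, fun h => absurd h hi⟩
    choose η hη' using hch
    set hS : 𝓢(E n, ℂ) := combF T (fun i => lam i * Cube.side i.2 ^ ((n : ℝ) - α)) η with hhS
    set uS : 𝓢(E n, ℂ) := combF T (fun i => lam i * Cube.side i.2 ^ n) (fun _ => w) with huS
    set u : E n → ℝ := fun y => ∑ i ∈ T, lam i * ω ((Cube.side i.2)⁻¹ • (y - Cube.center i.2))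
      with hu
    have huSu : ∀ y, uS y = ((u y : ℝ) : ℂ) := by
      intro y
      rw [huS, combF_apply, hu]
      push_cast
      refine Finset.sum_congr rfl fun i _ => ?_
      rw [dil_apply, hwω]
      have h1 : ((Cube.side i.2 : ℝ) : ℂ) ≠ 0 := by exact_mod_cast (side_pos i.2).ne'
      have h2 : ((Cube.side i.2 : ℝ) : ℂ) ^ n * (((Cube.side i.2)⁻¹ : ℝ) : ℂ) ^ n = 1 := by
        rw [← mul_pow, Complex.ofReal_inv, mul_inv_cancel₀ h1, one_pow]
      calc _ = ((lam i : ℝ) : ℂ) * (((Cube.side i.2 : ℝ) : ℂ) ^ n *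
            (((Cube.side i.2)⁻¹ : ℝ) : ℂ) ^ n) *
            ((ω ((Cube.side i.2)⁻¹ • (y - Cube.center i.2)) : ℝ) : ℂ) := by
            push_cast
            ring
        _ = _ := by rw [h2, mul_one]
    have hcomp : ∃ (U : 𝓢'(E n, ℂ)) (u : E n → ℝ), IsBesselPotential α (toDist hS) U ∧
        ContDiff ℝ (⊤ : ℕ∞) u ∧
        (∀ φ : 𝓢(E n, ℂ), HasCompactSupport φ → U φ = ∫ x, (u x : ℂ) * φ x) ∧
        ∀ x ∈ K, 1 ≤ u x := by
      refine ⟨toDist uS, u, isBesselPotential_toDist hS uS ?_, ?_, fun φ _ => ?_,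
        fun x hx => ?_⟩
      · intro ξ
        rw [hhS, huS, fourier_combF, fourier_combF, Finset.mul_sum]
        refine Finset.sum_congr rfl fun i hi => ?_
        rw [(hη' i hi).1, norm_smul, Real.norm_of_nonneg (side_pos i.2).le]
        have h0 := side_pos i.2
        have e1 : (Cube.side i.2) ^ 2 + 4 * Real.pi ^ 2 * (Cube.side i.2 * ‖ξ‖) ^ 2 =
            (Cube.side i.2) ^ 2 * (1 + 4 * Real.pi ^ 2 * ‖ξ‖ ^ 2) := by ring
        have e2 : ((Cube.side i.2) ^ 2) ^ (α / 2) = (Cube.side i.2) ^ α := by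
          rw [← Real.rpow_natCast, ← Real.rpow_mul h0.le]
          congr 1
          push_cast
          ring
        have e3 : Cube.side i.2 ^ ((n : ℝ) - α) * Cube.side i.2 ^ α = Cube.side i.2 ^ n := by
          rw [← Real.rpow_add h0, sub_add_cancel, Real.rpow_natCast]
        rw [e1, Real.mul_rpow (by positivity) (by positivity), e2]
        rw [← e3]
        push_cast
        ring
      · have : u = fun y => (uS y).re := by
          ext y
          rw [huSu, Complex.ofReal_re]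
        rw [this]
        exact Complex.reCLM.contDiff.comp (uS.smooth _)
      · rw [toDist_apply]
        refine integral_congr_ae (Filter.Eventually.of_forall fun y => ?_)
        simp only
        rw [mul_comm, huSu]
      · obtain ⟨Q, hQ, hyQ⟩ := hcov x (hKΩ hx)
        exact hge Q hQ x hyQ
    have hnorm := hC' (ℕ × Cube n) T (fun i => Cube.center i.2) (fun i => Cube.side i.2)
      (fun i => side_pos i.2) lam η hlam (fun i hi => (hη' i hi).2) (toDist hS)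
      (fun ψ => toDist_combF T _ η ψ)
    calc besselCap N α p K ≤ hardyPow N p (toDist hS) := iInf₂_le (toDist hS) hcomp
      _ ≤ C' * ENNReal.ofReal (∑ i ∈ T, lam i ^ p * Cube.side i.2 ^ ((n : ℝ) - α * p)) := hnorm
      _ ≤ C' * ENNReal.ofReal (36 * ε) := by
          gcongr
          linarith
  by_contra hne
  have hpos : 0 < besselCap N α p K := pos_iff_ne_zero.2 hne
  have hlim : Filter.Tendsto (fun m : ℕ => (C' : ℝ≥0∞) * ENNReal.ofReal (36 * (1 / ((m : ℝ) + 36))))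
      Filter.atTop (nhds (C' * ENNReal.ofReal (36 * 0))) := by
    apply ENNReal.Tendsto.const_mul _ (Or.inr ENNReal.coe_ne_top)
    apply ENNReal.tendsto_ofReal
    apply Filter.Tendsto.const_mul
    apply Filter.Tendsto.div_atTop tendsto_const_nhds
    exact Filter.tendsto_atTop_add_const_right _ _ tendsto_natCast_atTop_atTop
  rw [mul_zero, ENNReal.ofReal_zero, mul_zero] at hlim
  have h1 : besselCap N α p K ≤ 0 := by
    refine ge_of_tendsto' hlim fun m => key _ (by positivity) ?_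
    rw [mul_one_div, div_le_one (by positivity)]
    have : (0 : ℝ) ≤ m := Nat.cast_nonneg m
    linarith
  exact absurd h1 (not_le.2 hpos)

end Pool.Agent.Helper656.Cap
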