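import Pool.Agent.Helper656.BesLP

open MeasureTheory SchwartzMap
open scoped ENNReal NNReal FourierTransform SchwartzMap RealInnerProductSpace ContDiff

namespace Pool.Agent.Helper656.Cap

variable {n : ℕ}

theorem inv_adj (g φ : E n → ℂ) (hg : Integrable g) (hφ : Integrable φ) :
    ∫ y, 𝓕⁻ g y * φ y = ∫ ξ, g ξ * 𝓕⁻ φ ξ := by
  have h1 : ∀ y, 𝓕⁻ g y = 𝓕 (fun x => g (-x)) y := fun y => by
    rw [Real.fourierInv_eq_fourier_comp_neg]
  have h2 : ∫ y, 𝓕 (fun x => g (-x)) y * φ y = ∫ x, g (-x) * 𝓕 φ x := by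
    have := VectorFourier.integral_fourierIntegral_smul_eq_flip (L := innerₗ (E n))
      (μ := volume) (ν := volume) (f := fun x => g (-x)) (g := φ)
      Real.continuous_fourierChar continuous_inner hg.comp_neg hφ
    simpa using! this
  simp_rw [h1]
  rw [h2, ← integral_neg_eq_self (fun ξ => g ξ * 𝓕⁻ φ ξ)]
  refine integral_congr_ae (Filter.Eventually.of_forall fun x => ?_)
  simp only
  rw [Real.fourierInv_eq_fourier_neg, neg_neg]

theorem decay_bound (φ : 𝓢(E n, ℂ)) (M : ℕ) : ∃ C : ℝ, 0 < C ∧ ∀ z, ‖φ z‖ ≤ C * ((1 + ‖z‖) ^ M)⁻¹ := by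
  have h := fun x => one_add_le_sup_seminorm_apply (𝕜 := ℝ) (m := (M, 0)) (k := M) (n := 0) le_rfl le_rfl φ x
  refine ⟨2 ^ M * (Finset.Iic (M, 0)).sup (fun m => SchwartzMap.seminorm ℝ m.1 m.2) φ + 1, ?_, ?_⟩
  · have := h 0
    simp only [norm_zero, add_zero, one_pow, one_mul, norm_iteratedFDeriv_zero] at this
    have h3 := norm_nonneg (φ 0)
    linarith
  · intro z
    have := h z
    rw [norm_iteratedFDeriv_zero] at this
    rw [le_mul_inv_iff₀ (by positivity)]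
    linarith

/-- the weight `1 + l ‖x - y‖` -/
noncomputable def wt (l : ℝ) (x y : E n) : ℝ≥0∞ := ENNReal.ofReal (1 + l * ‖x - y‖)

theorem one_le_wt {l : ℝ} (hl : 0 < l) (x y : E n) : 1 ≤ wt l x y := by
  rw [wt, ← ENNReal.ofReal_one]
  apply ENNReal.ofReal_le_ofReal
  have := norm_nonneg (x - y)
  nlinarith [mul_nonneg hl.le this]

theorem wt_ne_top {l : ℝ} (x y : E n) : wt l x y ≠ ⊤ := ENNReal.ofReal_ne_top

theorem wt_comm (l : ℝ) (x y : E n) : wt l x y = wt l y x := by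
  rw [wt, wt, norm_sub_rev]

theorem wt_self (l : ℝ) (x : E n) : wt l x x = 1 := by simp [wt]

theorem wt_le_mul {l : ℝ} (hl : 0 < l) (x y z : E n) : wt l x y ≤ wt l x z * wt l z y := by
  rw [wt, wt, wt, ← ENNReal.ofReal_mul (by positivity)]
  apply ENNReal.ofReal_le_ofReal
  have h1 : ‖x - y‖ ≤ ‖x - z‖ + ‖z - y‖ := by
    have := norm_add_le (x - z) (z - y)
    rwa [sub_add_sub_cancel] at this
  have h2 : 0 ≤ l * ‖x - z‖ * (l * ‖z - y‖) := by positivity
  nlinarith [mul_le_mul_of_nonneg_left h1 hl.le]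

theorem measurable_wt (l : ℝ) : Measurable (fun q : E n × E n => wt l q.1 q.2) := by
  unfold wt
  fun_prop

theorem rpow_neg_le {l : ℝ} (hl : 0 < l) {r : ℝ} (hr : 0 ≤ r) (x y z : E n) :
    wt l x z ^ (-r) * wt l z y ^ (-r) ≤ wt l x y ^ (-r) := by
  rw [← ENNReal.mul_rpow_of_ne_top (wt_ne_top _ _) (wt_ne_top _ _), ENNReal.rpow_neg,
    ENNReal.rpow_neg, ENNReal.inv_le_inv]
  exact ENNReal.rpow_le_rpow (wt_le_mul hl x y z) hr

theorem rpow_neg_le_one {l : ℝ} (hl : 0 < l) {r : ℝ} (hr : 0 ≤ r) (x y : E n) :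
    wt l x y ^ (-r) ≤ 1 := by
  rw [ENNReal.rpow_neg, ENNReal.inv_le_one]
  calc (1 : ℝ≥0∞) = 1 ^ r := (ENNReal.one_rpow r).symm
    _ ≤ _ := ENNReal.rpow_le_rpow (one_le_wt hl x y) hr

theorem lintegral_wt {l : ℝ} (hl : 0 < l) (r : ℝ) (y : E n) :
    ∫⁻ x, wt l x y ^ (-r) = ENNReal.ofReal ((l ^ n)⁻¹) *
      ∫⁻ z : E n, ENNReal.ofReal ((1 + ‖z‖) ^ (-r)) := by
  have h1 : ∀ x, wt l x y ^ (-r) = (fun z : E n => ENNReal.ofReal ((1 + ‖z‖) ^ (-r))) (l • (x - y)) := by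
    intro x
    simp only [wt]
    rw [norm_smul, Real.norm_of_nonneg hl.le, ENNReal.ofReal_rpow_of_pos (by positivity)]
  simp_rw [h1]
  have h2 := lintegral_sub_right_eq_self (μ := (volume : Measure (E n)))
    (fun x => (fun z : E n => ENNReal.ofReal ((1 + ‖z‖) ^ (-r))) (l • x)) y
  rw [h2]
  have h3 : Measure.map (fun z : E n => l • z) volume =
      ENNReal.ofReal ((l ^ n)⁻¹) • (volume : Measure (E n)) := by
    rw [Measure.map_addHaar_smul _ hl.ne', finrank_euclideanSpace_fin, abs_of_nonneg (by positivity)]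
  have h4 : Measurable (fun z : E n => ENNReal.ofReal ((1 + ‖z‖) ^ (-r))) := by fun_prop
  have h5 := lintegral_map (μ := (volume : Measure (E n))) h4 (measurable_const_smul l)
  rw [h3, lintegral_smul_measure] at h5
  rw [← h5, smul_eq_mul]

theorem peetre_core {p : ℝ} (hp : 0 < p) (hp1 : p ≤ 1) (M : ℕ) (hM : (n : ℝ) < M * p) (C0 : ℝ)
    (hC0 : 0 < C0) :
    ∃ C : ℝ≥0, ∀ (l : ℝ) (_ : 0 < l) (v : E n → ℂ) (_ : Continuous v) (B : ℝ)
      (_ : ∀ x, ‖v x‖ ≤ B)
      (_ : ∀ x, ‖v x‖ₑ ≤ ENNReal.ofReal C0 * ENNReal.ofReal (l ^ n) *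
        ∫⁻ y, ‖v y‖ₑ * wt l x y ^ (-(M : ℝ))),
      ∃ G : E n → ℝ≥0∞, Measurable G ∧
      (∀ x y, ‖x - y‖ ≤ Real.sqrt n / l → ‖v x‖ₑ ^ p ≤ C * G y) ∧
      (∫⁻ x, G x) ≤ C * ∫⁻ x, ‖v x‖ₑ ^ p ∧
      (∀ x, ‖v x‖ₑ ^ p ≤ C * (ENNReal.ofReal (l ^ n) * ∫⁻ y, ‖v y‖ₑ ^ p)) := by
  set I : ℝ≥0∞ := ∫⁻ z : E n, ENNReal.ofReal ((1 + ‖z‖) ^ (-(M * p))) with hI
  have hI' : I < ⊤ := by
    rw [hI]
    exact finite_integral_one_add_norm (by rw [finrank_euclideanSpace_fin]; exact hM)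
  set S : ℝ := (1 + Real.sqrt n) ^ (M * p) with hS
  have hS1 : 1 ≤ S := Real.one_le_rpow (by have := Real.sqrt_nonneg (n : ℝ); linarith) (by positivity)
  refine ⟨Real.toNNReal (C0 * S) + I.toNNReal, ?_⟩
  intro l hl v hv B hB hrep
  set C : ℝ≥0 := Real.toNNReal (C0 * S) + I.toNNReal with hC
  have hCa : ENNReal.ofReal C0 * ENNReal.ofReal S ≤ (C : ℝ≥0∞) := by
    rw [← ENNReal.ofReal_mul hC0.le, hC, ENNReal.coe_add]
    exact le_self_add
  have hCb : I ≤ (C : ℝ≥0∞) := by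
    rw [hC, ENNReal.coe_add, ENNReal.coe_toNNReal hI'.ne]
    exact le_add_self
  have hCc : ENNReal.ofReal C0 ≤ (C : ℝ≥0∞) := by
    refine le_trans ?_ hCa
    conv_lhs => rw [← mul_one (ENNReal.ofReal C0)]
    gcongr
    rw [← ENNReal.ofReal_one]
    exact ENNReal.ofReal_le_ofReal hS1
  set H : E n → ℝ≥0∞ := fun x => ∫⁻ y, ‖v y‖ₑ ^ p * wt l x y ^ (-(M * p)) with hH
  have hmeas : Measurable (fun q : E n × E n => ‖v q.2‖ₑ ^ p * wt l q.1 q.2 ^ (-(M * p))) := by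
    apply Measurable.mul
    · exact ((hv.measurable.comp measurable_snd).enorm).pow_const p
    · exact (measurable_wt l).pow_const _
  have hHm : Measurable H := hmeas.lintegral_prod_right'
  -- the Peetre maximal function
  set V : E n → ℝ≥0∞ := fun x => ⨆ y, ‖v y‖ₑ * wt l x y ^ (-(M : ℝ)) with hV
  have hVtop : ∀ x, V x ≠ ⊤ := by
    intro x
    have : V x ≤ ENNReal.ofReal B := by
      apply iSup_le
      intro y
      calc ‖v y‖ₑ * wt l x y ^ (-(M : ℝ)) ≤ ‖v y‖ₑ * 1 := by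
            gcongr
            exact rpow_neg_le_one hl (by positivity) x y
        _ ≤ ENNReal.ofReal B := by
            rw [mul_one, ← ofReal_norm]
            exact ENNReal.ofReal_le_ofReal (hB y)
    exact ne_top_of_le_ne_top ENNReal.ofReal_ne_top this
  have hvV : ∀ x, ‖v x‖ₑ ≤ V x := by
    intro x
    have := le_iSup (fun y => ‖v y‖ₑ * wt l x y ^ (-(M : ℝ))) x
    simp only [wt_self, ENNReal.one_rpow, mul_one] at this
    exact this
  have h1 : ∀ x, V x ≤ ENNReal.ofReal C0 * ENNReal.ofReal (l ^ n) *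
      ∫⁻ y, ‖v y‖ₑ * wt l x y ^ (-(M : ℝ)) := by
    intro x
    apply iSup_le
    intro z
    calc ‖v z‖ₑ * wt l x z ^ (-(M : ℝ)) ≤ (ENNReal.ofReal C0 * ENNReal.ofReal (l ^ n) *
        ∫⁻ y, ‖v y‖ₑ * wt l z y ^ (-(M : ℝ))) * wt l x z ^ (-(M : ℝ)) := by
          gcongr
          exact hrep z
      _ = ENNReal.ofReal C0 * ENNReal.ofReal (l ^ n) *
        ∫⁻ y, ‖v y‖ₑ * (wt l x z ^ (-(M : ℝ)) * wt l z y ^ (-(M : ℝ))) := by
          rw [mul_assoc, ← lintegral_mul_const]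
          · congr 1
            refine lintegral_congr fun y => ?_
            ring
          · apply Measurable.mul
            · exact hv.measurable.enorm
            · exact ((measurable_wt l).comp (measurable_const.prodMk measurable_id)).pow_const _
      _ ≤ _ := by
          gcongr with y
          exact rpow_neg_le hl (by positivity) x y z
  have h2 : ∀ x, V x ≤ ENNReal.ofReal C0 * ENNReal.ofReal (l ^ n) * (V x ^ (1 - p) * H x) := by
    intro x
    refine (h1 x).trans ?_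
    gcongr
    rw [hH]
    simp only
    rw [← lintegral_const_mul]
    · refine lintegral_mono fun y => ?_
      simp only
      set a := ‖v y‖ₑ * wt l x y ^ (-(M : ℝ)) with ha
      have hav : a ≤ V x := le_iSup (fun y => ‖v y‖ₑ * wt l x y ^ (-(M : ℝ))) y
      have h3 : a = a ^ p * a ^ (1 - p) := by
        rw [← ENNReal.rpow_add_of_nonneg _ _ hp.le (by linarith), add_sub_cancel, ENNReal.rpow_one]
      have h4 : a ^ p = ‖v y‖ₑ ^ p * wt l x y ^ (-(M * p)) := by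
        rw [ha, ENNReal.mul_rpow_of_nonneg _ _ hp.le, ← ENNReal.rpow_mul]
        congr 2
        ring
      calc a = a ^ p * a ^ (1 - p) := h3
        _ ≤ a ^ p * V x ^ (1 - p) := by
            gcongr
        _ = _ := by rw [h4]; ring
    · exact hmeas.comp (measurable_const.prodMk measurable_id)
  have h5 : ∀ x, ‖v x‖ₑ ^ p ≤ ENNReal.ofReal C0 * (ENNReal.ofReal (l ^ n) * H x) := by
    intro x
    by_cases h0 : V x = 0
    · have : ‖v x‖ₑ = 0 := le_antisymm ((hvV x).trans h0.le) bot_le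
      rw [this, ENNReal.zero_rpow_of_pos hp]
      exact bot_le
    · have h6 : V x ^ (1 - p) ≠ 0 := by
        rw [Ne, ENNReal.rpow_eq_zero_iff]
        rintro (⟨h, _⟩ | ⟨h, _⟩)
        · exact h0 h
        · exact hVtop x h
      have h7 : V x ^ (1 - p) ≠ ⊤ := ENNReal.rpow_ne_top_of_nonneg (by linarith) (hVtop x)
      have h8 : V x ^ (1 - p) * V x ^ p ≤ V x ^ (1 - p) *
          (ENNReal.ofReal C0 * (ENNReal.ofReal (l ^ n) * H x)) := by
        rw [← ENNReal.rpow_add_of_nonneg _ _ (by linarith) hp.le, sub_add_cancel, ENNReal.rpow_one]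
        refine (h2 x).trans (le_of_eq ?_)
        ring
      have h9 := (ENNReal.mul_le_mul_iff_right h6 h7).1 h8
      exact (ENNReal.rpow_le_rpow (hvV x) hp.le).trans h9
  refine ⟨fun x => ENNReal.ofReal (l ^ n) * H x, hHm.const_mul _, ?_, ?_, ?_⟩
  · intro x y hxy
    refine (h5 x).trans ?_
    have h10 : H x ≤ ENNReal.ofReal S * H y := by
      rw [hH]
      simp only
      rw [← lintegral_const_mul]
      · refine lintegral_mono fun z => ?_
        simp only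
        have h11 : wt l y z ≤ ENNReal.ofReal (1 + Real.sqrt n) * wt l x z := by
          refine (wt_le_mul hl y z x).trans ?_
          gcongr
          rw [wt]
          apply ENNReal.ofReal_le_ofReal
          rw [norm_sub_rev]
          have := mul_le_mul_of_nonneg_left hxy hl.le
          rw [mul_div_cancel₀ _ hl.ne'] at this
          linarith
        have h12 : wt l y z ^ (M * p) ≤ ENNReal.ofReal S * wt l x z ^ (M * p) := by
          have := ENNReal.rpow_le_rpow h11 (z := M * p) (by positivity)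
          rwa [ENNReal.mul_rpow_of_nonneg _ _ (by positivity),
            ENNReal.ofReal_rpow_of_nonneg (by positivity) (by positivity)] at this
        have h13 : wt l x z ^ (-(M * p)) ≤ ENNReal.ofReal S * wt l y z ^ (-(M * p)) := by
          rw [ENNReal.rpow_neg, ENNReal.rpow_neg]
          rw [← div_eq_mul_inv, ENNReal.le_div_iff_mul_le, ENNReal.inv_mul_le_iff]
          · rw [mul_comm (wt l x z ^ _)]
            exact h12
          · rw [Ne, ENNReal.rpow_eq_zero_iff]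
            rintro (⟨h, _⟩ | ⟨h, _⟩)
            · exact absurd (h ▸ one_le_wt hl x z) (by simp)
            · exact wt_ne_top _ _ h
          · exact ENNReal.rpow_ne_top_of_nonneg (by positivity) (wt_ne_top _ _)
          · left
            rw [Ne, ENNReal.rpow_eq_zero_iff]
            rintro (⟨h, _⟩ | ⟨h, _⟩)
            · exact absurd (h ▸ one_le_wt hl y z) (by simp)
            · exact wt_ne_top _ _ h
          · left
            exact ENNReal.rpow_ne_top_of_nonneg (by positivity) (wt_ne_top _ _)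
        calc ‖v z‖ₑ ^ p * wt l x z ^ (-(M * p)) ≤
            ‖v z‖ₑ ^ p * (ENNReal.ofReal S * wt l y z ^ (-(M * p))) := by gcongr
          _ = _ := by ring
      · exact hmeas.comp (measurable_const.prodMk measurable_id)
    calc ENNReal.ofReal C0 * (ENNReal.ofReal (l ^ n) * H x) ≤
        ENNReal.ofReal C0 * (ENNReal.ofReal (l ^ n) * (ENNReal.ofReal S * H y)) := by gcongr
      _ = (ENNReal.ofReal C0 * ENNReal.ofReal S) * (ENNReal.ofReal (l ^ n) * H y) := by ring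
      _ ≤ _ := by gcongr
  · rw [lintegral_const_mul _ hHm]
    have h14 : ∫⁻ x, H x = ∫⁻ y, ‖v y‖ₑ ^ p * (ENNReal.ofReal ((l ^ n)⁻¹) * I) := by
      rw [hH]
      simp only
      rw [lintegral_lintegral_swap hmeas.aemeasurable]
      refine lintegral_congr fun y => ?_
      rw [lintegral_const_mul, lintegral_wt hl]
      exact ((measurable_wt l).comp (measurable_id.prodMk measurable_const)).pow_const _
    rw [h14, lintegral_mul_const _ (hv.measurable.enorm.pow_const p)]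
    have h15 : ENNReal.ofReal (l ^ n) * ENNReal.ofReal ((l ^ n)⁻¹) = 1 := by
      rw [← ENNReal.ofReal_mul (by positivity), mul_inv_cancel₀ (by positivity), ENNReal.ofReal_one]
    calc ENNReal.ofReal (l ^ n) * ((∫⁻ y, ‖v y‖ₑ ^ p) * (ENNReal.ofReal ((l ^ n)⁻¹) * I)) =
        (ENNReal.ofReal (l ^ n) * ENNReal.ofReal ((l ^ n)⁻¹)) * (I * ∫⁻ y, ‖v y‖ₑ ^ p) := by ring
      _ = I * ∫⁻ y, ‖v y‖ₑ ^ p := by rw [h15, one_mul]
      _ ≤ _ := by gcongr
  · intro x
    refine (h5 x).trans ?_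
    gcongr
    rw [hH]
    refine lintegral_mono fun y => ?_
    calc ‖v y‖ₑ ^ p * wt l x y ^ (-(M * p)) ≤ ‖v y‖ₑ ^ p * 1 := by
          gcongr
          exact rpow_neg_le_one hl (by positivity) x y
      _ = _ := mul_one _


theorem abs_lpSymbol_le (j : ℕ) (ξ : E n) : |lpSymbol j ξ| ≤ 1 := by
  cases j with
  | zero =>
    rw [lpSymbol, abs_of_nonneg (beta_nonneg _)]
    exact beta_le_one _
  | succ j =>
    rw [lpSymbol, abs_le]
    have h1 := beta_nonneg (‖ξ‖ / 2 ^ (j + 1))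
    have h2 := beta_le_one (‖ξ‖ / 2 ^ (j + 1))
    have h3 := beta_nonneg (‖ξ‖ / 2 ^ j)
    have h4 := beta_le_one (‖ξ‖ / 2 ^ j)
    constructor <;> linarith

theorem continuous_lpSymbol' (j : ℕ) : Continuous (fun ξ : E n => lpSymbol j ξ) := by
  cases j with
  | zero =>
    simp only [lpSymbol]
    exact continuous_beta.comp continuous_norm
  | succ j =>
    simp only [lpSymbol]
    exact (continuous_beta.comp (continuous_norm.div_const _)).sub
      (continuous_beta.comp (continuous_norm.div_const _))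

theorem lpSymbol_eq_zero' (j : ℕ) (ξ : E n) (h : 2 * 2 ^ j ≤ ‖ξ‖) : lpSymbol j ξ = 0 := by
  cases j with
  | zero =>
    rw [lpSymbol]
    apply beta_eq_zero
    simp only [pow_zero, mul_one] at h
    nlinarith
  | succ j =>
    rw [lpSymbol]
    have h1 : 2 ≤ ‖ξ‖ / 2 ^ (j + 1) := by
      rw [le_div_iff₀ (by positivity)]
      exact h
    have h2 : 2 ≤ ‖ξ‖ / 2 ^ j := by
      rw [le_div_iff₀ (by positivity)]
      rw [pow_succ] at h
      have : (0 : ℝ) < 2 ^ j := by positivity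
      linarith
    rw [beta_eq_zero (by nlinarith), beta_eq_zero (by nlinarith), sub_zero]

theorem integrable_lp (j : ℕ) (u : 𝓢(E n, ℂ)) :
    Integrable (fun ξ : E n => ((lpSymbol j ξ : ℝ) : ℂ) * 𝓕 (u : E n → ℂ) ξ) := by
  have h1 : Integrable (fun ξ : E n => 𝓕 (u : E n → ℂ) ξ) := by
    have := (𝓕 u : 𝓢(E n, ℂ)).integrable (μ := volume)
    rwa [fourier_coe] at this
  refine h1.bdd_mul (c := 1) ?_ ?_
  · exact (Complex.continuous_ofReal.comp (continuous_lpSymbol' j)).aestronglyMeasurable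
  · refine Filter.Eventually.of_forall fun ξ => ?_
    rw [Complex.norm_real]
    exact abs_lpSymbol_le j ξ

theorem lpPiece_bound (j : ℕ) (u : 𝓢(E n, ℂ)) : ∃ B : ℝ, ∀ x, ‖lpPiece j u x‖ ≤ B := by
  refine ⟨∫ ξ : E n, ‖((lpSymbol j ξ : ℝ) : ℂ) * 𝓕 (u : E n → ℂ) ξ‖, fun x => ?_⟩
  rw [lpPiece, Real.fourierInv_eq']
  refine (norm_integral_le_integral_norm _).trans (le_of_eq ?_)
  refine integral_congr_ae (Filter.Eventually.of_forall fun ξ => ?_)
  simp only
  rw [norm_smul]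
  have : ‖Complex.exp (↑(2 * Real.pi * inner ℝ ξ x) * Complex.I)‖ = 1 :=
    Complex.norm_exp_ofReal_mul_I _
  rw [this, one_mul]

theorem reproducing (j : ℕ) (u : 𝓢(E n, ℂ)) (x : E n) (t : ℝ) (ht : 0 < t)
    (htj : t * (2 * 2 ^ j) = 1) :
    lpPiece j u x = ∫ y, lpPiece j u y * dil x t ht (𝓕 (bmp : 𝓢(E n, ℂ))) y := by
  have h1 := inv_adj (fun ξ : E n => ((lpSymbol j ξ : ℝ) : ℂ) * 𝓕 (u : E n → ℂ) ξ)
    (dil x t ht (𝓕 (bmp : 𝓢(E n, ℂ)))) (integrable_lp j u) (SchwartzMap.integrable _)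
  have h2 : ∀ y, 𝓕⁻ (fun ξ : E n => ((lpSymbol j ξ : ℝ) : ℂ) * 𝓕 (u : E n → ℂ) ξ) y =
    lpPiece j u y := fun y => rfl
  simp_rw [h2] at h1
  rw [h1, lpPiece, Real.fourierInv_eq']
  refine integral_congr_ae (Filter.Eventually.of_forall fun ξ => ?_)
  simp only
  rw [← fourierInv_coe, fourierInv_dil]
  have h3 : (𝓕⁻ (𝓕 (bmp : 𝓢(E n, ℂ))) : 𝓢(E n, ℂ)) = bmp := by simp
  rw [h3, bmp_apply, smul_eq_mul]
  by_cases h : 2 * 2 ^ j ≤ ‖ξ‖
  · rw [lpSymbol_eq_zero' j ξ h]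
    simp
  · have h4 : beta ‖t • ξ‖ = 1 := by
      apply beta_eq_one
      rw [abs_of_nonneg (norm_nonneg _), norm_smul, Real.norm_of_nonneg ht.le]
      push Not at h
      nlinarith
    rw [h4, Complex.ofReal_one, mul_one, real_inner_comm]
    rw [mul_comm]
    congr 2
    push_cast
    ring

/-- TARGET -/
theorem peetre (p : ℝ) (hp : 0 < p) (hp1 : p ≤ 1) :
    ∃ C : ℝ≥0, ∀ (j : ℕ) (u : 𝓢(E n, ℂ)), ∃ G : E n → ℝ≥0∞, Measurable G ∧
      (∀ x y, ‖x - y‖ ≤ Real.sqrt n / 2 ^ j → ‖lpPiece j u x‖ₑ ^ p ≤ C * G y) ∧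
      (∫⁻ x, G x) ≤ C * ∫⁻ x, ‖lpPiece j u x‖ₑ ^ p ∧
      (∀ x, ‖lpPiece j u x‖ₑ ^ p ≤
        C * (ENNReal.ofReal ((2 : ℝ) ^ (j * n)) * ∫⁻ y, ‖lpPiece j u y‖ₑ ^ p)) := by
  obtain ⟨M, hM⟩ := exists_nat_gt ((n : ℝ) / p)
  have hM' : (n : ℝ) < M * p := by rwa [div_lt_iff₀ hp] at hM
  obtain ⟨C0', hC0', hdec⟩ := decay_bound (𝓕 (bmp : 𝓢(E n, ℂ))) M
  obtain ⟨C, hC⟩ := peetre_core (n := n) hp hp1 M hM' (2 ^ n * C0') (by positivity)
  refine ⟨C, fun j u => ?_⟩
  obtain ⟨B, hB⟩ := lpPiece_bound j u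
  have hl : (0 : ℝ) < 2 ^ j := by positivity
  obtain ⟨G, hG1, hG2, hG3, hG4⟩ := hC (2 ^ j) hl (lpPiece j u) (continuous_lpPiece j u) B hB (by
    intro x
    set t : ℝ := (2 * 2 ^ j)⁻¹ with ht'
    have ht : 0 < t := by positivity
    have htj : t * (2 * 2 ^ j) = 1 := inv_mul_cancel₀ (by positivity)
    have hb : ∀ y, ‖dil x t ht (𝓕 (bmp : 𝓢(E n, ℂ))) y‖ₑ ≤ ENNReal.ofReal (2 ^ n * C0') *
        ENNReal.ofReal ((2 ^ j) ^ n) * wt (2 ^ j) x y ^ (-(M : ℝ)) := by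
      intro y
      have h1 : ‖dil x t ht (𝓕 (bmp : 𝓢(E n, ℂ))) y‖ ≤ (2 ^ n * C0') * (2 ^ j) ^ n *
          ((1 + 2 ^ j * ‖x - y‖) ^ M)⁻¹ := by
        rw [dil_apply, norm_mul, Complex.norm_real, Real.norm_of_nonneg (by positivity)]
        have h2 := hdec (t⁻¹ • (y - x))
        rw [norm_smul, Real.norm_of_nonneg (by positivity), norm_sub_rev] at h2
        have h3 : t⁻¹ = 2 * 2 ^ j := by rw [ht', inv_inv]
        rw [h3] at h2 ⊢
        have h4 : ((1 + 2 * 2 ^ j * ‖x - y‖) ^ M)⁻¹ ≤ ((1 + 2 ^ j * ‖x - y‖) ^ M)⁻¹ := by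
          gcongr
          linarith
        calc (2 * 2 ^ j) ^ n * ‖(𝓕 (bmp : 𝓢(E n, ℂ))) ((2 * 2 ^ j : ℝ) • (y - x))‖ ≤
            (2 * 2 ^ j) ^ n * (C0' * ((1 + 2 ^ j * ‖x - y‖) ^ M)⁻¹) := by
              gcongr
              exact h2.trans (by gcongr)
          _ = _ := by rw [mul_pow]; ring
      have h5 : wt (2 ^ j) x y ^ (-(M : ℝ)) = ENNReal.ofReal (((1 + 2 ^ j * ‖x - y‖) ^ M)⁻¹) := by
        rw [wt, ENNReal.ofReal_rpow_of_pos (by positivity), Real.rpow_neg (by positivity),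
          Real.rpow_natCast]
      rw [h5, ← ENNReal.ofReal_mul (by positivity), ← ENNReal.ofReal_mul (by positivity),
        ← ofReal_norm]
      exact ENNReal.ofReal_le_ofReal h1
    calc ‖lpPiece j u x‖ₑ = ‖∫ y, lpPiece j u y * dil x t ht (𝓕 (bmp : 𝓢(E n, ℂ))) y‖ₑ := by
          rw [← reproducing j u x t ht htj]
      _ ≤ ∫⁻ y, ‖lpPiece j u y * dil x t ht (𝓕 (bmp : 𝓢(E n, ℂ))) y‖ₑ :=
          enorm_integral_le_lintegral_enorm _
      _ ≤ ∫⁻ y, (ENNReal.ofReal (2 ^ n * C0') * ENNReal.ofReal ((2 ^ j) ^ n)) *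
            (‖lpPiece j u y‖ₑ * wt (2 ^ j) x y ^ (-(M : ℝ))) := by
          refine lintegral_mono fun y => ?_
          rw [enorm_mul]
          calc _ ≤ ‖lpPiece j u y‖ₑ * (ENNReal.ofReal (2 ^ n * C0') *
              ENNReal.ofReal ((2 ^ j) ^ n) * wt (2 ^ j) x y ^ (-(M : ℝ))) := by
                gcongr
                exact hb y
            _ = _ := by ring
      _ = _ := by
          rw [lintegral_const_mul' _ _ (by
            exact ENNReal.mul_ne_top ENNReal.ofReal_ne_top ENNReal.ofReal_ne_top)])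
  refine ⟨G, hG1, hG2, hG3, fun x => ?_⟩
  have := hG4 x
  rwa [← pow_mul] at this

end Pool.Agent.Helper656.Cap
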