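import Pool.Agent.Helper656.CapChain
import Pool.Agent.Helper656.BesPeetre

open MeasureTheory SchwartzMap
open scoped ENNReal NNReal FourierTransform SchwartzMap RealInnerProductSpace ContDiff

namespace Pool.Agent.Helper656.Cap

variable {n : ℕ}

theorem tsum_rpow_le (p : ℝ) (hp : 0 < p) (hp1 : p ≤ 1) (a : ℕ → ℝ≥0∞) :
    (∑' j, a j) ^ p ≤ ∑' j, a j ^ p := by
  have hfin : ∀ s : Finset ℕ, (∑ j ∈ s, a j) ^ p ≤ ∑ j ∈ s, a j ^ p := by
    intro s
    induction s using Finset.induction_on with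
    | empty => simp [ENNReal.zero_rpow_of_pos hp]
    | insert i s hi ih =>
      rw [Finset.sum_insert hi, Finset.sum_insert hi]
      exact (ENNReal.rpow_add_le_add_rpow _ _ hp.le hp1).trans (add_le_add le_rfl ih)
  rw [ENNReal.tsum_eq_iSup_sum]
  have h1 : (⨆ s : Finset ℕ, ∑ j ∈ s, a j) ^ p = ⨆ s : Finset ℕ, (∑ j ∈ s, a j) ^ p :=
    (ENNReal.orderIsoRpow p hp).map_iSup _
  rw [h1]
  exact iSup_le fun s => (hfin s).trans (ENNReal.sum_le_tsum s)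

theorem one_le_tsum_pieces (p : ℝ) (hp : 0 < p) (hp1 : p ≤ 1) (u : 𝓢(E n, ℂ)) (x : E n)
    (hx : 1 ≤ ‖u x‖) : 1 ≤ ∑' j : ℕ, ‖lpPiece j u x‖ₑ ^ p := by
  have h1 : (1 : ℝ≥0∞) ≤ ‖u x‖ₑ := by
    rw [← ofReal_norm, ← ENNReal.ofReal_one]
    exact ENNReal.ofReal_le_ofReal hx
  have h2 := h1.trans (enorm_le_tsum_lpPiece u x)
  calc (1 : ℝ≥0∞) = 1 ^ p := by simp
    _ ≤ (∑' j : ℕ, ‖lpPiece j u x‖ₑ) ^ p := ENNReal.rpow_le_rpow h2 hp.le
    _ ≤ _ := tsum_rpow_le p hp hp1 _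

/-- TARGET -/
theorem content_le_besov (hn : 1 ≤ n) (α p : ℝ) (hα : 0 < α) (hp : 0 < p) (hp1 : p ≤ 1)
    (hαp : α * p < n) : ∃ C : ℝ≥0, ∀ (u : 𝓢(E n, ℂ)) (K : Set (E n)), (∀ x ∈ K, 1 ≤ ‖u x‖) →
      hausdorffContent (n - α * p) K ≤ C * besovPow α p u := by
  obtain ⟨C0, hC0⟩ := peetre (n := n) p hp hp1
  refine ⟨Real.toNNReal (Real.sqrt n ^ ((n : ℝ) - α * p)) * ((C0 + 1) * C0), ?_⟩
  intro u K hK
  choose G hGm hG1 hG2 _hG3 using fun j => hC0 j u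
  have hd : 0 < (n : ℝ) - α * p := by linarith
  have had : α * p + ((n : ℝ) - α * p) = n := by ring
  have hsd : ∀ j, 0 < sd 1 j := fun j => by unfold sd; positivity
  have hmain := content_of_levels hn hd had one_pos
    (fun j x => ENNReal.ofReal ((2 : ℝ) ^ (j * α * p)) *
      ⨅ (y : E n) (_ : cidx (sd 1 j) y = cidx (sd 1 j) x), G j y)
    (by
      intro j x y hxy
      simp only [hxy])
    (fun x => ∑' j : ℕ, ENNReal.ofReal ((2 : ℝ) ^ (j * α * p)) * G j x)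
    (by
      intro x
      apply ENNReal.tsum_le_tsum
      intro j
      refine mul_le_mul_right (a := ENNReal.ofReal ((2 : ℝ) ^ (j * α * p))) ?_ 
      exact iInf_le_of_le x (iInf_le_of_le rfl le_rfl))
    K (C0 + 1) (by positivity)
    (by
      intro x hx
      refine (one_le_tsum_pieces p hp hp1 u x (hK x hx)).trans ?_
      rw [← ENNReal.tsum_mul_left]
      apply ENNReal.tsum_le_tsum
      intro j
      have hne : ((C0 + 1 : ℝ≥0) : ℝ≥0∞) ≠ 0 := by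
        rw [Ne, ENNReal.coe_eq_zero]
        positivity
      have h1 : ENNReal.ofReal (sd 1 j ^ (α * p)) * (ENNReal.ofReal ((2 : ℝ) ^ (j * α * p)) *
          ⨅ (y : E n) (_ : cidx (sd 1 j) y = cidx (sd 1 j) x), G j y) =
          ⨅ (y : E n) (_ : cidx (sd 1 j) y = cidx (sd 1 j) x), G j y := by
        rw [← mul_assoc, ← ENNReal.ofReal_mul (by have := hsd j; positivity)]
        have h2 : sd 1 j ^ (α * p) * (2 : ℝ) ^ (j * α * p) = 1 := by
          have e : (2 : ℝ) ^ (j * α * p) = ((2 : ℝ) ^ j) ^ (α * p) := by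
            rw [← Real.rpow_natCast, ← Real.rpow_mul (by norm_num), mul_assoc]
          rw [e, ← Real.mul_rpow (hsd j).le (by positivity)]
          unfold sd
          rw [one_div, inv_mul_cancel₀ (by positivity), Real.one_rpow]
        rw [h2, ENNReal.ofReal_one, one_mul]
      rw [h1]
      have h3 : ((C0 + 1 : ℝ≥0) : ℝ≥0∞)⁻¹ * ‖lpPiece j u x‖ₑ ^ p ≤
          ⨅ (y : E n) (_ : cidx (sd 1 j) y = cidx (sd 1 j) x), G j y := by
        refine le_iInf₂ fun y hy => ?_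
        have h4 := dist_lt_of_cidx_eq hn (hsd j) hy
        have h5 : ‖x - y‖ ≤ Real.sqrt n / 2 ^ j := by
          rw [← dist_eq_norm, dist_comm]
          refine h4.le.trans (le_of_eq ?_)
          unfold sd
          ring
        have h6 := hG1 j x y h5
        have h7 : ‖lpPiece j u x‖ₑ ^ p ≤ ((C0 + 1 : ℝ≥0) : ℝ≥0∞) * G j y := by
          refine h6.trans ?_
          gcongr
          exact le_self_add
        calc ((C0 + 1 : ℝ≥0) : ℝ≥0∞)⁻¹ * ‖lpPiece j u x‖ₑ ^ p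
            ≤ ((C0 + 1 : ℝ≥0) : ℝ≥0∞)⁻¹ * (((C0 + 1 : ℝ≥0) : ℝ≥0∞) * G j y) := by gcongr
          _ = G j y := by
            rw [← mul_assoc, ENNReal.inv_mul_cancel hne ENNReal.coe_ne_top, one_mul]
      calc ‖lpPiece j u x‖ₑ ^ p
          = ((C0 + 1 : ℝ≥0) : ℝ≥0∞) * (((C0 + 1 : ℝ≥0) : ℝ≥0∞)⁻¹ * ‖lpPiece j u x‖ₑ ^ p) := by
            rw [← mul_assoc, ENNReal.mul_inv_cancel hne ENNReal.coe_ne_top, one_mul]
        _ ≤ _ := by gcongr)
  refine hmain.trans ?_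
  have h8 : ∫⁻ x, ∑' j : ℕ, ENNReal.ofReal ((2 : ℝ) ^ (j * α * p)) * G j x
      ≤ C0 * besovPow α p u := by
    rw [lintegral_tsum (fun j => ((hGm j).const_mul _).aemeasurable)]
    unfold besovPow
    rw [← ENNReal.tsum_mul_left]
    apply ENNReal.tsum_le_tsum
    intro j
    rw [lintegral_const_mul _ (hGm j)]
    calc ENNReal.ofReal ((2 : ℝ) ^ (j * α * p)) * ∫⁻ x, G j x
        ≤ ENNReal.ofReal ((2 : ℝ) ^ (j * α * p)) * (C0 * ∫⁻ x, ‖lpPiece j u x‖ₑ ^ p) := by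
          gcongr
          exact hG2 j
      _ = _ := by ring
  calc ENNReal.ofReal (Real.sqrt n ^ ((n : ℝ) - α * p)) * (((C0 + 1 : ℝ≥0) : ℝ≥0∞) *
        ∫⁻ x, ∑' j : ℕ, ENNReal.ofReal ((2 : ℝ) ^ (j * α * p)) * G j x)
      ≤ ENNReal.ofReal (Real.sqrt n ^ ((n : ℝ) - α * p)) * (((C0 + 1 : ℝ≥0) : ℝ≥0∞) *
        (C0 * besovPow α p u)) := by gcongr
    _ = _ := by
      rw [ENNReal.coe_mul, ENNReal.coe_mul, ENNReal.ofReal]
      ring

/-- TARGET -/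
theorem one_le_besov (α p : ℝ) (hα : 0 < α) (hp : 0 < p) (hp1 : p ≤ 1)
    (hαp : n ≤ α * p) : ∃ C : ℝ≥0, ∀ (u : 𝓢(E n, ℂ)) (x : E n), 1 ≤ ‖u x‖ →
      1 ≤ C * besovPow α p u := by
  obtain ⟨C0, hC0⟩ := peetre (n := n) p hp hp1
  refine ⟨C0, ?_⟩
  intro u x hx
  refine (one_le_tsum_pieces p hp hp1 u x hx).trans ?_
  unfold besovPow
  rw [← ENNReal.tsum_mul_left]
  apply ENNReal.tsum_le_tsum
  intro j
  obtain ⟨G, -, -, -, h4⟩ := hC0 j u
  refine (h4 x).trans ?_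
  gcongr
  rw [← Real.rpow_natCast]
  apply Real.rpow_le_rpow_of_exponent_le (by norm_num)
  push_cast
  rw [mul_assoc]
  exact mul_le_mul_of_nonneg_left hαp (by positivity)

end Pool.Agent.Helper656.Cap
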