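import Pool.Agent.Helper656.CapFourier
import Pool.Agent.Helper656.BesDefs

open MeasureTheory SchwartzMap
open scoped ENNReal NNReal FourierTransform SchwartzMap RealInnerProductSpace ContDiff

namespace Pool.Agent.Helper656.Cap

variable {n : ℕ}

/-- seminorm bounds for the slices -/
theorem slice_bound_decay (H : ℝ × E n → ℂ) (hH : ContDiff ℝ ∞ H) (hc : HasCompactSupport H) (m l : ℕ) :
    ∃ M : ℝ, 0 ≤ M ∧ ∀ (s : ℝ) (g : 𝓢(E n, ℂ)), (∀ ζ, g ζ = H (s, ζ)) →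
      SchwartzMap.seminorm ℝ m l g ≤ M := by
  have hHl : ContDiff ℝ l H := hH.of_le (by exact_mod_cast le_top)
  have hcont : Continuous fun w : ℝ × E n => ‖w.2‖ ^ m * ‖iteratedFDeriv ℝ l H w‖ :=
    (continuous_snd.norm.pow m).mul (hHl.continuous_iteratedFDeriv le_rfl).norm
  have hcs : HasCompactSupport fun w : ℝ × E n => ‖w.2‖ ^ m * ‖iteratedFDeriv ℝ l H w‖ :=
    ((hc.iteratedFDeriv (𝕜 := ℝ) l).norm).mul_left
  obtain ⟨M, hM⟩ := hcs.exists_bound_of_continuous hcont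
  have hM0 : 0 ≤ M := (norm_nonneg _).trans (hM 0)
  refine ⟨M, hM0, fun s g hg => ?_⟩
  refine SchwartzMap.seminorm_le_bound ℝ m l g hM0 fun ζ => ?_
  have hgfun : (g : E n → ℂ) = (fun w : ℝ × E n => H ((s, 0) + w)) ∘
      (ContinuousLinearMap.inr ℝ ℝ (E n)) := by
    funext ζ
    rw [hg ζ]
    simp
  have hH' : ContDiff ℝ l (fun w : ℝ × E n => H ((s, 0) + w)) :=
    hHl.comp (contDiff_const.add contDiff_id)
  have h1 : ‖iteratedFDeriv ℝ l g ζ‖ ≤ ‖iteratedFDeriv ℝ l H (s, ζ)‖ := by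
    rw [hgfun, ContinuousLinearMap.iteratedFDeriv_comp_right _ hH' ζ le_rfl]
    refine (ContinuousMultilinearMap.norm_compContinuousLinearMap_le _ _).trans ?_
    rw [iteratedFDeriv_comp_add_left]
    have h2 : ((s, 0) : ℝ × E n) + (ContinuousLinearMap.inr ℝ ℝ (E n)) ζ = (s, ζ) := by simp
    rw [h2]
    have h3 : ∏ _i : Fin l, ‖ContinuousLinearMap.inr ℝ ℝ (E n)‖ ≤ 1 := by
      apply Finset.prod_le_one
      · intro i _; exact norm_nonneg _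
      · intro i _; exact ContinuousLinearMap.norm_inr_le_one ℝ ℝ (E n)
    exact mul_le_of_le_one_right (norm_nonneg _) h3
  have h4 := hM (s, ζ)
  rw [Real.norm_of_nonneg (by positivity)] at h4
  exact (mul_le_mul_of_nonneg_left h1 (by positivity)).trans h4

/-- TARGET -/
theorem uniform_decay (H : ℝ × E n → ℂ) (hH : ContDiff ℝ ∞ H) (hc : HasCompactSupport H)
    (k : ℕ) : ∃ C : ℝ, 0 < C ∧ ∀ (s : ℝ) (g : 𝓢(E n, ℂ)), (∀ ζ, g ζ = H (s, ζ)) →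
      ∀ y, ‖𝓕⁻ g y‖ ≤ C / (1 + ‖y‖) ^ k := by
  classical
  -- a continuous seminorm
  let T : 𝓢(E n, ℂ) →L[ℝ] 𝓢(E n, ℂ) := FourierTransform.fourierInvCLM ℝ 𝓢(E n, ℂ)
  let q : Seminorm ℝ 𝓢(E n, ℂ) :=
    (SchwartzMap.seminorm ℝ 0 0 + SchwartzMap.seminorm ℝ k 0).comp T.toLinearMap
  have hws := schwartz_withSeminorms ℝ (E n) ℂ
  have hq : Continuous q := by
    have h1 : Continuous (SchwartzMap.seminorm ℝ 0 0 : Seminorm ℝ 𝓢(E n, ℂ)) :=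
      hws.continuous_seminorm (0, 0)
    have h2 : Continuous (SchwartzMap.seminorm ℝ k 0 : Seminorm ℝ 𝓢(E n, ℂ)) :=
      hws.continuous_seminorm (k, 0)
    exact (h1.add h2).comp T.continuous
  obtain ⟨s, C, -, hC⟩ := Seminorm.bound_of_continuous hws q hq
  choose M hM0 hM using fun i : ℕ × ℕ => slice_bound_decay H hH hc i.1 i.2
  have hsum0 : 0 ≤ ∑ i ∈ s, M i := Finset.sum_nonneg fun i _ => hM0 i
  refine ⟨2 ^ k * (C * ∑ i ∈ s, M i) + 1, by positivity, fun t g hg y => ?_⟩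
  have h1 : (s.sup (schwartzSeminormFamily ℝ (E n) ℂ)) g ≤ ∑ i ∈ s, M i := by
    refine Seminorm.finset_sup_apply_le hsum0 fun i hi => ?_
    exact (hM i t g hg).trans (Finset.single_le_sum (fun i _ => hM0 i) hi)
  have h2 : q g ≤ C * ∑ i ∈ s, M i := by
    refine (hC g).trans ?_
    rw [Seminorm.smul_apply]
    exact mul_le_mul_of_nonneg_left h1 C.2
  have h3 : q g = SchwartzMap.seminorm ℝ 0 0 (𝓕⁻ g) + SchwartzMap.seminorm ℝ k 0 (𝓕⁻ g) := rfl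
  have h4 : ‖𝓕⁻ g y‖ ≤ SchwartzMap.seminorm ℝ 0 0 (𝓕⁻ g) := SchwartzMap.norm_le_seminorm ℝ _ y
  have h5 : ‖y‖ ^ k * ‖𝓕⁻ g y‖ ≤ SchwartzMap.seminorm ℝ k 0 (𝓕⁻ g) :=
    SchwartzMap.norm_pow_mul_le_seminorm ℝ _ k y
  rw [le_div_iff₀ (by positivity)]
  have h6 : (1 + ‖y‖) ^ k ≤ 2 ^ k * (1 + ‖y‖ ^ k) := by
    rcases le_total ‖y‖ 1 with h | h
    · calc (1 + ‖y‖) ^ k ≤ 2 ^ k := pow_le_pow_left₀ (by positivity) (by linarith) k
        _ ≤ 2 ^ k * (1 + ‖y‖ ^ k) := by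
            have : 0 ≤ ‖y‖ ^ k := by positivity
            have h2 : (0 : ℝ) < 2 ^ k := by positivity
            nlinarith
    · calc (1 + ‖y‖) ^ k ≤ (2 * ‖y‖) ^ k := pow_le_pow_left₀ (by positivity) (by linarith) k
        _ = 2 ^ k * ‖y‖ ^ k := mul_pow _ _ _
        _ ≤ 2 ^ k * (1 + ‖y‖ ^ k) := by
            have h2 : (0 : ℝ) < 2 ^ k := by positivity
            nlinarith
  have h7 : 0 ≤ ‖𝓕⁻ g y‖ := norm_nonneg _
  calc ‖𝓕⁻ g y‖ * (1 + ‖y‖) ^ k ≤ ‖𝓕⁻ g y‖ * (2 ^ k * (1 + ‖y‖ ^ k)) :=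
        mul_le_mul_of_nonneg_left h6 h7
    _ = 2 ^ k * (‖𝓕⁻ g y‖ + ‖y‖ ^ k * ‖𝓕⁻ g y‖) := by ring
    _ ≤ 2 ^ k * (C * ∑ i ∈ s, M i) := by
        refine mul_le_mul_of_nonneg_left ?_ (by positivity)
        linarith
    _ ≤ _ := by linarith

end Pool.Agent.Helper656.Cap
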