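import Pool.Agent.Helper656.CapFourier
import Pool.Agent.Helper656.BesDefs

open MeasureTheory SchwartzMap
open scoped ENNReal NNReal FourierTransform SchwartzMap RealInnerProductSpace ContDiff

namespace Pool.Agent.Helper656.Cap

variable {n : ℕ}

/-- the integrand of the truncated inverse Fourier integral -/
noncomputable def pint (u : 𝓢(E n, ℂ)) (t : ℝ) (x ξ : E n) : ℂ :=
  Complex.exp (2 * Real.pi * ⟪x, ξ⟫ * Complex.I) * ((beta (t * ‖ξ‖) : ℝ) : ℂ) * (𝓕 u) ξ

theorem norm_cexp_inner (x ξ : E n) :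
    ‖Complex.exp (2 * Real.pi * ⟪x, ξ⟫ * Complex.I)‖ = 1 := by
  have h : (2 * (Real.pi : ℂ) * ((⟪x, ξ⟫ : ℝ) : ℂ) * Complex.I) =
      ((2 * Real.pi * ⟪x, ξ⟫ : ℝ) : ℂ) * Complex.I := by push_cast; ring
  rw [h, Complex.norm_exp_ofReal_mul_I]

theorem norm_pint_le (u : 𝓢(E n, ℂ)) (t : ℝ) (x ξ : E n) : ‖pint u t x ξ‖ ≤ ‖(𝓕 u) ξ‖ := by
  unfold pint
  rw [norm_mul, norm_mul, norm_cexp_inner, one_mul, Complex.norm_real,
    Real.norm_of_nonneg (beta_nonneg _)]
  have := mul_le_mul_of_nonneg_right (beta_le_one (t * ‖ξ‖)) (norm_nonneg ((𝓕 u) ξ))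
  linarith

theorem continuous_pint (u : 𝓢(E n, ℂ)) (t : ℝ) (x : E n) : Continuous (pint u t x) := by
  unfold pint
  have h1 : Continuous (fun ξ : E n => ((beta (t * ‖ξ‖) : ℝ) : ℂ)) :=
    Complex.continuous_ofReal.comp (continuous_beta.comp (by fun_prop))
  have h2 : Continuous (fun ξ : E n => (𝓕 u) ξ) := (𝓕 u).continuous
  have h3 : Continuous (fun ξ : E n => Complex.exp (2 * Real.pi * ⟪x, ξ⟫ * Complex.I)) := by
    fun_prop
  exact (h3.mul h1).mul h2

theorem integrable_pint (u : 𝓢(E n, ℂ)) (t : ℝ) (x : E n) : Integrable (pint u t x) := by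
  apply ((𝓕 u).integrable (μ := volume)).norm.mono' (continuous_pint u t x).aestronglyMeasurable
  exact Filter.Eventually.of_forall (fun ξ => norm_pint_le u t x ξ)

theorem integral_mul_dil_bmp (u : 𝓢(E n, ℂ)) {t : ℝ} (ht : 0 < t) (x : E n) :
    ∫ y, u y * dil x t ht (𝓕 bmp) y = ∫ ξ, pint u t x ξ := by
  have h1 := SchwartzMap.integral_fourier_mul_eq u (𝓕⁻ (dil x t ht (𝓕 bmp)))
  have h2 : 𝓕 (𝓕⁻ (dil x t ht (𝓕 bmp))) = dil x t ht (𝓕 (bmp : 𝓢(E n, ℂ))) :=
    FourierTransform.fourier_fourierInv_eq _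
  rw [h2] at h1
  rw [← h1]
  apply integral_congr_ae
  apply Filter.Eventually.of_forall
  intro ξ
  simp only
  have h3 : (𝓕⁻ (𝓕 (bmp : 𝓢(E n, ℂ))) : 𝓢(E n, ℂ)) = bmp :=
    FourierTransform.fourierInv_fourier_eq _
  rw [fourierInv_dil, h3, bmp_apply, norm_smul, Real.norm_of_nonneg ht.le]
  unfold pint
  ring

theorem lpPiece_zero_pint (u : 𝓢(E n, ℂ)) (x : E n) :
    lpPiece 0 u x = ∫ ξ, pint u 1 x ξ := by
  unfold lpPiece
  rw [Real.fourierInv_eq']
  apply integral_congr_ae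
  apply Filter.Eventually.of_forall
  intro ξ
  simp only [smul_eq_mul, lpSymbol, pint, one_mul, fourier_coe]
  rw [real_inner_comm]
  push_cast
  ring

theorem lpPiece_succ_pint (j : ℕ) (u : 𝓢(E n, ℂ)) (x : E n) :
    lpPiece (j + 1) u x = (∫ ξ, pint u ((2 : ℝ) ^ (j + 1))⁻¹ x ξ) -
      ∫ ξ, pint u ((2 : ℝ) ^ j)⁻¹ x ξ := by
  rw [← integral_sub (integrable_pint u _ x) (integrable_pint u _ x)]
  unfold lpPiece
  rw [Real.fourierInv_eq']
  apply integral_congr_ae
  apply Filter.Eventually.of_forall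
  intro ξ
  simp only [smul_eq_mul, lpSymbol, pint, fourier_coe]
  rw [real_inner_comm, div_eq_inv_mul, div_eq_inv_mul]
  push_cast
  ring

/-- TARGET -/
theorem lpPiece_zero (u : 𝓢(E n, ℂ)) (x : E n) :
    lpPiece 0 u x = ∫ y, u y * dil x 1 one_pos (𝓕 bmp) y := by
  rw [integral_mul_dil_bmp, lpPiece_zero_pint]

/-- TARGET -/
theorem lpPiece_succ (j : ℕ) (u : 𝓢(E n, ℂ)) (x : E n) :
    lpPiece (j + 1) u x =
      (∫ y, u y * dil x ((2 : ℝ) ^ (j + 1))⁻¹ (by positivity) (𝓕 bmp) y) -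
      ∫ y, u y * dil x ((2 : ℝ) ^ j)⁻¹ (by positivity) (𝓕 bmp) y := by
  rw [integral_mul_dil_bmp, integral_mul_dil_bmp, lpPiece_succ_pint]

theorem sum_lpPiece (J : ℕ) (u : 𝓢(E n, ℂ)) (x : E n) :
    ∑ j ∈ Finset.range (J + 1), lpPiece j u x = ∫ ξ, pint u ((2 : ℝ) ^ J)⁻¹ x ξ := by
  induction J with
  | zero => simp [lpPiece_zero_pint]
  | succ J ih =>
    rw [Finset.sum_range_succ, ih, lpPiece_succ_pint]
    ring

theorem tendsto_pint (u : 𝓢(E n, ℂ)) (x : E n) :
    Filter.Tendsto (fun J : ℕ => ∫ ξ, pint u ((2 : ℝ) ^ J)⁻¹ x ξ) Filter.atTop (nhds (u x)) := by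
  have h1 : u x = ∫ ξ, pint u 0 x ξ := by
    have h2 : (𝓕⁻ (𝓕 u) : 𝓢(E n, ℂ)) x = u x := by
      rw [FourierTransform.fourierInv_fourier_eq]
    rw [← h2, fourierInv_coe, Real.fourierInv_eq']
    apply integral_congr_ae
    apply Filter.Eventually.of_forall
    intro ξ
    simp only [smul_eq_mul, pint, zero_mul]
    rw [real_inner_comm, beta_eq_one (by simp)]
    push_cast
    ring
  rw [h1]
  apply tendsto_integral_of_dominated_convergence (fun ξ => ‖(𝓕 u) ξ‖)
  · intro J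
    exact (continuous_pint u _ x).aestronglyMeasurable
  · exact ((𝓕 u).integrable (μ := volume)).norm
  · intro J
    exact Filter.Eventually.of_forall (fun ξ => norm_pint_le u _ x ξ)
  · apply Filter.Eventually.of_forall
    intro ξ
    unfold pint
    apply Filter.Tendsto.mul_const
    apply Filter.Tendsto.const_mul
    apply (Complex.continuous_ofReal.tendsto _).comp
    apply (continuous_beta.tendsto _).comp
    apply Filter.Tendsto.mul_const
    have h3 : Filter.Tendsto (fun J : ℕ => ((2 : ℝ) ^ J)) Filter.atTop Filter.atTop :=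
      tendsto_pow_atTop_atTop_of_one_lt (by norm_num)
    exact tendsto_inv_atTop_zero.comp h3

/-- TARGET -/
theorem enorm_le_tsum_lpPiece (u : 𝓢(E n, ℂ)) (x : E n) :
    ‖u x‖ₑ ≤ ∑' j : ℕ, ‖lpPiece j u x‖ₑ := by
  have h1 := (continuous_enorm.tendsto (u x)).comp (tendsto_pint u x)
  apply le_of_tendsto h1
  apply Filter.Eventually.of_forall
  intro J
  simp only [Function.comp]
  rw [← sum_lpPiece J u x]
  calc ‖∑ j ∈ Finset.range (J + 1), lpPiece j u x‖ₑ
      ≤ ∑ j ∈ Finset.range (J + 1), ‖lpPiece j u x‖ₑ := enorm_sum_le _ _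
    _ ≤ _ := ENNReal.sum_le_tsum _

theorem continuous_integral_pint (u : 𝓢(E n, ℂ)) (t : ℝ) :
    Continuous (fun x : E n => ∫ ξ, pint u t x ξ) := by
  apply continuous_of_dominated (bound := fun ξ => ‖(𝓕 u) ξ‖)
  · intro x
    exact (continuous_pint u _ x).aestronglyMeasurable
  · intro x
    exact Filter.Eventually.of_forall (fun ξ => norm_pint_le u _ x ξ)
  · exact ((𝓕 u).integrable (μ := volume)).norm
  · apply Filter.Eventually.of_forall
    intro ξ
    unfold pint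
    have h3 : Continuous (fun x : E n => Complex.exp (2 * Real.pi * ⟪x, ξ⟫ * Complex.I)) := by
      fun_prop
    exact (h3.mul continuous_const).mul continuous_const

/-- TARGET -/
theorem continuous_lpPiece (j : ℕ) (u : 𝓢(E n, ℂ)) : Continuous (lpPiece j u) := by
  rcases j with _ | j
  · have h : lpPiece 0 (u : E n → ℂ) = fun x => ∫ ξ, pint u 1 x ξ := by
      funext x
      exact lpPiece_zero_pint u x
    rw [h]
    exact continuous_integral_pint u 1
  · have h : lpPiece (j + 1) (u : E n → ℂ) = fun x => (∫ ξ, pint u ((2 : ℝ) ^ (j + 1))⁻¹ x ξ) -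
      ∫ ξ, pint u ((2 : ℝ) ^ j)⁻¹ x ξ := by
      funext x
      exact lpPiece_succ_pint j u x
    rw [h]
    exact (continuous_integral_pint u _).sub (continuous_integral_pint u _)

end Pool.Agent.Helper656.Cap
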