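import Pool.Agent.Helper656.CapIter

namespace Pool.Agent.Helper656.Cap

open Classical in
theorem exists_weights_small (n : ℕ) (d p : ℝ) (hd : 0 < d) (hp : 0 < p) (hp1 : p ≤ 1)
    (G : ℝ → ℝ) (hG0 : ∀ s, 0 ≤ G s) (hG : ∀ s t, 0 ≤ s → s ≤ t → G t ≤ G s)
    (hGs : Summable fun i : ℕ => G (2 ^ i) * ((2 : ℝ) ^ i) ^ d) :
    ∃ δ₀ : ℝ, 0 < δ₀ ∧ ∀ (μ : ℕ) (ε : ℝ), 0 ≤ ε → ε * ((2 : ℝ) ^ μ) ^ d ≤ δ₀ →
      ∀ w : Cube n → E n → ℝ, (∀ Q, Cube.side Q ≤ 1 → ∀ y ∈ Cube.set Q, 1 ≤ w Q y) →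
      (∀ Q, Cube.side Q ≤ 1 → ∀ y,
        -(ε * G (‖y - Cube.center Q‖ / (2 ^ μ * Cube.side Q))) ≤ w Q y) →
      ∀ T₀ : Finset (Cube n), 36 * ∑ Q ∈ T₀, Cube.side Q ^ d ≤ 1 →
        ∃ (T : Finset (ℕ × Cube n)) (lam : ℕ × Cube n → ℝ),
        (∀ i ∈ T, 0 ≤ lam i) ∧ (∀ i ∈ T, Cube.side i.2 ≤ 1) ∧
        (∀ Q ∈ T₀, ∀ y ∈ Cube.set Q, 1 ≤ ∑ i ∈ T, lam i * w i.2 y) ∧
        ∑ i ∈ T, lam i ^ p * Cube.side i.2 ^ d ≤ 36 * ∑ Q ∈ T₀, Cube.side Q ^ d := by
  obtain ⟨δ₀, hδ₀, hW⟩ := exists_weights n d p hd hp hp1 G hG0 hG hGs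
  refine ⟨δ₀, hδ₀, fun μ ε hε hεδ w hw1 hw2 T₀ hT₀ => ?_⟩
  obtain ⟨T, lam, hlam, hge, hsum⟩ := hW μ ε hε hεδ
    (fun Q y => if Cube.side Q ≤ 1 then w Q y else 1)
    (by
      intro Q y hy
      by_cases h : Cube.side Q ≤ 1
      · simp only [h, if_true]; exact hw1 Q h y hy
      · simp only [h, if_false]; exact le_rfl)
    (by
      intro Q y
      by_cases h : Cube.side Q ≤ 1
      · simp only [h, if_true]; exact hw2 Q h y
      · simp only [h, if_false]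
        have := mul_nonneg hε (hG0 (‖y - Cube.center Q‖ / (2 ^ μ * Cube.side Q)))
        linarith) T₀
  set S₀ := ∑ Q ∈ T₀, Cube.side Q ^ d with hS₀
  have hside : ∀ i : ℕ × Cube n, 0 < Cube.side i.2 := fun i => side_pos i.2
  -- the big cubes
  have hterm : ∀ i ∈ T, 0 ≤ lam i ^ p * Cube.side i.2 ^ d := fun i hi =>
    mul_nonneg (Real.rpow_nonneg (hlam i hi) _) (Real.rpow_nonneg (hside i).le _)
  have hbig : ∀ i ∈ T, ¬ Cube.side i.2 ≤ 1 → lam i ≤ lam i ^ p * Cube.side i.2 ^ d := by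
    intro i hi hs
    rw [not_le] at hs
    have h1 : (1 : ℝ) ≤ Cube.side i.2 ^ d := Real.one_le_rpow hs.le hd.le
    have h2 : lam i ^ p * Cube.side i.2 ^ d ≤ 18 * S₀ :=
      (Finset.single_le_sum hterm hi).trans hsum
    have h0 : 0 ≤ lam i ^ p := Real.rpow_nonneg (hlam i hi) _
    have h3 : lam i ^ p ≤ 1 := by nlinarith
    have h4 : lam i ≤ 1 := by
      by_contra hcon
      rw [not_le] at hcon
      have := Real.one_lt_rpow hcon hp
      linarith
    have h5 : lam i ≤ lam i ^ p := by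
      rcases (hlam i hi).eq_or_lt with h | h
      · rw [← h, Real.zero_rpow hp.ne']
      · calc lam i = lam i ^ (1 : ℝ) := (Real.rpow_one _).symm
          _ ≤ lam i ^ p := Real.rpow_le_rpow_of_exponent_ge h h4 hp1
    nlinarith
  set T' := T.filter fun i => Cube.side i.2 ≤ 1 with hT'
  refine ⟨T', fun i => 2 * lam i, ?_, ?_, ?_, ?_⟩
  · intro i hi
    have := hlam i (Finset.mem_filter.1 hi).1
    positivity
  · intro i hi; exact (Finset.mem_filter.1 hi).2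
  · intro Q hQ y hy
    have h1 := hge Q hQ y hy
    rw [← Finset.sum_filter_add_sum_filter_not T (fun i => Cube.side i.2 ≤ 1)] at h1
    have h2 : ∑ i ∈ T with ¬ Cube.side i.2 ≤ 1,
        lam i * (if Cube.side i.2 ≤ 1 then w i.2 y else 1) ≤ 18 * S₀ := by
      calc ∑ i ∈ T with ¬ Cube.side i.2 ≤ 1, lam i * (if Cube.side i.2 ≤ 1 then w i.2 y else 1)
          ≤ ∑ i ∈ T with ¬ Cube.side i.2 ≤ 1, lam i ^ p * Cube.side i.2 ^ d := by
            refine Finset.sum_le_sum fun i hi => ?_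
            obtain ⟨h3, h4⟩ := Finset.mem_filter.1 hi
            simp only [h4, if_false, mul_one]
            exact hbig i h3 h4
        _ ≤ ∑ i ∈ T, lam i ^ p * Cube.side i.2 ^ d :=
            Finset.sum_le_sum_of_subset_of_nonneg (Finset.filter_subset _ _)
              fun i hi _ => hterm i hi
        _ ≤ _ := hsum
    have h3 : ∑ i ∈ T', lam i * (if Cube.side i.2 ≤ 1 then w i.2 y else 1) =
        ∑ i ∈ T', lam i * w i.2 y := by
      refine Finset.sum_congr rfl fun i hi => ?_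
      simp only [(Finset.mem_filter.1 hi).2, if_true]
    have h4 : ∑ i ∈ T', 2 * lam i * w i.2 y = 2 * ∑ i ∈ T', lam i * w i.2 y := by
      rw [Finset.mul_sum]
      exact Finset.sum_congr rfl fun i _ => by ring
    rw [h4, ← h3]
    linarith
  · calc ∑ i ∈ T', (2 * lam i) ^ p * Cube.side i.2 ^ d
        ≤ ∑ i ∈ T', 2 * (lam i ^ p * Cube.side i.2 ^ d) := by
          refine Finset.sum_le_sum fun i hi => ?_
          have hi' := (Finset.mem_filter.1 hi).1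
          rw [Real.mul_rpow (by norm_num) (hlam i hi'), mul_assoc]
          have h1 : (2 : ℝ) ^ p ≤ 2 := by
            calc (2 : ℝ) ^ p ≤ 2 ^ (1 : ℝ) := Real.rpow_le_rpow_of_exponent_le one_le_two hp1
              _ = 2 := Real.rpow_one 2
          exact mul_le_mul_of_nonneg_right h1 (hterm i hi')
      _ = 2 * ∑ i ∈ T', lam i ^ p * Cube.side i.2 ^ d := by rw [Finset.mul_sum]
      _ ≤ 2 * ∑ i ∈ T, lam i ^ p * Cube.side i.2 ^ d := by
          gcongr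
          · exact fun i hi _ => hterm i hi
          · exact Finset.filter_subset _ _
      _ ≤ 2 * (18 * S₀) := by gcongr
      _ = 36 * S₀ := by ring

end Pool.Agent.Helper656.Cap
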