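import Pool.Agent.Helper656.CapCubes

open MeasureTheory
open scoped ENNReal NNReal

namespace Pool.Agent.Helper656.Cap

/-- every point of a cube is close to the center -/
theorem Cube.norm_sub_center_le {n : ℕ} (Q : Cube n) (y : E n) (hy : y ∈ Cube.set Q) :
    ‖y - Cube.center Q‖ ≤ Real.sqrt n * Cube.side Q := by
  have hs : (0 : ℝ) < (2 : ℝ) ^ Q.1 := by positivity
  rw [EuclideanSpace.norm_eq]
  have h1 : ∀ i, ‖(y - Cube.center Q) i‖ ^ 2 ≤ ((2 : ℝ) ^ Q.1) ^ 2 := by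
    intro i
    have h2 := hy i
    rw [Int.floor_eq_iff, le_div_iff₀ hs, div_lt_iff₀ hs] at h2
    have h3 : (y - Cube.center Q) i = y i - (2 : ℝ) ^ Q.1 * ((Q.2 i : ℝ) + 1 / 2) := rfl
    rw [Real.norm_eq_abs, sq_abs, h3]
    apply sq_le_sq'
    · nlinarith [h2.1, h2.2]
    · nlinarith [h2.1, h2.2]
  have h4 : ∑ i, ‖(y - Cube.center Q) i‖ ^ 2 ≤ n * ((2 : ℝ) ^ Q.1) ^ 2 := by
    refine (Finset.sum_le_sum (fun i _ => h1 i)).trans ?_
    simp
  refine (Real.sqrt_le_sqrt h4).trans ?_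
  rw [Real.sqrt_mul (Nat.cast_nonneg n), Real.sqrt_sq hs.le]
  rfl

/-- the sum over an image is at most the sum over the source -/
theorem sum_image_le' {ι κ : Type*} [DecidableEq ι] [DecidableEq κ] (s : Finset ι) (g : ι → κ) (f : κ → ℝ)
    (hf : ∀ x, 0 ≤ f x) : ∑ x ∈ s.image g, f x ≤ ∑ i ∈ s, f (g i) := by
  induction s using Finset.cons_induction with
  | empty => simp
  | cons a s ha ih =>
    rw [Finset.sum_cons, Finset.cons_eq_insert, Finset.image_insert]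
    by_cases h : g a ∈ s.image g
    · rw [Finset.insert_eq_of_mem h]
      have := hf (g a)
      linarith
    · rw [Finset.sum_insert h]
      linarith

/-- passing from covers by balls to finite covers by dyadic cubes -/
theorem exists_cubes {n : ℕ} (d : ℝ) (hd : 0 < d) :
    ∃ C : ℝ≥0, ∀ K : Set (E n), IsCompact K → ∀ B : ℝ≥0∞, hausdorffContent d K < B →
      ∃ (T : Finset (Cube n)) (Ω : Set (E n)), IsOpen Ω ∧ K ⊆ Ω ∧
        (∀ y ∈ Ω, ∃ Q ∈ T, y ∈ Cube.set Q) ∧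
        ENNReal.ofReal (∑ Q ∈ T, Cube.side Q ^ d) ≤ C * B := by
  classical
  refine ⟨2 ^ n * 4 ^ d, ?_⟩
  intro K hK B hB
  unfold hausdorffContent at hB
  rw [iInf_lt_iff] at hB
  obtain ⟨c, hB⟩ := hB
  rw [iInf_lt_iff] at hB
  obtain ⟨r, hB⟩ := hB
  rw [iInf_lt_iff] at hB
  obtain ⟨hcov, hB⟩ := hB
  obtain ⟨t, ht⟩ := hK.elim_finite_subcover (fun i => Metric.ball (c i) (r i))
    (fun i => Metric.isOpen_ball) hcov
  have hk : ∀ i, ∃ k : ℤ, 0 < r i → 2 * (r i : ℝ) ≤ (2 : ℝ) ^ k ∧ (2 : ℝ) ^ k ≤ 4 * (r i : ℝ) := by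
    intro i
    by_cases hr : 0 < r i
    · have h2r : (0 : ℝ) < 2 * (r i : ℝ) := by
        have : (0 : ℝ) < r i := by exact_mod_cast hr
        linarith
      obtain ⟨m, hm⟩ := exists_mem_Ico_zpow h2r (one_lt_two)
      refine ⟨m + 1, fun _ => ⟨hm.2.le, ?_⟩⟩
      rw [zpow_add_one₀ (two_ne_zero)]
      linarith [hm.1]
    · exact ⟨0, fun h => absurd h hr⟩
  choose k hk using hk
  let t' := t.filter (fun i => 0 < r i)
  let g : ℕ × (Fin n → Fin 2) → Cube n := fun p =>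
    (k p.1, fun j => ⌊((c p.1) j - (r p.1 : ℝ)) / (2 : ℝ) ^ (k p.1)⌋ + ((p.2 j : ℕ) : ℤ))
  refine ⟨(t' ×ˢ Finset.univ).image g, ⋃ i ∈ t', Metric.ball (c i) (r i), ?_, ?_, ?_, ?_⟩
  · exact isOpen_biUnion (fun i _ => Metric.isOpen_ball)
  · intro x hx
    have := ht hx
    simp only [Set.mem_iUnion] at this ⊢
    obtain ⟨i, hi, hxi⟩ := this
    refine ⟨i, ?_, hxi⟩
    rw [Finset.mem_filter]
    refine ⟨hi, ?_⟩
    have h0 := Metric.pos_of_mem_ball hxi
    exact_mod_cast h0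
  · intro y hy
    simp only [Set.mem_iUnion] at hy
    obtain ⟨i, hi, hyi⟩ := hy
    have hri : 0 < r i := (Finset.mem_filter.mp hi).2
    obtain ⟨hk1, hk2⟩ := hk i hri
    have hs : (0 : ℝ) < (2 : ℝ) ^ (k i) := by positivity
    have hj : ∀ j, ∃ e : Fin 2, ⌊y j / (2 : ℝ) ^ (k i)⌋ =
        ⌊((c i) j - (r i : ℝ)) / (2 : ℝ) ^ (k i)⌋ + ((e : ℕ) : ℤ) := by
      intro j
      have h1 : |y j - (c i) j| < r i := by
        have h2 : ‖(y - c i) j‖ ≤ ‖y - c i‖ := PiLp.norm_apply_le _ _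
        rw [Real.norm_eq_abs] at h2
        have h3 : ‖y - c i‖ < r i := by rw [← dist_eq_norm]; exact hyi
        exact lt_of_le_of_lt h2 h3
      rw [abs_lt] at h1
      set a := ⌊((c i) j - (r i : ℝ)) / (2 : ℝ) ^ (k i)⌋ with ha
      have hlo : a ≤ ⌊y j / (2 : ℝ) ^ (k i)⌋ := by
        apply Int.floor_le_floor
        apply div_le_div_of_nonneg_right _ hs.le
        linarith [h1.1]
      have hhi : ⌊y j / (2 : ℝ) ^ (k i)⌋ ≤ a + 1 := by
        have h5 : y j / (2 : ℝ) ^ (k i) ≤ ((c i) j - (r i : ℝ)) / (2 : ℝ) ^ (k i) + 1 := by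
          rw [div_add_one hs.ne']
          apply div_le_div_of_nonneg_right _ hs.le
          linarith [h1.2]
        have h6 := Int.floor_le_floor h5
        rw [Int.floor_add_one] at h6
        exact h6
      rcases (show ⌊y j / (2 : ℝ) ^ (k i)⌋ = a ∨ ⌊y j / (2 : ℝ) ^ (k i)⌋ = a + 1 by omega) with h | h
      · exact ⟨0, by rw [h]; simp⟩
      · exact ⟨1, by rw [h]; simp⟩
    choose e he using hj
    refine ⟨g (i, e), ?_, ?_⟩
    · rw [Finset.mem_image]
      exact ⟨(i, e), by simp [hi], rfl⟩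
    · intro j
      exact he j
  · have hnn : ∀ Q : Cube n, 0 ≤ Cube.side Q ^ d := by
      intro Q
      apply Real.rpow_nonneg
      unfold Cube.side
      positivity
    have hsum : ∑ Q ∈ (t' ×ˢ Finset.univ).image g, Cube.side Q ^ d ≤
        ((2 ^ n * 4 ^ d * ∑ i ∈ t', (r i) ^ d : ℝ≥0) : ℝ) := by
      refine (sum_image_le' _ g _ hnn).trans ?_
      rw [Finset.sum_product]
      push_cast
      rw [Finset.mul_sum]
      apply Finset.sum_le_sum
      intro i hi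
      have hri : 0 < r i := (Finset.mem_filter.mp hi).2
      obtain ⟨hk1, hk2⟩ := hk i hri
      have h1 : ∀ e : Fin n → Fin 2, Cube.side (g (i, e)) ^ d ≤ (4 * (r i : ℝ)) ^ d := by
        intro e
        apply Real.rpow_le_rpow _ _ hd.le
        · unfold Cube.side; positivity
        · exact hk2
      refine (Finset.sum_le_sum (fun e _ => h1 e)).trans ?_
      rw [Finset.sum_const, Finset.card_univ, Fintype.card_fun, Fintype.card_fin, Fintype.card_fin,
        Real.mul_rpow (by norm_num) (NNReal.coe_nonneg _)]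
      rw [nsmul_eq_mul]
      push_cast
      rw [mul_assoc]
    refine (ENNReal.ofReal_le_ofReal hsum).trans ?_
    rw [ENNReal.ofReal_coe_nnreal]
    push_cast
    gcongr
    refine le_trans ?_ hB.le
    have h2 : ∀ i, (((r i) ^ d : ℝ≥0) : ℝ≥0∞) = (r i : ℝ≥0∞) ^ d := fun i =>
      ENNReal.coe_rpow_of_nonneg _ hd.le
    calc ∑ i ∈ t', (((r i) ^ d : ℝ≥0) : ℝ≥0∞) = ∑ i ∈ t', (r i : ℝ≥0∞) ^ d :=
          Finset.sum_congr rfl (fun i _ => h2 i)
      _ ≤ ∑' i, (r i : ℝ≥0∞) ^ d := ENNReal.sum_le_tsum _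

end Pool.Agent.Helper656.Cap
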