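import Pool.Agent.Helper656.CapThreshold

namespace Pool.Agent.Helper656.Cap

/-- the coefficients of the step function above `G` -/
noncomputable def Gi (G : ℝ → ℝ) : ℕ → ℝ
  | 0 => G 0
  | i + 1 => G (2 ^ i)

lemma Gi_nonneg {G : ℝ → ℝ} (hG0 : ∀ s, 0 ≤ G s) (i : ℕ) : 0 ≤ Gi G i := by
  cases i <;> exact hG0 _

lemma G_le_sum {G : ℝ → ℝ} (hG0 : ∀ s, 0 ≤ G s) (hG : ∀ s t, 0 ≤ s → s ≤ t → G t ≤ G s)
    {s : ℝ} (hs : 0 ≤ s) (I : ℕ) :
    G s ≤ (∑ i ∈ Finset.range (I + 1), if s ≤ 2 ^ i then Gi G i else 0) + G (2 ^ I) := by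
  have hnn : ∀ i, 0 ≤ if s ≤ (2 : ℝ) ^ i then Gi G i else 0 := by
    intro i; split_ifs
    · exact Gi_nonneg hG0 i
    · exact le_rfl
  induction I with
  | zero =>
    simp only [zero_add, Finset.sum_range_one, pow_zero]
    split_ifs with h
    · have := hG 0 s le_rfl hs
      have h1 := hG0 1
      simp only [Gi]
      linarith
    · have := hG 1 s zero_le_one (not_le.1 h).le
      linarith
  | succ I ih =>
    rw [Finset.sum_range_succ]
    by_cases h : s ≤ (2 : ℝ) ^ (I + 1)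
    · rw [if_pos h]
      have h0 : Gi G (I + 1) = G (2 ^ I) := rfl
      rw [h0]
      have := hG0 (2 ^ (I + 1))
      linarith
    · rw [if_neg h]
      have h1 := hG _ s (by positivity) (not_le.1 h).le
      have h2 := Finset.sum_nonneg (s := Finset.range (I + 1)) fun i _ => hnn i
      linarith

/-- the radius -/
noncomputable def rad {n : ℕ} (μ : ℕ) (Q : Cube n) (i : ℕ) : ℝ := 2 ^ i * (2 ^ μ * Cube.side Q)

/-- the covering cubes of a ball -/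
noncomputable def cov {n : ℕ} (μ : ℕ) (Q : Cube n) (i : ℕ) (e : Fin n → Fin 2) : Cube n :=
  (Q.1 + μ + i + 1, fun j => ⌊(Cube.center Q j - rad μ Q i) / (2 : ℝ) ^ (Q.1 + μ + i + 1)⌋ +
    ((e j : ℕ) : ℤ))

lemma pow_cov {n : ℕ} (μ : ℕ) (Q : Cube n) (i : ℕ) :
    (2 : ℝ) ^ (Q.1 + μ + i + 1) = 2 * rad μ Q i := by
  unfold rad Cube.side
  rw [zpow_add₀ two_ne_zero, zpow_add₀ two_ne_zero, zpow_add₀ two_ne_zero, zpow_natCast,
    zpow_natCast, zpow_one]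
  ring

lemma side_pos {n : ℕ} (Q : Cube n) : 0 < Cube.side Q := by unfold Cube.side; positivity

lemma rad_pos {n : ℕ} (μ : ℕ) (Q : Cube n) (i : ℕ) : 0 < rad μ Q i := by
  unfold rad
  have := side_pos Q
  positivity

lemma mem_cov {n : ℕ} (μ : ℕ) (Q : Cube n) (i : ℕ) (y : E n)
    (h : ‖y - Cube.center Q‖ ≤ rad μ Q i) : ∃ e, y ∈ Cube.set (cov μ Q i e) := by
  classical
  have hr := rad_pos μ Q i
  have hkey : ∀ j, ⌊y j / (2 : ℝ) ^ (Q.1 + μ + i + 1)⌋ =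
      ⌊(Cube.center Q j - rad μ Q i) / (2 : ℝ) ^ (Q.1 + μ + i + 1)⌋ ∨
      ⌊y j / (2 : ℝ) ^ (Q.1 + μ + i + 1)⌋ =
      ⌊(Cube.center Q j - rad μ Q i) / (2 : ℝ) ^ (Q.1 + μ + i + 1)⌋ + 1 := by
    intro j
    have h1 : |y j - Cube.center Q j| ≤ rad μ Q i := by
      have h2 := PiLp.norm_apply_le (y - Cube.center Q) j
      rw [PiLp.sub_apply, Real.norm_eq_abs] at h2
      exact h2.trans h
    rw [abs_le] at h1
    rw [pow_cov]
    have h3 : (Cube.center Q j - rad μ Q i) / (2 * rad μ Q i) ≤ y j / (2 * rad μ Q i) := by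
      apply div_le_div_of_nonneg_right _ (by positivity)
      linarith
    have h4 : y j / (2 * rad μ Q i) ≤ (Cube.center Q j - rad μ Q i) / (2 * rad μ Q i) + 1 := by
      rw [div_add_one (by positivity)]
      apply div_le_div_of_nonneg_right _ (by positivity)
      linarith
    have h5 := Int.floor_le_floor h3
    have h6 := Int.floor_le_floor h4
    rw [Int.floor_add_one] at h6
    omega
  refine ⟨fun j => if ⌊y j / (2 : ℝ) ^ (Q.1 + μ + i + 1)⌋ =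
      ⌊(Cube.center Q j - rad μ Q i) / (2 : ℝ) ^ (Q.1 + μ + i + 1)⌋ then 0 else 1, ?_⟩
  intro j
  simp only [cov]
  split_ifs with h7
  · rw [h7]; simp
  · rcases hkey j with h8 | h8
    · exact absurd h8 h7
    · rw [h8]; simp

lemma side_cov {n : ℕ} (μ : ℕ) (Q : Cube n) (i : ℕ) (e : Fin n → Fin 2) :
    Cube.side (cov μ Q i e) = 2 ^ i * (2 ^ μ * (2 * Cube.side Q)) := by
  have : Cube.side (cov μ Q i e) = (2 : ℝ) ^ (Q.1 + μ + i + 1) := rfl
  rw [this, pow_cov]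
  unfold rad
  ring

lemma sum_Gi_le {G : ℝ → ℝ} (hG0 : ∀ s, 0 ≤ G s) (d : ℝ)
    (hGs : Summable fun i : ℕ => G (2 ^ i) * ((2 : ℝ) ^ i) ^ d) (I : ℕ) :
    ∑ i ∈ Finset.range (I + 1), Gi G i * ((2 : ℝ) ^ i) ^ d ≤
      G 0 + 2 ^ d * ∑' i : ℕ, G (2 ^ i) * ((2 : ℝ) ^ i) ^ d := by
  rw [Finset.sum_range_succ']
  have h1 : ∀ i : ℕ, Gi G (i + 1) * ((2 : ℝ) ^ (i + 1)) ^ d =
      2 ^ d * (G (2 ^ i) * ((2 : ℝ) ^ i) ^ d) := by
    intro i
    rw [pow_succ, Real.mul_rpow (by positivity) (by norm_num)]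
    simp only [Gi]
    ring
  simp only [h1]
  rw [← Finset.mul_sum]
  have h2 : Gi G 0 * ((2 : ℝ) ^ 0) ^ d = G 0 := by simp [Gi]
  rw [h2]
  have h3 := hGs.sum_le_tsum (Finset.range I) (fun i _ => by
    have := hG0 (2 ^ i)
    positivity)
  have h4 : (0 : ℝ) ≤ 2 ^ d := by positivity
  nlinarith [mul_le_mul_of_nonneg_left h3 h4]

open Classical in
/-- one step -/
theorem step_lemma (n : ℕ) (d : ℝ) (hd : 0 < d) (G : ℝ → ℝ)
    (hG0 : ∀ s, 0 ≤ G s) (hG : ∀ s t, 0 ≤ s → s ≤ t → G t ≤ G s)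
    (hGs : Summable fun i : ℕ => G (2 ^ i) * ((2 : ℝ) ^ i) ^ d) :
    ∃ C : ℝ, 0 < C ∧ ∀ (μ : ℕ) (ε : ℝ), 0 ≤ ε → ∀ (T : Finset (Cube n)) (a : Cube n → ℝ),
      (∀ Q ∈ T, 0 ≤ a Q) → ∀ τ, 0 < τ → ∃ (T' : Finset (Cube n)) (a' : Cube n → ℝ),
        (∀ R ∈ T', τ ≤ a' R) ∧ (∀ R ∈ T', ∃ Q ∈ T, Cube.side Q ≤ Cube.side R) ∧
        (∑ R ∈ T', a' R * Cube.side R ^ d ≤
          C * (ε * ((2 : ℝ) ^ μ) ^ d) * ∑ Q ∈ T, a Q * Cube.side Q ^ d) ∧
        ∀ y : E n, ∑ Q ∈ T, a Q * (ε * G (‖y - Cube.center Q‖ / (2 ^ μ * Cube.side Q))) ≤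
          2 * τ + ∑ R ∈ T', if y ∈ Cube.set R then a' R else 0 := by
  set Sg := ∑' i : ℕ, G (2 ^ i) * ((2 : ℝ) ^ i) ^ d with hSg
  have hSg0 : 0 ≤ Sg := tsum_nonneg fun i => by have := hG0 (2 ^ i); positivity
  refine ⟨2 ^ n * 2 ^ d * (G 0 + 2 ^ d * Sg) + 1, by have := hG0 0; positivity, ?_⟩
  intro μ ε hε T a ha τ hτ
  -- the cut off
  obtain ⟨I, hI⟩ : ∃ I : ℕ, (∑ Q ∈ T, a Q) * (ε * G (2 ^ I)) ≤ τ := by
    have h1 : Filter.Tendsto (fun i : ℕ => G (2 ^ i)) Filter.atTop (nhds 0) := by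
      refine squeeze_zero (fun i => hG0 _) (fun i => ?_) hGs.tendsto_atTop_zero
      have h2 : (1 : ℝ) ≤ ((2 : ℝ) ^ i) ^ d :=
        Real.one_le_rpow (one_le_pow₀ (by norm_num)) hd.le
      nlinarith [hG0 (2 ^ i)]
    have h2 : Filter.Tendsto (fun i : ℕ => (∑ Q ∈ T, a Q) * (ε * G (2 ^ i))) Filter.atTop
        (nhds ((∑ Q ∈ T, a Q) * (ε * 0))) := (h1.const_mul ε).const_mul _
    rw [mul_zero, mul_zero] at h2
    exact ((h2.eventually (gt_mem_nhds hτ)).exists).imp fun i hi => le_of_lt hi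
  obtain ⟨T', a', h1, h2, h3, h4⟩ := threshold (n := n) d
    (T ×ˢ (Finset.range (I + 1) ×ˢ (Finset.univ : Finset (Fin n → Fin 2))))
    (fun x => cov μ x.1 x.2.1 x.2.2) (fun x => a x.1 * (ε * Gi G x.2.1)) (by
      rintro ⟨Q, i, e⟩ hx
      simp only [Finset.mem_product] at hx
      exact mul_nonneg (ha Q hx.1) (mul_nonneg hε (Gi_nonneg hG0 i))) τ hτ
  refine ⟨T', a', h1, ?_, ?_, ?_⟩
  · intro R hR
    obtain ⟨⟨Q, i, e⟩, hx, hxR⟩ := h2 R hR
    simp only [Finset.mem_product] at hx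
    refine ⟨Q, hx.1, ?_⟩
    rw [← hxR]
    simp only
    rw [side_cov]
    have h5 := side_pos Q
    have h6 : (1 : ℝ) ≤ 2 ^ i := one_le_pow₀ (by norm_num)
    have h7 : (1 : ℝ) ≤ 2 ^ μ := one_le_pow₀ (by norm_num)
    calc Cube.side Q ≤ 2 * Cube.side Q := by linarith
      _ ≤ 2 ^ μ * (2 * Cube.side Q) := le_mul_of_one_le_left (by positivity) h7
      _ ≤ 2 ^ i * (2 ^ μ * (2 * Cube.side Q)) := le_mul_of_one_le_left (by positivity) h6
  · refine h4.trans ?_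
    rw [Finset.sum_product]
    simp only [Finset.sum_product, side_cov, Finset.sum_const, Finset.card_univ]
    have hcard : Fintype.card (Fin n → Fin 2) = 2 ^ n := by simp
    rw [hcard]
    have h5 : ∀ Q : Cube n, ∀ i : ℕ, (2 ^ n : ℕ) • (a Q * (ε * Gi G i) *
        ((2 : ℝ) ^ i * (2 ^ μ * (2 * Cube.side Q))) ^ d) =
        (2 ^ n * 2 ^ d * (ε * ((2 : ℝ) ^ μ) ^ d) * (a Q * Cube.side Q ^ d)) *
          (Gi G i * ((2 : ℝ) ^ i) ^ d) := by
      intro Q i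
      have h6 := side_pos Q
      rw [Real.mul_rpow (by positivity) (by positivity),
        Real.mul_rpow (by positivity) (by positivity),
        Real.mul_rpow (by positivity) (by positivity), nsmul_eq_mul]
      push_cast
      ring
    simp only [h5]
    simp only [← Finset.mul_sum]
    rw [← Finset.sum_mul, ← Finset.mul_sum]
    have h6 := sum_Gi_le hG0 d hGs I
    rw [← hSg] at h6
    have h7 : 0 ≤ ∑ Q ∈ T, a Q * Cube.side Q ^ d := Finset.sum_nonneg fun Q hQ =>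
      mul_nonneg (ha Q hQ) (Real.rpow_nonneg (side_pos Q).le _)
    have h8 : 0 ≤ 2 ^ n * 2 ^ d * (ε * ((2 : ℝ) ^ μ) ^ d) *
        ∑ Q ∈ T, a Q * Cube.side Q ^ d := by positivity
    calc _ ≤ 2 ^ n * 2 ^ d * (ε * ((2 : ℝ) ^ μ) ^ d) *
        (∑ Q ∈ T, a Q * Cube.side Q ^ d) * (G 0 + 2 ^ d * Sg) :=
          mul_le_mul_of_nonneg_left h6 h8
      _ ≤ _ := by
        have h9 : 0 ≤ (ε * ((2 : ℝ) ^ μ) ^ d) * ∑ Q ∈ T, a Q * Cube.side Q ^ d := by positivity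
        nlinarith [h9]
  · intro y
    have h5 := h3 y
    rw [Finset.sum_product] at h5
    simp only [Finset.sum_product] at h5
    have h6 : ∑ Q ∈ T, a Q * (ε * G (‖y - Cube.center Q‖ / (2 ^ μ * Cube.side Q))) ≤
        ∑ Q ∈ T, ((∑ i ∈ Finset.range (I + 1), ∑ e : Fin n → Fin 2,
          if y ∈ Cube.set (cov μ Q i e) then a Q * (ε * Gi G i) else 0) +
          a Q * (ε * G (2 ^ I))) := by
      refine Finset.sum_le_sum fun Q hQ => ?_
      set s := ‖y - Cube.center Q‖ / (2 ^ μ * Cube.side Q) with hs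
      have hsp := side_pos Q
      have hs0 : 0 ≤ s := by positivity
      have h7 := G_le_sum hG0 hG hs0 I
      have h8 : a Q * (ε * G s) ≤ a Q * (ε * ((∑ i ∈ Finset.range (I + 1),
          if s ≤ 2 ^ i then Gi G i else 0) + G (2 ^ I))) :=
        mul_le_mul_of_nonneg_left (mul_le_mul_of_nonneg_left h7 hε) (ha Q hQ)
      refine h8.trans ?_
      rw [mul_add, mul_add]
      refine add_le_add ?_ le_rfl
      rw [Finset.mul_sum, Finset.mul_sum]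
      refine Finset.sum_le_sum fun i _ => ?_
      have hnn : 0 ≤ a Q * (ε * Gi G i) := mul_nonneg (ha Q hQ) (mul_nonneg hε (Gi_nonneg hG0 i))
      have hterm : ∀ e ∈ (Finset.univ : Finset (Fin n → Fin 2)), (0 : ℝ) ≤
          if y ∈ Cube.set (cov μ Q i e) then a Q * (ε * Gi G i) else 0 := by
        intro e _
        split_ifs
        · exact hnn
        · exact le_rfl
      by_cases hsi : s ≤ 2 ^ i
      · rw [if_pos hsi]
        have h9 : ‖y - Cube.center Q‖ ≤ rad μ Q i := by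
          rw [hs, div_le_iff₀ (by positivity)] at hsi
          exact hsi
        obtain ⟨e, he⟩ := mem_cov μ Q i y h9
        have h10 := Finset.single_le_sum hterm (Finset.mem_univ e)
        rw [if_pos he] at h10
        exact h10
      · rw [if_neg hsi, mul_zero, mul_zero]
        exact Finset.sum_nonneg hterm
    rw [Finset.sum_add_distrib, ← Finset.sum_mul] at h6
    linarith

lemma rpow_le_div {a τ p : ℝ} (hτ : 0 < τ) (hτ1 : τ ≤ 1) (ha : τ ≤ a) (hp : 0 < p)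
    (hp1 : p ≤ 1) : a ^ p ≤ a * τ⁻¹ := by
  have h1 : 1 ≤ a * τ⁻¹ := by
    rw [← div_eq_mul_inv, le_div_iff₀ hτ, one_mul]; exact ha
  have h2 : a = a * τ⁻¹ * τ := by field_simp
  calc a ^ p = (a * τ⁻¹ * τ) ^ p := by rw [← h2]
    _ = (a * τ⁻¹) ^ p * τ ^ p := Real.mul_rpow (by linarith) hτ.le
    _ ≤ (a * τ⁻¹) ^ (1 : ℝ) * 1 := by
      apply mul_le_mul _ (Real.rpow_le_one hτ.le hτ1 hp.le) (by positivity) (by positivity)
      exact Real.rpow_le_rpow_of_exponent_le h1 hp1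
    _ = a * τ⁻¹ := by rw [Real.rpow_one, mul_one]

open Classical in
/-- TARGET: the iteration -/
theorem exists_weights (n : ℕ) (d p : ℝ) (hd : 0 < d) (hp : 0 < p) (hp1 : p ≤ 1) (G : ℝ → ℝ)
    (hG0 : ∀ s, 0 ≤ G s) (hG : ∀ s t, 0 ≤ s → s ≤ t → G t ≤ G s)
    (hGs : Summable fun i : ℕ => G (2 ^ i) * ((2 : ℝ) ^ i) ^ d) :
    ∃ δ₀ : ℝ, 0 < δ₀ ∧ ∀ (μ : ℕ) (ε : ℝ), 0 ≤ ε → ε * ((2 : ℝ) ^ μ) ^ d ≤ δ₀ →
      ∀ w : Cube n → E n → ℝ, (∀ Q, ∀ y ∈ Cube.set Q, 1 ≤ w Q y) →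
      (∀ Q y, -(ε * G (‖y - Cube.center Q‖ / (2 ^ μ * Cube.side Q))) ≤ w Q y) →
      ∀ T₀ : Finset (Cube n), ∃ (T : Finset (ℕ × Cube n)) (lam : ℕ × Cube n → ℝ),
        (∀ i ∈ T, 0 ≤ lam i) ∧
        (∀ Q ∈ T₀, ∀ y ∈ Cube.set Q, 1 ≤ ∑ i ∈ T, lam i * w i.2 y) ∧
        ∑ i ∈ T, lam i ^ p * Cube.side i.2 ^ d ≤ 18 * ∑ Q ∈ T₀, Cube.side Q ^ d := by
  obtain ⟨C, hC, hstep⟩ := step_lemma n d hd G hG0 hG hGs
  refine ⟨1 / (4 * C), by positivity, ?_⟩
  intro μ ε hε hεM w hw1 hw2 T₀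
  have step : ∀ (P : {P : Finset (Cube n) × (Cube n → ℝ) // ∀ Q ∈ P.1, 0 ≤ P.2 Q})
      (τ : {t : ℝ // 0 < t}),
      ∃ P' : {P : Finset (Cube n) × (Cube n → ℝ) // ∀ Q ∈ P.1, 0 ≤ P.2 Q},
        (∀ R ∈ P'.1.1, τ.1 ≤ P'.1.2 R) ∧
        (∀ R ∈ P'.1.1, ∃ Q ∈ P.1.1, Cube.side Q ≤ Cube.side R) ∧
        (∑ R ∈ P'.1.1, P'.1.2 R * Cube.side R ^ d ≤
          1 / 4 * ∑ Q ∈ P.1.1, P.1.2 Q * Cube.side Q ^ d) ∧
        ∀ y : E n, ∑ Q ∈ P.1.1, P.1.2 Q * (ε * G (‖y - Cube.center Q‖ / (2 ^ μ * Cube.side Q))) ≤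
          2 * τ.1 + ∑ R ∈ P'.1.1, if y ∈ Cube.set R then P'.1.2 R else 0 := by
    rintro ⟨⟨T, a⟩, hP⟩ ⟨τ, hτ⟩
    simp only at hP
    obtain ⟨T', a', h1, h2, h3, h4⟩ := hstep μ ε hε T a hP τ hτ
    refine ⟨⟨(T', a'), fun R hR => hτ.le.trans (h1 R hR)⟩, h1, h2, ?_, h4⟩
    refine h3.trans (mul_le_mul_of_nonneg_right ?_ ?_)
    · calc C * (ε * ((2 : ℝ) ^ μ) ^ d) ≤ C * (1 / (4 * C)) := mul_le_mul_of_nonneg_left hεM hC.le
        _ = 1 / 4 := by field_simp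
    · exact Finset.sum_nonneg fun Q hQ => mul_nonneg (hP Q hQ) (Real.rpow_nonneg (side_pos Q).le _)
  choose F hF1 hF2 hF3 hF4 using step
  let τ : ℕ → {t : ℝ // 0 < t} := fun k => ⟨(1 / 2) ^ (k + 4), by positivity⟩
  let P : ℕ → {P : Finset (Cube n) × (Cube n → ℝ) // ∀ Q ∈ P.1, 0 ≤ P.2 Q} := fun k =>
    Nat.rec ⟨(T₀, fun _ => 2), fun _ _ => zero_le_two⟩ (fun k P => F P (τ k)) k
  have hP1 : ∀ k, P (k + 1) = F (P k) (τ k) := fun k => rfl
  set A : ℕ → Finset (Cube n) := fun k => (P k).1.1 with hA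
  set a : ℕ → Cube n → ℝ := fun k => (P k).1.2 with ha
  have hA0 : A 0 = T₀ := rfl
  have ha0 : ∀ Q, a 0 Q = 2 := fun _ => rfl
  have hnn : ∀ k, ∀ Q ∈ A k, 0 ≤ a k Q := fun k => (P k).2
  set S0 := ∑ Q ∈ T₀, Cube.side Q ^ d with hS0
  have hS0nn : 0 ≤ S0 := Finset.sum_nonneg fun Q _ => Real.rpow_nonneg (side_pos Q).le _
  have hS : ∀ k, ∑ Q ∈ A k, a k Q * Cube.side Q ^ d ≤ (1 / 4) ^ k * (2 * S0) := by
    intro k
    induction k with
    | zero =>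
      rw [pow_zero, one_mul, hS0, Finset.mul_sum]
      exact le_rfl
    | succ k ih =>
      have h1 := hF3 (P k) (τ k)
      rw [← hP1] at h1
      calc _ ≤ 1 / 4 * ∑ Q ∈ A k, a k Q * Cube.side Q ^ d := h1
        _ ≤ 1 / 4 * ((1 / 4) ^ k * (2 * S0)) := by linarith
        _ = _ := by rw [pow_succ]; ring
  have hside : ∀ k, ∀ R ∈ A k, ∃ Q ∈ T₀, Cube.side Q ≤ Cube.side R := by
    intro k
    induction k with
    | zero => intro R hR; exact ⟨R, hR, le_rfl⟩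
    | succ k ih =>
      intro R hR
      obtain ⟨Q, hQ, hQR⟩ := hF2 (P k) (τ k) R hR
      obtain ⟨Q', hQ', hQQ'⟩ := ih Q hQ
      exact ⟨Q', hQ', hQQ'.trans hQR⟩
  have hlow : ∀ k, ∀ R ∈ A (k + 1), (1 / 2 : ℝ) ^ (k + 4) ≤ a (k + 1) R := fun k R hR =>
    hF1 (P k) (τ k) R hR
  -- the pointwise bound
  have hW : ∀ k (y : E n), (∑ Q ∈ A k, if y ∈ Cube.set Q then a k Q else 0) -
      2 * (1 / 2) ^ (k + 4) - (∑ Q ∈ A (k + 1), if y ∈ Cube.set Q then a (k + 1) Q else 0) ≤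
      ∑ Q ∈ A k, a k Q * w Q y := by
    intro k y
    have h1 := hF4 (P k) (τ k) y
    have h2 : (∑ Q ∈ A k, if y ∈ Cube.set Q then a k Q else 0) -
        ∑ Q ∈ A k, a k Q * (ε * G (‖y - Cube.center Q‖ / (2 ^ μ * Cube.side Q))) ≤
        ∑ Q ∈ A k, a k Q * w Q y := by
      rw [← Finset.sum_sub_distrib]
      refine Finset.sum_le_sum fun Q hQ => ?_
      have h3 := hnn k Q hQ
      have h4 : 0 ≤ ε * G (‖y - Cube.center Q‖ / (2 ^ μ * Cube.side Q)) :=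
        mul_nonneg hε (hG0 _)
      split_ifs with hy
      · have h5 := hw1 Q y hy
        nlinarith
      · have h5 := hw2 Q y
        nlinarith
    have h1' : ∑ Q ∈ A k, a k Q * (ε * G (‖y - Cube.center Q‖ / (2 ^ μ * Cube.side Q))) ≤
        2 * (1 / 2) ^ (k + 4) + ∑ R ∈ A (k + 1), if y ∈ Cube.set R then a (k + 1) R else 0 := h1
    linarith
  have htel : ∀ m (y : E n), (∑ Q ∈ A 0, if y ∈ Cube.set Q then a 0 Q else 0) -
      (1 / 4 - 1 / 4 * (1 / 2) ^ m) - (∑ Q ∈ A m, if y ∈ Cube.set Q then a m Q else 0) ≤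
      ∑ k ∈ Finset.range m, ∑ Q ∈ A k, a k Q * w Q y := by
    intro m y
    induction m with
    | zero => simp
    | succ m ih =>
      rw [Finset.sum_range_succ]
      have h1 := hW m y
      have h2 : (2 : ℝ) * (1 / 2) ^ (m + 4) = 1 / 8 * (1 / 2) ^ m := by rw [pow_add]; ring
      have h3 : (1 / 4 : ℝ) * (1 / 2) ^ (m + 1) = 1 / 8 * (1 / 2) ^ m := by rw [pow_succ]; ring
      rw [h2] at h1
      rw [h3]
      linarith
  -- the families become empty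
  obtain ⟨m, hm⟩ : ∃ m, A m = ∅ := by
    rcases T₀.eq_empty_or_nonempty with hT | hT
    · exact ⟨0, by rw [hA0, hT]⟩
    · obtain ⟨Q₁, hQ₁, hmin⟩ := T₀.exists_min_image Cube.side hT
      set ℓ := Cube.side Q₁ ^ d with hℓ
      have hℓ0 : 0 < ℓ := Real.rpow_pos_of_pos (side_pos Q₁) _
      obtain ⟨m, hm⟩ := exists_pow_lt_of_lt_one (show 0 < ℓ / (8 * S0 + 1) by positivity)
        (show (1 / 2 : ℝ) < 1 by norm_num)
      refine ⟨m + 1, ?_⟩
      by_contra hne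
      obtain ⟨R, hR⟩ := Finset.nonempty_iff_ne_empty.2 hne
      obtain ⟨Q, hQ, hQR⟩ := hside (m + 1) R hR
      have h1 : ℓ ≤ Cube.side R ^ d :=
        Real.rpow_le_rpow (side_pos Q₁).le ((hmin Q hQ).trans hQR) hd.le
      have h2 := hlow m R hR
      have h3 : (1 / 2 : ℝ) ^ (m + 4) * ℓ ≤ a (m + 1) R * Cube.side R ^ d :=
        mul_le_mul h2 h1 hℓ0.le (hnn (m + 1) R hR)
      have h4 : a (m + 1) R * Cube.side R ^ d ≤
          ∑ Q ∈ A (m + 1), a (m + 1) Q * Cube.side Q ^ d :=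
        Finset.single_le_sum (f := fun Q => a (m + 1) Q * Cube.side Q ^ d)
          (fun Q hQ => mul_nonneg (hnn (m + 1) Q hQ) (Real.rpow_nonneg (side_pos Q).le _)) hR
      have h5 := hS (m + 1)
      have h6 : (1 / 2 : ℝ) ^ (m + 4) = 1 / 16 * (1 / 2) ^ m := by rw [pow_add]; ring
      have h7 : (1 / 4 : ℝ) ^ (m + 1) = 1 / 4 * ((1 / 2) ^ m * (1 / 2) ^ m) := by
        rw [pow_succ, ← mul_pow]; norm_num; ring
      rw [h6] at h3
      rw [h7] at h5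
      set x := (1 / 2 : ℝ) ^ m with hx
      have hx0 : 0 < x := by positivity
      have h8 : 1 / 16 * x * ℓ ≤ 1 / 4 * (x * x) * (2 * S0) := by linarith
      have h9 : ℓ ≤ 8 * x * S0 := by
        have h10 : x * ℓ ≤ x * (8 * x * S0) := by nlinarith
        exact le_of_mul_le_mul_left h10 hx0
      rw [lt_div_iff₀ (by positivity)] at hm
      nlinarith
  -- the result
  set T : Finset (ℕ × Cube n) :=
    ((Finset.range m) ×ˢ ((Finset.range m).biUnion A)).filter (fun q => q.2 ∈ A q.1) with hT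
  have hTmem : ∀ q : ℕ × Cube n, q ∈ T ↔ q.1 ∈ Finset.range m ∧ q.2 ∈ A q.1 := by
    intro q
    rw [hT, Finset.mem_filter, Finset.mem_product, Finset.mem_biUnion]
    constructor
    · rintro ⟨⟨h1, -⟩, h2⟩; exact ⟨h1, h2⟩
    · rintro ⟨h1, h2⟩; exact ⟨⟨h1, q.1, h1, h2⟩, h2⟩
  refine ⟨T, fun q => a q.1 q.2, ?_, ?_, ?_⟩
  · intro q hq
    exact hnn q.1 q.2 ((hTmem q).1 hq).2
  · intro Q hQ y hy
    rw [Finset.sum_finset_product T (Finset.range m) A hTmem]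
    have h1 := htel m y
    have h2 : (2 : ℝ) ≤ ∑ Q ∈ A 0, if y ∈ Cube.set Q then a 0 Q else 0 := by
      have h3 := Finset.single_le_sum (s := A 0)
        (f := fun Q => if y ∈ Cube.set Q then a 0 Q else 0) (fun R hR => by
          split_ifs
          · exact hnn 0 R hR
          · exact le_rfl) (show Q ∈ A 0 from hQ)
      simp only [hy, if_true, ha0] at h3 ⊢
      exact h3
    rw [hm, Finset.sum_empty] at h1
    have h4 : (0 : ℝ) < (1 / 2) ^ m := by positivity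
    linarith
  · rw [Finset.sum_finset_product T (Finset.range m) A hTmem]
    simp only
    have hc0 : ∑ Q ∈ A 0, a 0 Q ^ p * Cube.side Q ^ d ≤ 2 * S0 := by
      rw [hS0, Finset.mul_sum]
      refine Finset.sum_le_sum fun Q _ => ?_
      rw [ha0]
      refine mul_le_mul_of_nonneg_right ?_ (Real.rpow_nonneg (side_pos Q).le _)
      calc (2 : ℝ) ^ p ≤ 2 ^ (1 : ℝ) := Real.rpow_le_rpow_of_exponent_le (by norm_num) hp1
        _ = 2 := Real.rpow_one 2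
    have hc1 : ∀ k, ∑ Q ∈ A (k + 1), a (k + 1) Q ^ p * Cube.side Q ^ d ≤
        8 * (1 / 2) ^ k * S0 := by
      intro k
      have h1 : ∑ Q ∈ A (k + 1), a (k + 1) Q ^ p * Cube.side Q ^ d ≤
          ((1 / 2 : ℝ) ^ (k + 4))⁻¹ * ∑ Q ∈ A (k + 1), a (k + 1) Q * Cube.side Q ^ d := by
        rw [Finset.mul_sum]
        refine Finset.sum_le_sum fun Q hQ => ?_
        have h2 := rpow_le_div (p := p) (show (0 : ℝ) < (1 / 2) ^ (k + 4) by positivity)
          (pow_le_one₀ (by norm_num) (by norm_num)) (hlow k Q hQ) hp hp1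
        have h3 : 0 ≤ Cube.side Q ^ d := Real.rpow_nonneg (side_pos Q).le _
        calc a (k + 1) Q ^ p * Cube.side Q ^ d
            ≤ a (k + 1) Q * ((1 / 2 : ℝ) ^ (k + 4))⁻¹ * Cube.side Q ^ d :=
              mul_le_mul_of_nonneg_right h2 h3
          _ = _ := by ring
      refine h1.trans ?_
      have h4 := hS (k + 1)
      have h5 : (0 : ℝ) < ((1 / 2 : ℝ) ^ (k + 4))⁻¹ := by positivity
      calc _ ≤ ((1 / 2 : ℝ) ^ (k + 4))⁻¹ * ((1 / 4) ^ (k + 1) * (2 * S0)) :=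
            mul_le_mul_of_nonneg_left h4 h5.le
        _ = 8 * (1 / 2) ^ k * S0 := by
            have h6 : (1 / 4 : ℝ) ^ (k + 1) = 1 / 4 * ((1 / 2) ^ k * (1 / 2) ^ k) := by
              rw [pow_succ, ← mul_pow]; norm_num; ring
            have h7 : (1 / 2 : ℝ) ^ (k + 4) = 1 / 16 * (1 / 2) ^ k := by rw [pow_add]; ring
            have h8 : (0 : ℝ) < (1 / 2) ^ k := by positivity
            rw [h6, h7]
            field_simp
            ring
    have htot : ∀ m, ∑ k ∈ Finset.range (m + 1), ∑ Q ∈ A k, a k Q ^ p * Cube.side Q ^ d ≤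
        (18 - 16 * (1 / 2) ^ m) * S0 := by
      intro m
      induction m with
      | zero =>
        simp only [zero_add, Finset.sum_range_one, pow_zero]
        linarith
      | succ m ih =>
        rw [Finset.sum_range_succ]
        have h1 := hc1 m
        have h2 : (1 / 2 : ℝ) ^ (m + 1) = 1 / 2 * (1 / 2) ^ m := by rw [pow_succ]; ring
        rw [h2]
        nlinarith
    rcases Nat.eq_zero_or_pos m with h0 | h0
    · rw [h0, Finset.range_zero, Finset.sum_empty]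
      positivity
    · obtain ⟨m', rfl⟩ : ∃ m', m = m' + 1 := ⟨m - 1, by omega⟩
      refine (htot m').trans ?_
      have h1 : (0 : ℝ) < (1 / 2) ^ m' := by positivity
      nlinarith

end Pool.Agent.Helper656.Cap
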