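import Pool.Agent.Helper656.CapFourier

open MeasureTheory SchwartzMap
open scoped ENNReal NNReal FourierTransform SchwartzMap RealInnerProductSpace

namespace Pool.Agent.Helper656.Cap

variable {n : ℕ}

/-- TARGET -/
theorem pairing_small (N L : ℕ) (hN : L + n + 1 ≤ N) (f : 𝓢(E n, ℂ)) :
    ∃ C : ℝ, 0 < C ∧ ∀ (x : E n) (t : ℝ), 0 < t → t ≤ 1 → ∀ ψ : 𝓢(E n, ℂ), Adapted N x t ψ →
      ‖∫ y, f y * ψ y‖ ≤ C / (1 + ‖x‖) ^ L := by
  obtain ⟨C1, hC1, hf⟩ : ∃ C1 : ℝ, 0 < C1 ∧ ∀ y, (1 + ‖y‖) ^ L * ‖f y‖ ≤ C1 := by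
    refine ⟨2 ^ L * (Finset.Iic (L, 0)).sup (fun m => SchwartzMap.seminorm ℝ m.1 m.2) f + 1,
      by positivity, fun y => ?_⟩
    have h := one_add_le_sup_seminorm_apply (𝕜 := ℝ) (m := (L, 0)) (k := L) (n := 0)
      le_rfl le_rfl f y
    rw [norm_iteratedFDeriv_zero] at h
    linarith
  have hint : Integrable (fun z : E n => (1 + ‖z‖) ^ (-((n : ℝ) + 1))) := by
    apply integrable_one_add_norm
    rw [finrank_euclideanSpace_fin]
    linarith
  set I : ℝ := ∫ z : E n, (1 + ‖z‖) ^ (-((n : ℝ) + 1)) with hI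
  have hI0 : 0 ≤ I := integral_nonneg fun z => by positivity
  refine ⟨C1 * 2 ^ (L + n + 2) * I + 1, by positivity, ?_⟩
  intro x t ht ht1 ψ hψ
  have key : ∀ y, ‖f y * ψ y‖ ≤ (C1 * 2 ^ (L + n + 2) / (1 + ‖x‖) ^ L) *
      ((t ^ n)⁻¹ * (1 + ‖t⁻¹ • (y - x)‖) ^ (-((n : ℝ) + 1))) := by
    intro y
    have hs : ‖t⁻¹ • (y - x)‖ = ‖y - x‖ / t := by
      rw [norm_smul, norm_inv, Real.norm_of_nonneg ht.le, inv_mul_eq_div]
    rw [hs]
    set s := ‖y - x‖ / t with hsdef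
    have hs0 : 0 ≤ s := by positivity
    set A := t ^ n * ‖ψ y‖ with hA
    have hA0 : 0 ≤ A := by positivity
    have hk : ∀ k ≤ N, s ^ k * A ≤ 1 := by
      intro k hk
      have := hψ k hk 0 (Nat.zero_le _) y
      rwa [norm_iteratedFDeriv_zero, add_zero] at this
    have hA1 : A ≤ 1 := by simpa using hk 0 (Nat.zero_le _)
    have hAm : s ^ (L + n + 1) * A ≤ 1 := hk _ hN
    have hm : (1 + s) ^ (L + n + 1) * A ≤ 2 ^ (L + n + 2) := by
      have h1 : (1 + s) ^ (L + n + 1) ≤ 2 ^ (L + n + 1) * (1 + s ^ (L + n + 1)) := by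
        rcases le_total s 1 with h | h
        · calc (1 + s) ^ (L + n + 1) ≤ 2 ^ (L + n + 1) := by
                apply pow_le_pow_left₀ (by positivity); linarith
            _ ≤ _ := by
                have : 0 ≤ s ^ (L + n + 1) := by positivity
                have h2 : (0 : ℝ) < 2 ^ (L + n + 1) := by positivity
                nlinarith
        · calc (1 + s) ^ (L + n + 1) ≤ (2 * s) ^ (L + n + 1) := by
                apply pow_le_pow_left₀ (by positivity); linarith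
            _ = 2 ^ (L + n + 1) * s ^ (L + n + 1) := mul_pow _ _ _
            _ ≤ _ := by gcongr; linarith
      calc (1 + s) ^ (L + n + 1) * A ≤ 2 ^ (L + n + 1) * (1 + s ^ (L + n + 1)) * A := by gcongr
        _ = 2 ^ (L + n + 1) * (A + s ^ (L + n + 1) * A) := by ring
        _ ≤ 2 ^ (L + n + 1) * (1 + 1) := by gcongr
        _ = 2 ^ (L + n + 2) := by ring
    have hP : (1 + ‖x‖) ^ L ≤ (1 + ‖y‖) ^ L * (1 + s) ^ L := by
      rw [← mul_pow]
      apply pow_le_pow_left₀ (by positivity)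
      have h1 : ‖x‖ ≤ ‖y‖ + ‖y - x‖ := by
        calc ‖x‖ = ‖y - (y - x)‖ := by congr 1; abel
          _ ≤ _ := norm_sub_le _ _
      have h2 : ‖y - x‖ ≤ s := by
        rw [hsdef, le_div_iff₀ ht]
        nlinarith [norm_nonneg (y - x)]
      nlinarith [norm_nonneg y, norm_nonneg (y - x)]
    have hrp : (1 + s) ^ (-((n : ℝ) + 1)) = ((1 + s) ^ (n + 1))⁻¹ := by
      rw [Real.rpow_neg (by positivity), ← Real.rpow_natCast]
      push_cast
      rfl
    rw [hrp, norm_mul]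
    have htn : 0 < t ^ n := by positivity
    have hψA : ‖ψ y‖ = (t ^ n)⁻¹ * A := by
      rw [hA, ← mul_assoc, inv_mul_cancel₀ htn.ne', one_mul]
    have hx0 : 0 < (1 + ‖x‖) ^ L := by positivity
    have hs1 : 0 < (1 + s) ^ (n + 1) := by positivity
    rw [hψA]
    have hmain : ‖f y‖ * A * (1 + ‖x‖) ^ L * (1 + s) ^ (n + 1) ≤ C1 * 2 ^ (L + n + 2) := by
      calc ‖f y‖ * A * (1 + ‖x‖) ^ L * (1 + s) ^ (n + 1)
          ≤ ‖f y‖ * A * ((1 + ‖y‖) ^ L * (1 + s) ^ L) * (1 + s) ^ (n + 1) := by gcongr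
        _ = ((1 + ‖y‖) ^ L * ‖f y‖) * ((1 + s) ^ (L + n + 1) * A) := by ring
        _ ≤ C1 * 2 ^ (L + n + 2) := by
            apply mul_le_mul (hf y) hm (by positivity) hC1.le
    calc ‖f y‖ * ((t ^ n)⁻¹ * A) = (t ^ n)⁻¹ * ((‖f y‖ * A * (1 + ‖x‖) ^ L * (1 + s) ^ (n + 1)) /
          ((1 + ‖x‖) ^ L * (1 + s) ^ (n + 1))) := by
            field_simp
      _ ≤ (t ^ n)⁻¹ * ((C1 * 2 ^ (L + n + 2)) / ((1 + ‖x‖) ^ L * (1 + s) ^ (n + 1))) := by
            gcongr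
      _ = _ := by field_simp
  have hint2 : Integrable (fun y : E n => (1 + ‖t⁻¹ • (y - x)‖) ^ (-((n : ℝ) + 1))) := by
    have h1 := hint.comp_smul (inv_pos.2 ht).ne'
    exact h1.comp_sub_right x
  have hval : ∫ y : E n, (1 + ‖t⁻¹ • (y - x)‖) ^ (-((n : ℝ) + 1)) = t ^ n * I := by
    rw [integral_sub_right_eq_self (fun y : E n => (1 + ‖t⁻¹ • y‖) ^ (-((n : ℝ) + 1))) x]
    rw [Measure.integral_comp_inv_smul_of_nonneg (volume : Measure (E n))
      (fun z : E n => (1 + ‖z‖) ^ (-((n : ℝ) + 1))) ht.le]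
    rw [finrank_euclideanSpace_fin, smul_eq_mul]
  calc ‖∫ y, f y * ψ y‖ ≤ ∫ y, (C1 * 2 ^ (L + n + 2) / (1 + ‖x‖) ^ L) *
      ((t ^ n)⁻¹ * (1 + ‖t⁻¹ • (y - x)‖) ^ (-((n : ℝ) + 1))) := by
        apply norm_integral_le_of_norm_le
        · exact (hint2.const_mul _).const_mul _
        · exact Filter.Eventually.of_forall key
    _ = (C1 * 2 ^ (L + n + 2) / (1 + ‖x‖) ^ L) * I := by
        rw [integral_const_mul, integral_const_mul, hval, ← mul_assoc (t ^ n)⁻¹,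
          inv_mul_cancel₀ (by positivity), one_mul]
    _ ≤ _ := by
        rw [div_mul_eq_mul_div]
        gcongr
        linarith

end Pool.Agent.Helper656.Cap
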