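import Pool.Agent.Helper656.CapBlock
import Pool.Agent.Helper656.CapHardy
import Pool.Agent.Helper656.CapPairSmall
import Pool.Agent.Helper656.CapPairLarge
import Pool.Agent.Helper656.CapIter
import Pool.Agent.Helper656.CapCover

open MeasureTheory SchwartzMap
open scoped ENNReal NNReal FourierTransform SchwartzMap RealInnerProductSpace

namespace Pool.Agent.Helper656.Cap

variable {n : ℕ}

theorem pairing_bound (N L J : ℕ) (h1 : L + n + 1 ≤ N) (h2 : 2 * J ≤ N) (h3 : L ≤ n + 2 * J)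
    (η f : 𝓢(E n, ℂ)) (hf : ∀ ξ, 𝓕 η ξ = ((‖ξ‖ ^ (2 * J) : ℝ) : ℂ) * 𝓕 f ξ) :
    ∃ C : ℝ, 0 < C ∧ ∀ (x : E n) (t : ℝ), 0 < t → ∀ ψ : 𝓢(E n, ℂ), Adapted N x t ψ →
      ‖∫ y, η y * ψ y‖ ≤ C / (1 + ‖x‖) ^ L := by
  obtain ⟨C1, hC1, H1⟩ := pairing_small (n := n) N L h1 η
  obtain ⟨C2, hC2, H2⟩ := pairing_large (n := n) N L J h2 (by omega) h3 f
  refine ⟨max C1 C2, lt_max_of_lt_left hC1, fun x t ht ψ hψ => ?_⟩
  rcases le_total t 1 with h | h
  · refine (H1 x t ht h ψ hψ).trans ?_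
    gcongr
    exact le_max_left _ _
  · have e : ∫ y, η y * ψ y = ∫ ξ, ((‖ξ‖ ^ (2 * J) : ℝ) : ℂ) * 𝓕 f ξ * 𝓕⁻ ψ ξ := by
      have := SchwartzMap.integral_fourier_mul_eq η (𝓕⁻ ψ)
      rw [FourierTransform.fourier_fourierInv_eq] at this
      rw [← this]
      refine integral_congr_ae (Filter.Eventually.of_forall fun ξ => ?_)
      simp only
      rw [hf]
    rw [e]
    refine (H2 x t h ψ hψ).trans ?_
    gcongr
    exact le_max_right _ _

/-- the tempered distribution given by a Schwartz function -/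
noncomputable def toDist (f : 𝓢(E n, ℂ)) : 𝓢'(E n, ℂ) :=
  SchwartzMap.toTemperedDistributionCLM (E n) ℂ volume f

theorem toDist_apply (f ψ : 𝓢(E n, ℂ)) : toDist f ψ = ∫ y, ψ y * f y := by
  simp [toDist, SchwartzMap.toTemperedDistributionCLM_apply_apply]

theorem fourier_toDist (f φ : 𝓢(E n, ℂ)) : (𝓕 (toDist f)) φ = ∫ ξ, 𝓕 f ξ * φ ξ := by
  rw [TemperedDistribution.fourier_apply, toDist_apply, SchwartzMap.integral_fourier_mul_eq]
  refine integral_congr_ae (Filter.Eventually.of_forall fun ξ => ?_)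
  simp only
  rw [mul_comm]

theorem schwartz_poly (f : 𝓢(E n, ℂ)) : ∃ (k : ℕ) (C : ℝ), ∀ ξ, ‖f ξ‖ ≤ C * (1 + ‖ξ‖) ^ k := by
  refine ⟨0, SchwartzMap.seminorm ℝ 0 0 f, fun ξ => ?_⟩
  rw [pow_zero, mul_one]
  exact SchwartzMap.norm_le_seminorm ℝ f ξ

/-- a pair of Schwartz functions related by the multiplier -/
theorem isRieszPotential_toDist (hn : 1 ≤ n) {α : ℝ} (h u : 𝓢(E n, ℂ))
    (hu : ∀ ξ, 𝓕 h ξ = ((‖ξ‖ ^ α : ℝ) : ℂ) * 𝓕 u ξ) :
    IsRieszPotential α (toDist h) (toDist u) := by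
  have : Nonempty (Fin n) := ⟨⟨0, hn⟩⟩
  have h0 : ∀ᵐ ξ : E n, ξ ≠ 0 := by
    rw [ae_iff]
    simp
  have key : ∀ ξ : E n, ξ ≠ 0 → ((‖ξ‖ ^ (-α) : ℝ) : ℂ) * 𝓕 h ξ = 𝓕 u ξ := by
    intro ξ hξ
    rw [hu, ← mul_assoc, ← Complex.ofReal_mul, ← Real.rpow_add (norm_pos_iff.2 hξ),
      neg_add_cancel, Real.rpow_zero, Complex.ofReal_one, one_mul]
  refine ⟨fun ξ => 𝓕 h ξ, (𝓕 h).continuous, schwartz_poly _, ?_, fourier_toDist h, ?_⟩
  · have : LocallyIntegrable (fun ξ => 𝓕 u ξ) (volume : Measure (E n)) :=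
      (𝓕 u).integrable.locallyIntegrable
    refine this.congr ?_
    filter_upwards [h0] with ξ hξ
    rw [key ξ hξ]
  · intro φ
    rw [fourier_toDist]
    refine integral_congr_ae ?_
    filter_upwards [h0] with ξ hξ
    rw [key ξ hξ]

/-- finite combinations of dilates -/
noncomputable def comb (T : Finset (ℕ × Cube n)) (a : ℕ × Cube n → ℝ) (f : 𝓢(E n, ℂ)) :
    𝓢(E n, ℂ) :=
  ∑ i ∈ T, ((a i : ℝ) : ℂ) • dil (Cube.center i.2) (Cube.side i.2) (side_pos i.2) f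

theorem comb_apply (T : Finset (ℕ × Cube n)) (a : ℕ × Cube n → ℝ) (f : 𝓢(E n, ℂ)) (y : E n) :
    comb T a f y = ∑ i ∈ T, ((a i : ℝ) : ℂ) *
      dil (Cube.center i.2) (Cube.side i.2) (side_pos i.2) f y := by
  simp [comb]

theorem fourier_comb (T : Finset (ℕ × Cube n)) (a : ℕ × Cube n → ℝ) (f : 𝓢(E n, ℂ)) (ξ : E n) :
    𝓕 (comb T a f) ξ = ∑ i ∈ T, ((a i : ℝ) : ℂ) *
      (Complex.exp (-(2 * Real.pi * ⟪Cube.center i.2, ξ⟫ * Complex.I)) *
        𝓕 f (Cube.side i.2 • ξ)) := by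
  have h1 : 𝓕 (comb T a f) = ∑ i ∈ T, ((a i : ℝ) : ℂ) •
      𝓕 (dil (Cube.center i.2) (Cube.side i.2) (side_pos i.2) f) := by
    simp [comb]
  rw [h1, sum_apply]
  refine Finset.sum_congr rfl fun i _ => ?_
  rw [smul_apply, fourier_dil, smul_eq_mul]

theorem summable_profile {d : ℝ} {L : ℕ} (hLd : d < L) :
    Summable fun i : ℕ => (1 / (1 + |(2 : ℝ) ^ i|) ^ L) * ((2 : ℝ) ^ i) ^ d := by
  have h1 : Summable fun i : ℕ => ((2 : ℝ) ^ (d - L)) ^ i := by
    apply summable_geometric_of_lt_one (by positivity)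
    exact Real.rpow_lt_one_of_one_lt_of_neg one_lt_two (by linarith)
  refine Summable.of_nonneg_of_le (fun i => by positivity) (fun i => ?_) h1
  have h2 : (0 : ℝ) < 2 ^ i := by positivity
  have h3 : ((2 : ℝ) ^ (d - L)) ^ i = ((2 : ℝ) ^ i) ^ d / ((2 : ℝ) ^ i) ^ L := by
    rw [← Real.rpow_natCast ((2 : ℝ) ^ (d - L)), ← Real.rpow_mul (by norm_num),
      ← Real.rpow_natCast ((2 : ℝ) ^ i) L, ← Real.rpow_natCast (2 : ℝ) i,
      ← Real.rpow_mul (by norm_num), ← Real.rpow_mul (by norm_num), ← Real.rpow_sub (by norm_num)]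
    congr 1
    ring
  rw [h3, abs_of_pos h2, div_mul_eq_mul_div, one_mul]
  gcongr
  linarith

theorem cap_le_content (hn : 1 ≤ n) (α p : ℝ) (hα : 0 < α) (hp : 0 < p) (hp1 : p ≤ 1)
    (hαp : α * p < n) : ∃ N₀ : ℕ, ∀ N ≥ N₀, ∃ C : ℝ≥0, ∀ K : Set (E n), IsCompact K →
      rieszCap N α p K ≤ C * hausdorffContent (n - α * p) K := by
  set d : ℝ := n - α * p with hd
  have hd0 : 0 < d := by linarith
  obtain ⟨L, hL⟩ := exists_nat_gt ((n : ℝ) / p)
  have hLp : (n : ℝ) < L * p := by rwa [div_lt_iff₀ hp] at hL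
  have hLd : d < L := by
    have h1 : (n : ℝ) ≤ n / p := by
      rw [le_div_iff₀ hp]
      have : (0 : ℝ) ≤ n := Nat.cast_nonneg n
      nlinarith
    have h2 : 0 < α * p := by positivity
    linarith
  obtain ⟨A, M₀, hA, hM₀, hblock⟩ := exists_block hn α hα L
  obtain ⟨δ₀, hδ₀, hW⟩ := exists_weights n d p hd0 hp hp1 (fun s => 1 / (1 + |s|) ^ L)
    (fun s => by positivity)
    (fun s t hs hst => by
      rw [abs_of_nonneg hs, abs_of_nonneg (hs.trans hst)]
      gcongr) (summable_profile hLd)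
  obtain ⟨μ, hμ1, hμ2⟩ : ∃ μ : ℕ, M₀ ≤ 2 ^ μ ∧ A / (2 ^ μ) ^ n * ((2 : ℝ) ^ μ) ^ d ≤ δ₀ := by
    have h1 : Filter.Tendsto (fun μ : ℕ => (2 : ℝ) ^ μ) Filter.atTop Filter.atTop :=
      tendsto_pow_atTop_atTop_of_one_lt one_lt_two
    have h2 : Filter.Tendsto (fun μ : ℕ => A * ((2 : ℝ) ^ μ) ^ (-(α * p))) Filter.atTop
        (nhds (A * 0)) :=
      ((tendsto_rpow_neg_atTop (by positivity)).comp h1).const_mul A
    rw [mul_zero] at h2
    obtain ⟨μ, h3, h4⟩ := ((h1.eventually_ge_atTop M₀).and (h2.eventually_le_const hδ₀)).exists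
    refine ⟨μ, h3, le_trans (le_of_eq ?_) h4⟩
    have h5 : (0 : ℝ) < 2 ^ μ := by positivity
    rw [div_mul_eq_mul_div, mul_div_assoc, ← Real.rpow_natCast _ n, ← Real.rpow_sub h5, hd]
    congr 2
    ring
  obtain ⟨w, η, ω, hwω, hω1, hω2, hηw, hηf⟩ := hblock (2 ^ μ) hμ1
  refine ⟨L + n + 1 + 2 * L, fun N hN => ?_⟩
  obtain ⟨f, hf⟩ := hηf L
  obtain ⟨Cη, hCη, hη⟩ := pairing_bound N L L (by omega) (by omega) (by omega) η f hf
  obtain ⟨C', hC'⟩ := hardy_block N L α p hp hp1 hLp η Cη hCη hη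
  obtain ⟨Cc, hCc⟩ := exists_cubes (n := n) d hd0
  refine ⟨C' * 18 * Cc + 1, fun K hK => ?_⟩
  refine le_of_forall_gt_imp_ge_of_dense fun c hc => ?_
  set C : ℝ≥0 := C' * 18 * Cc + 1 with hC
  have hCpos : (C : ℝ≥0∞) ≠ 0 := by simp [hC]
  have hB : hausdorffContent d K < c / C := by
    rw [ENNReal.lt_div_iff_mul_lt (Or.inl hCpos) (Or.inl ENNReal.coe_ne_top), mul_comm]
    exact hc
  obtain ⟨T₀, Ω, hΩ, hKΩ, hcov, hcost⟩ := hCc K hK (c / C) hB
  have hM : (0 : ℝ) < 2 ^ μ := by positivity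
  obtain ⟨T, lam, hlam, hge, hsum⟩ := hW μ (A / (2 ^ μ) ^ n) (by positivity) hμ2
    (fun Q y => ω ((Cube.side Q)⁻¹ • (y - Cube.center Q)))
    (by
      intro Q y hy
      apply hω1
      have h1 := Cube.norm_sub_center_le Q y hy
      rw [norm_smul, norm_inv, Real.norm_of_nonneg (side_pos Q).le, inv_mul_le_iff₀ (side_pos Q)]
      rwa [mul_comm])
    (by
      intro Q y
      refine le_trans (le_of_eq ?_) (hω2 _)
      rw [norm_smul, norm_inv, Real.norm_of_nonneg (side_pos Q).le]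
      have h1 : ‖y - Cube.center Q‖ / (2 ^ μ * Cube.side Q) =
        (Cube.side Q)⁻¹ * ‖y - Cube.center Q‖ / 2 ^ μ := by
        have := (side_pos Q).ne'
        field_simp
      have h2 : 0 ≤ (Cube.side Q)⁻¹ * ‖y - Cube.center Q‖ / 2 ^ μ := by
        have := side_pos Q
        positivity
      rw [h1, abs_of_nonneg h2, mul_one_div]) T₀
  set hS : 𝓢(E n, ℂ) := comb T (fun i => lam i * Cube.side i.2 ^ ((n : ℝ) - α)) η with hhS
  set uS : 𝓢(E n, ℂ) := comb T (fun i => lam i * Cube.side i.2 ^ n) w with huS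
  have hcomp : IsCompetitor α K (toDist hS) := by
    refine ⟨toDist uS, uS, Ω, isRieszPotential_toDist hn hS uS ?_, uS.integrable.locallyIntegrable,
      fun φ _ => ?_, hΩ, hKΩ, Filter.Eventually.of_forall fun y hy => ?_⟩
    · intro ξ
      rw [hhS, huS, fourier_comb, fourier_comb, Finset.mul_sum]
      refine Finset.sum_congr rfl fun i _ => ?_
      rw [hηw, norm_smul, Real.norm_of_nonneg (side_pos i.2).le,
        Real.mul_rpow (side_pos i.2).le (norm_nonneg _), Real.rpow_sub (side_pos i.2),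
        Real.rpow_natCast]
      have h1 : ((Cube.side i.2 ^ α : ℝ) : ℂ) ≠ 0 := by
        exact_mod_cast (Real.rpow_pos_of_pos (side_pos i.2) α).ne'
      push_cast
      field_simp
    · rw [toDist_apply]
      refine integral_congr_ae (Filter.Eventually.of_forall fun y => ?_)
      simp only
      rw [mul_comm]
    · refine ⟨∑ i ∈ T, lam i * ω ((Cube.side i.2)⁻¹ • (y - Cube.center i.2)), ?_, ?_⟩
      · obtain ⟨Q, hQ, hyQ⟩ := hcov y hy
        exact hge Q hQ y hyQ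
      · rw [huS, comb_apply]
        push_cast
        refine Finset.sum_congr rfl fun i _ => ?_
        rw [dil_apply, hwω]
        have h1 : ((Cube.side i.2 : ℝ) : ℂ) ≠ 0 := by exact_mod_cast (side_pos i.2).ne'
        have h2 : ((Cube.side i.2 : ℝ) : ℂ) ^ n * (((Cube.side i.2)⁻¹ : ℝ) : ℂ) ^ n = 1 := by
          rw [← mul_pow, Complex.ofReal_inv, mul_inv_cancel₀ h1, one_pow]
        calc _ = ((lam i : ℝ) : ℂ) * (((Cube.side i.2 : ℝ) : ℂ) ^ n *
              (((Cube.side i.2)⁻¹ : ℝ) : ℂ) ^ n) *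
              ((ω ((Cube.side i.2)⁻¹ • (y - Cube.center i.2)) : ℝ) : ℂ) := by
              push_cast
              ring
          _ = _ := by rw [h2, mul_one]
  have hnorm := hC' (ℕ × Cube n) T (fun i => Cube.center i.2) (fun i => Cube.side i.2)
    (fun i => side_pos i.2) lam hlam (toDist hS) (by
      intro ψ
      rw [toDist_apply, hhS]
      simp only [comb_apply]
      simp only [Finset.mul_sum]
      rw [integral_finsetSum]
      · refine Finset.sum_congr rfl fun i _ => ?_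
        rw [← integral_const_mul]
        refine integral_congr_ae (Filter.Eventually.of_forall fun y => ?_)
        simp only
        ring
      · intro i _
        have h1 : Integrable (fun y => (((lam i * Cube.side i.2 ^ ((n : ℝ) - α) : ℝ)) : ℂ) *
            (ψ y * dil (Cube.center i.2) (Cube.side i.2) (side_pos i.2) η y)) := by
          refine Integrable.const_mul ?_ _
          exact (SchwartzMap.pairing (ContinuousLinearMap.mul ℂ ℂ) ψ
            (dil (Cube.center i.2) (Cube.side i.2) (side_pos i.2) η)).integrable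
        refine h1.congr (Filter.Eventually.of_forall fun y => ?_)
        simp only
        ring)
  calc rieszCap N α p K ≤ hardyPow N p (toDist hS) := iInf₂_le (toDist hS) hcomp
    _ ≤ C' * ENNReal.ofReal (∑ i ∈ T, lam i ^ p * Cube.side i.2 ^ ((n : ℝ) - α * p)) := hnorm
    _ ≤ C' * ENNReal.ofReal (18 * ∑ Q ∈ T₀, Cube.side Q ^ d) := by
        gcongr
    _ = C' * (18 * ENNReal.ofReal (∑ Q ∈ T₀, Cube.side Q ^ d)) := by
        rw [ENNReal.ofReal_mul (by norm_num), ENNReal.ofReal_ofNat]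
    _ ≤ C' * (18 * (Cc * (c / C))) := by gcongr
    _ = ((C' * 18 * Cc : ℝ≥0) : ℝ≥0∞) * (c / C) := by
        push_cast
        ring
    _ ≤ C * (c / C) := by
        gcongr
        rw [hC]
        simp
    _ = c := ENNReal.mul_div_cancel hCpos ENNReal.coe_ne_top

end Pool.Agent.Helper656.Cap
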