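import Pool.Agent.Helper656.BesBlock
import Pool.Agent.Helper656.BesWeights
import Pool.Agent.Helper656.CapCover
import Pool.Agent.Helper656.CapUpper

open MeasureTheory SchwartzMap
open scoped ENNReal NNReal FourierTransform SchwartzMap RealInnerProductSpace

namespace Pool.Agent.Helper656.Cap

variable {n : ℕ}

theorem exists_setup (hn : 1 ≤ n) (α p : ℝ) (hα : 0 < α) (hp : 0 < p) (hp1 : p ≤ 1)
    (hαp : α * p < n) :
    ∃ (L : ℕ) (w : 𝓢(E n, ℂ)) (ω : E n → ℝ) (δ : ℝ), (n : ℝ) < L * p ∧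
      (∀ y, w y = ((ω y : ℝ) : ℂ)) ∧ 0 < δ ∧ (∀ ξ, ‖ξ‖ ≤ δ → 𝓕 w ξ = 0) ∧
      HasCompactSupport (𝓕 w : 𝓢(E n, ℂ)) ∧
      ∀ T₀ : Finset (Cube n), 36 * ∑ Q ∈ T₀, Cube.side Q ^ ((n : ℝ) - α * p) ≤ 1 →
        ∃ (T : Finset (ℕ × Cube n)) (lam : ℕ × Cube n → ℝ),
        (∀ i ∈ T, 0 ≤ lam i) ∧ (∀ i ∈ T, Cube.side i.2 ≤ 1) ∧
        (∀ Q ∈ T₀, ∀ y ∈ Cube.set Q,
          1 ≤ ∑ i ∈ T, lam i * ω ((Cube.side i.2)⁻¹ • (y - Cube.center i.2))) ∧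
        ∑ i ∈ T, lam i ^ p * Cube.side i.2 ^ ((n : ℝ) - α * p) ≤
          36 * ∑ Q ∈ T₀, Cube.side Q ^ ((n : ℝ) - α * p) := by
  set d : ℝ := n - α * p with hd
  have hd0 : 0 < d := by linarith
  obtain ⟨L, hL⟩ := exists_nat_gt ((n : ℝ) / p)
  have hLp : (n : ℝ) < L * p := by rwa [div_lt_iff₀ hp] at hL
  have hLd : d < L := by
    have h1 : (n : ℝ) ≤ n / p := by
      rw [le_div_iff₀ hp]
      have : (0 : ℝ) ≤ n := Nat.cast_nonneg n
      nlinarith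
    have h2 : 0 < α * p := by positivity
    linarith
  obtain ⟨A, M₀, hA, hM₀, hblock⟩ := exists_block_annulus hn L
  obtain ⟨δ₀, hδ₀, hW⟩ := exists_weights_small n d p hd0 hp hp1 (fun s => 1 / (1 + |s|) ^ L)
    (fun s => by positivity)
    (fun s t hs hst => by
      rw [abs_of_nonneg hs, abs_of_nonneg (hs.trans hst)]
      gcongr) (summable_profile hLd)
  obtain ⟨μ, hμ1, hμ2⟩ : ∃ μ : ℕ, M₀ ≤ 2 ^ μ ∧ A / (2 ^ μ) ^ n * ((2 : ℝ) ^ μ) ^ d ≤ δ₀ := by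
    have h1 : Filter.Tendsto (fun μ : ℕ => (2 : ℝ) ^ μ) Filter.atTop Filter.atTop :=
      tendsto_pow_atTop_atTop_of_one_lt one_lt_two
    have h2 : Filter.Tendsto (fun μ : ℕ => A * ((2 : ℝ) ^ μ) ^ (-(α * p))) Filter.atTop
        (nhds (A * 0)) :=
      ((tendsto_rpow_neg_atTop (by positivity)).comp h1).const_mul A
    rw [mul_zero] at h2
    obtain ⟨μ, h3, h4⟩ := ((h1.eventually_ge_atTop M₀).and (h2.eventually_le_const hδ₀)).exists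
    refine ⟨μ, h3, le_trans (le_of_eq ?_) h4⟩
    have h5 : (0 : ℝ) < 2 ^ μ := by positivity
    rw [div_mul_eq_mul_div, mul_div_assoc, ← Real.rpow_natCast _ n, ← Real.rpow_sub h5, hd]
    congr 2
    ring
  obtain ⟨w, ω, hwω, hω1, hω2, hwc, hw0⟩ := hblock (2 ^ μ) hμ1
  have hM : (0 : ℝ) < 2 ^ μ := by positivity
  refine ⟨L, w, ω, ((2 : ℝ) ^ μ)⁻¹, hLp, hwω, by positivity, hw0, hwc, fun T₀ hT₀ => ?_⟩
  obtain ⟨T, lam, h1, h2, h3, h4⟩ := hW μ (A / (2 ^ μ) ^ n) (by positivity) hμ2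
    (fun Q y => ω ((Cube.side Q)⁻¹ • (y - Cube.center Q)))
    (by
      intro Q _ y hy
      apply hω1
      have h1 := Cube.norm_sub_center_le Q y hy
      rw [norm_smul, norm_inv, Real.norm_of_nonneg (side_pos Q).le, inv_mul_le_iff₀ (side_pos Q)]
      rwa [mul_comm])
    (by
      intro Q _ y
      refine le_trans (le_of_eq ?_) (hω2 _)
      rw [norm_smul, norm_inv, Real.norm_of_nonneg (side_pos Q).le]
      have h1 : ‖y - Cube.center Q‖ / (2 ^ μ * Cube.side Q) =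
        (Cube.side Q)⁻¹ * ‖y - Cube.center Q‖ / 2 ^ μ := by
        have := (side_pos Q).ne'
        field_simp
      have h2 : 0 ≤ (Cube.side Q)⁻¹ * ‖y - Cube.center Q‖ / 2 ^ μ := by
        have := side_pos Q
        positivity
      rw [h1, abs_of_nonneg h2, mul_one_div]) T₀ hT₀
  exact ⟨T, lam, h1, h2, h3, h4⟩

/-- covers by cubes of small total size -/
theorem exists_small_cubes {d : ℝ} (hd : 0 < d) (K : Set (E n)) (hK : IsCompact K)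
    (h0 : hausdorffContent d K = 0) (ε : ℝ) (hε : 0 < ε) :
    ∃ (T : Finset (Cube n)) (Ω : Set (E n)), IsOpen Ω ∧ K ⊆ Ω ∧
      (∀ y ∈ Ω, ∃ Q ∈ T, y ∈ Cube.set Q) ∧ ∑ Q ∈ T, Cube.side Q ^ d ≤ ε := by
  obtain ⟨C, hC⟩ := exists_cubes (n := n) d hd
  have hB : (0 : ℝ≥0∞) < ENNReal.ofReal (ε / (C + 1)) := by
    rw [ENNReal.ofReal_pos]; positivity
  obtain ⟨T, Ω, h1, h2, h3, h4⟩ := hC K hK (ENNReal.ofReal (ε / (C + 1))) (by rw [h0]; exact hB)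
  refine ⟨T, Ω, h1, h2, h3, ?_⟩
  have h5 : ENNReal.ofReal (∑ Q ∈ T, Cube.side Q ^ d) ≤ ENNReal.ofReal ε := by
    refine h4.trans ?_
    rw [← ENNReal.ofReal_coe_nnreal, ← ENNReal.ofReal_mul (by positivity)]
    apply ENNReal.ofReal_le_ofReal
    rw [mul_div_assoc', div_le_iff₀ (by positivity)]
    nlinarith [C.2, hε]
  rwa [ENNReal.ofReal_le_ofReal_iff hε.le] at h5

end Pool.Agent.Helper656.Cap
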