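import Pool.Agent.Helper656.CapDefs

open MeasureTheory SchwartzMap
open scoped ENNReal NNReal FourierTransform SchwartzMap

namespace Pool.Agent.Helper656.Cap

variable {n : ℕ}

/-- `ψ` is adapted to `(x, t)` with the constant `C`. -/
def AdaptedC (N : ℕ) (x : E n) (t C : ℝ) (ψ : 𝓢(E n, ℂ)) : Prop :=
  ∀ k ≤ N, ∀ l ≤ N, ∀ y : E n,
    (‖y - x‖ / t) ^ k * (t ^ (n + l) * ‖iteratedFDeriv ℝ l ψ y‖) ≤ C

theorem iteratedFDeriv_smul_schwartz (c : ℂ) (ψ : 𝓢(E n, ℂ)) (l : ℕ) (y : E n) :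
    ‖iteratedFDeriv ℝ l (c • ψ : 𝓢(E n, ℂ)) y‖ = ‖c‖ * ‖iteratedFDeriv ℝ l ψ y‖ := by
  have h : ((c • ψ : 𝓢(E n, ℂ)) : E n → ℂ) = c • (ψ : E n → ℂ) := rfl
  rw [h, iteratedFDeriv_const_smul_apply (ψ.smooth l).contDiffAt, norm_smul]

theorem AdaptedC.smul {N : ℕ} {x : E n} {t C : ℝ} {ψ : 𝓢(E n, ℂ)} (h : AdaptedC N x t C ψ)
    (c : ℂ) : AdaptedC N x t (‖c‖ * C) (c • ψ) := by
  intro k hk l hl y
  rw [iteratedFDeriv_smul_schwartz]
  calc _ = ‖c‖ * ((‖y - x‖ / t) ^ k * (t ^ (n + l) * ‖iteratedFDeriv ℝ l ψ y‖)) := by ring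
    _ ≤ _ := mul_le_mul_of_nonneg_left (h k hk l hl y) (norm_nonneg _)

theorem AdaptedC.mono {N : ℕ} {x : E n} {t C C' : ℝ} {ψ : 𝓢(E n, ℂ)} (h : AdaptedC N x t C ψ)
    (hC : C ≤ C') : AdaptedC N x t C' ψ := fun k hk l hl y => (h k hk l hl y).trans hC

theorem AdaptedC.order_mono {N N' : ℕ} {x : E n} {t C : ℝ} {ψ : 𝓢(E n, ℂ)}
    (h : AdaptedC N x t C ψ) (hN : N' ≤ N) : AdaptedC N' x t C ψ :=
  fun k hk l hl y => h k (hk.trans hN) l (hl.trans hN) y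

theorem Adapted.adaptedC {N : ℕ} {x : E n} {t : ℝ} {ψ : 𝓢(E n, ℂ)} (h : Adapted N x t ψ) :
    AdaptedC N x t 1 ψ := h

theorem le_grandMax {N : ℕ} {h : 𝓢'(E n, ℂ)} {x : E n} {t : ℝ} (ht : 0 < t) {ψ : 𝓢(E n, ℂ)}
    (hψ : Adapted N x t ψ) : ‖h ψ‖ₑ ≤ grandMax N h x := by
  unfold grandMax
  exact le_iSup_of_le t (le_iSup_of_le ht (le_iSup_of_le ψ (le_iSup_of_le hψ le_rfl)))

theorem AdaptedC.enorm_le {N : ℕ} {x : E n} {t C : ℝ} {ψ : 𝓢(E n, ℂ)} (hψ : AdaptedC N x t C ψ)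
    (ht : 0 < t) (hC : 0 < C) (h : 𝓢'(E n, ℂ)) :
    ‖h ψ‖ₑ ≤ ENNReal.ofReal C * grandMax N h x := by
  have h1 : Adapted N x t (((C⁻¹ : ℝ) : ℂ) • ψ) := by
    have := hψ.smul ((C⁻¹ : ℝ) : ℂ)
    rwa [Complex.norm_real, Real.norm_of_nonneg (inv_nonneg.2 hC.le), inv_mul_cancel₀ hC.ne'] at this
  have h2 := le_grandMax (h := h) ht h1
  rw [map_smul, enorm_smul] at h2
  have h3 : ‖((C⁻¹ : ℝ) : ℂ)‖ₑ = ENNReal.ofReal C⁻¹ := by
    rw [← ofReal_norm, Complex.norm_real, Real.norm_of_nonneg (inv_nonneg.2 hC.le)]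
  rw [h3] at h2
  calc ‖h ψ‖ₑ = ENNReal.ofReal C * (ENNReal.ofReal C⁻¹ * ‖h ψ‖ₑ) := by
        rw [← mul_assoc, ← ENNReal.ofReal_mul hC.le, mul_inv_cancel₀ hC.ne', ENNReal.ofReal_one,
          one_mul]
    _ ≤ _ := by gcongr

/-- moving the base point -/
theorem AdaptedC.shift {N : ℕ} {x : E n} {t C : ℝ} {ψ : 𝓢(E n, ℂ)} (hψ : AdaptedC N x t C ψ)
    (ht : 0 < t) (x' : E n) : AdaptedC N x' t (C * (1 + ‖x - x'‖ / t) ^ N) ψ := by
  intro k hk l hl y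
  set A := t ^ (n + l) * ‖iteratedFDeriv ℝ l ψ y‖ with hA
  have hA0 : 0 ≤ A := by positivity
  set s := ‖y - x‖ / t with hs
  set δ := ‖x - x'‖ / t with hδ
  have hs0 : 0 ≤ s := by positivity
  have hδ0 : 0 ≤ δ := by positivity
  have h1 : ‖y - x'‖ / t ≤ s + δ := by
    rw [hs, hδ, ← add_div]
    gcongr
    calc ‖y - x'‖ = ‖(y - x) + (x - x')‖ := by congr 1; abel
      _ ≤ _ := norm_add_le _ _
  have hC0 : A ≤ C := by
    have := hψ 0 (Nat.zero_le _) l hl y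
    simpa using this
  have hCk : s ^ k * A ≤ C := hψ k hk l hl y
  have h2 : (s + δ) ^ k * A ≤ C * (1 + δ) ^ k := by
    rcases le_total s 1 with h | h
    · calc (s + δ) ^ k * A ≤ (1 + δ) ^ k * A := by gcongr
        _ ≤ (1 + δ) ^ k * C := by gcongr
        _ = _ := mul_comm _ _
    · have : s + δ ≤ s * (1 + δ) := by nlinarith
      calc (s + δ) ^ k * A ≤ (s * (1 + δ)) ^ k * A := by gcongr
        _ = (1 + δ) ^ k * (s ^ k * A) := by rw [mul_pow]; ring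
        _ ≤ (1 + δ) ^ k * C := by gcongr
        _ = _ := mul_comm _ _
  have hC : 0 ≤ C := hA0.trans hC0
  calc (‖y - x'‖ / t) ^ k * A ≤ (s + δ) ^ k * A := by gcongr
    _ ≤ C * (1 + δ) ^ k := h2
    _ ≤ C * (1 + δ) ^ N := by
        gcongr
        linarith

theorem isOpen_lt_grandMax (N : ℕ) (h : 𝓢'(E n, ℂ)) (c : ℝ≥0∞) :
    IsOpen {x | c < grandMax N h x} := by
  rw [isOpen_iff_mem_nhds]
  intro x hx
  simp only [Set.mem_ofPred_eq, grandMax, lt_iSup_iff] at hx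
  obtain ⟨t, ht, ψ, hψ, hlt⟩ := hx
  have h1 : Filter.Tendsto (fun x' : E n => ENNReal.ofReal ((1 + ‖x - x'‖ / t) ^ N) * c)
      (nhds x) (nhds (ENNReal.ofReal ((1 + ‖x - x‖ / t) ^ N) * c)) := by
    apply ENNReal.Tendsto.mul_const
    · apply ENNReal.tendsto_ofReal
      have : Continuous fun x' : E n => (1 + ‖x - x'‖ / t) ^ N := by fun_prop
      exact this.tendsto x
    · left
      simp
  have h2 : ∀ᶠ x' in nhds x, ENNReal.ofReal ((1 + ‖x - x'‖ / t) ^ N) * c < ‖h ψ‖ₑ := by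
    apply h1.eventually_lt_const
    simpa using hlt
  filter_upwards [h2] with x' hx'
  have h3 := (hψ.adaptedC.shift ht x').enorm_le ht (by positivity) h
  rw [one_mul] at h3
  have h4 := hx'.trans_le h3
  by_contra hcon
  simp only [not_lt] at hcon
  exact absurd h4 (not_lt.2 (by gcongr))

theorem measurable_grandMax (N : ℕ) (h : 𝓢'(E n, ℂ)) : Measurable (grandMax N h) :=
  measurable_of_Ioi fun c => (isOpen_lt_grandMax N h c).measurableSet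

/-- the affine pull-back `y ↦ r^n ψ(c + r y)` -/
noncomputable def pull (c : E n) (r : ℝ) (hr : 0 < r) (ψ : 𝓢(E n, ℂ)) : 𝓢(E n, ℂ) :=
  ((r ^ n : ℝ) : ℂ) • compCLMOfAntilipschitz ℂ (g := fun y : E n => c + r • y)
    (K := (Real.toNNReal r)⁻¹) (by fun_prop) (by
      refine AntilipschitzWith.of_le_mul_dist fun x y => ?_
      rw [dist_add_left, dist_smul₀, NNReal.coe_inv, Real.coe_toNNReal _ hr.le,
        Real.norm_of_nonneg hr.le, ← mul_assoc, inv_mul_cancel₀ hr.ne', one_mul]) ψ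

theorem pull_apply (c : E n) (r : ℝ) (hr : 0 < r) (ψ : 𝓢(E n, ℂ)) (y : E n) :
    pull c r hr ψ y = ((r ^ n : ℝ) : ℂ) * ψ (c + r • y) := rfl

theorem norm_iteratedFDeriv_pull (c : E n) (r : ℝ) (hr : 0 < r) (ψ : 𝓢(E n, ℂ)) (l : ℕ)
    (y : E n) : ‖iteratedFDeriv ℝ l (pull c r hr ψ) y‖ =
      r ^ (n + l) * ‖iteratedFDeriv ℝ l ψ (c + r • y)‖ := by
  have h1 : ((pull c r hr ψ : 𝓢(E n, ℂ)) : E n → ℂ) =
      ((r ^ n : ℝ) : ℂ) • (fun z : E n => (fun w => ψ (c + w)) (r • z)) := by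
    ext z; simp [pull_apply]
  have h0 : ContDiff ℝ l (fun w : E n => ψ (c + w)) := (ψ.smooth l).comp (by fun_prop)
  rw [h1, iteratedFDeriv_const_smul_apply (by
    exact (h0.comp (contDiff_const_smul r)).contDiffAt), norm_smul,
    iteratedFDeriv_comp_const_smul r h0]
  simp only [norm_smul, Complex.norm_real]
  rw [iteratedFDeriv_comp_add_left, Real.norm_of_nonneg (by positivity), norm_pow,
    Real.norm_of_nonneg hr.le]
  ring

theorem AdaptedC.pull {N : ℕ} {x : E n} {t C : ℝ} {ψ : 𝓢(E n, ℂ)} (hψ : AdaptedC N x t C ψ)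
    (c : E n) {r : ℝ} (hr : 0 < r) :
    AdaptedC N (r⁻¹ • (x - c)) (t / r) C (pull c r hr ψ) := by
  intro k hk l hl y
  rw [norm_iteratedFDeriv_pull]
  have h1 : ‖y - r⁻¹ • (x - c)‖ / (t / r) = ‖(c + r • y) - x‖ / t := by
    have : (c + r • y) - x = r • (y - r⁻¹ • (x - c)) := by
      rw [smul_sub, smul_smul, mul_inv_cancel₀ hr.ne', one_smul]; abel
    rw [this, norm_smul, Real.norm_of_nonneg hr.le]
    field_simp
  rw [h1]
  have h2 : (t / r) ^ (n + l) * (r ^ (n + l) * ‖iteratedFDeriv ℝ l ψ (c + r • y)‖) =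
      t ^ (n + l) * ‖iteratedFDeriv ℝ l ψ (c + r • y)‖ := by
    rw [← mul_assoc, ← mul_pow, div_mul_cancel₀ _ hr.ne']
  rw [h2]
  exact hψ k hk l hl _

/-- every Schwartz function is adapted to the origin and the scale one, up to a constant -/
theorem exists_adaptedC (N : ℕ) (φ : 𝓢(E n, ℂ)) : ∃ C : ℝ, 0 < C ∧ AdaptedC N 0 1 C φ := by
  refine ⟨1 + ∑ k ∈ Finset.range (N + 1), ∑ l ∈ Finset.range (N + 1),
    SchwartzMap.seminorm ℝ k l φ, by positivity, ?_⟩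
  intro k hk l hl y
  rw [div_one, sub_zero, one_pow, one_mul]
  calc ‖y‖ ^ k * ‖iteratedFDeriv ℝ l φ y‖ ≤ SchwartzMap.seminorm ℝ k l φ := le_seminorm ℝ k l φ y
    _ ≤ ∑ l ∈ Finset.range (N + 1), SchwartzMap.seminorm ℝ k l φ :=
      Finset.single_le_sum (f := fun l => SchwartzMap.seminorm ℝ k l φ)
        (fun _ _ => by positivity) (Finset.mem_range.2 (by omega))
    _ ≤ ∑ k ∈ Finset.range (N + 1), ∑ l ∈ Finset.range (N + 1), SchwartzMap.seminorm ℝ k l φ :=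
      Finset.single_le_sum
        (f := fun k => ∑ l ∈ Finset.range (N + 1), SchwartzMap.seminorm ℝ k l φ)
        (fun _ _ => by positivity) (Finset.mem_range.2 (by omega))
    _ ≤ _ := by linarith

/-- dilates and translates of a fixed Schwartz function: `t^{-n} φ((y - x)/t)` -/
noncomputable def dil (x : E n) (t : ℝ) (ht : 0 < t) (φ : 𝓢(E n, ℂ)) : 𝓢(E n, ℂ) :=
  pull (-(t⁻¹ • x)) t⁻¹ (inv_pos.2 ht) φ

theorem dil_apply (x : E n) (t : ℝ) (ht : 0 < t) (φ : 𝓢(E n, ℂ)) (y : E n) :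
    dil x t ht φ y = (((t⁻¹) ^ n : ℝ) : ℂ) * φ (t⁻¹ • (y - x)) := by
  rw [dil, pull_apply, smul_sub]
  congr 2
  abel

theorem AdaptedC.dil {N : ℕ} {C : ℝ} {φ : 𝓢(E n, ℂ)} (hφ : AdaptedC N 0 1 C φ)
    (x : E n) {t : ℝ} (ht : 0 < t) : AdaptedC N x t C (dil x t ht φ) := by
  have := hφ.pull (-(t⁻¹ • x)) (inv_pos.2 ht)
  rw [inv_inv, sub_neg_eq_add, zero_add, smul_smul, mul_inv_cancel₀ ht.ne', one_smul, one_div,
    inv_inv] at this
  exact this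

end Pool.Agent.Helper656.Cap
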