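import Pool.Agent.Helper656.CapFourier

open MeasureTheory SchwartzMap
open scoped ENNReal NNReal FourierTransform SchwartzMap RealInnerProductSpace

namespace Pool.Agent.Helper656.Cap

variable {n : ℕ}

/-! ### the block -/

theorem bmp_neg (x : E n) : (bmp : 𝓢(E n, ℂ)) (-x) = bmp x := by
  rw [bmp_apply, bmp_apply, norm_neg]

theorem fourierInv_bmp (y : E n) : 𝓕⁻ (bmp : 𝓢(E n, ℂ)) y = 𝓕 (bmp : 𝓢(E n, ℂ)) y := by
  rw [fourierInv_coe, fourier_coe, Real.fourierInv_eq_fourier_comp_neg]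
  simp only [bmp_neg]

theorem fourierInv_neg (f : 𝓢(E n, ℂ)) (y : E n) : 𝓕⁻ f y = 𝓕 f (-y) := by
  rw [fourierInv_coe, fourier_coe, Real.fourierInv_eq_fourier_neg]

theorem fourier_bmp_real (y : E n) :
    𝓕 (bmp : 𝓢(E n, ℂ)) y = (((𝓕 (bmp : 𝓢(E n, ℂ)) y).re : ℝ) : ℂ) := by
  symm
  rw [← Complex.conj_eq_iff_re]
  conv_rhs => rw [← fourierInv_bmp]
  rw [fourier_coe, fourierInv_coe, Real.fourierInv_eq', Real.fourier_eq', ← integral_conj]
  refine integral_congr_ae (Filter.Eventually.of_forall fun z => ?_)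
  simp only [smul_eq_mul, map_mul, bmp_apply, Complex.conj_ofReal, ← Complex.exp_conj,
    Complex.conj_I]
  congr 2
  push_cast
  ring

theorem fourier_fourier (p : 𝓢(E n, ℂ)) (x : E n) : 𝓕 (𝓕 p) x = p (-x) := by
  have h := fourierInv_neg (𝓕 p) (-x)
  rw [neg_neg] at h
  rw [← h, FourierTransform.fourierInv_fourier_eq]

/-- `re` of the Fourier transform of the bump -/
noncomputable def F0 (y : E n) : ℝ := (𝓕 (bmp : 𝓢(E n, ℂ)) y).re

theorem F0_eq (y : E n) : 𝓕 (bmp : 𝓢(E n, ℂ)) y = ((F0 y : ℝ) : ℂ) := fourier_bmp_real y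

theorem F0_zero_pos : 0 < F0 (0 : E n) := by
  have h : 𝓕 (bmp : 𝓢(E n, ℂ)) 0 = ((∫ v : E n, beta ‖v‖ : ℝ) : ℂ) := by
    rw [fourier_coe, Real.fourier_eq', ← integral_complex_ofReal]
    refine integral_congr_ae (Filter.Eventually.of_forall fun z => ?_)
    simp [bmp_apply]
  unfold F0
  rw [h, Complex.ofReal_re]
  apply Continuous.integral_pos_of_hasCompactSupport_nonneg_nonzero (x := (0 : E n))
  · exact continuous_beta.comp continuous_norm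
  · have := (hasCompactSupport_beta_norm (n := n)).comp_left (g := Complex.re) (by simp)
    exact this
  · intro x; exact beta_nonneg _
  · rw [beta_eq_one (by simp)]; exact one_ne_zero

theorem continuous_F0 : Continuous (F0 : E n → ℝ) :=
  Complex.continuous_re.comp (𝓕 (bmp : 𝓢(E n, ℂ))).continuous

open scoped Convolution in
/-- a nonnegative Schwartz function, at least two on a big ball, with compactly supported
Fourier transform -/
theorem exists_G (R : ℝ) (hR : 0 < R) : ∃ (G : 𝓢(E n, ℂ)) (γ : E n → ℝ),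
    (∀ y, G y = ((γ y : ℝ) : ℂ)) ∧ (∀ y, 0 ≤ γ y) ∧ (∀ y, ‖y‖ ≤ R → 2 ≤ γ y) ∧
    HasCompactSupport (𝓕 G : 𝓢(E n, ℂ)) := by
  have h0 := F0_zero_pos (n := n)
  have hev : ∀ᶠ y in nhds (0 : E n), F0 (0 : E n) / Real.sqrt 2 < F0 y := by
    apply (continuous_F0 (n := n)).continuousAt.eventually_const_lt
    rw [div_lt_iff₀ (by positivity)]
    have : (1 : ℝ) < Real.sqrt 2 := by
      rw [Real.lt_sqrt (by norm_num)]; norm_num
    nlinarith
  obtain ⟨ρ, hρ, hball⟩ := Metric.eventually_nhds_iff.1 hev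
  set t : ℝ := 2 * R / ρ with ht
  have htp : 0 < t := by positivity
  set p : 𝓢(E n, ℂ) := SchwartzMap.convolution (ContinuousLinearMap.mul ℂ ℂ) bmp bmp with hp
  have hpc : HasCompactSupport p := by
    have h1 : (p : E n → ℂ) =
        (bmp : 𝓢(E n, ℂ)) ⋆[ContinuousLinearMap.mul ℂ ℂ] (bmp : 𝓢(E n, ℂ)) := by
      ext x
      exact SchwartzMap.convolution_apply _ _ _ x
    rw [h1]
    exact (hasCompactSupport_beta_norm (n := n)).convolution _ (hasCompactSupport_beta_norm (n := n))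
  have hfp : ∀ y, 𝓕 p y = (((F0 y) ^ 2 : ℝ) : ℂ) := by
    intro y
    rw [hp, SchwartzMap.fourier_convolution, SchwartzMap.pairing_apply_apply, F0_eq]
    simp [pow_two]
  set c : ℝ := t ^ n * (4 / F0 (0 : E n) ^ 2) with hc
  have hc0 : 0 < c := by positivity
  set G : 𝓢(E n, ℂ) := ((c : ℝ) : ℂ) • dil 0 t htp (𝓕 p) with hG
  have hGv : ∀ y, G y = (((4 / F0 (0 : E n) ^ 2) * (F0 (t⁻¹ • y)) ^ 2 : ℝ) : ℂ) := by
    intro y
    have : G y = ((c : ℝ) : ℂ) * dil 0 t htp (𝓕 p) y := rfl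
    rw [this, dil_apply, hfp, sub_zero, ← Complex.ofReal_mul, ← Complex.ofReal_mul]
    congr 1
    rw [hc, inv_pow]
    field_simp
  refine ⟨G, fun y => (4 / F0 (0 : E n) ^ 2) * (F0 (t⁻¹ • y)) ^ 2, hGv, ?_, ?_, ?_⟩
  · intro y; positivity
  · intro y hy
    have h1 : dist (t⁻¹ • y) 0 < ρ := by
      rw [dist_zero_right, norm_smul, norm_inv, Real.norm_of_nonneg htp.le, inv_mul_lt_iff₀ htp,
        ht]
      have : 2 * R / ρ * ρ = 2 * R := by field_simp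
      rw [this]
      linarith
    have h2 := hball h1
    have h3 : (F0 (0 : E n) / Real.sqrt 2) ^ 2 ≤ F0 (t⁻¹ • y) ^ 2 :=
      pow_le_pow_left₀ (by positivity) h2.le 2
    rw [div_pow, Real.sq_sqrt (by norm_num)] at h3
    calc (2 : ℝ) = (4 / F0 (0 : E n) ^ 2) * (F0 (0 : E n) ^ 2 / 2) := by field_simp; norm_num
      _ ≤ (4 / F0 (0 : E n) ^ 2) * F0 (t⁻¹ • y) ^ 2 :=
          mul_le_mul_of_nonneg_left h3 (by positivity)
  · have h1 : ((𝓕 G : 𝓢(E n, ℂ)) : E n → ℂ) = fun ξ => ((c : ℝ) : ℂ) * p (-(t • ξ)) := by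
      ext ξ
      rw [hG, FourierTransform.fourier_smul]
      have : (((c : ℝ) : ℂ) • 𝓕 (dil 0 t htp (𝓕 p)) : 𝓢(E n, ℂ)) ξ =
        ((c : ℝ) : ℂ) * 𝓕 (dil 0 t htp (𝓕 p)) ξ := rfl
      rw [this, fourier_dil, fourier_fourier, inner_zero_left]
      simp
    rw [h1]
    apply HasCompactSupport.mul_left
    have h2 := hpc.comp_homeomorph (Homeomorph.smulOfNeZero (-t) (neg_ne_zero.2 htp.ne'))
    have h3 : (fun ξ : E n => p (-(t • ξ))) =
        (p : E n → ℂ) ∘ (Homeomorph.smulOfNeZero (-t) (neg_ne_zero.2 htp.ne')) := by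
      ext ξ
      simp
    rw [h3]
    exact h2

theorem one_add_pow_le_block (x : ℝ) (hx : 0 ≤ x) (L : ℕ) :
    (1 + x) ^ L ≤ 2 ^ (L - 1) * (1 + x ^ L) := by
  have := add_pow_le (zero_le_one (α := ℝ)) hx L
  simpa using this

theorem exists_decay (f : 𝓢(E n, ℂ)) (L : ℕ) :
    ∃ C : ℝ, 0 ≤ C ∧ ∀ u, (1 + ‖u‖) ^ L * ‖f u‖ ≤ C := by
  obtain ⟨C0, h0⟩ := f.decay 0 0
  obtain ⟨C1, h1⟩ := f.decay L 0
  obtain ⟨C0p, h0⟩ := h0
  obtain ⟨C1p, h1⟩ := h1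
  simp only [norm_iteratedFDeriv_zero, pow_zero, one_mul] at h0 h1
  refine ⟨2 ^ (L - 1) * (C0 + C1), by positivity, fun u => ?_⟩
  calc (1 + ‖u‖) ^ L * ‖f u‖ ≤ (2 ^ (L - 1) * (1 + ‖u‖ ^ L)) * ‖f u‖ :=
        mul_le_mul_of_nonneg_right (one_add_pow_le_block _ (norm_nonneg _) L) (norm_nonneg _)
    _ = 2 ^ (L - 1) * (‖f u‖ + ‖u‖ ^ L * ‖f u‖) := by ring
    _ ≤ _ := mul_le_mul_of_nonneg_left (add_le_add (h0 u) (h1 u)) (by positivity)

theorem integrable_decay (f : 𝓢(E n, ℂ)) (L : ℕ) :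
    Integrable fun u => (1 + ‖u‖) ^ L * ‖f u‖ := by
  have h0 : Integrable fun u => 2 ^ (L - 1) * (‖f u‖ + ‖u‖ ^ L * ‖f u‖) := by
    apply Integrable.const_mul
    apply Integrable.add f.integrable.norm
    exact f.integrable_pow_mul volume L
  refine h0.mono' ?_ (Filter.Eventually.of_forall fun u => ?_)
  · exact (((continuous_const.add continuous_norm).pow L).mul
      f.continuous.norm).aestronglyMeasurable
  · rw [Real.norm_of_nonneg (by positivity)]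
    calc (1 + ‖u‖) ^ L * ‖f u‖ ≤ (2 ^ (L - 1) * (1 + ‖u‖ ^ L)) * ‖f u‖ :=
        mul_le_mul_of_nonneg_right (one_add_pow_le_block _ (norm_nonneg _) L) (norm_nonneg _)
      _ = _ := by ring

theorem conv_bound (G f : 𝓢(E n, ℂ)) (L : ℕ) : ∃ A : ℝ, 0 ≤ A ∧ ∀ (M : ℝ) (hM : 0 < M),
    1 ≤ M → ∀ y, ‖SchwartzMap.convolution (ContinuousLinearMap.mul ℂ ℂ) G (dil 0 M hM f) y‖ ≤
      A / M ^ n / (1 + ‖y‖ / M) ^ L := by
  obtain ⟨C, hC0, hC⟩ := exists_decay f L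
  have hI := integrable_decay G L
  refine ⟨C * ∫ z, (1 + ‖z‖) ^ L * ‖G z‖, by positivity, ?_⟩
  intro M hM hM1 y
  rw [SchwartzMap.convolution_apply]
  unfold MeasureTheory.convolution
  have hy0 : (0 : ℝ) < 1 + ‖y‖ / M := by positivity
  have hpt : ∀ z : E n, ‖(ContinuousLinearMap.mul ℂ ℂ) (G z) (dil 0 M hM f (y - z))‖ ≤
      (C / M ^ n / (1 + ‖y‖ / M) ^ L) * ((1 + ‖z‖) ^ L * ‖G z‖) := by
    intro z
    rw [ContinuousLinearMap.mul_apply', norm_mul, dil_apply, norm_mul, Complex.norm_real,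
      Real.norm_of_nonneg (by positivity), sub_zero]
    set u := M⁻¹ • (y - z) with hu
    have hun : ‖u‖ = ‖y - z‖ / M := by
      rw [hu, norm_smul, norm_inv, Real.norm_of_nonneg hM.le, inv_mul_eq_div]
    have h1 : 1 + ‖y‖ / M ≤ (1 + ‖u‖) * (1 + ‖z‖) := by
      rw [hun]
      have e1 : ‖y‖ ≤ ‖y - z‖ + ‖z‖ := by
        calc ‖y‖ = ‖(y - z) + z‖ := by rw [sub_add_cancel]
          _ ≤ _ := norm_add_le _ _
      have e2 : ‖y‖ / M ≤ ‖y - z‖ / M + ‖z‖ / M := by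
        rw [← add_div]; gcongr
      have e3 : ‖z‖ / M ≤ ‖z‖ := div_le_self (norm_nonneg _) hM1
      have e4 : 0 ≤ ‖y - z‖ / M * ‖z‖ := by positivity
      nlinarith
    have h2 : (1 + ‖y‖ / M) ^ L * ‖f u‖ ≤ (1 + ‖z‖) ^ L * C := by
      calc (1 + ‖y‖ / M) ^ L * ‖f u‖ ≤ ((1 + ‖u‖) * (1 + ‖z‖)) ^ L * ‖f u‖ := by gcongr
        _ = (1 + ‖z‖) ^ L * ((1 + ‖u‖) ^ L * ‖f u‖) := by rw [mul_pow]; ring
        _ ≤ _ := mul_le_mul_of_nonneg_left (hC u) (by positivity)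
    have h3 : ‖f u‖ ≤ (1 + ‖z‖) ^ L * C / (1 + ‖y‖ / M) ^ L := by
      rw [le_div_iff₀ (by positivity)]
      linarith
    calc ‖G z‖ * ((M⁻¹) ^ n * ‖f u‖) ≤
        ‖G z‖ * ((M⁻¹) ^ n * ((1 + ‖z‖) ^ L * C / (1 + ‖y‖ / M) ^ L)) := by gcongr
      _ = _ := by rw [inv_pow]; field_simp
  refine (norm_integral_le_integral_norm _).trans ?_
  calc ∫ z, ‖(ContinuousLinearMap.mul ℂ ℂ) (G z) (dil 0 M hM f (y - z))‖ ≤
      ∫ z, (C / M ^ n / (1 + ‖y‖ / M) ^ L) * ((1 + ‖z‖) ^ L * ‖G z‖) := by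
        apply integral_mono_of_nonneg (Filter.Eventually.of_forall fun _ => norm_nonneg _)
          (hI.const_mul _) (Filter.Eventually.of_forall hpt)
    _ = _ := by rw [integral_const_mul]; ring

theorem exists_mult (F : 𝓢(E n, ℂ)) (hF : HasCompactSupport F) (δ : ℝ) (hδ : 0 < δ)
    (h0 : ∀ ξ, ‖ξ‖ ≤ δ → F ξ = 0) (s : ℝ) :
    ∃ f : 𝓢(E n, ℂ), ∀ ξ, 𝓕 f ξ = ((‖ξ‖ ^ s : ℝ) : ℂ) * F ξ := by
  set m : E n → ℂ := fun ξ => ((‖ξ‖ ^ s : ℝ) : ℂ) * F ξ with hm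
  have hmc : HasCompactSupport m := hF.mul_left
  have hsm : ContDiff ℝ (⊤ : ℕ∞) m := by
    rw [contDiff_iff_contDiffAt]
    intro ξ
    rcases eq_or_ne ξ 0 with rfl | hξ
    · have : m =ᶠ[nhds 0] fun _ => 0 := by
        filter_upwards [Metric.ball_mem_nhds (0 : E n) hδ] with ξ hξ
        rw [Metric.mem_ball, dist_zero_right] at hξ
        simp only [hm]
        rw [h0 ξ hξ.le, mul_zero]
      exact contDiffAt_const.congr_of_eventuallyEq this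
    · apply ContDiffAt.mul
      · apply Complex.ofRealCLM.contDiff.contDiffAt.comp
        exact (contDiffAt_norm ℝ hξ).rpow_const_of_ne (norm_ne_zero_iff.2 hξ)
      · exact F.smooth'.contDiffAt
  refine ⟨𝓕⁻ (hmc.toSchwartzMap hsm), fun ξ => ?_⟩
  rw [FourierTransform.fourier_fourierInv_eq]
  rfl

/-- TARGET: the building block -/
theorem exists_block (hn : 1 ≤ n) (α : ℝ) (hα : 0 < α) (L : ℕ) :
    ∃ (A M₀ : ℝ), 0 ≤ A ∧ 1 ≤ M₀ ∧ ∀ M : ℝ, M₀ ≤ M →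
      ∃ (w η : 𝓢(E n, ℂ)) (ω : E n → ℝ), (∀ y, w y = ((ω y : ℝ) : ℂ)) ∧
        (∀ y, ‖y‖ ≤ Real.sqrt n → 1 ≤ ω y) ∧
        (∀ y, -(A / M ^ n / (1 + ‖y‖ / M) ^ L) ≤ ω y) ∧
        (∀ ξ, 𝓕 η ξ = ((‖ξ‖ ^ α : ℝ) : ℂ) * 𝓕 w ξ) ∧
        (∀ J : ℕ, ∃ f : 𝓢(E n, ℂ), ∀ ξ, 𝓕 η ξ = ((‖ξ‖ ^ (2 * J) : ℝ) : ℂ) * 𝓕 f ξ) := by
  have hnR : (0 : ℝ) < Real.sqrt n := Real.sqrt_pos.2 (by exact_mod_cast hn)
  obtain ⟨G, γ, hG, hγ0, hγ2, hGc⟩ := exists_G (n := n) (Real.sqrt n) hnR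
  obtain ⟨A, hA0, hA⟩ := conv_bound G (𝓕 (bmp : 𝓢(E n, ℂ))) L
  refine ⟨A, max 1 A, hA0, le_max_left _ _, ?_⟩
  intro M hM
  have hM1 : 1 ≤ M := (le_max_left _ _).trans hM
  have hMA : A ≤ M := (le_max_right _ _).trans hM
  have hM0 : 0 < M := by linarith
  set χ : 𝓢(E n, ℂ) := dil 0 M hM0 (𝓕 (bmp : 𝓢(E n, ℂ))) with hχ
  set κ : 𝓢(E n, ℂ) := SchwartzMap.convolution (ContinuousLinearMap.mul ℂ ℂ) G χ with hκ
  have hκb : ∀ y, ‖κ y‖ ≤ A / M ^ n / (1 + ‖y‖ / M) ^ L := hA M hM0 hM1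
  have hκr : ∀ y, κ y = (((κ y).re : ℝ) : ℂ) := by
    intro y
    have h1 : κ y = ∫ z, (((γ z * (((M⁻¹) ^ n) * F0 (M⁻¹ • (y - z)))) : ℝ) : ℂ) := by
      rw [hκ, SchwartzMap.convolution_apply]
      unfold MeasureTheory.convolution
      refine integral_congr_ae (Filter.Eventually.of_forall fun z => ?_)
      simp only [ContinuousLinearMap.mul_apply', hG, hχ, dil_apply, F0_eq, sub_zero]
      push_cast
      ring
    rw [h1, integral_complex_ofReal, Complex.ofReal_re]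
  have hw : ∀ y, (G - κ) y = ((γ y - (κ y).re : ℝ) : ℂ) := by
    intro y
    have : (G - κ) y = G y - κ y := rfl
    rw [this, hG, hκr y]
    push_cast
    simp
  have hre : ∀ y, |(κ y).re| ≤ A / M ^ n / (1 + ‖y‖ / M) ^ L := fun y =>
    (Complex.abs_re_le_norm _).trans (hκb y)
  have hFw : ∀ ξ, 𝓕 (G - κ) ξ = (1 - ((beta ‖M • ξ‖ : ℝ) : ℂ)) * 𝓕 G ξ := by
    intro ξ
    have h1 : 𝓕 (G - κ) = 𝓕 G - 𝓕 κ := by
      rw [sub_eq_add_neg, FourierTransform.fourier_add, ← neg_one_smul ℂ κ,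
        FourierTransform.fourier_smul, neg_one_smul, sub_eq_add_neg]
    rw [h1]
    have h2 : (𝓕 G - 𝓕 κ) ξ = 𝓕 G ξ - 𝓕 κ ξ := rfl
    rw [h2, hκ, SchwartzMap.fourier_convolution, SchwartzMap.pairing_apply_apply, hχ,
      fourier_dil, fourier_fourier, bmp_neg, bmp_apply]
    simp
    ring
  have hFc : HasCompactSupport (𝓕 (G - κ) : 𝓢(E n, ℂ)) := by
    have : ((𝓕 (G - κ) : 𝓢(E n, ℂ)) : E n → ℂ) =
        fun ξ => (1 - ((beta ‖M • ξ‖ : ℝ) : ℂ)) * 𝓕 G ξ := funext hFw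
    rw [this]
    exact hGc.mul_left
  have hF0 : ∀ ξ, ‖ξ‖ ≤ M⁻¹ → 𝓕 (G - κ) ξ = 0 := by
    intro ξ hξ
    rw [hFw, beta_eq_one]
    · simp
    · rw [abs_of_nonneg (norm_nonneg _), norm_smul, Real.norm_of_nonneg hM0.le]
      calc M * ‖ξ‖ ≤ M * M⁻¹ := by gcongr
        _ = 1 := mul_inv_cancel₀ hM0.ne'
  obtain ⟨η, hη⟩ := exists_mult (𝓕 (G - κ)) hFc M⁻¹ (by positivity) hF0 α
  refine ⟨G - κ, η, fun y => γ y - (κ y).re, hw, ?_, ?_, hη, ?_⟩
  · intro y hy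
    have h1 := hγ2 y hy
    have h2 := (abs_le.1 (hre y)).2
    have h3 : A / M ^ n / (1 + ‖y‖ / M) ^ L ≤ 1 := by
      apply div_le_one_of_le₀
      · calc A / M ^ n ≤ 1 := by
              apply div_le_one_of_le₀
              · calc A ≤ M := hMA
                  _ = M ^ 1 := (pow_one M).symm
                  _ ≤ M ^ n := pow_le_pow_right₀ hM1 hn
              · positivity
          _ ≤ _ := one_le_pow₀ (by
              have : 0 ≤ ‖y‖ / M := by positivity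
              linarith)
      · positivity
    linarith
  · intro y
    have h1 := hγ0 y
    have h2 := (abs_le.1 (hre y)).2
    linarith
  · intro J
    obtain ⟨f, hf⟩ := exists_mult (𝓕 (G - κ)) hFc M⁻¹ (by positivity) hF0 (α - 2 * J)
    refine ⟨f, fun ξ => ?_⟩
    rw [hη, hf, ← mul_assoc, ← Complex.ofReal_mul]
    rcases eq_or_ne ξ 0 with rfl | hξ
    · rw [hF0 0 (by simp; positivity)]
      simp
    · congr 2
      have : (‖ξ‖ ^ (2 * J) : ℝ) = ‖ξ‖ ^ ((2 * J : ℕ) : ℝ) := (Real.rpow_natCast _ _).symm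
      rw [this, ← Real.rpow_add (norm_pos_iff.2 hξ)]
      congr 1
      push_cast
      ring

end Pool.Agent.Helper656.Cap
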