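import Pool.Agent.Helper656.CapFourier

open MeasureTheory SchwartzMap
open scoped ENNReal NNReal FourierTransform SchwartzMap RealInnerProductSpace

namespace Pool.Agent.Helper656.Cap

variable {n : ℕ}

/-- TARGET -/
theorem integrable_poly_mul (m : E n → ℂ) (hm : Continuous m)
    (hg : ∃ (k : ℕ) (C : ℝ), ∀ ξ, ‖m ξ‖ ≤ C * (1 + ‖ξ‖) ^ k) (φ : 𝓢(E n, ℂ)) :
    Integrable (fun ξ => m ξ * φ ξ) := by
  obtain ⟨k, C, hC⟩ := hg
  have h0 : Integrable (fun ξ : E n => ‖φ ξ‖) := φ.integrable.norm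
  have hk : Integrable (fun ξ : E n => ‖ξ‖ ^ k * ‖φ ξ‖) := φ.integrable_pow_mul volume k
  have h1 : Integrable (fun ξ : E n => |C| * 2 ^ k * (‖φ ξ‖ + ‖ξ‖ ^ k * ‖φ ξ‖)) :=
    (h0.add hk).const_mul _
  refine h1.mono' (hm.mul φ.continuous).aestronglyMeasurable
    (Filter.Eventually.of_forall fun ξ => ?_)
  rw [norm_mul]
  have h2 : (1 + ‖ξ‖) ^ k ≤ 2 ^ k * (1 + ‖ξ‖ ^ k) := by
    rcases le_total ‖ξ‖ 1 with h | h
    · calc (1 + ‖ξ‖) ^ k ≤ 2 ^ k := by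
            apply pow_le_pow_left₀ (by positivity)
            linarith
        _ ≤ 2 ^ k * (1 + ‖ξ‖ ^ k) := by
            apply le_mul_of_one_le_right (by positivity)
            have : 0 ≤ ‖ξ‖ ^ k := by positivity
            linarith
    · calc (1 + ‖ξ‖) ^ k ≤ (2 * ‖ξ‖) ^ k := by
            apply pow_le_pow_left₀ (by positivity)
            linarith
        _ = 2 ^ k * ‖ξ‖ ^ k := by rw [mul_pow]
        _ ≤ 2 ^ k * (1 + ‖ξ‖ ^ k) := by gcongr; linarith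
  have h3 : ‖m ξ‖ ≤ |C| * (2 ^ k * (1 + ‖ξ‖ ^ k)) := by
    calc ‖m ξ‖ ≤ C * (1 + ‖ξ‖) ^ k := hC ξ
      _ ≤ |C| * (1 + ‖ξ‖) ^ k := by
          gcongr
          exact le_abs_self C
      _ ≤ |C| * (2 ^ k * (1 + ‖ξ‖ ^ k)) := by gcongr
  calc ‖m ξ‖ * ‖φ ξ‖ ≤ |C| * (2 ^ k * (1 + ‖ξ‖ ^ k)) * ‖φ ξ‖ := by gcongr
    _ = |C| * 2 ^ k * (‖φ ξ‖ + ‖ξ‖ ^ k * ‖φ ξ‖) := by ring

/-- TARGET -/
theorem pairing_conv (h : 𝓢'(E n, ℂ)) (m : E n → ℂ) (hm : Continuous m)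
    (hg : ∃ (k : ℕ) (C : ℝ), ∀ ξ, ‖m ξ‖ ≤ C * (1 + ‖ξ‖) ^ k)
    (hh : ∀ φ : 𝓢(E n, ℂ), (𝓕 h) φ = ∫ ξ, m ξ * φ ξ) (a b : 𝓢(E n, ℂ)) :
    ∫ ξ, m ξ * (𝓕⁻ a ξ * 𝓕⁻ b ξ) = ∫ y, a y * h (b.compSubConstCLM ℂ y) := by
  have hshift : ∀ y : E n, b.compSubConstCLM ℂ y = dil y 1 one_pos b := by
    intro y
    ext x
    rw [dil_apply, SchwartzMap.compSubConstCLM_apply]
    simp
  have hinv : ∀ (y ξ : E n), 𝓕⁻ (b.compSubConstCLM ℂ y) ξ =
      Complex.exp (2 * Real.pi * ⟪y, ξ⟫ * Complex.I) * 𝓕⁻ b ξ := by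
    intro y ξ
    rw [hshift, fourierInv_dil, one_smul]
  have hpair : ∀ y : E n, h (b.compSubConstCLM ℂ y) =
      ∫ ξ, m ξ * (Complex.exp (2 * Real.pi * ⟪y, ξ⟫ * Complex.I) * 𝓕⁻ b ξ) := by
    intro y
    have h1 := hh (𝓕⁻ (b.compSubConstCLM ℂ y))
    rw [TemperedDistribution.fourier_apply, FourierTransform.fourier_fourierInv_eq] at h1
    rw [h1]
    refine integral_congr_ae (Filter.Eventually.of_forall fun ξ => ?_)
    simp only
    rw [hinv]
  have hainv : ∀ ξ : E n, 𝓕⁻ a ξ = ∫ y, Complex.exp (2 * Real.pi * ⟪y, ξ⟫ * Complex.I) * a y := by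
    intro ξ
    rw [fourierInv_coe, Real.fourierInv_eq']
    simp only [smul_eq_mul]
    refine integral_congr_ae (Filter.Eventually.of_forall fun y => ?_)
    simp only
    congr 2
    push_cast
    ring
  let F : E n → E n → ℂ := fun ξ y =>
    (m ξ * 𝓕⁻ b ξ) * a y * Complex.exp (2 * Real.pi * ⟪y, ξ⟫ * Complex.I)
  have hint : Integrable (Function.uncurry F) ((volume : Measure (E n)).prod volume) := by
    have h1 : Integrable (fun ξ => m ξ * (𝓕⁻ b : 𝓢(E n, ℂ)) ξ) := integrable_poly_mul m hm hg _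
    have h2 : Integrable (fun z : E n × E n => (m z.1 * (𝓕⁻ b : 𝓢(E n, ℂ)) z.1) * a z.2)
        ((volume : Measure (E n)).prod volume) := h1.mul_prod a.integrable
    refine h2.mono ?_ (Filter.Eventually.of_forall fun z => ?_)
    · apply Continuous.aestronglyMeasurable
      have c1 : Continuous (fun ξ : E n => (𝓕⁻ b : 𝓢(E n, ℂ)) ξ) := (𝓕⁻ b : 𝓢(E n, ℂ)).continuous
      have c2 : Continuous (fun ξ : E n => a ξ) := a.continuous
      have c3 : Continuous (fun z : E n × E n =>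
        (m z.1 * (𝓕⁻ b : 𝓢(E n, ℂ)) z.1) * a z.2 *
          Complex.exp (2 * Real.pi * ⟪z.2, z.1⟫ * Complex.I)) := by
        refine ((hm.comp continuous_fst).mul (c1.comp continuous_fst)).mul
          (c2.comp continuous_snd) |>.mul ?_
        fun_prop
      exact c3
    · show ‖(m z.1 * (𝓕⁻ b : 𝓢(E n, ℂ)) z.1) * a z.2 *
          Complex.exp (2 * Real.pi * ⟪z.2, z.1⟫ * Complex.I)‖ ≤ _
      rw [norm_mul]
      have : ‖Complex.exp (2 * Real.pi * ⟪z.2, z.1⟫ * Complex.I)‖ = 1 := by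
        have := Complex.norm_exp_ofReal_mul_I (2 * Real.pi * ⟪z.2, z.1⟫)
        push_cast at this
        exact this
      rw [this, mul_one]
  have hsw := integral_integral_swap hint
  have hL : ∫ ξ, m ξ * (𝓕⁻ a ξ * 𝓕⁻ b ξ) = ∫ ξ, ∫ y, F ξ y := by
    refine integral_congr_ae (Filter.Eventually.of_forall fun ξ => ?_)
    simp only [F]
    rw [hainv, ← integral_mul_const, ← integral_const_mul]
    refine integral_congr_ae (Filter.Eventually.of_forall fun y => ?_)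
    simp only
    ring
  have hR : ∫ y, a y * h (b.compSubConstCLM ℂ y) = ∫ y, ∫ ξ, F ξ y := by
    refine integral_congr_ae (Filter.Eventually.of_forall fun y => ?_)
    simp only [F]
    rw [hpair, ← integral_const_mul]
    refine integral_congr_ae (Filter.Eventually.of_forall fun ξ => ?_)
    simp only
    ring
  rw [hL, hR, hsw]

end Pool.Agent.Helper656.Cap
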