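import Pool.Agent.Helper656.CapDefs

namespace Pool.Agent.Helper656.Cap

/-- dyadic cubes: `(k, v)` is the half-open cube of side `2^k` with lower corner `2^k v`. -/
abbrev Cube (n : ℕ) : Type := ℤ × (Fin n → ℤ)

/-- side length -/
noncomputable def Cube.side {n : ℕ} (Q : Cube n) : ℝ := (2 : ℝ) ^ Q.1

/-- the points of the cube -/
def Cube.set {n : ℕ} (Q : Cube n) : Set (E n) := {x | ∀ i, ⌊x i / (2 : ℝ) ^ Q.1⌋ = Q.2 i}

/-- the center -/
noncomputable def Cube.center {n : ℕ} (Q : Cube n) : E n :=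
  WithLp.toLp 2 (fun i => (2 : ℝ) ^ Q.1 * ((Q.2 i : ℝ) + 1 / 2))

end Pool.Agent.Helper656.Cap
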