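import Mathlib

/-!
Definitions for MP_4ab57e_an: Riesz-potential capacities of the real Hardy spaces `H^p(ℝⁿ)`.
-/

open MeasureTheory SchwartzMap
open scoped ENNReal NNReal FourierTransform SchwartzMap

namespace Pool.Agent.Helper656.Cap

/-- Euclidean space `ℝⁿ`. -/
abbrev E (n : ℕ) : Type := EuclideanSpace ℝ (Fin n)

/-- `Adapted N x t ψ`: the Schwartz function `ψ` has the form `ψ(y) = t⁻ⁿ φ((y - x)/t)` with
`‖z‖^k ‖D^l φ(z)‖ ≤ 1` for all `k, l ≤ N` and all `z` (a test function of order `N` at the point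
`x` and of scale `t`). -/
def Adapted {n : ℕ} (N : ℕ) (x : E n) (t : ℝ) (ψ : 𝓢(E n, ℂ)) : Prop :=
  ∀ k ≤ N, ∀ l ≤ N, ∀ y : E n,
    (‖y - x‖ / t) ^ k * (t ^ (n + l) * ‖iteratedFDeriv ℝ l ψ y‖) ≤ 1

/-- The grand maximal function of order `N` of a tempered distribution `h` (Fefferman-Stein):
`sup |⟨h, ψ⟩|` over all test functions `ψ` of order `N` at the point `x`, of any scale `t > 0`. -/
noncomputable def grandMax {n : ℕ} (N : ℕ) (h : 𝓢'(E n, ℂ)) (x : E n) : ℝ≥0∞ :=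
  ⨆ (t : ℝ) (_ : 0 < t) (ψ : 𝓢(E n, ℂ)) (_ : Adapted N x t ψ), ‖h ψ‖ₑ

/-- `‖h‖_{H^p}^p`, the `p`-th power of the `H^p` quasi-norm given by the grand maximal function of
order `N`; it is `∞` when `h` is not in `H^p`. -/
noncomputable def hardyPow {n : ℕ} (N : ℕ) (p : ℝ) (h : 𝓢'(E n, ℂ)) : ℝ≥0∞ :=
  ∫⁻ x, grandMax N h x ^ p

/-- `U = I_α h`: the Fourier transform of `h` is a continuous function `m` of polynomial growth
(this holds for every `h` in `H^p`, `p ≤ 1`), the function `‖ξ‖^(-α) m(ξ)` is locally integrable,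
and it is the Fourier transform of `U`. -/
def IsRieszPotential {n : ℕ} (α : ℝ) (h U : 𝓢'(E n, ℂ)) : Prop :=
  ∃ m : E n → ℂ, Continuous m ∧ (∃ (k : ℕ) (C : ℝ), ∀ ξ, ‖m ξ‖ ≤ C * (1 + ‖ξ‖) ^ k) ∧
    LocallyIntegrable (fun ξ : E n => ((‖ξ‖ ^ (-α) : ℝ) : ℂ) * m ξ) ∧
    (∀ φ : 𝓢(E n, ℂ), (𝓕 h) φ = ∫ ξ, m ξ * φ ξ) ∧
    (∀ φ : 𝓢(E n, ℂ), (𝓕 U) φ = ∫ ξ, ((‖ξ‖ ^ (-α) : ℝ) : ℂ) * m ξ * φ ξ)

/-- `I_α h` is a locally integrable function which is (real and) at least one almost everywhere on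
an open set containing `K`. -/
def IsCompetitor {n : ℕ} (α : ℝ) (K : Set (E n)) (h : 𝓢'(E n, ℂ)) : Prop :=
  ∃ (U : 𝓢'(E n, ℂ)) (u : E n → ℂ) (Ω : Set (E n)), IsRieszPotential α h U ∧
    LocallyIntegrable u ∧ (∀ φ : 𝓢(E n, ℂ), HasCompactSupport φ → U φ = ∫ x, u x * φ x) ∧
    IsOpen Ω ∧ K ⊆ Ω ∧ ∀ᵐ x, x ∈ Ω → ∃ r : ℝ, 1 ≤ r ∧ u x = r

/-- The capacity `cap_{α,p}(K)`: the infimum of `‖h‖_{H^p}^p` over all `h` in `H^p` such that
`I_α h` is a locally integrable function which is at least one a.e. on an open set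
containing `K`. -/
noncomputable def rieszCap {n : ℕ} (N : ℕ) (α p : ℝ) (K : Set (E n)) : ℝ≥0∞ :=
  ⨅ (h : 𝓢'(E n, ℂ)) (_ : IsCompetitor α K h), hardyPow N p h

/-- The Hausdorff content `H^d_∞(K)`: the infimum of `∑ rᵢ^d` over all countable covers of `K` by
balls `B(cᵢ, rᵢ)`. -/
noncomputable def hausdorffContent {n : ℕ} (d : ℝ) (K : Set (E n)) : ℝ≥0∞ :=
  ⨅ (c : ℕ → E n) (r : ℕ → ℝ≥0) (_ : K ⊆ ⋃ i, Metric.ball (c i) (r i)), ∑' i, (r i : ℝ≥0∞) ^ d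

end Pool.Agent.Helper656.Cap
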