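import Pool.Agent.Helper656.CapAdapted
import Pool.Agent.Helper656.CapBeta

open MeasureTheory SchwartzMap
open scoped ENNReal NNReal FourierTransform SchwartzMap RealInnerProductSpace

namespace Pool.Agent.Helper656.Cap

variable {n : ℕ}

theorem integral_comp_affine (c : E n) {r : ℝ} (hr : 0 < r) (f : E n → ℂ) :
    ∫ y, ((r ^ n : ℝ) : ℂ) * f (c + r • y) = ∫ z, f z := by
  rw [integral_const_mul]
  have h1 := Measure.integral_comp_smul_of_nonneg (volume : Measure (E n)) (fun z => f (c + z)) r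
    (hR := hr.le)
  rw [h1, finrank_euclideanSpace_fin, integral_add_left_eq_self (fun z => f z) c]
  rw [Complex.real_smul, ← mul_assoc, ← Complex.ofReal_mul, mul_inv_cancel₀ (by positivity),
    Complex.ofReal_one, one_mul]

theorem integral_mul_pull (c : E n) {r : ℝ} (hr : 0 < r) (ψ : 𝓢(E n, ℂ)) (e : E n → ℂ) :
    ∫ y, e y * pull c r hr ψ y = ∫ z, e (r⁻¹ • (z - c)) * ψ z := by
  rw [← integral_comp_affine c hr (fun z => e (r⁻¹ • (z - c)) * ψ z)]
  refine integral_congr_ae (Filter.Eventually.of_forall fun y => ?_)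
  simp only [pull_apply]
  rw [add_sub_cancel_left, smul_smul, inv_mul_cancel₀ hr.ne', one_smul]
  ring

theorem integral_mul_dil (x : E n) {t : ℝ} (ht : 0 < t) (φ : 𝓢(E n, ℂ)) (e : E n → ℂ) :
    ∫ y, e y * dil x t ht φ y = ∫ z, e (x + t • z) * φ z := by
  rw [dil, integral_mul_pull]
  refine integral_congr_ae (Filter.Eventually.of_forall fun z => ?_)
  simp only [inv_inv, sub_neg_eq_add, smul_add, smul_smul, mul_inv_cancel₀ ht.ne', one_smul]
  rw [add_comm]

theorem fourier_dil (x : E n) {t : ℝ} (ht : 0 < t) (φ : 𝓢(E n, ℂ)) (ξ : E n) :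
    𝓕 (dil x t ht φ) ξ = Complex.exp (-(2 * Real.pi * ⟪x, ξ⟫ * Complex.I)) * 𝓕 φ (t • ξ) := by
  rw [fourier_coe, fourier_coe, Real.fourier_eq', Real.fourier_eq']
  simp only [smul_eq_mul]
  rw [integral_mul_dil, ← integral_const_mul]
  refine integral_congr_ae (Filter.Eventually.of_forall fun z => ?_)
  simp only
  rw [← mul_assoc, ← Complex.exp_add]
  congr 2
  rw [inner_add_left, real_inner_smul_left, real_inner_smul_right]
  push_cast
  ring

theorem fourierInv_dil (x : E n) {t : ℝ} (ht : 0 < t) (φ : 𝓢(E n, ℂ)) (ξ : E n) :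
    𝓕⁻ (dil x t ht φ) ξ = Complex.exp (2 * Real.pi * ⟪x, ξ⟫ * Complex.I) * 𝓕⁻ φ (t • ξ) := by
  rw [fourierInv_coe, fourierInv_coe, Real.fourierInv_eq', Real.fourierInv_eq']
  simp only [smul_eq_mul]
  rw [integral_mul_dil, ← integral_const_mul]
  refine integral_congr_ae (Filter.Eventually.of_forall fun z => ?_)
  simp only
  rw [← mul_assoc, ← Complex.exp_add]
  congr 2
  rw [inner_add_left, real_inner_smul_left, real_inner_smul_right]
  push_cast
  ring

theorem beta_nonneg (s : ℝ) : 0 ≤ beta s := Real.smoothTransition.nonneg _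

theorem beta_le_one (s : ℝ) : beta s ≤ 1 := Real.smoothTransition.le_one _

theorem beta_eq_one {s : ℝ} (hs : |s| ≤ 1) : beta s = 1 := by
  apply Real.smoothTransition.one_of_one_le
  have : s ^ 2 ≤ 1 := by rw [← sq_abs]; nlinarith [abs_nonneg s]
  linarith

theorem beta_eq_zero {s : ℝ} (hs : 2 ≤ s ^ 2) : beta s = 0 := by
  apply Real.smoothTransition.zero_of_nonpos
  linarith

theorem continuous_beta : Continuous beta := by
  unfold beta
  exact Real.smoothTransition.continuous.comp (by fun_prop)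

/-- smoothness -/
theorem contDiff_beta_norm (m : ℕ∞) : ContDiff ℝ m (fun ξ : E n => beta ‖ξ‖) := by
  unfold beta
  exact Real.smoothTransition.contDiff.comp (contDiff_const.sub (contDiff_norm_sq ℝ))

theorem hasCompactSupport_beta_norm : HasCompactSupport (fun ξ : E n => ((beta ‖ξ‖ : ℝ) : ℂ)) := by
  apply HasCompactSupport.of_support_subset_isCompact (isCompact_closedBall (0 : E n) 2)
  intro ξ hξ
  rw [Metric.mem_closedBall, dist_zero_right]
  by_contra h
  apply hξ
  simp only
  rw [beta_eq_zero (by nlinarith), Complex.ofReal_zero]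

/-- the bump as a Schwartz function -/
noncomputable def bmp : 𝓢(E n, ℂ) :=
  (hasCompactSupport_beta_norm (n := n)).toSchwartzMap
    (Complex.ofRealCLM.contDiff.comp (contDiff_beta_norm _))

theorem bmp_apply (ξ : E n) : (bmp : 𝓢(E n, ℂ)) ξ = ((beta ‖ξ‖ : ℝ) : ℂ) := rfl

end Pool.Agent.Helper656.Cap
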