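import Pool.Agent.Helper656.CapConv

open MeasureTheory SchwartzMap
open scoped ENNReal NNReal FourierTransform SchwartzMap RealInnerProductSpace

namespace Pool.Agent.Helper656.Cap

variable {n : ℕ}

theorem integrableOn_kappa (α : ℝ) (hα : 0 < α) :
    IntegrableOn (fun r : ℝ => r ^ (α - 1) * beta r) (Set.Ioi 0) := by
  have h1 : IntegrableOn (fun r : ℝ => r ^ (α - 1)) (Set.Ioc 0 2) := by
    have := (intervalIntegral.intervalIntegrable_rpow' (a := 0) (b := 2)
      (by linarith : -1 < α - 1)).1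
    exact this
  have h2 : IntegrableOn (fun r : ℝ => r ^ (α - 1) * beta r) (Set.Ioc 0 2) := by
    refine h1.mul_bdd (c := 1) continuous_beta.aestronglyMeasurable ?_
    refine Filter.Eventually.of_forall fun r => ?_
    rw [Real.norm_of_nonneg (beta_nonneg r)]
    exact beta_le_one r
  have h3 : Set.Ioi (0 : ℝ) = Set.Ioc 0 2 ∪ Set.Ioi 2 := (Set.Ioc_union_Ioi_eq_Ioi (by norm_num)).symm
  rw [h3]
  refine h2.union ?_
  refine (integrableOn_zero (s := Set.Ioi (2 : ℝ))).congr_fun ?_ measurableSet_Ioi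
  intro r hr
  have h4 : beta r = 0 := beta_eq_zero (by nlinarith [Set.mem_Ioi.1 hr])
  show (0 : ℝ) = r ^ (α - 1) * beta r
  rw [h4, mul_zero]

theorem kappa_pos (α : ℝ) (hα : 0 < α) :
    0 < ∫ r in Set.Ioi (0 : ℝ), r ^ (α - 1) * beta r := by
  have h1 : ∫ r in Set.Ioc (0 : ℝ) 1, r ^ (α - 1) ≤ ∫ r in Set.Ioi (0 : ℝ), r ^ (α - 1) * beta r := by
    have e : ∫ r in Set.Ioc (0 : ℝ) 1, r ^ (α - 1) = ∫ r in Set.Ioc (0 : ℝ) 1, r ^ (α - 1) * beta r := by
      refine setIntegral_congr_fun measurableSet_Ioc fun r hr => ?_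
      show r ^ (α - 1) = r ^ (α - 1) * beta r
      rw [beta_eq_one (by rw [abs_of_pos hr.1]; exact hr.2), mul_one]
    rw [e]
    refine setIntegral_mono_set (integrableOn_kappa α hα) ?_ ?_
    · refine (ae_restrict_iff' measurableSet_Ioi).2 (Filter.Eventually.of_forall fun r hr => ?_)
      exact mul_nonneg (Real.rpow_nonneg (le_of_lt hr) _) (beta_nonneg r)
    · exact Filter.Eventually.of_forall fun r hr => hr.1
  refine lt_of_lt_of_le ?_ h1
  rw [← intervalIntegral.integral_of_le (by norm_num), integral_rpow (Or.inl (by linarith))]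
  rw [Real.one_rpow, Real.zero_rpow (by linarith), sub_zero]
  apply one_div_pos.2
  linarith

theorem slice (α : ℝ) (hα : 0 < α) {s : ℝ} (hs : 0 < s) :
    IntegrableOn (fun r : ℝ => r ^ (α - 1) * beta (r * s)) (Set.Ioi 0) ∧
      ∫ r in Set.Ioi (0 : ℝ), r ^ (α - 1) * beta (r * s)
        = s ^ (-α) * ∫ r in Set.Ioi (0 : ℝ), r ^ (α - 1) * beta r := by
  have e : ∀ r ∈ Set.Ioi (0 : ℝ), r ^ (α - 1) * beta (r * s)
      = s ^ (1 - α) * ((r * s) ^ (α - 1) * beta (r * s)) := by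
    intro r hr
    rw [Real.mul_rpow (le_of_lt hr) hs.le]
    have : s ^ (1 - α) * s ^ (α - 1) = 1 := by
      rw [← Real.rpow_add hs]; simp
    calc r ^ (α - 1) * beta (r * s) = (s ^ (1 - α) * s ^ (α - 1)) * (r ^ (α - 1) * beta (r * s)) := by
          rw [this, one_mul]
      _ = _ := by ring
  constructor
  · refine IntegrableOn.congr_fun ?_ (fun r hr => (e r hr).symm) measurableSet_Ioi
    apply Integrable.const_mul
    have := (integrableOn_Ioi_comp_mul_right_iff (fun r : ℝ => r ^ (α - 1) * beta r) 0 hs).2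
    rw [zero_mul] at this
    exact this (integrableOn_kappa α hα)
  · rw [setIntegral_congr_fun measurableSet_Ioi e, integral_const_mul]
    have h := integral_comp_mul_right_Ioi (fun r : ℝ => r ^ (α - 1) * beta r) 0 hs
    rw [zero_mul] at h
    rw [h, smul_eq_mul, ← mul_assoc]
    congr 1
    rw [← Real.rpow_neg_one s, ← Real.rpow_add hs]
    congr 1; ring

/-- TARGET -/
theorem riesz_slice (hn : 1 ≤ n) (α : ℝ) (hα : 0 < α) : ∃ c : ℝ≥0, ∀ m : E n → ℂ,
    Continuous m → (∃ (k : ℕ) (C : ℝ), ∀ ξ, ‖m ξ‖ ≤ C * (1 + ‖ξ‖) ^ k) →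
    LocallyIntegrable (fun ξ : E n => ((‖ξ‖ ^ (-α) : ℝ) : ℂ) * m ξ) → ∀ φ : 𝓢(E n, ℂ),
    ‖∫ ξ, ((‖ξ‖ ^ (-α) : ℝ) : ℂ) * m ξ * φ ξ‖ₑ ≤ c * ∫⁻ r in Set.Ioi (0 : ℝ),
      ENNReal.ofReal (r ^ (α - 1)) * ‖∫ ξ, m ξ * φ ξ * ((beta (r * ‖ξ‖) : ℝ) : ℂ)‖ₑ := by
  set κ : ℝ := ∫ r in Set.Ioi (0 : ℝ), r ^ (α - 1) * beta r with hκ
  have hκ0 : 0 < κ := kappa_pos α hα
  refine ⟨NNReal.mk κ⁻¹ (inv_pos.2 hκ0).le, ?_⟩
  intro m hm hg hloc φ
  have hmφ := integrable_poly_mul m hm hg φ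
  have : Nonempty (Fin n) := ⟨⟨0, by omega⟩⟩
  have : Nontrivial (E n) := inferInstance
  -- integrability of the left side
  have hI : Integrable (fun ξ : E n => ((‖ξ‖ ^ (-α) : ℝ) : ℂ) * m ξ * φ ξ) := by
    have hmeas : AEStronglyMeasurable (fun ξ : E n => ((‖ξ‖ ^ (-α) : ℝ) : ℂ) * m ξ * φ ξ) volume := by
      refine (AEStronglyMeasurable.mul ?_ hm.aestronglyMeasurable).mul φ.continuous.aestronglyMeasurable
      have : Measurable (fun ξ : E n => ((‖ξ‖ ^ (-α) : ℝ) : ℂ)) := by fun_prop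
      exact this.aestronglyMeasurable
    rw [← integrableOn_univ, ← Set.union_compl_self (Metric.closedBall (0 : E n) 1)]
    refine IntegrableOn.union ?_ ?_
    · have h1 := hloc.integrableOn_isCompact (isCompact_closedBall (0 : E n) 1)
      obtain ⟨C, hC⟩ := φ.decay 0 0
      refine h1.mul_bdd (c := C) φ.continuous.aestronglyMeasurable ?_
      refine Filter.Eventually.of_forall fun ξ => ?_
      have := hC.2 ξ
      simpa using this
    · refine Integrable.mono (hmφ.integrableOn (s := (Metric.closedBall (0 : E n) 1)ᶜ)) hmeas.restrict ?_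
      refine (ae_restrict_iff' measurableSet_closedBall.compl).2
        (Filter.Eventually.of_forall fun ξ hξ => ?_)
      rw [Set.mem_compl_iff, Metric.mem_closedBall, dist_zero_right, not_le] at hξ
      rw [mul_assoc, norm_mul, Complex.norm_real, Real.norm_of_nonneg (by positivity)]
      have : ‖ξ‖ ^ (-α) ≤ 1 := Real.rpow_le_one_of_one_le_of_nonpos hξ.le (by linarith)
      calc ‖ξ‖ ^ (-α) * ‖m ξ * φ ξ‖ ≤ 1 * ‖m ξ * φ ξ‖ := by gcongr
        _ = _ := one_mul _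
  have hne : ∀ᵐ ξ : E n, ξ ≠ 0 := by
    rw [ae_iff]
    simp
  have hpos : ∀ r ∈ Set.Ioi (0 : ℝ), ∀ s : ℝ, 0 ≤ r ^ (α - 1) * beta (r * s) := fun r hr s =>
    mul_nonneg (Real.rpow_nonneg (le_of_lt hr) _) (beta_nonneg _)
  set F : E n → ℝ → ℂ := fun ξ r => ((r ^ (α - 1) * beta (r * ‖ξ‖) : ℝ) : ℂ) * (m ξ * φ ξ) with hFdef
  have hFmeas : AEStronglyMeasurable (Function.uncurry F)
      ((volume : Measure (E n)).prod (volume.restrict (Set.Ioi (0 : ℝ)))) := by
    have h1 : Measurable (fun z : E n × ℝ => ((z.2 ^ (α - 1) * beta (z.2 * ‖z.1‖) : ℝ) : ℂ)) := by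
      have hb : Measurable (fun z : E n × ℝ => beta (z.2 * ‖z.1‖)) :=
        continuous_beta.measurable.comp (by fun_prop)
      fun_prop
    have h2 : Measurable (fun z : E n × ℝ => m z.1 * φ z.1) :=
      ((hm.comp continuous_fst).mul (φ.continuous.comp continuous_fst)).measurable
    exact (h1.mul h2).aestronglyMeasurable
  have hFint : Integrable (Function.uncurry F)
      ((volume : Measure (E n)).prod (volume.restrict (Set.Ioi (0 : ℝ)))) := by
    refine (integrable_prod_iff hFmeas).2 ⟨?_, ?_⟩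
    · filter_upwards [hne] with ξ hξ
      have h7 := ((slice α hα (norm_pos_iff.2 hξ)).1.ofReal (𝕜 := ℂ)).mul_const (m ξ * φ ξ)
      exact h7
    · refine (hI.norm.const_mul κ).congr ?_
      filter_upwards [hne] with ξ hξ
      have h1 : ∫ r in Set.Ioi (0 : ℝ), ‖Function.uncurry F (ξ, r)‖
          = ∫ r in Set.Ioi (0 : ℝ), (r ^ (α - 1) * beta (r * ‖ξ‖)) * ‖m ξ * φ ξ‖ := by
        refine setIntegral_congr_fun measurableSet_Ioi fun r hr => ?_
        simp only [Function.uncurry, hFdef]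
        rw [norm_mul, Complex.norm_real, Real.norm_of_nonneg (hpos r hr _)]
      rw [h1, integral_mul_const, (slice α hα (norm_pos_iff.2 hξ)).2, mul_assoc
        (((‖ξ‖ ^ (-α) : ℝ) : ℂ)), norm_mul (((‖ξ‖ ^ (-α) : ℝ) : ℂ)), Complex.norm_real,
        Real.norm_of_nonneg (by positivity)]
      ring
  have hslice : ∫ ξ, ((‖ξ‖ ^ (-α) : ℝ) : ℂ) * m ξ * φ ξ
      = ((κ⁻¹ : ℝ) : ℂ) * ∫ ξ, ∫ r in Set.Ioi (0 : ℝ), F ξ r := by
    rw [← integral_const_mul]
    refine integral_congr_ae ?_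
    filter_upwards [hne] with ξ hξ
    simp only [hFdef]
    rw [integral_mul_const, integral_complex_ofReal, (slice α hα (norm_pos_iff.2 hξ)).2]
    rw [Complex.ofReal_mul, Complex.ofReal_inv]
    have hκc : ((κ : ℝ) : ℂ) ≠ 0 := by exact_mod_cast hκ0.ne'
    rw [← hκ]
    field_simp
  rw [hslice, integral_integral_swap hFint, enorm_mul]
  have hc : ‖((κ⁻¹ : ℝ) : ℂ)‖ₑ = ((NNReal.mk κ⁻¹ (inv_pos.2 hκ0).le : ℝ≥0) : ℝ≥0∞) := by
    rw [← ofReal_norm, Complex.norm_real, Real.norm_of_nonneg (inv_nonneg.2 hκ0.le),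
      ENNReal.ofReal, Real.toNNReal_of_nonneg (inv_pos.2 hκ0).le]
  rw [hc]
  gcongr
  refine (enorm_integral_le_lintegral_enorm _).trans (le_of_eq ?_)
  refine setLIntegral_congr_fun measurableSet_Ioi fun r hr => ?_
  simp only [hFdef]
  have h5 : ∫ ξ, ((r ^ (α - 1) * beta (r * ‖ξ‖) : ℝ) : ℂ) * (m ξ * φ ξ)
      = ((r ^ (α - 1) : ℝ) : ℂ) * ∫ ξ, m ξ * φ ξ * ((beta (r * ‖ξ‖) : ℝ) : ℂ) := by
    rw [← integral_const_mul]
    refine integral_congr_ae (Filter.Eventually.of_forall fun ξ => ?_)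
    simp only
    push_cast
    ring
  rw [h5, enorm_mul]
  congr 1
  rw [← ofReal_norm, Complex.norm_real, Real.norm_of_nonneg (Real.rpow_nonneg (le_of_lt hr) _)]

end Pool.Agent.Helper656.Cap
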