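import Pool.Agent.Helper656.CapConv

open MeasureTheory SchwartzMap
open scoped ENNReal NNReal FourierTransform SchwartzMap RealInnerProductSpace

namespace Pool.Agent.Helper656.Cap

variable {n : ℕ}

theorem lintegral_dil (x : E n) {t : ℝ} (ht : 0 < t) (φ : 𝓢(E n, ℂ)) (w : E n → ℝ≥0∞)
    (hw : Measurable w) :
    ∫⁻ y, ‖dil x t ht φ y‖ₑ * w (t⁻¹ • (y - x)) = ∫⁻ z, ‖φ z‖ₑ * w z := by
  have hF : Measurable (fun z : E n => ‖φ z‖ₑ * w z) :=
    (φ.continuous.enorm.measurable).mul hw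
  have h1 : ∀ y : E n, ‖dil x t ht φ y‖ₑ * w (t⁻¹ • (y - x)) =
      ENNReal.ofReal ((t⁻¹) ^ n) * ((fun z : E n => ‖φ z‖ₑ * w z) (t⁻¹ • (y - x))) := by
    intro y
    rw [dil_apply, enorm_mul, ← ofReal_norm (((t⁻¹) ^ n : ℝ) : ℂ), Complex.norm_real,
      Real.norm_of_nonneg (by positivity), mul_assoc]
  rw [lintegral_congr h1, lintegral_const_mul _ (by
    exact hF.comp ((measurable_id.sub_const x).const_smul t⁻¹))]
  rw [lintegral_sub_right_eq_self (fun y : E n => (fun z : E n => ‖φ z‖ₑ * w z) (t⁻¹ • y)) x]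
  have h2 := Measure.map_addHaar_smul (volume : Measure (E n)) (r := t⁻¹) (inv_ne_zero ht.ne')
  have h3 : ∫⁻ y : E n, (fun z : E n => ‖φ z‖ₑ * w z) (t⁻¹ • y) =
      ∫⁻ z, (fun z : E n => ‖φ z‖ₑ * w z) z ∂(Measure.map (t⁻¹ • ·) (volume : Measure (E n))) := by
    rw [lintegral_map hF (measurable_const_smul t⁻¹)]
  rw [h3, h2, lintegral_smul_measure, smul_eq_mul, ← mul_assoc, ← ENNReal.ofReal_mul (by positivity),
    finrank_euclideanSpace_fin, abs_of_pos (by positivity), mul_inv_cancel₀ (by positivity),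
    ENNReal.ofReal_one, one_mul]

theorem lintegral_enorm_dil (x : E n) {t : ℝ} (ht : 0 < t) (φ : 𝓢(E n, ℂ)) :
    ∫⁻ y, ‖dil x t ht φ y‖ₑ = ∫⁻ z, ‖φ z‖ₑ := by
  have := lintegral_dil x ht φ (fun _ => 1) measurable_const
  simpa using this

theorem lintegral_weight_lt_top (φ : 𝓢(E n, ℂ)) (N : ℕ) :
    ∫⁻ z, ‖φ z‖ₑ * ENNReal.ofReal ((3 + 2 * ‖z‖) ^ N) < ∞ := by
  have h1 : Integrable (fun z : E n => (6 : ℝ) ^ N * (‖φ z‖ + ‖z‖ ^ N * ‖φ z‖)) := by
    refine Integrable.const_mul ?_ _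
    exact (φ.integrable.norm).add (φ.integrable_pow_mul volume N)
  have h2 := h1.hasFiniteIntegral
  rw [hasFiniteIntegral_iff_enorm] at h2
  refine lt_of_le_of_lt (lintegral_mono fun z => ?_) h2
  rw [← ofReal_norm (φ z), ← ENNReal.ofReal_mul (norm_nonneg _), ← ofReal_norm,
    Real.norm_of_nonneg (by positivity)]
  apply ENNReal.ofReal_le_ofReal
  have h3 : (3 + 2 * ‖z‖) ^ N ≤ 6 ^ N * (1 + ‖z‖ ^ N) := by
    rcases le_total ‖z‖ 1 with h | h
    · calc (3 + 2 * ‖z‖) ^ N ≤ 6 ^ N := by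
            apply pow_le_pow_left₀ (by positivity); linarith
        _ ≤ 6 ^ N * (1 + ‖z‖ ^ N) := by
            have : (0 : ℝ) ≤ ‖z‖ ^ N := by positivity
            nlinarith [show (0 : ℝ) < 6 ^ N by positivity]
    · calc (3 + 2 * ‖z‖) ^ N ≤ (6 * ‖z‖) ^ N := by
            apply pow_le_pow_left₀ (by positivity); linarith
        _ = 6 ^ N * ‖z‖ ^ N := mul_pow _ _ _
        _ ≤ 6 ^ N * (1 + ‖z‖ ^ N) := by
            nlinarith [show (0 : ℝ) < 6 ^ N by positivity]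
  calc ‖φ z‖ * (3 + 2 * ‖z‖) ^ N ≤ ‖φ z‖ * (6 ^ N * (1 + ‖z‖ ^ N)) := by gcongr
    _ = _ := by ring

theorem dil_compSub (x y : E n) {t : ℝ} (ht : 0 < t) (φ : 𝓢(E n, ℂ)) :
    (dil x t ht φ).compSubConstCLM ℂ y = dil (x + y) t ht φ := by
  ext z
  rw [compSubConstCLM_apply, dil_apply, dil_apply]
  congr 3
  abel

theorem fourierInv_gam (r : ℝ) (hr : 0 < r) (ξ : E n) :
    𝓕⁻ (dil 0 r hr (𝓕 (bmp : 𝓢(E n, ℂ)))) ξ = ((beta (r * ‖ξ‖) : ℝ) : ℂ) := by
  rw [fourierInv_dil, inner_zero_left]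
  simp only [Complex.ofReal_zero, mul_zero, zero_mul, Complex.exp_zero, one_mul]
  have : 𝓕⁻ (𝓕 (bmp : 𝓢(E n, ℂ))) = bmp := by simp
  rw [this, bmp_apply, norm_smul, Real.norm_of_nonneg hr.le]

theorem bmp_ne_zero_norm {z : E n} (h : (bmp : 𝓢(E n, ℂ)) z ≠ 0) : ‖z‖ < 2 := by
  by_contra hz
  apply h
  rw [bmp_apply, beta_eq_zero (by nlinarith), Complex.ofReal_zero]

/-- TARGET -/
theorem slice_bound (N : ℕ) : ∃ C : ℝ≥0, ∀ (h : 𝓢'(E n, ℂ)) (m : E n → ℂ), Continuous m →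
    (∃ (k : ℕ) (C : ℝ), ∀ ξ, ‖m ξ‖ ≤ C * (1 + ‖ξ‖) ^ k) →
    (∀ φ : 𝓢(E n, ℂ), (𝓕 h) φ = ∫ ξ, m ξ * φ ξ) →
    ∀ (x : E n) (t : ℝ) (ht : 0 < t) (r : ℝ), 0 < r → ∀ x' ∈ Metric.ball x (max r t),
      ‖∫ ξ, m ξ * 𝓕⁻ (dil x (t / 2) (half_pos ht) bmp) ξ * ((beta (r * ‖ξ‖) : ℝ) : ℂ)‖ₑ ≤
        C * grandMax N h x' := by
  obtain ⟨C1, hC1, hA1⟩ := exists_adaptedC (n := n) N (𝓕 (bmp : 𝓢(E n, ℂ)))
  obtain ⟨C2, hC2, hA2⟩ := exists_adaptedC (n := n) N (bmp : 𝓢(E n, ℂ))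
  set K1 : ℝ≥0∞ := ∫⁻ z, ‖(bmp : 𝓢(E n, ℂ)) z‖ₑ with hK1
  set K2 : ℝ≥0∞ := ∫⁻ z, ‖(𝓕 (bmp : 𝓢(E n, ℂ)) : 𝓢(E n, ℂ)) z‖ₑ *
    ENNReal.ofReal ((3 + 2 * ‖z‖) ^ N) with hK2
  have hK1' : K1 ≠ ∞ := by
    have := (bmp : 𝓢(E n, ℂ)).integrable (μ := volume) |>.hasFiniteIntegral
    exact this.ne
  have hK2' : K2 ≠ ∞ := (lintegral_weight_lt_top _ N).ne
  refine ⟨(K1 * ENNReal.ofReal (C1 * 3 ^ N) + K2 * ENNReal.ofReal C2).toNNReal, ?_⟩
  intro h m hm hg hh x t ht r hr x' hx'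
  rw [ENNReal.coe_toNNReal (by
    exact ENNReal.add_ne_top.2 ⟨ENNReal.mul_ne_top hK1' ENNReal.ofReal_ne_top,
      ENNReal.mul_ne_top hK2' ENNReal.ofReal_ne_top⟩)]
  set φ : 𝓢(E n, ℂ) := dil x (t / 2) (half_pos ht) bmp with hφ
  set γr : 𝓢(E n, ℂ) := dil 0 r hr (𝓕 (bmp : 𝓢(E n, ℂ))) with hγr
  rcases le_or_gt t r with htr | htr
  · -- case `t ≤ r`
    rw [max_eq_left htr, Metric.mem_ball, dist_eq_norm] at hx'
    have e1 : ∫ ξ, m ξ * 𝓕⁻ φ ξ * ((beta (r * ‖ξ‖) : ℝ) : ℂ) =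
        ∫ y, φ y * h (γr.compSubConstCLM ℂ y) := by
      rw [← pairing_conv h m hm hg hh φ γr]
      refine integral_congr_ae (Filter.Eventually.of_forall fun ξ => ?_)
      simp only
      rw [hγr, fourierInv_gam, mul_assoc]
    rw [e1]
    calc ‖∫ y, φ y * h (γr.compSubConstCLM ℂ y)‖ₑ ≤ ∫⁻ y, ‖φ y * h (γr.compSubConstCLM ℂ y)‖ₑ :=
          enorm_integral_le_lintegral_enorm _
      _ ≤ ∫⁻ y, ‖φ y‖ₑ * (ENNReal.ofReal (C1 * 3 ^ N) * grandMax N h x') := by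
          refine lintegral_mono fun y => ?_
          rw [enorm_mul]
          by_cases hy : φ y = 0
          · rw [hy, enorm_zero, zero_mul, zero_mul]
          gcongr
          rw [hγr, dil_compSub, zero_add]
          have h1 : ‖y - x‖ ≤ t := by
            rw [hφ, dil_apply] at hy
            have h2 : (bmp : 𝓢(E n, ℂ)) ((t / 2)⁻¹ • (y - x)) ≠ 0 := right_ne_zero_of_mul hy
            have h3 := bmp_ne_zero_norm h2
            rw [norm_smul, Real.norm_of_nonneg (by positivity), inv_mul_lt_iff₀ (by positivity)] at h3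
            linarith
          have h2 : ‖y - x'‖ / r ≤ 2 := by
            rw [div_le_iff₀ hr]
            calc ‖y - x'‖ = ‖(y - x) - (x' - x)‖ := by congr 1; abel
              _ ≤ ‖y - x‖ + ‖x' - x‖ := norm_sub_le _ _
              _ ≤ 2 * r := by linarith
          have h3 := ((hA1.dil y hr).shift hr x')
          have h4 : AdaptedC N x' r (C1 * 3 ^ N) (dil y r hr (𝓕 (bmp : 𝓢(E n, ℂ)))) := by
            apply h3.mono
            gcongr
            linarith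
          exact h4.enorm_le hr (by positivity) h
      _ = K1 * ENNReal.ofReal (C1 * 3 ^ N) * grandMax N h x' := by
          rw [lintegral_mul_const _ (φ.continuous.enorm.measurable), hφ, lintegral_enorm_dil,
            mul_assoc]
      _ ≤ _ := by
          gcongr
          exact le_self_add
  · rw [max_eq_right htr.le, Metric.mem_ball, dist_eq_norm] at hx'
    have e1 : ∫ ξ, m ξ * 𝓕⁻ φ ξ * ((beta (r * ‖ξ‖) : ℝ) : ℂ) =
        ∫ y, γr y * h (φ.compSubConstCLM ℂ y) := by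
      rw [← pairing_conv h m hm hg hh γr φ]
      refine integral_congr_ae (Filter.Eventually.of_forall fun ξ => ?_)
      simp only
      rw [hγr, fourierInv_gam]
      ring
    rw [e1]
    calc ‖∫ y, γr y * h (φ.compSubConstCLM ℂ y)‖ₑ ≤ ∫⁻ y, ‖γr y * h (φ.compSubConstCLM ℂ y)‖ₑ :=
          enorm_integral_le_lintegral_enorm _
      _ ≤ ∫⁻ y, ‖γr y‖ₑ * (fun z : E n => ENNReal.ofReal ((3 + 2 * ‖z‖) ^ N)) (r⁻¹ • (y - 0)) *
            (ENNReal.ofReal C2 * grandMax N h x') := by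
          refine lintegral_mono fun y => ?_
          simp only
          rw [enorm_mul, mul_assoc]
          gcongr
          rw [hφ, dil_compSub, sub_zero]
          have ht2 : 0 < t / 2 := half_pos ht
          have h3 := ((hA2.dil (x + y) ht2).shift ht2 x')
          have h5 : ‖x + y - x'‖ / (t / 2) ≤ 2 + 2 * ‖r⁻¹ • y‖ := by
            rw [norm_smul, Real.norm_of_nonneg (by positivity), div_le_iff₀ ht2]
            have h6 : ‖x + y - x'‖ ≤ ‖y‖ + t := by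
              calc ‖x + y - x'‖ = ‖y - (x' - x)‖ := by congr 1; abel
                _ ≤ ‖y‖ + ‖x' - x‖ := norm_sub_le _ _
                _ ≤ ‖y‖ + t := by linarith
            have h7 : ‖y‖ ≤ r⁻¹ * ‖y‖ * t := by
              have : 1 ≤ r⁻¹ * t := by
                rw [← div_eq_inv_mul, le_div_iff₀ hr]; linarith
              nlinarith [norm_nonneg y]
            nlinarith
          have h4 : AdaptedC N x' (t / 2) (C2 * (3 + 2 * ‖r⁻¹ • y‖) ^ N)
              (dil (x + y) (t / 2) (half_pos ht) bmp) := by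
            apply h3.mono
            apply mul_le_mul_of_nonneg_left _ hC2.le
            apply pow_le_pow_left₀ (by positivity)
            linarith
          have h8 := h4.enorm_le ht2 (by positivity) h
          refine h8.trans (le_of_eq ?_)
          rw [ENNReal.ofReal_mul hC2.le]
          ring
      _ = K2 * ENNReal.ofReal C2 * grandMax N h x' := by
          have hw : Measurable (fun z : E n => ENNReal.ofReal ((3 + 2 * ‖z‖) ^ N)) :=
            ENNReal.measurable_ofReal.comp (by fun_prop)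
          have hm1 : Measurable (fun y : E n => ‖γr y‖ₑ *
              (fun z : E n => ENNReal.ofReal ((3 + 2 * ‖z‖) ^ N)) (r⁻¹ • (y - 0))) :=
            (γr.continuous.enorm.measurable).mul
              (hw.comp ((measurable_id.sub_const (0 : E n)).const_smul r⁻¹))
          rw [lintegral_mul_const _ hm1, hγr,
            lintegral_dil (0 : E n) hr (𝓕 (bmp : 𝓢(E n, ℂ))) _ hw, mul_assoc]
      _ ≤ _ := by
          gcongr
          exact le_add_self

end Pool.Agent.Helper656.Cap
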