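import Pool.Agent.Helper656.CapShells
import Pool.Agent.Helper656.CapChain
import Pool.Agent.Helper656.CapSlice
import Pool.Agent.Helper656.CapRiesz
import Pool.Agent.Helper656.CapTest

open MeasureTheory SchwartzMap
open scoped ENNReal NNReal FourierTransform SchwartzMap RealInnerProductSpace

namespace Pool.Agent.Helper656.Cap

variable {n : ℕ}

theorem chain_of_competitor (hn : 1 ≤ n) (α : ℝ) (hα : 0 < α) (N : ℕ) :
    ∃ C₁ : ℝ≥0, ∀ (K : Set (E n)) (h : 𝓢'(E n, ℂ)), IsCompetitor α K h → ∀ x ∈ K,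
      ∃ t₀ : ℝ, 0 < t₀ ∧ ∀ t : ℝ, 0 < t → t < t₀ →
        1 ≤ C₁ * ∑' k : ℕ, ENNReal.ofReal ((t * 2 ^ k) ^ α) *
          ⨅ y ∈ Metric.ball x (t * 2 ^ k), grandMax N h y := by
  obtain ⟨Cs, hCs⟩ := slice_bound (n := n) N
  obtain ⟨c, hc⟩ := riesz_slice (n := n) hn α hα
  have hI := integral_beta_pos (n := n) hn
  set I0 := ∫ y : E n, beta ‖y‖ with hI0
  refine ⟨(Real.toNNReal I0)⁻¹ * c * (Cs + 1) * Real.toNNReal (1 / α + 2 ^ α), ?_⟩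
  rintro K h ⟨U, u, Ω, ⟨m, hm, hg, hloc, hh, hU⟩, hu, hUu, hΩ, hK, hae⟩ x hx
  obtain ⟨t₀, ht₀, hball⟩ := Metric.isOpen_iff.1 hΩ x (hK hx)
  refine ⟨t₀, ht₀, fun t ht htt => ?_⟩
  set φ := dil x (t / 2) (half_pos ht) (bmp : 𝓢(E n, ℂ)) with hφ
  have h1 : I0 ≤ ‖∫ y, u y * φ y‖ :=
    test_lower u hu Ω hΩ hae x t ht ((Metric.ball_subset_ball htt.le).trans hball)
  have h2 : U φ = ∫ ξ, ((‖ξ‖ ^ (-α) : ℝ) : ℂ) * m ξ * 𝓕⁻ φ ξ := by
    rw [← hU (𝓕⁻ φ), TemperedDistribution.fourier_apply, FourierTransform.fourier_fourierInv_eq]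
  have h3 : ENNReal.ofReal I0 ≤ ‖∫ ξ, ((‖ξ‖ ^ (-α) : ℝ) : ℂ) * m ξ * 𝓕⁻ φ ξ‖ₑ := by
    rw [← h2, hUu φ (hasCompactSupport_dil_bmp _ _ _), ← ofReal_norm]
    exact ENNReal.ofReal_le_ofReal h1
  have h4 := hc m hm hg hloc (𝓕⁻ φ)
  have h5 := lintegral_shells hα ht
    (fun s => ((Cs + 1 : ℝ≥0) : ℝ≥0∞) * ⨅ y ∈ Metric.ball x s, grandMax N h y)
    (by
      intro r s hrs
      exact mul_le_mul' le_rfl
        (le_iInf₂ fun y hy => iInf₂_le y (Metric.ball_subset_ball hrs hy)))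
    (fun r => ‖∫ ξ, m ξ * 𝓕⁻ φ ξ * ((beta (r * ‖ξ‖) : ℝ) : ℂ)‖ₑ)
    (by
      intro r hr
      rw [ENNReal.mul_iInf_of_ne (by simp) (by simp)]
      refine le_iInf fun y => ?_
      rw [ENNReal.mul_iInf_of_ne (by simp) (by simp)]
      refine le_iInf fun hy => ?_
      refine (hCs h m hm hg hh x t ht r hr y hy).trans ?_
      gcongr
      simp)
  have h6 : ENNReal.ofReal I0 ≤ c * (ENNReal.ofReal (1 / α + 2 ^ α) * ∑' k : ℕ,
      ENNReal.ofReal ((t * 2 ^ k) ^ α) * (((Cs + 1 : ℝ≥0) : ℝ≥0∞) *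
        ⨅ y ∈ Metric.ball x (t * 2 ^ k), grandMax N h y)) := by
    refine h3.trans (h4.trans ?_)
    gcongr
  set S := ∑' k : ℕ, ENNReal.ofReal ((t * 2 ^ k) ^ α) *
          ⨅ y ∈ Metric.ball x (t * 2 ^ k), grandMax N h y with hS
  have h7 : ∑' k : ℕ, ENNReal.ofReal ((t * 2 ^ k) ^ α) * (((Cs + 1 : ℝ≥0) : ℝ≥0∞) *
        ⨅ y ∈ Metric.ball x (t * 2 ^ k), grandMax N h y) = ((Cs + 1 : ℝ≥0) : ℝ≥0∞) * S := by
    rw [hS, ← ENNReal.tsum_mul_left]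
    refine tsum_congr fun k => ?_
    rw [mul_left_comm]
  rw [h7] at h6
  have hI' : ENNReal.ofReal I0 ≠ 0 := by
    rw [Ne, ENNReal.ofReal_eq_zero, not_le]; exact hI
  calc (1 : ℝ≥0∞) = (ENNReal.ofReal I0)⁻¹ * ENNReal.ofReal I0 :=
        (ENNReal.inv_mul_cancel hI' ENNReal.ofReal_ne_top).symm
    _ ≤ (ENNReal.ofReal I0)⁻¹ * (c * (ENNReal.ofReal (1 / α + 2 ^ α) *
          (((Cs + 1 : ℝ≥0) : ℝ≥0∞) * S))) := by gcongr
    _ = _ := by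
        rw [ENNReal.coe_mul, ENNReal.coe_mul, ENNReal.coe_mul, ENNReal.coe_inv
          (by simpa using hI)]
        simp only [ENNReal.ofReal]
        ring

theorem content_le_cap (hn : 1 ≤ n) (α p : ℝ) (hα : 0 < α) (hp : 0 < p) (hp1 : p ≤ 1)
    (hαp : α * p < n) (N : ℕ) : ∃ C : ℝ≥0, ∀ K : Set (E n),
      hausdorffContent (n - α * p) K ≤ C * rieszCap N α p K := by
  obtain ⟨C₁, hC₁⟩ := chain_of_competitor hn α hα N
  obtain ⟨C, hC⟩ := content_le_of_chain n hn α p hα hp hp1 hαp C₁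
  refine ⟨C + 1, fun K => ?_⟩
  unfold rieszCap
  rw [ENNReal.mul_iInf_of_ne (by simp) (by simp)]
  refine le_iInf fun h => ?_
  rw [ENNReal.mul_iInf_of_ne (by simp) (by simp)]
  refine le_iInf fun hh => ?_
  refine (hC (grandMax N h) (measurable_grandMax N h) K (hC₁ K h hh)).trans ?_
  unfold hardyPow
  gcongr
  simp

end Pool.Agent.Helper656.Cap
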