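import Pool.Agent.Helper656.CapFourier

open MeasureTheory SchwartzMap
open scoped ENNReal NNReal FourierTransform SchwartzMap RealInnerProductSpace

namespace Pool.Agent.Helper656.Cap

variable {n : ℕ}

theorem Ioi_subset_shells {t : ℝ} (ht : 0 < t) :
    Set.Ioi (0 : ℝ) ⊆ Set.Ioc 0 t ∪ ⋃ k : ℕ, Set.Ioc (t * 2 ^ k) (t * 2 ^ (k + 1)) := by
  intro r hr
  rcases le_or_gt r t with h | h
  · exact Or.inl ⟨hr, h⟩
  · right
    have h1 : ∃ k : ℕ, r ≤ t * 2 ^ (k + 1) := by
      obtain ⟨k, hk⟩ := pow_unbounded_of_one_lt (r / t) (one_lt_two (α := ℝ))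
      refine ⟨k, ?_⟩
      rw [div_lt_iff₀ ht] at hk
      have : (2 : ℝ) ^ k ≤ 2 ^ (k + 1) := pow_le_pow_right₀ one_le_two (Nat.le_succ k)
      nlinarith
    classical
    rw [Set.mem_iUnion]
    refine ⟨Nat.find h1, ?_, Nat.find_spec h1⟩
    rcases Nat.eq_zero_or_pos (Nat.find h1) with h0 | h0
    · rw [h0, pow_zero, mul_one]; exact h
    · have := Nat.find_min h1 (m := Nat.find h1 - 1) (by omega)
      rw [not_le, Nat.sub_add_cancel h0] at this
      exact this

/-- the sum over dyadic shells of a decreasing weight -/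
theorem lintegral_shells {α : ℝ} (hα : 0 < α) {t : ℝ} (ht : 0 < t) (J : ℝ → ℝ≥0∞)
    (hJ : ∀ r s, r ≤ s → J s ≤ J r) (g : ℝ → ℝ≥0∞)
    (hg : ∀ r, 0 < r → g r ≤ J (max r t)) :
    ∫⁻ r in Set.Ioi (0 : ℝ), ENNReal.ofReal (r ^ (α - 1)) * g r ≤
      ENNReal.ofReal (1 / α + 2 ^ α) * ∑' k : ℕ, ENNReal.ofReal ((t * 2 ^ k) ^ α) * J (t * 2 ^ k) := by
  set S := ∑' k : ℕ, ENNReal.ofReal ((t * 2 ^ k) ^ α) * J (t * 2 ^ k) with hS
  have h0 : ∫⁻ r in Set.Ioc (0 : ℝ) t, ENNReal.ofReal (r ^ (α - 1)) * g r ≤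
      ENNReal.ofReal (1 / α) * S := by
    calc ∫⁻ r in Set.Ioc (0 : ℝ) t, ENNReal.ofReal (r ^ (α - 1)) * g r
        ≤ ∫⁻ r in Set.Ioc (0 : ℝ) t, ENNReal.ofReal (r ^ (α - 1)) * J t := by
          refine setLIntegral_mono' measurableSet_Ioc fun r hr => ?_
          gcongr
          have := hg r hr.1
          rwa [max_eq_right hr.2] at this
      _ = (∫⁻ r in Set.Ioc (0 : ℝ) t, ENNReal.ofReal (r ^ (α - 1))) * J t := by
          rw [lintegral_mul_const]
          exact ENNReal.measurable_ofReal.comp (measurable_id.pow_const _)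
      _ = ENNReal.ofReal (t ^ α / α) * J t := by
          congr 1
          have hi : IntegrableOn (fun r : ℝ => r ^ (α - 1)) (Set.Ioc 0 t) := by
            have := intervalIntegral.intervalIntegrable_rpow' (a := 0) (b := t)
              (r := α - 1) (by linarith)
            rwa [intervalIntegrable_iff_integrableOn_Ioc_of_le ht.le] at this
          rw [← ofReal_integral_eq_lintegral_ofReal hi]
          · congr 1
            rw [← intervalIntegral.integral_of_le ht.le, integral_rpow (Or.inl (by linarith))]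
            simp [Real.zero_rpow hα.ne']
          · exact (ae_restrict_mem measurableSet_Ioc).mono fun r hr => Real.rpow_nonneg hr.1.le _
      _ = ENNReal.ofReal (1 / α) * (ENNReal.ofReal ((t * 2 ^ 0) ^ α) * J (t * 2 ^ 0)) := by
          rw [pow_zero, mul_one, ← mul_assoc, ← ENNReal.ofReal_mul (by positivity)]
          congr 2
          ring
      _ ≤ _ := by
          gcongr
          exact ENNReal.le_tsum (f := fun k : ℕ => ENNReal.ofReal ((t * 2 ^ k) ^ α) * J (t * 2 ^ k)) 0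
  have h1 : ∀ k : ℕ, ∫⁻ r in Set.Ioc (t * 2 ^ k) (t * 2 ^ (k + 1)),
      ENNReal.ofReal (r ^ (α - 1)) * g r ≤
      ENNReal.ofReal (2 ^ α) * (ENNReal.ofReal ((t * 2 ^ k) ^ α) * J (t * 2 ^ k)) := by
    intro k
    have hs : 0 < t * 2 ^ k := by positivity
    calc ∫⁻ r in Set.Ioc (t * 2 ^ k) (t * 2 ^ (k + 1)), ENNReal.ofReal (r ^ (α - 1)) * g r
        ≤ ∫⁻ r in Set.Ioc (t * 2 ^ k) (t * 2 ^ (k + 1)),
            ENNReal.ofReal ((t * 2 ^ (k + 1)) ^ α / (t * 2 ^ k)) * J (t * 2 ^ k) := by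
          refine setLIntegral_mono' measurableSet_Ioc fun r hr => ?_
          have hr0 : 0 < r := hs.trans hr.1
          gcongr
          · rw [Real.rpow_sub_one hr0.ne']
            gcongr
            · exact hr.2
            · exact hr.1.le
          · refine (hg r hr0).trans (hJ _ _ ?_)
            exact hr.1.le.trans (le_max_left _ _)
      _ = ENNReal.ofReal ((t * 2 ^ (k + 1)) ^ α / (t * 2 ^ k)) * J (t * 2 ^ k) *
            ENNReal.ofReal (t * 2 ^ k) := by
          rw [lintegral_const, Measure.restrict_apply MeasurableSet.univ, Set.univ_inter,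
            Real.volume_Ioc]
          congr 2
          ring
      _ = _ := by
          rw [mul_right_comm, ← ENNReal.ofReal_mul (by positivity), div_mul_cancel₀ _ hs.ne',
            ← mul_assoc, ← ENNReal.ofReal_mul (by positivity)]
          congr 2
          rw [← Real.mul_rpow (by positivity) (by positivity)]
          congr 1
          ring
  calc ∫⁻ r in Set.Ioi (0 : ℝ), ENNReal.ofReal (r ^ (α - 1)) * g r
      ≤ ∫⁻ r in Set.Ioc 0 t ∪ ⋃ k : ℕ, Set.Ioc (t * 2 ^ k) (t * 2 ^ (k + 1)),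
          ENNReal.ofReal (r ^ (α - 1)) * g r := lintegral_mono_set (Ioi_subset_shells ht)
    _ ≤ (∫⁻ r in Set.Ioc (0 : ℝ) t, ENNReal.ofReal (r ^ (α - 1)) * g r) +
          ∫⁻ r in ⋃ k : ℕ, Set.Ioc (t * 2 ^ k) (t * 2 ^ (k + 1)),
            ENNReal.ofReal (r ^ (α - 1)) * g r := lintegral_union_le _ _ _
    _ ≤ (∫⁻ r in Set.Ioc (0 : ℝ) t, ENNReal.ofReal (r ^ (α - 1)) * g r) +
          ∑' k : ℕ, ∫⁻ r in Set.Ioc (t * 2 ^ k) (t * 2 ^ (k + 1)),
            ENNReal.ofReal (r ^ (α - 1)) * g r := by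
          gcongr
          exact lintegral_iUnion_le _ _
    _ ≤ ENNReal.ofReal (1 / α) * S + ∑' k : ℕ,
          ENNReal.ofReal (2 ^ α) * (ENNReal.ofReal ((t * 2 ^ k) ^ α) * J (t * 2 ^ k)) := by
          gcongr with k
          exact h1 k
    _ = _ := by
          rw [ENNReal.tsum_mul_left, ← hS, ← add_mul, ← ENNReal.ofReal_add (by positivity)
            (by positivity)]

end Pool.Agent.Helper656.Cap
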