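import Pool.Agent.Helper656.CapCubes

namespace Pool.Agent.Helper656.Cap

open MeasureTheory in
theorem floor_int (τ : ℝ) (hτ : 0 < τ) (t : ℝ) :
    (∀ a b : ℝ, IntervalIntegrable (fun σ : ℝ => ((⌊(t + σ) / τ⌋ : ℤ) : ℝ)) volume a b) ∧
    ∫ σ in (0 : ℝ)..τ, ((⌊(t + σ) / τ⌋ : ℤ) : ℝ) = t := by
  set k : ℤ := ⌊t / τ⌋ with hk
  set f : ℝ := t - k * τ with hf
  have hf0 : 0 ≤ f := by
    have := Int.floor_le (t / τ)
    rw [le_div_iff₀ hτ] at this
    linarith
  have hf1 : f < τ := by
    have := Int.lt_floor_add_one (t / τ)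
    rw [div_lt_iff₀ hτ] at this
    linarith
  have hmono : Monotone (fun σ : ℝ => ((⌊(t + σ) / τ⌋ : ℤ) : ℝ)) := by
    intro a b hab
    simp only
    apply Int.cast_le.2
    apply Int.floor_le_floor
    gcongr
  have hint : ∀ a b : ℝ, IntervalIntegrable (fun σ : ℝ => ((⌊(t + σ) / τ⌋ : ℤ) : ℝ)) volume a b :=
    fun a b => hmono.intervalIntegrable
  refine ⟨hint, ?_⟩
  rw [← intervalIntegral.integral_add_adjacent_intervals (hint 0 (τ - f)) (hint (τ - f) τ)]
  have h1 : ∫ σ in (0 : ℝ)..(τ - f), ((⌊(t + σ) / τ⌋ : ℤ) : ℝ) =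
      ∫ _σ in (0 : ℝ)..(τ - f), (k : ℝ) := by
    apply intervalIntegral.integral_congr_Ioo_of_le (by linarith)
    intro σ hσ
    simp only
    congr 1
    rw [Int.floor_eq_iff]
    constructor
    · rw [le_div_iff₀ hτ]; linarith [hσ.1]
    · rw [div_lt_iff₀ hτ]; linarith [hσ.2]
  have h2 : ∫ σ in (τ - f)..τ, ((⌊(t + σ) / τ⌋ : ℤ) : ℝ) =
      ∫ _σ in (τ - f)..τ, ((k : ℝ) + 1) := by
    apply intervalIntegral.integral_congr_Ioo_of_le (by linarith)
    intro σ hσ
    simp only
    have : ((k : ℝ) + 1) = ((k + 1 : ℤ) : ℝ) := by push_cast; rfl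
    rw [this]
    congr 1
    rw [Int.floor_eq_iff]
    constructor
    · rw [le_div_iff₀ hτ]; push_cast; linarith [hσ.1]
    · rw [div_lt_iff₀ hτ]; push_cast; linarith [hσ.2]
  rw [h1, h2, intervalIntegral.integral_const, intervalIntegral.integral_const]
  simp only [smul_eq_mul]
  rw [hf]
  ring

/-- combinatorial containment of dyadic cubes -/
def LE' {n : ℕ} (R Q : Cube n) : Prop :=
  R.1 ≤ Q.1 ∧ ∀ j, R.2 j / ((2 ^ (Q.1 - R.1).toNat : ℕ) : ℤ) = Q.2 j

/-- the cube of scale `k` containing `y` -/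
noncomputable def cb {n : ℕ} (y : E n) (k : ℤ) : Cube n := (k, fun j => ⌊y j / (2 : ℝ) ^ k⌋)

theorem mem_cb {n : ℕ} (y : E n) (R : Cube n) : y ∈ Cube.set R ↔ R = cb y R.1 := by
  constructor
  · intro h
    refine Prod.ext rfl ?_
    funext j
    exact (h j).symm
  · intro h j
    have := congrArg Prod.snd h
    have h2 := congrFun this j
    exact h2.symm

theorem LE'_cb {n : ℕ} (y : E n) (k : ℤ) (Q : Cube n) :
    LE' (cb y k) Q ↔ k ≤ Q.1 ∧ y ∈ Cube.set Q := by
  unfold LE'
  constructor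
  · rintro ⟨h1, h2⟩
    refine ⟨h1, fun j => ?_⟩
    rw [← h2 j]
    simp only [cb] at h1 ⊢
    rw [← Int.floor_div_natCast, div_div]
    congr 2
    push_cast
    rw [← zpow_natCast, ← zpow_add₀ (by norm_num)]
    congr 1
    omega
  · rintro ⟨h1, h2⟩
    refine ⟨h1, fun j => ?_⟩
    rw [← h2 j]
    simp only [cb]
    rw [← Int.floor_div_natCast, div_div]
    congr 2
    push_cast
    rw [← zpow_natCast, ← zpow_add₀ (by norm_num)]
    congr 1
    omega

theorem LE'_eq {n : ℕ} (R Q : Cube n) (h : R.1 = Q.1) : LE' R Q ↔ Q = R := by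
  unfold LE'
  have : (Q.1 - R.1).toNat = 0 := by omega
  rw [this]
  simp only [pow_zero, Nat.cast_one, Int.ediv_one]
  constructor
  · rintro ⟨_, h2⟩
    exact Prod.ext h.symm (funext fun j => (h2 j).symm)
  · rintro rfl
    exact ⟨le_refl _, fun j => rfl⟩

open Classical in
/-- rounding a weighted family of dyadic cubes to amplitudes at least `τ` -/
theorem threshold {n : ℕ} {ι : Type} (d : ℝ) (s : Finset ι) (Q : ι → Cube n) (b : ι → ℝ)
    (hb : ∀ i ∈ s, 0 ≤ b i) (τ : ℝ) (hτ : 0 < τ) :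
    ∃ (T : Finset (Cube n)) (a : Cube n → ℝ), (∀ R ∈ T, τ ≤ a R) ∧ (∀ R ∈ T, ∃ i ∈ s, Q i = R) ∧
      (∀ y : E n, ∑ i ∈ s, (if y ∈ Cube.set (Q i) then b i else 0) ≤
        τ + ∑ R ∈ T, (if y ∈ Cube.set R then a R else 0)) ∧
      ∑ R ∈ T, a R * Cube.side R ^ d ≤ ∑ i ∈ s, b i * Cube.side (Q i) ^ d := by
  set A : Cube n → ℝ := fun R => ∑ i ∈ s, (if LE' R (Q i) then b i else 0) with hA
  set A' : Cube n → ℝ := fun R =>
    ∑ i ∈ s, (if LE' R (Q i) ∧ R.1 < (Q i).1 then b i else 0) with hA'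
  set B : Cube n → ℝ := fun R => ∑ i ∈ s, (if Q i = R then b i else 0) with hB
  have hAB : ∀ R, A R - A' R = B R := by
    intro R
    rw [hA, hA', hB]
    simp only
    rw [← Finset.sum_sub_distrib]
    refine Finset.sum_congr rfl fun i _ => ?_
    by_cases h1 : R.1 = (Q i).1
    · have h2 := LE'_eq R (Q i) h1
      by_cases h3 : Q i = R
      · rw [if_pos (h2.2 h3), if_neg (by rintro ⟨_, h⟩; omega), if_pos h3, sub_zero]
      · rw [if_neg (fun h => h3 (h2.1 h)), if_neg (by rintro ⟨_, h⟩; omega), if_neg h3, sub_zero]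
    · have h3 : ¬ Q i = R := fun h => h1 (by rw [h])
      rw [if_neg h3]
      by_cases h4 : LE' R (Q i)
      · have h5 : R.1 < (Q i).1 := lt_of_le_of_ne h4.1 h1
        rw [if_pos h4, if_pos ⟨h4, h5⟩, sub_self]
      · rw [if_neg h4, if_neg (fun h => h4 h.1), sub_self]
  have hB0 : ∀ R, 0 ≤ B R := fun R => Finset.sum_nonneg fun i hi => by
    split_ifs
    · exact hb i hi
    · exact le_refl _
  set I : Finset (Cube n) := s.image Q with hI
  set am : ℝ → Cube n → ℝ := fun σ R =>
    τ * (((⌊(A R + σ) / τ⌋ : ℤ) : ℝ) - ((⌊(A' R + σ) / τ⌋ : ℤ) : ℝ)) with ham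
  have ham0 : ∀ σ R, am σ R = 0 ∨ τ ≤ am σ R := by
    intro σ R
    have h1 : ⌊(A' R + σ) / τ⌋ ≤ ⌊(A R + σ) / τ⌋ := by
      apply Int.floor_le_floor
      have := hAB R
      have := hB0 R
      gcongr
      linarith
    rcases Int.lt_or_eq_of_le h1 with h2 | h2
    · right
      have h3 : (1 : ℝ) ≤ ((⌊(A R + σ) / τ⌋ : ℤ) : ℝ) - ((⌊(A' R + σ) / τ⌋ : ℤ) : ℝ) := by
        have h4 : ⌊(A' R + σ) / τ⌋ + 1 ≤ ⌊(A R + σ) / τ⌋ := h2
        have h5 : ((⌊(A' R + σ) / τ⌋ : ℤ) : ℝ) + 1 ≤ ((⌊(A R + σ) / τ⌋ : ℤ) : ℝ) := by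
          exact_mod_cast h4
        linarith
      rw [ham]
      simp only
      nlinarith
    · left
      rw [ham]
      simp only
      rw [h2]
      ring
  -- averaging
  set cost : ℝ → ℝ := fun σ => ∑ R ∈ I, am σ R * Cube.side R ^ d with hcost
  have hci : IntervalIntegrable cost MeasureTheory.volume 0 τ := by
    have hsum : cost = ∑ R ∈ I, (fun σ => am σ R * Cube.side R ^ d) := by
      funext σ
      rw [hcost, Finset.sum_apply]
    rw [hsum]
    apply IntervalIntegrable.sum
    intro R _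
    have h1 := (floor_int τ hτ (A R)).1 0 τ
    have h2 := (floor_int τ hτ (A' R)).1 0 τ
    exact (((h1.sub h2).const_mul τ).mul_const _)
  have hcint : ∫ σ in (0 : ℝ)..τ, cost σ = τ * ∑ i ∈ s, b i * Cube.side (Q i) ^ d := by
    rw [hcost, intervalIntegral.integral_finsetSum]
    · have h3 : ∀ R ∈ I, ∫ σ in (0 : ℝ)..τ, am σ R * Cube.side R ^ d =
          τ * (B R * Cube.side R ^ d) := by
        intro R _
        rw [intervalIntegral.integral_mul_const, ham]
        simp only
        rw [intervalIntegral.integral_const_mul, intervalIntegral.integral_sub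
          ((floor_int τ hτ (A R)).1 0 τ) ((floor_int τ hτ (A' R)).1 0 τ),
          (floor_int τ hτ (A R)).2, (floor_int τ hτ (A' R)).2, hAB R]
        ring
      rw [Finset.sum_congr rfl h3, ← Finset.mul_sum]
      congr 1
      have h4 : ∀ R, B R * Cube.side R ^ d =
          ∑ i ∈ s, (if Q i = R then b i * Cube.side (Q i) ^ d else 0) := by
        intro R
        rw [hB]
        simp only
        rw [Finset.sum_mul]
        refine Finset.sum_congr rfl fun i _ => ?_
        by_cases h : Q i = R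
        · rw [if_pos h, if_pos h, h]
        · rw [if_neg h, if_neg h, zero_mul]
      simp_rw [h4]
      rw [Finset.sum_comm]
      refine Finset.sum_congr rfl fun i hi => ?_
      rw [Finset.sum_ite_eq, if_pos (Finset.mem_image_of_mem Q hi)]
    · intro R _
      have h1 := (floor_int τ hτ (A R)).1 0 τ
      have h2 := (floor_int τ hτ (A' R)).1 0 τ
      exact (((h1.sub h2).const_mul τ).mul_const _)
  obtain ⟨σ, hσ, hle⟩ : ∃ σ ∈ Set.Ioo (0 : ℝ) τ,
      cost σ ≤ ∑ i ∈ s, b i * Cube.side (Q i) ^ d := by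
    have hio : MeasureTheory.IntegrableOn cost (Set.Ioo 0 τ) MeasureTheory.volume :=
      (hci.1).mono_set Set.Ioo_subset_Ioc_self
    obtain ⟨σ, hσ, h⟩ := MeasureTheory.exists_le_setAverage (by
        rw [Real.volume_Ioo]; simpa using hτ) (by rw [Real.volume_Ioo]; exact ENNReal.ofReal_ne_top)
        hio
    refine ⟨σ, hσ, h.trans (le_of_eq ?_)⟩
    rw [MeasureTheory.setAverage_eq, ← MeasureTheory.integral_Ioc_eq_integral_Ioo,
      ← intervalIntegral.integral_of_le hτ.le, hcint]
    simp only [MeasureTheory.measureReal_def, Real.volume_Ioo, sub_zero, smul_eq_mul]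
    rw [ENNReal.toReal_ofReal hτ.le, ← mul_assoc, inv_mul_cancel₀ hτ.ne', one_mul]
  have hσ0 : ⌊(0 + σ) / τ⌋ = 0 := by
    rw [Int.floor_eq_iff]
    constructor
    · rw [Int.cast_zero, le_div_iff₀ hτ]; linarith [hσ.1]
    · rw [Int.cast_zero, div_lt_iff₀ hτ]; linarith [hσ.2]
  have hamnn : ∀ R, 0 ≤ am σ R := fun R => by
    rcases ham0 σ R with h | h
    · exact h.symm.le
    · linarith
  refine ⟨I.filter (fun R => am σ R ≠ 0), am σ, ?_, ?_, ?_, ?_⟩
  · intro R hR
    rw [Finset.mem_filter] at hR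
    exact (ham0 σ R).resolve_left hR.2
  · intro R hR
    rw [Finset.mem_filter] at hR
    obtain ⟨i, hi, h⟩ := Finset.mem_image.1 hR.1
    exact ⟨i, hi, h⟩
  · intro y
    have hT : ∑ R ∈ I.filter (fun R => am σ R ≠ 0), (if y ∈ Cube.set R then am σ R else 0) =
        ∑ R ∈ I, (if y ∈ Cube.set R then am σ R else 0) := by
      apply Finset.sum_filter_of_ne
      intro R _ h h2
      apply h
      rw [h2]
      split_ifs <;> rfl
    rw [hT]
    -- the function of the scale
    set ff : ℤ → ℝ := fun k => ∑ i ∈ s, (if k ≤ (Q i).1 ∧ y ∈ Cube.set (Q i) then b i else 0)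
      with hff
    have hAf : ∀ k, A (cb y k) = ff k := by
      intro k
      rw [hA, hff]
      simp only
      refine Finset.sum_congr rfl fun i _ => ?_
      rw [if_congr (LE'_cb y k (Q i)) rfl rfl]
    have hA'f : ∀ k, A' (cb y k) = ff (k + 1) := by
      intro k
      rw [hA', hff]
      simp only
      refine Finset.sum_congr rfl fun i _ => ?_
      refine if_congr ?_ rfl rfl
      rw [LE'_cb y k (Q i)]
      simp only [cb]
      constructor
      · rintro ⟨⟨h1, h2⟩, h3⟩; exact ⟨by omega, h2⟩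
      · rintro ⟨h1, h2⟩; exact ⟨⟨by omega, h2⟩, by omega⟩
    -- bounds for the scales
    obtain ⟨K, hK⟩ : ∃ K : ℤ, ∀ i ∈ s, (Q i).1 < K := by
      refine ⟨∑ i ∈ s, |(Q i).1| + 1, fun i hi => ?_⟩
      have h1 := Finset.single_le_sum (f := fun i => |(Q i).1|) (fun i _ => abs_nonneg _) hi
      have h2 := le_abs_self (Q i).1
      omega
    obtain ⟨N, hN⟩ : ∃ N : ℕ, ∀ i ∈ s, K - N ≤ (Q i).1 := by
      refine ⟨(∑ i ∈ s, (K - (Q i).1)).toNat, fun i hi => ?_⟩
      have h1 := Finset.single_le_sum (f := fun i => K - (Q i).1)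
        (fun i hi => by have := hK i hi; omega) hi
      have h2 := Int.self_le_toNat (∑ i ∈ s, (K - (Q i).1))
      omega
    set G : ℕ → ℝ := fun m => τ * ((⌊(ff (K - m) + σ) / τ⌋ : ℤ) : ℝ) with hG
    have hG0 : G 0 = 0 := by
      rw [hG]
      simp only
      have : ff (K - (0 : ℕ)) = 0 := by
        rw [hff]
        simp only
        refine Finset.sum_eq_zero fun i hi => ?_
        rw [if_neg]
        rintro ⟨h, _⟩
        have := hK i hi
        simp at h
        omega
      rw [this, hσ0]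
      simp
    have hGN : ∑ i ∈ s, (if y ∈ Cube.set (Q i) then b i else 0) ≤ τ + G N := by
      have h1 : ff (K - N) = ∑ i ∈ s, (if y ∈ Cube.set (Q i) then b i else 0) := by
        rw [hff]
        simp only
        refine Finset.sum_congr rfl fun i hi => ?_
        refine if_congr ?_ rfl rfl
        exact ⟨fun h => h.2, fun h => ⟨hN i hi, h⟩⟩
      rw [← h1, hG]
      simp only
      have h2 := Int.lt_floor_add_one ((ff (K - N) + σ) / τ)
      rw [div_lt_iff₀ hτ] at h2
      have h3 := hσ.1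
      nlinarith
    have htel : G N = ∑ m ∈ Finset.range N, (G (m + 1) - G m) := by
      rw [Finset.sum_range_sub, hG0, sub_zero]
    have hstep : ∀ m, G (m + 1) - G m ≤
        (if cb y (K - m - 1) ∈ I then am σ (cb y (K - m - 1)) else 0) := by
      intro m
      have h0 : K - ((m + 1 : ℕ) : ℤ) = K - m - 1 := by push_cast; ring
      have h1 : G (m + 1) - G m = am σ (cb y (K - m - 1)) := by
        rw [hG, ham]
        simp only
        rw [hAf, hA'f, h0, sub_add_cancel]
        ring
      rw [h1]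
      split_ifs with h
      · exact le_refl _
      · apply le_of_eq
        have h2 : A (cb y (K - m - 1)) - A' (cb y (K - m - 1)) = 0 := by
          rw [hAB, hB]
          simp only
          refine Finset.sum_eq_zero fun i hi => ?_
          rw [if_neg]
          intro h3
          exact h (h3 ▸ Finset.mem_image_of_mem Q hi)
        rw [ham]
        simp only
        have h4 : A (cb y (K - m - 1)) = A' (cb y (K - m - 1)) := by linarith
        rw [h4]
        ring
    have hsum : ∑ m ∈ Finset.range N,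
        (if cb y (K - m - 1) ∈ I then am σ (cb y (K - m - 1)) else 0) ≤
        ∑ R ∈ I, (if y ∈ Cube.set R then am σ R else 0) := by
      rw [← Finset.sum_filter, ← Finset.sum_filter]
      have hinj : Set.InjOn (fun m : ℕ => cb y (K - m - 1))
          (↑((Finset.range N).filter (fun m : ℕ => cb y (K - m - 1) ∈ I)) : Set ℕ) := by
        intro m _ m' _ h
        have := congrArg Prod.fst h
        simp only [cb] at this
        omega
      rw [← Finset.sum_image (f := fun R => am σ R) hinj]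
      apply Finset.sum_le_sum_of_subset_of_nonneg
      · intro R hR
        obtain ⟨m, hm, rfl⟩ := Finset.mem_image.1 hR
        rw [Finset.mem_filter] at hm ⊢
        refine ⟨hm.2, ?_⟩
        rw [mem_cb]
        rfl
      · intro R _ _
        exact hamnn R
    calc ∑ i ∈ s, (if y ∈ Cube.set (Q i) then b i else 0) ≤ τ + G N := hGN
      _ = τ + ∑ m ∈ Finset.range N, (G (m + 1) - G m) := by rw [htel]
      _ ≤ τ + ∑ m ∈ Finset.range N,
        (if cb y (K - m - 1) ∈ I then am σ (cb y (K - m - 1)) else 0) := by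
          have := Finset.sum_le_sum (s := Finset.range N) fun m _ => hstep m
          linarith
      _ ≤ _ := by linarith
  · have hT : ∑ R ∈ I.filter (fun R => am σ R ≠ 0), am σ R * Cube.side R ^ d = cost σ := by
      rw [hcost]
      apply Finset.sum_filter_of_ne
      intro R _ h h2
      apply h
      rw [h2, zero_mul]
    rw [hT]
    exact hle

end Pool.Agent.Helper656.Cap
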