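import Mathlib

open MeasureTheory Set Filter Topology Metric
open scoped ENNReal ContDiff

namespace Pool.Agent.Helper656.Sob

/-- Euclidean space `ℝⁿ`. -/
abbrev E (n : ℕ) := EuclideanSpace ℝ (Fin n)

/-- The classical derivative along the l-th axis `∂_l φ` of a differentiable function `φ : ℝⁿ → ℝ`. -/
noncomputable def pd {n : ℕ} (l : Fin n) (φ : E n → ℝ) (x : E n) : ℝ :=
  fderiv ℝ φ x (EuclideanSpace.single l 1)

/-- `φ` is a test function on `Ω`: smooth, with compact support contained in `Ω`. -/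
def IsTest {n : ℕ} (Ω : Set (E n)) (φ : E n → ℝ) : Prop :=
  ContDiff ℝ ∞ φ ∧ HasCompactSupport φ ∧ tsupport φ ⊆ Ω

/-- `w` is the weak (distributional) derivative along the l-th axis `∂_l u` on `Ω`:
`∫ u ∂_l φ = - ∫ w φ` for every test function `φ` on `Ω`. -/
def IsWeakDeriv {n : ℕ} (Ω : Set (E n)) (l : Fin n) (u w : E n → ℝ) : Prop :=
  ∀ φ : E n → ℝ, IsTest Ω φ → ∫ x, u x * pd l φ x = - ∫ x, w x * φ x

end Pool.Agent.Helper656.Sob
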