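import Mathlib
import Pool.Agent.Helper656.SobDefs

set_option linter.unusedVariables false
set_option linter.unusedSimpArgs false

open MeasureTheory Set Filter Topology Metric
open scoped ENNReal ContDiff Convolution

namespace Pool.Agent.Helper656.Sob

/-- The total variation type bound. -/
def BVBound {n : ℕ} (Ω : Set (E n)) (l : Fin n) (u : E n → ℝ) (C : ℝ) : Prop :=
  ∀ (φ : E n → ℝ) (M : ℝ), IsTest Ω φ → (∀ x, |φ x| ≤ M) → |∫ x, u x * pd l φ x| ≤ C * M

/-- mollification -/
noncomputable def mol {n : ℕ} (b : ContDiffBump (0 : E n)) (u : E n → ℝ) : E n → ℝ :=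
  (b.normed volume ⋆[ContinuousLinearMap.lsmul ℝ ℝ, volume] u)

/-- a standard sequence of bumps -/
noncomputable def bmp (n : ℕ) (k : ℕ) : ContDiffBump (0 : E n) where
  rIn := 1 / (k + 1)
  rOut := 2 / (k + 1)
  rIn_pos := by positivity
  rIn_lt_rOut := by
    apply div_lt_div_of_pos_right (by norm_num) (by positivity)


-- part 2003



theorem mol_eq {n : ℕ} (b : ContDiffBump (0 : E n)) (u : E n → ℝ) (x : E n) :
    mol b u x = ∫ t, b.normed volume t * u (x - t) := by
  rfl

theorem mol_contDiff {n : ℕ} (b : ContDiffBump (0 : E n)) {u : E n → ℝ}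
    (hu : LocallyIntegrable u) : ContDiff ℝ ∞ (mol b u) := by
  exact b.hasCompactSupport_normed.contDiff_convolution_left _ b.contDiff_normed hu

theorem mol_bound {n : ℕ} (b : ContDiffBump (0 : E n)) {u : E n → ℝ} {M : ℝ}
    (hM : ∀ x, |u x| ≤ M) (x : E n) : |mol b u x| ≤ M := by
  rw [mol_eq, ← Real.norm_eq_abs]
  have h1 : Integrable (fun t => b.normed volume t * M) := b.integrable_normed.mul_const M
  have h2 : ∫ t, b.normed volume t * M = M := by
    rw [integral_mul_const, b.integral_normed, one_mul]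
  rw [← h2]
  apply norm_integral_le_of_norm_le h1
  apply Eventually.of_forall
  intro t
  rw [norm_mul, Real.norm_eq_abs, Real.norm_eq_abs, abs_of_nonneg (b.nonneg_normed t)]
  exact mul_le_mul_of_nonneg_left (hM _) (b.nonneg_normed t)

theorem mol_hasCompactSupport {n : ℕ} (b : ContDiffBump (0 : E n)) {u : E n → ℝ}
    (hu : HasCompactSupport u) : HasCompactSupport (mol b u) := by
  exact HasCompactSupport.convolution _ b.hasCompactSupport_normed hu

theorem bmp_rOut_tendsto (n : ℕ) : Tendsto (fun k => (bmp n k).rOut) atTop (𝓝 0) := by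
  have h := (tendsto_one_div_add_atTop_nhds_zero_nat (𝕜 := ℝ)).const_mul 2
  rw [mul_zero] at h
  refine h.congr (fun k => ?_)
  show 2 * (1 / ((k : ℝ) + 1)) = 2 / ((k : ℝ) + 1)
  ring

theorem mol_tendsto {n : ℕ} {u : E n → ℝ} (hu : Continuous u) (x : E n) :
    Tendsto (fun k => mol (bmp n k) u x) atTop (𝓝 (u x)) := by
  exact ContDiffBump.convolution_tendsto_right_of_continuous (bmp_rOut_tendsto n) hu x

theorem mol_tendsto_ae {n : ℕ} {u : E n → ℝ} (hu : LocallyIntegrable u) :
    ∀ᵐ x, Tendsto (fun k => mol (bmp n k) u x) atTop (𝓝 (u x)) := by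
  refine ContDiffBump.ae_convolution_tendsto_right_of_locallyIntegrable (K := 2)
    (bmp_rOut_tendsto n) (Eventually.of_forall fun k => ?_) hu
  show 2 / ((k : ℝ) + 1) ≤ 2 * (1 / ((k : ℝ) + 1))
  apply le_of_eq
  ring



-- part 2004







theorem pd_mol {n : ℕ} (b : ContDiffBump (0 : E n)) {u : E n → ℝ} (l : Fin n)
    (hu : ContDiff ℝ 1 u) (hc : HasCompactSupport u) (x : E n) :
    pd l (mol b u) x = mol b (pd l u) x := by
  have hρ : LocallyIntegrable (b.normed volume) (volume : Measure (E n)) :=
    b.continuous_normed.locallyIntegrable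
  have h := hc.hasFDerivAt_convolution_right (ContinuousLinearMap.lsmul ℝ ℝ) hρ hu x
  show fderiv ℝ (b.normed volume ⋆[ContinuousLinearMap.lsmul ℝ ℝ, volume] u) x _ = _
  rw [h.fderiv, convolution_precompR_apply (ContinuousLinearMap.lsmul ℝ ℝ) hρ (hc.fderiv ℝ)
    (hu.continuous_fderiv one_ne_zero)]
  rfl

theorem pd_mol_weak {n : ℕ} (b : ContDiffBump (0 : E n)) {u w : E n → ℝ} (l : Fin n)
    (hu : LocallyIntegrable u) (hw : LocallyIntegrable w) (h : IsWeakDeriv univ l u w)
    (x : E n) : pd l (mol b u) x = mol b w x := by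
  have hρc : HasCompactSupport (b.normed (volume : Measure (E n))) := b.hasCompactSupport_normed
  have hρd : ContDiff ℝ ∞ (b.normed (volume : Measure (E n))) := b.contDiff_normed
  have h1 := hρc.hasFDerivAt_convolution_left (ContinuousLinearMap.lsmul ℝ ℝ) (hρd.of_le (by simp)) hu x
  have hcv := (hρc.fderiv ℝ).convolutionExists_left ((ContinuousLinearMap.lsmul ℝ ℝ).precompL (E n))
    (hρd.continuous_fderiv (by simp)) hu x
  have h2 : pd l (mol b u) x = ∫ t, fderiv ℝ (b.normed (volume : Measure (E n))) t (EuclideanSpace.single l 1) * u (x - t) := by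
    show fderiv ℝ (b.normed volume ⋆[ContinuousLinearMap.lsmul ℝ ℝ, volume] u) x _ = _
    rw [h1.fderiv, convolution_def, ContinuousLinearMap.integral_apply hcv]
    rfl
  have hφ : IsTest univ (fun y => b.normed (volume : Measure (E n)) (x - y)) := by
    refine ⟨?_, ?_, subset_univ _⟩
    · exact hρd.comp (contDiff_const.sub contDiff_id)
    · exact hρc.comp_homeomorph (Homeomorph.subLeft x)
  have hpd : ∀ y, pd l (fun y => b.normed (volume : Measure (E n)) (x - y)) y =
      -(fderiv ℝ (b.normed (volume : Measure (E n))) (x - y) (EuclideanSpace.single l 1)) := by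
    intro y
    have h3 : HasFDerivAt (fun y => b.normed (volume : Measure (E n)) (x - y))
        ((fderiv ℝ (b.normed (volume : Measure (E n))) (x - y)).comp (-(ContinuousLinearMap.id ℝ (E n)))) y := by
      refine HasFDerivAt.comp y ((hρd.differentiable (by simp)).differentiableAt.hasFDerivAt) ?_
      exact (hasFDerivAt_id y).const_sub x
    unfold pd
    rw [h3.fderiv]
    simp
  rw [h2, mol_eq]
  have h4 := h _ hφ
  simp only [hpd] at h4
  have h5 : ∫ t, fderiv ℝ (b.normed (volume : Measure (E n))) t (EuclideanSpace.single l 1) * u (x - t) =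
      ∫ y, fderiv ℝ (b.normed (volume : Measure (E n))) (x - y) (EuclideanSpace.single l 1) * u y := by
    rw [← integral_sub_left_eq_self _ _ x]
    simp only [sub_sub_cancel]
  have h6 : ∫ t, b.normed (volume : Measure (E n)) t * w (x - t) =
      ∫ y, b.normed (volume : Measure (E n)) (x - y) * w y := by
    rw [← integral_sub_left_eq_self _ _ x]
    simp only [sub_sub_cancel]
  rw [h5, h6]
  have h7 : ∫ y, u y * -(fderiv ℝ (b.normed (volume : Measure (E n))) (x - y) (EuclideanSpace.single l 1)) =
      -∫ y, fderiv ℝ (b.normed (volume : Measure (E n))) (x - y) (EuclideanSpace.single l 1) * u y := by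
    rw [← integral_neg]
    refine integral_congr_ae (Eventually.of_forall fun y => ?_)
    simp only; ring
  rw [h7] at h4
  have h8 : ∫ y, w y * b.normed (volume : Measure (E n)) (x - y) = ∫ y, b.normed (volume : Measure (E n)) (x - y) * w y := by
    refine integral_congr_ae (Eventually.of_forall fun y => ?_)
    simp only; ring
  rw [h8] at h4
  linarith

theorem mol_fubini {n : ℕ} (b : ContDiffBump (0 : E n)) {u v : E n → ℝ}
    (hu : Integrable u) (hv : AEStronglyMeasurable v) {M : ℝ} (hM : ∀ x, |v x| ≤ M) :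
    ∫ x, mol b u x * v x = ∫ x, u x * mol b v x := by
  have hρi : Integrable (b.normed (volume : Measure (E n))) := b.integrable_normed
  have hsym : ∀ t, b.normed (volume : Measure (E n)) (-t) = b.normed volume t := fun t => b.normed_neg t
  -- integrability of the two kernels
  have hG : Integrable (fun q : E n × E n => (b.normed (volume : Measure (E n)) q.2 * u (q.1 - q.2)) * v q.1)
      (volume.prod volume) := by
    have h1 := Integrable.convolution_integrand (ContinuousLinearMap.mul ℝ ℝ) hρi hu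
      (μ := volume) (ν := volume)
    refine Integrable.mul_bdd (c := M) h1 ?_ (Eventually.of_forall fun q => ?_)
    · exact hv.comp_quasiMeasurePreserving Measure.quasiMeasurePreserving_fst
    · rw [Real.norm_eq_abs]; exact hM q.1
  have hH : Integrable (fun q : E n × E n => (b.normed (volume : Measure (E n)) q.2 * u q.1) * v (q.1 - q.2))
      (volume.prod volume) := by
    have h1 : Integrable (fun q : E n × E n => b.normed (volume : Measure (E n)) q.2 * u q.1) (volume.prod volume) := by
      have := hu.mul_prod hρi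
      refine this.congr (Eventually.of_forall fun q => ?_)
      simp only; ring
    refine Integrable.mul_bdd (c := M) h1 ?_ (Eventually.of_forall fun q => ?_)
    · exact hv.comp_quasiMeasurePreserving (quasiMeasurePreserving_sub_of_right_invariant volume volume)
    · rw [Real.norm_eq_abs]; exact hM _
  have e1 : ∫ x, mol b u x * v x = ∫ x, ∫ t, (b.normed (volume : Measure (E n)) t * u (x - t)) * v x := by
    refine integral_congr_ae (Eventually.of_forall fun x => ?_)
    simp only
    rw [mol_eq, integral_mul_const]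
  have e2 : ∫ x, u x * mol b v x = ∫ x, ∫ t, (b.normed (volume : Measure (E n)) t * u x) * v (x - t) := by
    refine integral_congr_ae (Eventually.of_forall fun x => ?_)
    simp only
    rw [mol_eq, ← integral_const_mul]
    refine integral_congr_ae (Eventually.of_forall fun t => ?_)
    simp only; ring
  have s1 := integral_integral_swap
    (f := fun x t => (b.normed (volume : Measure (E n)) t * u (x - t)) * v x) hG
  have s2 := integral_integral_swap
    (f := fun x t => (b.normed (volume : Measure (E n)) t * u x) * v (x - t)) hH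
  rw [e1, e2, s1, s2]
  rw [← integral_neg_eq_self (fun t => ∫ x, (b.normed (volume : Measure (E n)) t * u (x - t)) * v x)]
  refine integral_congr_ae (Eventually.of_forall fun t => ?_)
  simp only [hsym, sub_neg_eq_add]
  rw [← integral_sub_right_eq_self _ t]
  simp only [sub_add_cancel]



-- part 2005



theorem pd_smooth {n : ℕ} (l : Fin n) {φ : E n → ℝ} (hφ : ContDiff ℝ ∞ φ) :
    ContDiff ℝ ∞ (pd l φ) := by
  unfold pd
  exact (hφ.fderiv_right (m := ∞) (by simp)).clm_apply contDiff_const

theorem pd_support {n : ℕ} (l : Fin n) (φ : E n → ℝ) : tsupport (pd l φ) ⊆ tsupport φ := by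
  refine Subset.trans ?_ (tsupport_fderiv_subset ℝ (f := φ))
  apply closure_mono
  intro x hx
  rw [Function.mem_support] at hx ⊢
  intro h0
  apply hx
  unfold pd
  rw [h0]
  rfl

theorem pd_hasCompactSupport {n : ℕ} (l : Fin n) {φ : E n → ℝ} (hφ : HasCompactSupport φ) :
    HasCompactSupport (pd l φ) := by
  exact IsCompact.of_isClosed_subset hφ (isClosed_tsupport _) (pd_support l φ)

theorem pd_mul {n : ℕ} (l : Fin n) {φ ψ : E n → ℝ} {x : E n} (hφ : DifferentiableAt ℝ φ x)
    (hψ : DifferentiableAt ℝ ψ x) :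
    pd l (fun y => φ y * ψ y) x = φ x * pd l ψ x + ψ x * pd l φ x := by
  unfold pd
  rw [fderiv_fun_mul hφ hψ]
  rfl

theorem pd_cont {n : ℕ} (l : Fin n) {φ : E n → ℝ} (hφ : ContDiff ℝ 1 φ) : Continuous (pd l φ) := by
  unfold pd
  exact (hφ.continuous_fderiv one_ne_zero).clm_apply continuous_const

/-- integration by parts, one function compactly supported. -/
theorem integral_pd_mul {n : ℕ} (l : Fin n) {φ ψ : E n → ℝ} (hφ : ContDiff ℝ 1 φ)
    (hψ : ContDiff ℝ 1 ψ) (hc : HasCompactSupport ψ) :
    ∫ x, φ x * pd l ψ x = - ∫ x, ψ x * pd l φ x := by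
  have h1 : Integrable (fun x => pd l φ x * ψ x) :=
    ((pd_cont l hφ).mul hψ.continuous).integrable_of_hasCompactSupport (hc.mul_left)
  have h2 : Integrable (fun x => φ x * pd l ψ x) :=
    (hφ.continuous.mul (pd_cont l hψ)).integrable_of_hasCompactSupport
      ((pd_hasCompactSupport l hc).mul_left)
  have h3 : Integrable (fun x => φ x * ψ x) :=
    (hφ.continuous.mul hψ.continuous).integrable_of_hasCompactSupport (hc.mul_left)
  have h := integral_mul_fderiv_eq_neg_fderiv_mul_of_integrable (v := EuclideanSpace.single l 1)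
    h1 h2 h3 (fun x _ => (hφ.differentiable one_ne_zero) x)
    (fun x _ => (hψ.differentiable one_ne_zero) x)
  unfold pd
  rw [h]
  congr 1
  exact integral_congr_ae (Filter.Eventually.of_forall fun x => mul_comm _ _)

theorem integrable_test_mul' {n : ℕ} {Ω : Set (E n)} {u κ : E n → ℝ}
    (hκ : Continuous κ) (hκc : HasCompactSupport κ) (hκΩ : tsupport κ ⊆ Ω)
    (hu : LocallyIntegrableOn u Ω) : Integrable (fun x => κ x * u x) := by
  have h1 : IntegrableOn u (tsupport κ) := hu.integrableOn_compact_subset hκΩ hκc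
  have h2 : IntegrableOn (fun x => κ x * u x) (tsupport κ) :=
    h1.continuousOn_mul hκ.continuousOn hκc
  refine (integrableOn_iff_integrable_of_support_subset ?_).1 h2
  intro x hx
  apply subset_tsupport
  rw [Function.mem_support] at hx ⊢
  intro h0
  apply hx
  simp only [h0, zero_mul]

theorem localize {n : ℕ} {Ω : Set (E n)} (hΩ : IsOpen Ω) (l : Fin n) {u w κ : E n → ℝ}
    (hκ : IsTest Ω κ) (hu : LocallyIntegrableOn u Ω) (hw : LocallyIntegrableOn w Ω)
    (h : IsWeakDeriv Ω l u w) :
    IsWeakDeriv univ l (fun x => κ x * u x) (fun x => κ x * w x + u x * pd l κ x) := by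
  intro φ hφ
  obtain ⟨hκ1, hκ2, hκ3⟩ := hκ
  obtain ⟨hφ1, hφ2, -⟩ := hφ
  have hsub : tsupport (fun x => κ x * φ x) ⊆ tsupport κ := tsupport_mul_subset_left
  have ht : IsTest Ω (fun x => κ x * φ x) :=
    ⟨hκ1.mul hφ1, hκ2.mul_right, hsub.trans hκ3⟩
  have h1 := h _ ht
  have hpd : ∀ x, pd l (fun x => κ x * φ x) x = κ x * pd l φ x + φ x * pd l κ x := fun x =>
    pd_mul l ((hκ1.differentiable (by simp)) x) ((hφ1.differentiable (by simp)) x)
  have hcκ : Continuous (pd l κ) := (pd_smooth l hκ1).continuous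
  have hcφ : Continuous (pd l φ) := (pd_smooth l hφ1).continuous
  -- integrability
  have i1 : Integrable (fun x => (κ x * pd l φ x) * u x) :=
    integrable_test_mul' (hκ1.continuous.mul hcφ) hκ2.mul_right
      ((tsupport_mul_subset_left).trans hκ3) hu
  have i2 : Integrable (fun x => (φ x * pd l κ x) * u x) :=
    integrable_test_mul' (hφ1.continuous.mul hcκ) ((pd_hasCompactSupport l hκ2).mul_left)
      ((tsupport_mul_subset_right).trans ((pd_support l κ).trans hκ3)) hu
  have i3 : Integrable (fun x => (κ x * φ x) * w x) :=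
    integrable_test_mul' (hκ1.continuous.mul hφ1.continuous) hκ2.mul_right (hsub.trans hκ3) hw
  have e1 : ∫ x, u x * pd l (fun x => κ x * φ x) x =
      (∫ x, (κ x * pd l φ x) * u x) + ∫ x, (φ x * pd l κ x) * u x := by
    rw [← integral_add i1 i2]
    refine integral_congr_ae (Filter.Eventually.of_forall fun x => ?_)
    simp only [hpd]
    ring
  have e2 : ∫ x, w x * (κ x * φ x) = ∫ x, (κ x * φ x) * w x :=
    integral_congr_ae (Filter.Eventually.of_forall fun x => mul_comm _ _)
  have e3 : ∫ x, κ x * u x * pd l φ x = ∫ x, (κ x * pd l φ x) * u x := by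
    refine integral_congr_ae (Filter.Eventually.of_forall fun x => ?_)
    simp only
    ring
  have e4 : ∫ x, (κ x * w x + u x * pd l κ x) * φ x =
      (∫ x, (κ x * φ x) * w x) + ∫ x, (φ x * pd l κ x) * u x := by
    rw [← integral_add i3 i2]
    refine integral_congr_ae (Filter.Eventually.of_forall fun x => ?_)
    simp only
    ring
  rw [e1, e2] at h1
  rw [e3, e4]
  linarith

theorem integrable_test_mul {n : ℕ} {Ω : Set (E n)} {u κ : E n → ℝ}
    (hκ : Continuous κ) (hκc : HasCompactSupport κ) (hκΩ : tsupport κ ⊆ Ω)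
    (hu : LocallyIntegrableOn u Ω) : Integrable (fun x => κ x * u x) := by
  exact integrable_test_mul' hκ hκc hκΩ hu

/-- cut-off functions -/
theorem exists_cutoff {n : ℕ} {Ω K : Set (E n)} (hΩ : IsOpen Ω) (hK : IsCompact K)
    (hKΩ : K ⊆ Ω) : ∃ κ : E n → ℝ, IsTest Ω κ ∧ (∀ᶠ x in 𝓝ˢ K, κ x = 1) ∧ ∀ x, |κ x| ≤ 1 := by
  obtain ⟨K', hK'c, hK1, hK2⟩ := exists_compact_between hK hΩ hKΩ
  obtain ⟨f, hf1, hf2, hf3⟩ := exists_contMDiffMap_one_nhds_of_subset_interior
    (n := (⊤ : ℕ∞)) (modelWithCornersSelf ℝ (E n)) hK.isClosed hK1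
  have hsupp : tsupport (f : E n → ℝ) ⊆ K' := by
    apply closure_minimal _ hK'c.isClosed
    intro x hx
    by_contra hx'
    exact hx (hf2 x hx')
  refine ⟨f, ⟨f.contMDiff.contDiff, IsCompact.of_isClosed_subset hK'c (isClosed_tsupport _) hsupp,
    hsupp.trans hK2⟩, hf1, ?_⟩
  intro x
  rw [abs_of_nonneg (hf3 x).1]
  exact (hf3 x).2



-- part 2006

















theorem chain_bound_deriv {n : ℕ} {ι : Type} [Fintype ι] [DecidableEq ι] (G : E n → ι → ℝ)
    (hG : ContDiff ℝ ∞ G) (l : Fin n) (Ψ : (ι → ℝ) → ℝ) (hΨ : ContDiff ℝ ∞ Ψ) (x : E n) :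
    pd l (fun y => Ψ (G y)) x =
      ∑ a, fderiv ℝ Ψ (G x) (Pi.single a 1) * pd l (fun y => G y a) x := by
  have hGd : DifferentiableAt ℝ G x := hG.differentiable (by simp) x
  have hΨd : DifferentiableAt ℝ Ψ (G x) := hΨ.differentiable (by simp) _
  have h1 : fderiv ℝ (fun y => Ψ (G y)) x = (fderiv ℝ Ψ (G x)).comp (fderiv ℝ G x) :=
    fderiv_comp x hΨd hGd
  unfold pd
  rw [h1, ContinuousLinearMap.comp_apply]
  have h2 : ∀ v a, fderiv ℝ G x v a = fderiv ℝ (fun y => G y a) x v := by
    intro v a
    have hGa : ∀ i, DifferentiableAt ℝ (fun y => G y i) x := fun i =>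
      (differentiableAt_pi.1 hGd) i
    have h3 : fderiv ℝ G x = ContinuousLinearMap.pi fun i => fderiv ℝ (fun y => G y i) x :=
      fderiv_pi hGa
    rw [h3]
    rfl
  have h4 : ∀ w : ι → ℝ, fderiv ℝ Ψ (G x) w =
      ∑ a, fderiv ℝ Ψ (G x) (Pi.single a 1) * w a := by
    intro w
    have h5 : w = ∑ a, w a • (Pi.single a (1:ℝ) : ι → ℝ) := by
      ext b
      simp [Finset.sum_apply, Pi.single_apply]
    conv_lhs => rw [h5]
    rw [map_sum]
    apply Finset.sum_congr rfl
    intro a _
    rw [map_smul, smul_eq_mul, mul_comm]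
  rw [h4]
  apply Finset.sum_congr rfl
  intro a _
  rw [h2]

theorem chain_bound {n : ℕ} {ι : Type} [Fintype ι] [DecidableEq ι] (g : E n → ι → ℝ)
    (hg : ∀ a, Integrable (fun x => g x a)) (l : Fin n) (C : ℝ)
    (hC : ∀ a, BVBound univ l (fun x => g x a) C)
    (Ψ : (ι → ℝ) → ℝ) (hΨ : ContDiff ℝ ∞ Ψ) (hΨc : HasCompactSupport Ψ) :
    ∃ C', BVBound univ l (fun x => Ψ (g x)) C' := by
  obtain ⟨L0, hL0⟩ := (hΨc.fderiv (𝕜 := ℝ)).exists_bound_of_continuous
    (hΨ.continuous_fderiv (by simp))
  obtain ⟨B, hB⟩ := hΨc.exists_bound_of_continuous hΨ.continuous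
  set L : ℝ := L0 with hL
  have hLb : ∀ (y : ι → ℝ) (a : ι), |fderiv ℝ Ψ y (Pi.single a 1)| ≤ L := by
    intro y a
    have h1 := (fderiv ℝ Ψ y).le_opNorm (Pi.single a (1:ℝ))
    have h2 : ‖(Pi.single a (1:ℝ) : ι → ℝ)‖ ≤ 1 := by
      rw [Pi.norm_single]
      simp
    have h3 := hL0 y
    rw [Real.norm_eq_abs] at h1
    calc |fderiv ℝ Ψ y (Pi.single a 1)| ≤ ‖fderiv ℝ Ψ y‖ * ‖(Pi.single a (1:ℝ) : ι → ℝ)‖ := h1
      _ ≤ ‖fderiv ℝ Ψ y‖ * 1 := mul_le_mul_of_nonneg_left h2 (norm_nonneg _)
      _ ≤ L := by rw [mul_one]; exact h3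
  have hLI : ∀ a, LocallyIntegrable (fun x => g x a) := fun a => (hg a).locallyIntegrable
  refine ⟨(Fintype.card ι : ℝ) * C * L, ?_⟩
  intro φ M hφ hM
  obtain ⟨hφs, hφc, -⟩ := hφ
  -- the smooth approximations
  set G : ℕ → E n → ι → ℝ := fun k x a => mol (bmp n k) (fun y => g y a) x with hGdef
  have hGa : ∀ k a, ContDiff ℝ ∞ (fun x => G k x a) := fun k a => mol_contDiff _ (hLI a)
  have hG : ∀ k, ContDiff ℝ ∞ (G k) := fun k => contDiff_pi.2 (hGa k)
  have hk : ∀ k, |∫ x, Ψ (G k x) * pd l φ x| ≤ (Fintype.card ι : ℝ) * C * L * M := by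
    intro k
    have hΨG : ContDiff ℝ ∞ (fun x => Ψ (G k x)) := hΨ.comp (hG k)
    set η : ι → E n → ℝ := fun a x => φ x * fderiv ℝ Ψ (G k x) (Pi.single a 1) with hη
    have hηs : ∀ a, ContDiff ℝ ∞ (η a) := by
      intro a
      refine hφs.mul ?_
      have h1 : ContDiff ℝ ∞ (fderiv ℝ Ψ) := hΨ.fderiv_right (by simp)
      exact (h1.comp (hG k)).clm_apply contDiff_const
    have hηc : ∀ a, HasCompactSupport (η a) := fun a => hφc.mul_right
    have hηM : ∀ a x, |η a x| ≤ M * L := by
      intro a x
      rw [hη]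
      simp only [abs_mul]
      exact mul_le_mul (hM x) (hLb _ a) (abs_nonneg _) ((abs_nonneg _).trans (hM x))
    have h1 : ∫ x, Ψ (G k x) * pd l φ x = ∑ a, ∫ x, g x a * pd l (mol (bmp n k) (η a)) x := by
      rw [integral_pd_mul l (hΨG.of_le (by simp)) (hφs.of_le (by simp)) hφc]
      have h2 : ∀ x, φ x * pd l (fun y => Ψ (G k y)) x =
          ∑ a, η a x * pd l (fun y => G k y a) x := by
        intro x
        rw [chain_bound_deriv (G k) (hG k) l Ψ hΨ x, Finset.mul_sum]
        apply Finset.sum_congr rfl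
        intro a _
        rw [hη]
        ring
      simp_rw [h2]
      rw [integral_finsetSum]
      · rw [← Finset.sum_neg_distrib]
        apply Finset.sum_congr rfl
        intro a _
        rw [← integral_pd_mul l ((hGa k a).of_le (by simp)) ((hηs a).of_le (by simp)) (hηc a)]
        have h3 := pd_hasCompactSupport l (hηc a)
        have h4 := (pd_smooth l (hηs a)).continuous
        obtain ⟨K, hK⟩ := h3.exists_bound_of_continuous h4
        rw [show (fun x => G k x a * pd l (η a) x) =
          (fun x => mol (bmp n k) (fun y => g y a) x * pd l (η a) x) from rfl]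
        rw [mol_fubini (bmp n k) (hg a) h4.aestronglyMeasurable hK]
        congr 1
        ext x
        rw [pd_mol (bmp n k) l ((hηs a).of_le (by simp)) (hηc a) x]
      · intro a _
        apply Continuous.integrable_of_hasCompactSupport
        · exact (hηs a).continuous.mul (pd_smooth l (hGa k a)).continuous
        · exact (hηc a).mul_right
    rw [h1]
    calc |∑ a, ∫ x, g x a * pd l (mol (bmp n k) (η a)) x|
        ≤ ∑ a, |∫ x, g x a * pd l (mol (bmp n k) (η a)) x| := Finset.abs_sum_le_sum_abs _ _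
      _ ≤ ∑ _a : ι, C * (M * L) := by
          apply Finset.sum_le_sum
          intro a _
          refine hC a (mol (bmp n k) (η a)) (M * L) ⟨?_, ?_, subset_univ _⟩ ?_
          · exact mol_contDiff _ (hηs a).continuous.locallyIntegrable
          · exact mol_hasCompactSupport _ (hηc a)
          · exact mol_bound _ (hηM a)
      _ = (Fintype.card ι : ℝ) * C * L * M := by
          rw [Finset.sum_const, Finset.card_univ, nsmul_eq_mul]
          ring
  have hlim : Tendsto (fun k => ∫ x, Ψ (G k x) * pd l φ x) atTop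
      (𝓝 (∫ x, Ψ (g x) * pd l φ x)) := by
    have hpd := (pd_smooth l hφs).continuous
    apply tendsto_integral_of_dominated_convergence (fun x => B * |pd l φ x|)
    · intro k
      exact (hΨ.continuous.comp (hG k).continuous |>.mul hpd).aestronglyMeasurable
    · apply Integrable.const_mul
      exact (hpd.integrable_of_hasCompactSupport (pd_hasCompactSupport l hφc)).abs
    · intro k
      refine Eventually.of_forall fun x => ?_
      rw [norm_mul, Real.norm_eq_abs, Real.norm_eq_abs]
      exact mul_le_mul_of_nonneg_right (hB _) (abs_nonneg _)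
    · have hae : ∀ᵐ x, ∀ a, Tendsto (fun k => mol (bmp n k) (fun y => g y a) x) atTop
          (𝓝 (g x a)) := ae_all_iff.2 fun a => mol_tendsto_ae (hLI a)
      filter_upwards [hae] with x hx
      have h1 : Tendsto (fun k => G k x) atTop (𝓝 (g x)) := tendsto_pi_nhds.2 hx
      exact ((hΨ.continuous.tendsto _).comp h1).mul_const _
  exact le_of_tendsto hlim.abs (Eventually.of_forall hk)



-- part 2007

















theorem bound_extend {n : ℕ} (l : Fin n) (V : E n → ℝ) (hVm : AEStronglyMeasurable V) (B : ℝ)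
    (hVb : ∀ x, |V x| ≤ B) (C : ℝ) (hC : BVBound univ l V C)
    (ζ : E n → ℝ) (hζ : Continuous ζ) (hζc : HasCompactSupport ζ) (w : E n → ℝ)
    (hw : Integrable w) (hweak : IsWeakDeriv univ l ζ w) (M : ℝ) (hM : ∀ x, |ζ x| ≤ M) :
    |∫ x, V x * w x| ≤ C * M := by
  have hζl : LocallyIntegrable ζ := hζ.locallyIntegrable
  have hwl : LocallyIntegrable w := hw.locallyIntegrable
  have hVl : LocallyIntegrable V := by
    intro x
    refine ⟨closedBall x 1, closedBall_mem_nhds x one_pos, ?_⟩
    exact Measure.integrableOn_of_bounded (M := B) measure_closedBall_lt_top.ne hVm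
      (Filter.Eventually.of_forall fun y => by rw [Real.norm_eq_abs]; exact hVb y)
  have h1 : ∀ k : ℕ, |∫ x, w x * mol (bmp n k) V x| ≤ C * M := by
    intro k
    have ht : IsTest univ (mol (bmp n k) ζ) :=
      ⟨mol_contDiff _ hζl, mol_hasCompactSupport _ hζc, subset_univ _⟩
    have h2 := hC (mol (bmp n k) ζ) M ht (mol_bound _ hM)
    have h3 : ∫ x, V x * pd l (mol (bmp n k) ζ) x = ∫ x, w x * mol (bmp n k) V x := by
      rw [← mol_fubini (bmp n k) hw hVm hVb]
      congr 1
      funext x
      rw [pd_mol_weak (bmp n k) l hζl hwl hweak x, mul_comm]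
    rwa [h3] at h2
  have h4 : Tendsto (fun k => ∫ x, w x * mol (bmp n k) V x) atTop (𝓝 (∫ x, w x * V x)) := by
    apply tendsto_integral_of_dominated_convergence (fun x => |w x| * B)
    · intro k
      exact hw.aestronglyMeasurable.mul (mol_contDiff (bmp n k) hVl).continuous.aestronglyMeasurable
    · exact hw.abs.mul_const B
    · intro k
      refine Filter.Eventually.of_forall fun x => ?_
      rw [Real.norm_eq_abs, abs_mul]
      exact mul_le_mul_of_nonneg_left (mol_bound _ hVb x) (abs_nonneg _)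
    · filter_upwards [mol_tendsto_ae hVl] with x hx
      exact hx.const_mul (w x)
  have h5 := le_of_tendsto h4.abs (Filter.Eventually.of_forall h1)
  have h6 : ∫ x, V x * w x = ∫ x, w x * V x := by
    congr 1
    funext x
    ring
  rw [h6]
  exact h5



-- part 2008




















theorem cts_mul {n : ℕ} {Ω : Set (E n)} (hΩ : IsOpen Ω) {κ u : E n → ℝ} (hκ : Continuous κ)
    (hs : tsupport κ ⊆ Ω) (hu : ContinuousOn u Ω) : Continuous (fun x => κ x * u x) := by
  rw [continuous_iff_continuousAt]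
  intro x
  by_cases hx : x ∈ Ω
  · exact hκ.continuousAt.mul (hu.continuousAt (hΩ.mem_nhds hx))
  · have h1 : x ∉ tsupport κ := fun h => hx (hs h)
    have h2 : κ =ᶠ[𝓝 x] 0 := notMem_tsupport_iff_eventuallyEq.1 h1
    have h3 : (fun x => κ x * u x) =ᶠ[𝓝 x] fun _ => 0 := by
      filter_upwards [h2] with y hy
      rw [hy]; simp
    exact continuousAt_const.congr h3.symm

theorem weak_mul {n : ℕ} {Ω : Set (E n)} (hΩ : IsOpen Ω) {u v wu wv : E n → ℝ} (l : Fin n)
    (hu : ContinuousOn u Ω) (hv : ContinuousOn v Ω) (hwu : LocallyIntegrableOn wu Ω)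
    (hwv : LocallyIntegrableOn wv Ω) (h1 : IsWeakDeriv Ω l u wu)
    (h2 : IsWeakDeriv Ω l v wv) :
    IsWeakDeriv Ω l (fun x => u x * v x) (fun x => u x * wv x + v x * wu x) := by
  intro φ hφ
  obtain ⟨hφ1, hφ2, hφ3⟩ := id hφ
  have hφc : Continuous φ := hφ1.continuous
  obtain ⟨κ, hκ, hκ1, hκb⟩ := exists_cutoff hΩ hφ2.isCompact hφ3
  obtain ⟨hκs, hκc, hκΩ⟩ := id hκ
  have hκcont : Continuous κ := hκs.continuous
  have hpdκ : Continuous (pd l κ) := (pd_smooth l hκs).continuous
  have hpdφ : Continuous (pd l φ) := (pd_smooth l hφ1).continuous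
  have huloc : LocallyIntegrableOn u Ω := hu.locallyIntegrableOn hΩ.measurableSet
  -- localisation of u
  set ut : E n → ℝ := fun x => κ x * u x with hut
  set wt : E n → ℝ := fun x => κ x * wu x + u x * pd l κ x with hwt
  have hloc : IsWeakDeriv univ l ut wt := localize hΩ l hκ huloc hwu h1
  have hutc : Continuous ut := cts_mul hΩ hκcont hκΩ hu
  have huts : HasCompactSupport ut := hκc.mul_right
  have huti : Integrable ut := hutc.integrable_of_hasCompactSupport huts
  have hwti : Integrable wt := by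
    have e1 := integrable_test_mul hκcont hκc hκΩ hwu
    have e2 := integrable_test_mul hpdκ (pd_hasCompactSupport l hκc)
      ((pd_support l κ).trans hκΩ) huloc
    have e3 := e1.add e2
    refine e3.congr (Eventually.of_forall fun x => ?_)
    simp only [hwt, Pi.add_apply]
    ring
  obtain ⟨M, hM⟩ := huts.exists_bound_of_continuous hutc
  have hM' : ∀ x, |ut x| ≤ M := fun x => by rw [← Real.norm_eq_abs]; exact hM x
  -- products with v
  set vφ : E n → ℝ := fun x => φ x * v x with hvφ
  set vp : E n → ℝ := fun x => pd l φ x * v x with hvp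
  have hvφc : Continuous vφ := cts_mul hΩ hφc hφ3 hv
  have hvφs : HasCompactSupport vφ := hφ2.mul_right
  have hvpc : Continuous vp := cts_mul hΩ hpdφ ((pd_support l φ).trans hφ3) hv
  have hvps : HasCompactSupport vp := (pd_hasCompactSupport l hφ2).mul_right
  obtain ⟨M2, hM2⟩ := hvφs.exists_bound_of_continuous hvφc
  have hM2' : ∀ x, |vφ x| ≤ M2 := fun x => by rw [← Real.norm_eq_abs]; exact hM2 x
  have hvpi : Integrable vp := hvpc.integrable_of_hasCompactSupport hvps
  have hφwv : Integrable (fun x => φ x * wv x) := integrable_test_mul hφc hφ2 hφ3 hwv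
  -- mollified identity
  have hid : ∀ k, (∫ x, mol (bmp n k) ut x * vp x) + (∫ x, wt x * mol (bmp n k) vφ x) =
      - ∫ x, mol (bmp n k) ut x * (φ x * wv x) := by
    intro k
    set m := mol (bmp n k) ut with hm
    have hms : ContDiff ℝ ∞ m := mol_contDiff _ huti.locallyIntegrable
    have hmc : Continuous m := hms.continuous
    have htest : IsTest Ω (fun x => m x * φ x) := by
      refine ⟨hms.mul hφ1, hφ2.mul_left, ?_⟩
      exact (tsupport_mul_subset_right).trans hφ3
    have e1 := h2 _ htest
    have hwtc : Continuous (mol (bmp n k) wt) := (mol_contDiff _ hwti.locallyIntegrable).continuous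
    have e2 : ∀ x, v x * pd l (fun y => m y * φ y) x = m x * vp x + mol (bmp n k) wt x * vφ x := by
      intro x
      have hd1 : DifferentiableAt ℝ m x := (hms.differentiable (by simp)) x
      have hd2 : DifferentiableAt ℝ φ x := (hφ1.differentiable (by simp)) x
      rw [pd_mul l hd1 hd2, hm, pd_mol_weak (bmp n k) l huti.locallyIntegrable
        hwti.locallyIntegrable hloc x]
      simp only [hvp, hvφ]
      ring
    have e3 : ∫ x, v x * pd l (fun y => m y * φ y) x =
        (∫ x, m x * vp x) + ∫ x, mol (bmp n k) wt x * vφ x := by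
      rw [← integral_add]
      · exact integral_congr_ae (Eventually.of_forall e2)
      · exact (hmc.mul hvpc).integrable_of_hasCompactSupport hvps.mul_left
      · exact (hwtc.mul hvφc).integrable_of_hasCompactSupport hvφs.mul_left
    rw [e3, mol_fubini (bmp n k) hwti hvφc.aestronglyMeasurable hM2'] at e1
    rw [e1]
    congr 1
    exact integral_congr_ae (Eventually.of_forall fun x => by
      show wv x * (m x * φ x) = m x * (φ x * wv x)
      ring)
  -- limits
  have hmolc : ∀ k, Continuous (mol (bmp n k) ut) := fun k =>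
    (mol_contDiff _ huti.locallyIntegrable).continuous
  have hmolvc : ∀ k, Continuous (mol (bmp n k) vφ) := fun k =>
    (mol_contDiff _ (hvφc.integrable_of_hasCompactSupport hvφs).locallyIntegrable).continuous
  have L1 : Tendsto (fun k => ∫ x, mol (bmp n k) ut x * vp x) atTop (𝓝 (∫ x, ut x * vp x)) := by
    apply tendsto_integral_of_dominated_convergence (fun x => M * ‖vp x‖)
    · intro k; exact ((hmolc k).mul hvpc).aestronglyMeasurable
    · exact hvpi.norm.const_mul M
    · intro k
      refine Eventually.of_forall fun x => ?_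
      rw [norm_mul]
      exact mul_le_mul_of_nonneg_right (by rw [Real.norm_eq_abs]; exact mol_bound _ hM' x)
        (norm_nonneg _)
    · exact Eventually.of_forall fun x => (mol_tendsto hutc x).mul_const _
  have L2 : Tendsto (fun k => ∫ x, wt x * mol (bmp n k) vφ x) atTop
      (𝓝 (∫ x, wt x * vφ x)) := by
    apply tendsto_integral_of_dominated_convergence (fun x => ‖wt x‖ * M2)
    · intro k; exact hwti.aestronglyMeasurable.mul (hmolvc k).aestronglyMeasurable
    · exact hwti.norm.mul_const M2
    · intro k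
      refine Eventually.of_forall fun x => ?_
      rw [norm_mul]
      exact mul_le_mul_of_nonneg_left (by rw [Real.norm_eq_abs]; exact mol_bound _ hM2' x)
        (norm_nonneg _)
    · exact Eventually.of_forall fun x => (mol_tendsto hvφc x).const_mul _
  have L3 : Tendsto (fun k => ∫ x, mol (bmp n k) ut x * (φ x * wv x)) atTop
      (𝓝 (∫ x, ut x * (φ x * wv x))) := by
    apply tendsto_integral_of_dominated_convergence (fun x => M * ‖φ x * wv x‖)
    · intro k; exact (hmolc k).aestronglyMeasurable.mul hφwv.aestronglyMeasurable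
    · exact hφwv.norm.const_mul M
    · intro k
      refine Eventually.of_forall fun x => ?_
      rw [norm_mul]
      exact mul_le_mul_of_nonneg_right (by rw [Real.norm_eq_abs]; exact mol_bound _ hM' x)
        (norm_nonneg _)
    · exact Eventually.of_forall fun x => (mol_tendsto hutc x).mul_const _
  have hlim : (∫ x, ut x * vp x) + (∫ x, wt x * vφ x) = - ∫ x, ut x * (φ x * wv x) := by
    refine tendsto_nhds_unique (L1.add L2) ?_
    have := L3.neg
    refine this.congr (fun k => ?_)
    rw [← hid k]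
  -- identify
  have hκx : ∀ x, φ x ≠ 0 → κ x = 1 ∧ pd l κ x = 0 := by
    intro x hx
    have hxK : x ∈ tsupport φ := subset_tsupport φ hx
    have h3 : ∀ᶠ y in 𝓝 x, κ y = 1 := hκ1.filter_mono (nhds_le_nhdsSet hxK)
    refine ⟨h3.self_of_nhds, ?_⟩
    have h4 : κ =ᶠ[𝓝 x] fun _ => (1 : ℝ) := h3
    unfold pd
    rw [h4.fderiv_eq]
    simp
  have hκp : ∀ x, pd l φ x ≠ 0 → κ x = 1 := by
    intro x hx
    have hxK : x ∈ tsupport φ := pd_support l φ (subset_tsupport _ hx)
    have h3 : ∀ᶠ y in 𝓝 x, κ y = 1 := hκ1.filter_mono (nhds_le_nhdsSet hxK)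
    exact h3.self_of_nhds
  have e1 : ∫ x, ut x * vp x = ∫ x, (u x * v x) * pd l φ x := by
    apply integral_congr_ae
    refine Eventually.of_forall fun x => ?_
    simp only [hut, hvp]
    by_cases hx : pd l φ x = 0
    · rw [hx]; ring
    · rw [hκp x hx]; ring
  have e2 : ∫ x, wt x * vφ x = ∫ x, (φ x * v x) * wu x := by
    apply integral_congr_ae
    refine Eventually.of_forall fun x => ?_
    simp only [hwt, hvφ]
    by_cases hx : φ x = 0
    · rw [hx]; ring
    · rw [(hκx x hx).1, (hκx x hx).2]; ring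
  have e3 : ∫ x, ut x * (φ x * wv x) = ∫ x, (φ x * u x) * wv x := by
    apply integral_congr_ae
    refine Eventually.of_forall fun x => ?_
    simp only [hut]
    by_cases hx : φ x = 0
    · rw [hx]; ring
    · rw [(hκx x hx).1]; ring
  rw [e1, e2, e3] at hlim
  have i1 : Integrable (fun x => (φ x * v x) * wu x) :=
    integrable_test_mul hvφc hvφs (tsupport_mul_subset_left.trans hφ3) hwu
  have i2 : Integrable (fun x => (φ x * u x) * wv x) :=
    integrable_test_mul (cts_mul hΩ hφc hφ3 hu) hφ2.mul_right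
      (tsupport_mul_subset_left.trans hφ3) hwv
  have e4 : ∫ x, (u x * wv x + v x * wu x) * φ x =
      (∫ x, (φ x * u x) * wv x) + ∫ x, (φ x * v x) * wu x := by
    rw [← integral_add i2 i1]
    apply integral_congr_ae
    refine Eventually.of_forall fun x => ?_
    show _ = _
    ring
  rw [e4]
  linarith







/-- `u` is continuous, weakly differentiable on `Ω`, and `∇u · V = 0` a.e. -/
def InA {n : ℕ} (Ω : Set (E n)) (V : Fin n → E n → ℝ) (u : E n → ℝ) : Prop :=
  ContinuousOn u Ω ∧ ∃ w : Fin n → E n → ℝ, (∀ l, LocallyIntegrableOn (w l) Ω) ∧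
    (∀ l, IsWeakDeriv Ω l u (w l)) ∧ ∀ᵐ x ∂(volume.restrict Ω), ∑ l, V l x * w l x = 0


theorem sw_pd_cont {n : ℕ} {Ω : Set (E n)} (l : Fin n) {φ : E n → ℝ} (h : IsTest Ω φ) :
    Continuous (pd l φ) := by
  have h1 : Continuous (fderiv ℝ φ) := h.1.continuous_fderiv (by simp)
  exact h1.clm_apply continuous_const

theorem sw_pd_zero {n : ℕ} {Ω : Set (E n)} (l : Fin n) {φ : E n → ℝ} (_h : IsTest Ω φ) (x : E n)
    (hx : x ∉ tsupport φ) : pd l φ x = 0 := by
  have : fderiv ℝ φ x = 0 := by
    by_contra hne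
    exact hx (support_fderiv_subset ℝ hne)
  simp [pd, this]

/-- `u * g` is integrable if `u` is locally integrable on `Ω`, `g` continuous and supported in
`tsupport φ` -/
theorem sw_int {n : ℕ} {Ω : Set (E n)} {φ : E n → ℝ} (h : IsTest Ω φ)
    {u g : E n → ℝ} (hu : LocallyIntegrableOn u Ω) (hg : Continuous g)
    (hg0 : ∀ x, x ∉ tsupport φ → g x = 0) : Integrable (fun x => u x * g x) := by
  have hK : IsCompact (tsupport φ) := h.2.1
  have h1 : IntegrableOn u (tsupport φ) := hu.integrableOn_compact_subset h.2.2 hK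
  have h2 : IntegrableOn (fun x => u x * g x) (tsupport φ) :=
    h1.mul_continuousOn hg.continuousOn hK
  rw [← integrableOn_iff_integrable_of_support_subset (s := tsupport φ)]
  · exact h2
  · intro x hx
    by_contra hne
    apply hx
    show u x * g x = 0
    rw [hg0 x hne, mul_zero]

theorem sw_const {n : ℕ} {Ω : Set (E n)} (V : Fin n → E n → ℝ) (c : ℝ) :
    InA Ω V (fun _ => c) := by
  refine ⟨continuousOn_const, fun _ _ => 0, fun l => locallyIntegrableOn_zero, fun l φ hφ => ?_, ?_⟩
  · have hdiff : Differentiable ℝ φ := hφ.1.differentiable (by simp)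
    have hc : Integrable (fun x => (1 : ℝ) * φ x) := by
      simpa using hφ.1.continuous.integrable_of_hasCompactSupport hφ.2.1
    have hpdc : HasCompactSupport (pd l φ) := by
      refine HasCompactSupport.intro hφ.2.1 (fun x hx => sw_pd_zero l hφ x hx)
    have hpd : Integrable (fun x => (1 : ℝ) * fderiv ℝ φ x (EuclideanSpace.single l 1)) := by
      have := (sw_pd_cont l hφ).integrable_of_hasCompactSupport (μ := volume) hpdc
      simp only [one_mul]
      exact this
    have key := integral_mul_fderiv_eq_neg_fderiv_mul_of_integrable (μ := (volume : Measure (E n)))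
      (f := fun _ => (1 : ℝ)) (g := φ) (v := EuclideanSpace.single l 1) (by simp) hpd hc
      (fun x _ => differentiableAt_const _) (fun x _ => hdiff x)
    have h0 : ∫ x, pd l φ x = 0 := by
      simpa [pd] using key
    rw [integral_const_mul, h0]
    simp
  · exact Filter.Eventually.of_forall fun x => by simp

theorem sw_add {n : ℕ} {Ω : Set (E n)} (hΩ : IsOpen Ω) (V : Fin n → E n → ℝ) {u v : E n → ℝ}
    (hu : InA Ω V u) (hv : InA Ω V v) : InA Ω V (fun x => u x + v x) := by
  obtain ⟨cu, wu, lu, pu, au⟩ := hu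
  obtain ⟨cv, wv, lv, pv, av⟩ := hv
  refine ⟨cu.add cv, fun l x => wu l x + wv l x, fun l => (lu l).add (lv l),
    fun l φ hφ => ?_, ?_⟩
  · have lcu : LocallyIntegrableOn u Ω := cu.locallyIntegrableOn hΩ.measurableSet
    have lcv : LocallyIntegrableOn v Ω := cv.locallyIntegrableOn hΩ.measurableSet
    have i1 := sw_int hφ lcu (sw_pd_cont l hφ) (sw_pd_zero l hφ)
    have i2 := sw_int hφ lcv (sw_pd_cont l hφ) (sw_pd_zero l hφ)
    have hφ0 : ∀ x, x ∉ tsupport φ → φ x = 0 := fun x hx => image_eq_zero_of_notMem_tsupport hx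
    have i3 := sw_int hφ (lu l) hφ.1.continuous hφ0
    have i4 := sw_int hφ (lv l) hφ.1.continuous hφ0
    simp only [add_mul]
    rw [integral_add i1 i2, integral_add i3 i4, pu l φ hφ, pv l φ hφ]
    ring
  · filter_upwards [au, av] with x h1 h2
    simp only [mul_add, Finset.sum_add_distrib]
    rw [h1, h2, add_zero]

theorem sw_mul {n : ℕ} {Ω : Set (E n)} (hΩ : IsOpen Ω) (V : Fin n → E n → ℝ) {u v : E n → ℝ}
    (hu : InA Ω V u) (hv : InA Ω V v) : InA Ω V (fun x => u x * v x) := by
  obtain ⟨cu, wu, lu, pu, au⟩ := hu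
  obtain ⟨cv, wv, lv, pv, av⟩ := hv
  refine ⟨cu.mul cv, fun l x => u x * wv l x + v x * wu l x, fun l => ?_,
    fun l => weak_mul hΩ l cu cv (lu l) (lv l) (pu l) (pv l), ?_⟩
  · exact ((lv l).continuousOn_mul cu hΩ.isLocallyClosed).add
      ((lu l).continuousOn_mul cv hΩ.isLocallyClosed)
  · filter_upwards [au, av] with x h1 h2
    have : ∑ l, V l x * (u x * wv l x + v x * wu l x) =
        u x * (∑ l, V l x * wv l x) + v x * ∑ l, V l x * wu l x := by
      rw [Finset.mul_sum, Finset.mul_sum, ← Finset.sum_add_distrib]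
      exact Finset.sum_congr rfl fun l _ => by ring
    rw [this, h1, h2]
    simp

theorem dense_InA {n : ℕ} {Ω K : Set (E n)} (hΩ : IsOpen Ω) (V : Fin n → E n → ℝ)
    (f : E n → E n) (hinj : InjOn f Ω) (hf : ∀ i, InA Ω V (fun x => f x i))
    (hK : IsCompact K) (hKΩ : K ⊆ Ω) (φ : E n → ℝ) (hφ : Continuous φ) (δ : ℝ) (hδ : 0 < δ) :
    ∃ u, InA Ω V u ∧ ∀ x ∈ K, |u x - φ x| ≤ δ := by
  have : CompactSpace K := isCompact_iff_compactSpace.mp hK
  let A : Subalgebra ℝ C(K, ℝ) :=
    { carrier := {g | ∃ u, InA Ω V u ∧ ∀ x : K, g x = u x}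
      mul_mem' := by
        rintro g h ⟨u, hu, eu⟩ ⟨v, hv, ev⟩
        exact ⟨_, sw_mul hΩ V hu hv, fun x => by
          show g x * h x = u x * v x
          rw [eu, ev]⟩
      add_mem' := by
        rintro g h ⟨u, hu, eu⟩ ⟨v, hv, ev⟩
        exact ⟨_, sw_add hΩ V hu hv, fun x => by
          show g x + h x = u x + v x
          rw [eu, ev]⟩
      algebraMap_mem' := fun c => ⟨_, sw_const V c, fun x => rfl⟩ }
  have hsep : A.SeparatesPoints := by
    intro x y hxy
    have hne : f x ≠ f y := fun h => hxy (Subtype.ext (hinj (hKΩ x.2) (hKΩ y.2) h))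
    obtain ⟨i, hi⟩ : ∃ i, f x i ≠ f y i := by
      by_contra hcon
      push Not at hcon
      exact hne (by ext i; exact hcon i)
    have hc : Continuous (fun z : K => f z i) :=
      continuousOn_iff_continuous_domRestrict.1 ((hf i).1.mono hKΩ)
    refine ⟨fun z : K => f z i, ⟨⟨fun z : K => f z i, hc⟩, ?_, rfl⟩, hi⟩
    exact ⟨_, hf i, fun z => rfl⟩
  obtain ⟨g, hg⟩ := ContinuousMap.exists_mem_subalgebra_near_continuous_of_separatesPoints A hsep
    (fun x : K => φ x) (hφ.comp continuous_subtype_val) δ hδ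
  obtain ⟨u, hu, eu⟩ := g.2
  refine ⟨u, hu, fun x hx => ?_⟩
  have h1 := hg ⟨x, hx⟩
  have h2 := eu ⟨x, hx⟩
  have h3 : ((g : C(K, ℝ)) : K → ℝ) ⟨x, hx⟩ = u x := h2
  rw [← h3]
  exact h1.le



/-! ## the core theorem -/

theorem core {n : ℕ} {Ω : Set (E n)} (hΩ : IsOpen Ω) (f : E n → E n) (hf : ContinuousOn f Ω)
    (hinj : InjOn f Ω) (G : E n → Matrix (Fin n) (Fin n) ℝ)
    (hG : ∀ i j, LocallyIntegrableOn (fun x => G x i j) Ω)
    (hGw : ∀ i j, IsWeakDeriv Ω j (fun x => f x i) (fun x => G x i j))
    (hBV : ∀ κ, IsTest Ω κ → ∃ C, ∀ i j l, BVBound univ l (fun x => κ x * G x i j) C)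
    (Ψ : Fin n → (Fin n × Fin n → ℝ) → ℝ) (hΨ : ∀ l, ContDiff ℝ ∞ (Ψ l))
    (hΨc : ∀ l, HasCompactSupport (Ψ l))
    (hker : ∀ i, ∀ᵐ x ∂(volume.restrict Ω),
      ∑ l, Ψ l (fun p => G x p.1 p.2) * G x i l = 0) (m : Fin n) :
    ∀ᵐ x ∂(volume.restrict Ω), Ψ m (fun p => G x p.1 p.2) = 0 := by
  classical
  set gg : E n → Fin n × Fin n → ℝ := fun x p => G x p.1 p.2 with hgg
  set V : Fin n → E n → ℝ := fun l x => Ψ l (gg x) with hV
  have hggm : AEStronglyMeasurable gg (volume.restrict Ω) := by
    apply AEMeasurable.aestronglyMeasurable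
    exact aemeasurable_pi_lambda _ (fun p => (hG p.1 p.2).aestronglyMeasurable.aemeasurable)
  have hVm : ∀ l, AEStronglyMeasurable (V l) (volume.restrict Ω) := fun l =>
    (hΨ l).continuous.comp_aestronglyMeasurable hggm
  have hB : ∃ B, ∀ l z, |Ψ l z| ≤ B := by
    have : ∀ l, ∃ B, ∀ z, |Ψ l z| ≤ B := fun l => by
      obtain ⟨B, hB⟩ := (hΨc l).exists_bound_of_continuous (hΨ l).continuous
      exact ⟨B, fun z => by simpa using hB z⟩
    choose B hB using this
    refine ⟨∑ l, |B l|, fun l z => (hB l z).trans ((le_abs_self _).trans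
      (Finset.single_le_sum (f := fun l => |B l|) (fun _ _ => abs_nonneg _) (Finset.mem_univ l)))⟩
  obtain ⟨B, hB⟩ := hB
  have hVloc : ∀ l, LocallyIntegrableOn (V l) Ω := by
    intro l
    refine locallyIntegrableOn_of_locallyIntegrable_restrict ?_
    refine (locallyIntegrable_const B).mono (hVm l) ?_
    refine Filter.Eventually.of_forall (fun x => ?_)
    simp only [Real.norm_eq_abs]
    exact (hB l _).trans (le_abs_self _)
  have hfi : ∀ i, ContinuousOn (fun x => f x i) Ω := fun i =>
    (EuclideanSpace.proj (𝕜 := ℝ) i).continuous.comp_continuousOn hf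
  have hfA : ∀ i, InA Ω V (fun x => f x i) := fun i =>
    ⟨hfi i, fun l x => G x i l, fun l => hG i l, fun l => hGw i l, hker i⟩
  rw [ae_restrict_iff' hΩ.measurableSet]
  refine hΩ.ae_eq_zero_of_integral_contDiff_smul_eq_zero (hVloc m) ?_
  intro θ hθ hθc hθΩ
  have hθT : IsTest Ω θ := ⟨hθ, hθc, hθΩ⟩
  obtain ⟨κ, hκ, hκ1, hκb⟩ := exists_cutoff hΩ hθc hθΩ
  obtain ⟨C0, hC0⟩ := hBV κ hκ
  set g : E n → Fin n × Fin n → ℝ := fun x p => κ x * G x p.1 p.2 with hg
  have hgint : ∀ p, Integrable (fun x => g x p) := fun p =>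
    integrable_test_mul hκ.1.continuous hκ.2.1 hκ.2.2 (hG p.1 p.2)
  have hgm : AEStronglyMeasurable g volume := by
    apply AEMeasurable.aestronglyMeasurable
    exact aemeasurable_pi_lambda _ (fun p => (hgint p).aestronglyMeasurable.aemeasurable)
  have hch : ∀ l, ∃ C', BVBound univ l (fun x => Ψ l (g x)) C' := fun l =>
    chain_bound g hgint l C0 (fun p => hC0 p.1 p.2 l) (Ψ l) (hΨ l) (hΨc l)
  choose C' hC' using hch
  have hWm : ∀ l, AEStronglyMeasurable (fun x => Ψ l (g x)) volume := fun l =>
    (hΨ l).continuous.comp_aestronglyMeasurable hgm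
  obtain ⟨T, hT⟩ : ∃ T, ∀ x, |θ x| ≤ T := by
    obtain ⟨T, hT⟩ := hθc.exists_bound_of_continuous hθ.continuous
    exact ⟨T, fun z => by simpa using hT z⟩
  set D : ℝ := ∑ l, C' l * T + ∑ l, ∫ x, B * |pd l θ x| with hD
  have hpdθc : ∀ l, Continuous (pd l θ) := fun l => (pd_smooth l hθ).continuous
  have hpdθs : ∀ l, HasCompactSupport (pd l θ) := fun l => pd_hasCompactSupport l hθc
  have key : ∀ δ > 0, |∫ x, θ x * V m x| ≤ δ * D := by
    intro δ hδ
    obtain ⟨u, ⟨huc, w, hwl, hww, hwV⟩, huδ⟩ := dense_InA hΩ V f hinj hfA hθc hθΩ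
      (fun x => x m) (EuclideanSpace.proj (𝕜 := ℝ) m).continuous δ hδ
    set v : E n → ℝ := fun x => x m - u x with hv
    have hvc : ContinuousOn v Ω :=
      ((EuclideanSpace.proj (𝕜 := ℝ) m).continuous.continuousOn).sub huc
    have hpdx : ∀ l (x : E n), pd l (fun y : E n => y m) x = if l = m then 1 else 0 := by
      intro l x
      have : fderiv ℝ (fun y : E n => y m) x = (EuclideanSpace.proj (𝕜 := ℝ) m) :=
        (EuclideanSpace.proj (𝕜 := ℝ) m : E n →L[ℝ] ℝ).fderiv
      simp only [pd, this]
      simp [eq_comm]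
    have hxsm : ContDiff ℝ ∞ (fun y : E n => y m) :=
      (EuclideanSpace.proj (𝕜 := ℝ) m : E n →L[ℝ] ℝ).contDiff
    set wv : Fin n → E n → ℝ := fun l x => (if l = m then 1 else 0) - w l x with hwv
    have hwvl : ∀ l, LocallyIntegrableOn (wv l) Ω := fun l =>
      (locallyIntegrableOn_const _).sub (hwl l)
    have hvweak : ∀ l, IsWeakDeriv Ω l v (wv l) := by
      intro l χ hχ
      have h1 : ∫ x : E n, x m * pd l χ x = - ∫ x, (if l = m then 1 else 0) * χ x := by
        have := integral_pd_mul l (φ := fun y : E n => y m) (ψ := χ) (hxsm.of_le (by simp))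
          (hχ.1.of_le (by simp)) hχ.2.1
        rw [this]
        congr 1
        refine integral_congr_ae (Filter.Eventually.of_forall fun x => ?_)
        simp only [hpdx]; ring
      have h2 := hww l χ hχ
      have hi1 : Integrable (fun x : E n => x m * pd l χ x) := by
        refine Continuous.integrable_of_hasCompactSupport ?_ ?_
        · exact (EuclideanSpace.proj (𝕜 := ℝ) m).continuous.mul (pd_smooth l hχ.1).continuous
        · exact (pd_hasCompactSupport l hχ.2.1).mul_left
      have hi2 : Integrable (fun x : E n => u x * pd l χ x) := by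
        have := integrable_test_mul (pd_smooth l hχ.1).continuous (pd_hasCompactSupport l hχ.2.1)
          ((pd_support l χ).trans hχ.2.2) (huc.locallyIntegrableOn (μ := volume) hΩ.measurableSet)
        exact this.congr (Filter.Eventually.of_forall fun x => mul_comm _ _)
      have hi3 : Integrable (fun x : E n => (if l = m then (1:ℝ) else 0) * χ x) :=
        (hχ.1.continuous.integrable_of_hasCompactSupport hχ.2.1).const_mul _
      have hi4 : Integrable (fun x : E n => w l x * χ x) := by
        have := integrable_test_mul hχ.1.continuous hχ.2.1 hχ.2.2 (hwl l)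
        exact this.congr (Filter.Eventually.of_forall fun x => mul_comm _ _)
      have e1 : ∫ x, v x * pd l χ x = (∫ x : E n, x m * pd l χ x) - ∫ x, u x * pd l χ x := by
        rw [← integral_sub hi1 hi2]
        refine integral_congr_ae (Filter.Eventually.of_forall fun x => ?_)
        simp only [hv]; ring
      have e2 : ∫ x, wv l x * χ x = (∫ x : E n, (if l = m then (1:ℝ) else 0) * χ x) -
          ∫ x, w l x * χ x := by
        rw [← integral_sub hi3 hi4]
        refine integral_congr_ae (Filter.Eventually.of_forall fun x => ?_)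
        simp only [hwv]; ring
      rw [e1, e2, h1, h2]; ring
    have hvl : LocallyIntegrableOn v Ω := hvc.locallyIntegrableOn hΩ.measurableSet
    set w' : Fin n → E n → ℝ := fun l x => θ x * wv l x + v x * pd l θ x with hw'
    have hloc : ∀ l, IsWeakDeriv univ l (fun x => θ x * v x) (w' l) := fun l =>
      localize hΩ l hθT hvl (hwvl l) (hvweak l)
    have hi5 : ∀ l, Integrable (fun x => θ x * wv l x) := fun l =>
      integrable_test_mul hθ.continuous hθc hθΩ (hwvl l)
    have hi6 : ∀ l, Integrable (fun x => v x * pd l θ x) := fun l => by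
      have := integrable_test_mul (hpdθc l) (hpdθs l) ((pd_support l θ).trans hθΩ) hvl
      exact this.congr (Filter.Eventually.of_forall fun x => mul_comm _ _)
    have hw'i : ∀ l, Integrable (w' l) := fun l => (hi5 l).add (hi6 l)
    have hζc : Continuous (fun x => θ x * v x) := by
      rw [continuous_iff_continuousAt]
      intro x
      by_cases hx : x ∈ tsupport θ
      · exact hθ.continuous.continuousAt.mul (hvc.continuousAt (hΩ.mem_nhds (hθΩ hx)))
      · have : (fun x => θ x * v x) =ᶠ[𝓝 x] fun _ => (0:ℝ) := by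
          filter_upwards [(isClosed_tsupport θ).isOpen_compl.mem_nhds hx] with y hy
          have : θ y = 0 := image_eq_zero_of_notMem_tsupport hy
          simp [this]
        exact this.continuousAt
    have hζs : HasCompactSupport (fun x => θ x * v x) := hθc.mul_right
    have hT0 : 0 ≤ T := (abs_nonneg _).trans (hT 0)
    have hζb : ∀ x, |θ x * v x| ≤ δ * T := by
      intro x
      by_cases hx : x ∈ tsupport θ
      · rw [abs_mul, mul_comm]
        refine mul_le_mul ?_ (hT x) (abs_nonneg _) hδ.le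
        rw [hv]; simp only
        rw [abs_sub_comm]; exact huδ x hx
      · have : θ x = 0 := image_eq_zero_of_notMem_tsupport hx
        simp only [this, zero_mul, abs_zero]; positivity
    have hbd : ∀ l, |∫ x, Ψ l (g x) * w' l x| ≤ C' l * (δ * T) := fun l =>
      bound_extend l (fun x => Ψ l (g x)) (hWm l) B (fun x => hB l _) (C' l) (hC' l)
        _ hζc hζs (w' l) (hw'i l) (hloc l) _ hζb
    have heq : ∀ l x, Ψ l (g x) * w' l x = V l x * w' l x := by
      intro l x
      by_cases hx : x ∈ tsupport θ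
      · have h1 : κ x = 1 := hκ1.self_of_nhdsSet x hx
        simp only [hV, hg, hgg, h1, one_mul]
      · have h0 : θ x = 0 := image_eq_zero_of_notMem_tsupport hx
        have h1 : pd l θ x = 0 := image_eq_zero_of_notMem_tsupport (fun h => hx (pd_support l θ h))
        simp [hw', h0, h1]
    -- the pointwise identity
    have hid : ∀ᵐ x, θ x * V m x = (∑ l, V l x * w' l x) - ∑ l, v x * (V l x * pd l θ x) := by
      have h0 := (ae_restrict_iff' hΩ.measurableSet).1 hwV
      filter_upwards [h0] with x hx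
      by_cases hxΩ : x ∈ Ω
      · have hx' := hx hxΩ
        have : ∑ l, V l x * w' l x = θ x * (∑ l, V l x * (if l = m then 1 else 0)) -
            θ x * (∑ l, V l x * w l x) + ∑ l, v x * (V l x * pd l θ x) := by
          rw [Finset.mul_sum, Finset.mul_sum, ← Finset.sum_sub_distrib, ← Finset.sum_add_distrib]
          refine Finset.sum_congr rfl (fun l _ => ?_)
          simp only [hw', hwv]; ring
        rw [this, hx']
        simp
      · have h0 : θ x = 0 := image_eq_zero_of_notMem_tsupport (fun h => hxΩ (hθΩ h))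
        have h1 : ∀ l, pd l θ x = 0 := fun l =>
          image_eq_zero_of_notMem_tsupport (fun h => hxΩ (hθΩ (pd_support l θ h)))
        simp [hw', h0, h1]
    have hVw : ∀ l, Integrable (fun x => V l x * w' l x) := by
      intro l
      have : Integrable (fun x => Ψ l (g x) * w' l x) :=
        (hw'i l).bdd_mul (hWm l) (Filter.Eventually.of_forall fun x => by simpa using hB l (g x))
      exact this.congr (Filter.Eventually.of_forall fun x => heq l x)
    have heq2 : ∀ l x, v x * (Ψ l (g x) * pd l θ x) = v x * (V l x * pd l θ x) := by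
      intro l x
      by_cases hx : x ∈ tsupport θ
      · have h1 : κ x = 1 := hκ1.self_of_nhdsSet x hx
        simp only [hV, hg, hgg, h1, one_mul]
      · have h1 : pd l θ x = 0 := image_eq_zero_of_notMem_tsupport (fun h => hx (pd_support l θ h))
        simp [h1]
    have hVp : ∀ l, Integrable (fun x => v x * (V l x * pd l θ x)) := by
      intro l
      have : Integrable (fun x => Ψ l (g x) * (v x * pd l θ x)) :=
        (hi6 l).bdd_mul (hWm l) (Filter.Eventually.of_forall fun x => by simpa using hB l (g x))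
      refine this.congr (Filter.Eventually.of_forall fun x => ?_)
      simp only
      rw [← heq2 l x]; ring
    have hint : ∫ x, θ x * V m x = (∑ l, ∫ x, V l x * w' l x) -
        ∑ l, ∫ x, v x * (V l x * pd l θ x) := by
      rw [integral_congr_ae hid, integral_sub (integrable_finsetSum _ fun l _ => hVw l)
        (integrable_finsetSum _ fun l _ => hVp l), integral_finsetSum _ (fun l _ => hVw l),
        integral_finsetSum _ (fun l _ => hVp l)]
    have hb1 : |∑ l, ∫ x, V l x * w' l x| ≤ δ * ∑ l, C' l * T := by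
      refine (Finset.abs_sum_le_sum_abs _ _).trans ?_
      rw [Finset.mul_sum]
      refine Finset.sum_le_sum fun l _ => ?_
      have : ∫ x, V l x * w' l x = ∫ x, Ψ l (g x) * w' l x :=
        integral_congr_ae (Filter.Eventually.of_forall fun x => (heq l x).symm)
      rw [this]
      refine (hbd l).trans (le_of_eq (by ring))
    have hb2 : |∑ l, ∫ x, v x * (V l x * pd l θ x)| ≤ δ * ∑ l, ∫ x, B * |pd l θ x| := by
      refine (Finset.abs_sum_le_sum_abs _ _).trans ?_
      rw [Finset.mul_sum]
      refine Finset.sum_le_sum fun l _ => ?_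
      rw [← integral_const_mul]
      refine (abs_integral_le_integral_abs).trans ?_
      refine integral_mono (hVp l).abs ?_ ?_
      · exact (((hpdθc l).integrable_of_hasCompactSupport (hpdθs l)).abs.const_mul B).const_mul δ
      · intro x
        simp only
        by_cases hx : x ∈ tsupport θ
        · rw [abs_mul, abs_mul]
          have h1 : |v x| ≤ δ := by
            rw [hv]; simp only
            rw [abs_sub_comm]; exact huδ x hx
          have h2 : |V l x| ≤ B := hB l _
          have h3 : 0 ≤ B := (abs_nonneg _).trans h2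
          gcongr
        · have h1 : pd l θ x = 0 :=
            image_eq_zero_of_notMem_tsupport (fun h => hx (pd_support l θ h))
          simp [h1]
    rw [hint, hD, mul_add]
    exact (abs_sub _ _).trans (add_le_add hb1 hb2)
  have hD0 : 0 ≤ D := by
    have := key 1 one_pos
    have h2 := abs_nonneg (∫ x, θ x * V m x)
    linarith
  have hz : |∫ x, θ x * V m x| ≤ 0 := by
    refine le_of_forall_pos_le_add (fun ε hε => ?_)
    have := key (ε / (D + 1)) (by positivity)
    refine this.trans ?_
    rw [zero_add, div_mul_eq_mul_div, div_le_iff₀ (by positivity)]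
    nlinarith
  simpa using hz






lemma contDiff_minor_aux {n k : ℕ} (r c : Fin k → Fin n) :
    ContDiff ℝ ∞ (fun M : Fin n × Fin n → ℝ =>
      ((Matrix.of (fun a b => M (a, b))).submatrix r c).det) := by
  simp only [Matrix.det_apply']
  apply ContDiff.sum
  intro σ _
  apply ContDiff.mul contDiff_const
  apply contDiff_prod
  intro i _
  simp only [Matrix.submatrix_apply, Matrix.of_apply]
  exact contDiff_apply ℝ ℝ _

theorem minors_step {n : ℕ} {Ω : Set (E n)} (G : E n → Matrix (Fin n) (Fin n) ℝ)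
    (hcore : ∀ Ψ : Fin n → (Fin n × Fin n → ℝ) → ℝ, (∀ l, ContDiff ℝ ∞ (Ψ l)) →
      (∀ l, HasCompactSupport (Ψ l)) →
      (∀ i, ∀ᵐ x ∂(volume.restrict Ω), ∑ l, Ψ l (fun p => G x p.1 p.2) * G x i l = 0) →
      ∀ m, ∀ᵐ x ∂(volume.restrict Ω), Ψ m (fun p => G x p.1 p.2) = 0)
    (k : ℕ) (hk : k < n)
    (hmin : ∀ r c : Fin (k + 1) → Fin n, ∀ᵐ x ∂(volume.restrict Ω),
      ((G x).submatrix r c).det = 0) :
    ∀ r c : Fin k → Fin n, ∀ᵐ x ∂(volume.restrict Ω), ((G x).submatrix r c).det = 0 := by
  intro r c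
  obtain ⟨j, hj⟩ : ∃ j : Fin n, ∀ s, c s ≠ j := by
    by_contra hcon
    push Not at hcon
    have hs : Function.Surjective c := fun j => hcon j
    have := Fintype.card_le_of_surjective c hs
    simp at this
    omega
  set c' : Fin (k + 1) → Fin n := Fin.cons j c with hc'
  let χ : ℕ → ContDiffBump (0 : Fin n × Fin n → ℝ) := fun R =>
    { rIn := (R : ℝ) + 1
      rOut := (R : ℝ) + 2
      rIn_pos := by positivity
      rIn_lt_rOut := by linarith }
  let D : Fin (k + 1) → (Fin n × Fin n → ℝ) → ℝ := fun s M =>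
    ((Matrix.of (fun a b => M (a, b))).submatrix r (c' ∘ s.succAbove)).det
  let Ψ : ℕ → Fin n → (Fin n × Fin n → ℝ) → ℝ := fun R l M =>
    χ R M * ∑ s : Fin (k + 1), (if c' s = l then (-1 : ℝ) ^ (s : ℕ) * D s M else 0)
  have hsmooth : ∀ R l, ContDiff ℝ ∞ (Ψ R l) := by
    intro R l
    apply ContDiff.mul (χ R).contDiff
    apply ContDiff.sum
    intro s _
    by_cases h : c' s = l
    · simp only [h, if_true]
      exact contDiff_const.mul (contDiff_minor_aux _ _)
    · simp only [h, if_false]
      exact contDiff_const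
  have hsupp : ∀ R l, HasCompactSupport (Ψ R l) := by
    intro R l
    exact (χ R).hasCompactSupport.mul_right
  have hzero : ∀ R, ∀ i, ∀ᵐ x ∂(volume.restrict Ω),
      ∑ l, Ψ R l (fun p => G x p.1 p.2) * G x i l = 0 := by
    intro R i
    filter_upwards [hmin (Fin.cons i r) c'] with x hx
    rw [Matrix.det_succ_row_zero] at hx
    have e1 : ∑ l, Ψ R l (fun p => G x p.1 p.2) * G x i l
        = χ R (fun p => G x p.1 p.2) * ∑ s : Fin (k + 1),
          (-1 : ℝ) ^ (s : ℕ) * G x i (c' s) * D s (fun p => G x p.1 p.2) := by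
      simp only [Ψ, Finset.mul_sum, Finset.sum_mul]
      rw [Finset.sum_comm]
      apply Finset.sum_congr rfl
      intro s _
      rw [Finset.sum_eq_single (c' s)]
      · simp; ring
      · intro l _ hl
        simp [hl.symm]
      · intro h; exact absurd (Finset.mem_univ _) h
    rw [e1]
    have e2 : ∑ s : Fin (k + 1),
          (-1 : ℝ) ^ (s : ℕ) * G x i (c' s) * D s (fun p => G x p.1 p.2) = 0 := by
      rw [← hx]
      apply Finset.sum_congr rfl
      intro s _
      congr 1
    rw [e2, mul_zero]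
  have hall : ∀ᵐ x ∂(volume.restrict Ω), ∀ R : ℕ, Ψ R j (fun p => G x p.1 p.2) = 0 := by
    rw [ae_all_iff]
    intro R
    exact hcore (Ψ R) (hsmooth R) (hsupp R) (hzero R) j
  filter_upwards [hall] with x hx
  obtain ⟨R, hR⟩ := exists_nat_ge ‖(fun p : Fin n × Fin n => G x p.1 p.2)‖
  have h1 := hx R
  have hχ : χ R (fun p => G x p.1 p.2) = 1 := by
    apply (χ R).one_of_mem_closedBall
    rw [mem_closedBall, dist_zero_right]
    show _ ≤ (R : ℝ) + 1
    linarith
  simp only [Ψ, hχ, one_mul] at h1
  rw [Finset.sum_eq_single 0] at h1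
  · simp only [hc', D, Function.comp_def, Fin.cons_succ, Fin.cons_zero, Fin.succAbove_zero,
      if_true, Fin.val_zero, pow_zero, one_mul] at h1
    exact h1
  · intro s _ hs
    obtain ⟨t, rfl⟩ := Fin.exists_succ_eq.mpr hs
    have : c' t.succ ≠ j := by simpa [hc'] using hj t
    simp [this]
  · intro h; exact absurd (Finset.mem_univ _) h

theorem det_not_ae_zero {n : ℕ} {Ω : Set (E n)} (hΩ : IsOpen Ω) (hne : Ω.Nonempty)
    (G : E n → Matrix (Fin n) (Fin n) ℝ)
    (hcore : ∀ Ψ : Fin n → (Fin n × Fin n → ℝ) → ℝ, (∀ l, ContDiff ℝ ∞ (Ψ l)) →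
      (∀ l, HasCompactSupport (Ψ l)) →
      (∀ i, ∀ᵐ x ∂(volume.restrict Ω), ∑ l, Ψ l (fun p => G x p.1 p.2) * G x i l = 0) →
      ∀ m, ∀ᵐ x ∂(volume.restrict Ω), Ψ m (fun p => G x p.1 p.2) = 0) :
    ¬ ∀ᵐ x ∂(volume.restrict Ω), (G x).det = 0 := by
  intro h0
  have hstart : ∀ r c : Fin n → Fin n, ∀ᵐ x ∂(volume.restrict Ω),
      ((G x).submatrix r c).det = 0 := by
    intro r c
    filter_upwards [h0] with x hx
    have : (G x).submatrix r c
        = ((1 : Matrix (Fin n) (Fin n) ℝ).submatrix r id) * (G x) *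
          ((1 : Matrix (Fin n) (Fin n) ℝ).submatrix id c) := by
      ext a b
      simp [Matrix.mul_apply, Matrix.one_apply, Finset.sum_mul, Finset.mul_sum]
    rw [this, Matrix.det_mul, Matrix.det_mul, hx]
    simp
  have hdown : ∀ m, m ≤ n → ∀ r c : Fin (n - m) → Fin n, ∀ᵐ x ∂(volume.restrict Ω),
      ((G x).submatrix r c).det = 0 := by
    intro m
    induction m with
    | zero => intro _; simpa using hstart
    | succ m ih =>
      intro hm
      have hm' := ih (by omega)
      have e : n - m = (n - (m + 1)) + 1 := by omega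
      rw [e] at hm'
      exact minors_step G hcore (n - (m + 1)) (by omega) hm'
  have hfin := hdown n le_rfl
  have e : n - n = 0 := by omega
  rw [e] at hfin
  have h1 := hfin Fin.elim0 Fin.elim0
  simp only [Matrix.det_isEmpty, one_ne_zero] at h1
  have h2 : volume.restrict Ω = 0 := by
    have : (∀ᵐ x ∂(volume.restrict Ω), False) := h1
    rwa [Filter.eventually_false_iff_eq_bot, ae_eq_bot] at this
  rw [Measure.restrict_eq_zero] at h2
  exact (hΩ.measure_pos volume hne).ne' h2



/-- Key theorem. -/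
theorem main {n : ℕ} {Ω : Set (E n)} (hΩ : IsOpen Ω) (hne : Ω.Nonempty) (f : E n → E n)
    (hf : ContinuousOn f Ω)
    (hinj : InjOn f Ω) (G : E n → Matrix (Fin n) (Fin n) ℝ)
    (hG : ∀ i j, LocallyIntegrableOn (fun x => G x i j) Ω)
    (hGw : ∀ i j, IsWeakDeriv Ω j (fun x => f x i) (fun x => G x i j))
    (hBV : ∀ κ, IsTest Ω κ → ∃ C, ∀ i j l, BVBound univ l (fun x => κ x * G x i j) C) :
    0 < volume {x | x ∈ Ω ∧ (G x).det ≠ 0} := by
  by_contra hcon
  have h0 : volume {x | x ∈ Ω ∧ (G x).det ≠ 0} = 0 := by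
    simpa using hcon
  refine det_not_ae_zero hΩ hne G
    (fun Ψ h1 h2 h3 m => core hΩ f hf hinj G hG hGw hBV Ψ h1 h2 h3 m) ?_
  rw [ae_restrict_iff' hΩ.measurableSet, ae_iff]
  convert h0 using 2
  ext x
  simp

end Pool.Agent.Helper656.Sob
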